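import Mathlib

set_option autoImplicit false

/-!
# MP_2fa8c7_an: the weighted Wiener algebra

`WA t` is the Banach algebra of the power series `∑ a_n x^n` with `∑ |a_n| R^n < ∞`, `R = 1 + |t|`.
-/

namespace Serrin

/-- The weight `R = 1 + |t|`. -/
noncomputable def Rw (t : ℝ) : ℝ := 1 + |t|

lemma one_le_Rw (t : ℝ) : 1 ≤ Rw t := by
  unfold Rw; linarith [abs_nonneg t]

lemma Rw_pos (t : ℝ) : 0 < Rw t := lt_of_lt_of_le one_pos (one_le_Rw t)

lemma Rw_pow_pos (t : ℝ) (n : ℕ) : 0 < Rw t ^ n := pow_pos (Rw_pos t) n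

/-- multiplication preserves the summability, with the product bound. -/
lemma summable_mul {t : ℝ} {f g : PowerSeries ℝ}
    (hf : Summable fun n => |PowerSeries.coeff n f| * Rw t ^ n)
    (hg : Summable fun n => |PowerSeries.coeff n g| * Rw t ^ n) :
    (Summable fun n => |PowerSeries.coeff n (f * g)| * Rw t ^ n) ∧
      ∑' n, |PowerSeries.coeff n (f * g)| * Rw t ^ n ≤
        (∑' n, |PowerSeries.coeff n f| * Rw t ^ n) *
          ∑' n, |PowerSeries.coeff n g| * Rw t ^ n := by
  have hf' : Summable fun n => ‖|PowerSeries.coeff n f| * Rw t ^ n‖ := hf.norm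
  have hg' : Summable fun n => ‖|PowerSeries.coeff n g| * Rw t ^ n‖ := hg.norm
  have hS := summable_norm_sum_mul_antidiagonal_of_summable_norm hf' hg'
  have hT := tsum_mul_tsum_eq_tsum_sum_antidiagonal_of_summable_norm hf' hg'
  have hle : ∀ n, |PowerSeries.coeff n (f * g)| * Rw t ^ n ≤
      ∑ kl ∈ Finset.HasAntidiagonal.antidiagonal n, |PowerSeries.coeff kl.1 f| * Rw t ^ kl.1 *
        (|PowerSeries.coeff kl.2 g| * Rw t ^ kl.2) := by
    intro n
    rw [PowerSeries.coeff_mul]
    calc |∑ p ∈ Finset.HasAntidiagonal.antidiagonal n, PowerSeries.coeff p.1 f * PowerSeries.coeff p.2 g|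
          * Rw t ^ n
        ≤ (∑ p ∈ Finset.HasAntidiagonal.antidiagonal n, |PowerSeries.coeff p.1 f * PowerSeries.coeff p.2 g|)
          * Rw t ^ n :=
          mul_le_mul_of_nonneg_right (Finset.abs_sum_le_sum_abs _ _) (Rw_pow_pos t n).le
      _ = ∑ kl ∈ Finset.HasAntidiagonal.antidiagonal n, |PowerSeries.coeff kl.1 f| * Rw t ^ kl.1 *
          (|PowerSeries.coeff kl.2 g| * Rw t ^ kl.2) := by
          rw [Finset.sum_mul]
          refine Finset.sum_congr rfl fun p hp => ?_
          rw [← Finset.HasAntidiagonal.mem_antidiagonal.1 hp, abs_mul, pow_add]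
          ring
  have hS' : Summable fun n => ∑ kl ∈ Finset.HasAntidiagonal.antidiagonal n,
      |PowerSeries.coeff kl.1 f| * Rw t ^ kl.1 * (|PowerSeries.coeff kl.2 g| * Rw t ^ kl.2) :=
    hS.of_norm
  have hs1 : Summable fun n => |PowerSeries.coeff n (f * g)| * Rw t ^ n :=
    Summable.of_nonneg_of_le
      (fun n => mul_nonneg (abs_nonneg _) (Rw_pow_pos t n).le) hle hS'
  refine ⟨hs1, ?_⟩
  rw [hT]
  exact hs1.tsum_le_tsum hle hS'

/-- The power series with `∑ |a_n| R^n < ∞`. -/
noncomputable def WS (t : ℝ) : Subalgebra ℝ (PowerSeries ℝ) where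
  carrier := {f | Summable fun n => |PowerSeries.coeff n f| * Rw t ^ n}
  mul_mem' := fun hf hg => (summable_mul hf hg).1
  add_mem' := by
    intro f g hf hg
    refine Summable.of_nonneg_of_le
      (fun n => mul_nonneg (abs_nonneg _) (Rw_pow_pos t n).le) (fun n => ?_) (hf.add hg)
    rw [map_add, ← add_mul]
    exact mul_le_mul_of_nonneg_right (abs_add_le _ _) (Rw_pow_pos t n).le
  algebraMap_mem' := by
    intro r
    refine summable_of_ne_finset_zero (s := {0}) fun n hn => ?_
    have hn0 : n ≠ 0 := by simpa using hn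
    have : PowerSeries.coeff n ((algebraMap ℝ (PowerSeries ℝ)) r) = 0 := by
      rw [PowerSeries.algebraMap_apply, PowerSeries.coeff_C, if_neg hn0]
    rw [this, abs_zero, zero_mul]

/-- The weighted Wiener algebra. -/
def WA (t : ℝ) : Type := ↥(WS t)

variable {t : ℝ}

noncomputable instance : CommRing (WA t) := inferInstanceAs (CommRing ↥(WS t))
noncomputable instance : Algebra ℝ (WA t) := inferInstanceAs (Algebra ℝ ↥(WS t))

/-- The `n`-th coefficient. -/
noncomputable def WA.cf (n : ℕ) (f : WA t) : ℝ := PowerSeries.coeff n f.1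

/-- An element from its coefficients. -/
noncomputable def WA.mk (a : ℕ → ℝ) (h : Summable fun n => |a n| * Rw t ^ n) : WA t :=
  ⟨PowerSeries.mk a, by
    show Summable _
    simpa only [PowerSeries.coeff_mk] using h⟩

namespace WA

@[simp] lemma cf_mk (a : ℕ → ℝ) (h : Summable fun n => |a n| * Rw t ^ n) (n : ℕ) :
    cf n (WA.mk (t := t) a h) = a n := PowerSeries.coeff_mk _ _

lemma ext {f g : WA t} (h : ∀ n, cf n f = cf n g) : f = g :=
  Subtype.ext (PowerSeries.ext h)

@[simp] lemma cf_add (n : ℕ) (f g : WA t) : cf n (f + g) = cf n f + cf n g :=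
  map_add (PowerSeries.coeff n) f.1 g.1
@[simp] lemma cf_zero (n : ℕ) : cf n (0 : WA t) = 0 := map_zero (PowerSeries.coeff n)
@[simp] lemma cf_neg (n : ℕ) (f : WA t) : cf n (-f) = -cf n f :=
  map_neg (PowerSeries.coeff n) f.1
@[simp] lemma cf_sub (n : ℕ) (f g : WA t) : cf n (f - g) = cf n f - cf n g :=
  map_sub (PowerSeries.coeff n) f.1 g.1
@[simp] lemma cf_smul (n : ℕ) (c : ℝ) (f : WA t) : cf n (c • f) = c * cf n f :=
  map_smul (PowerSeries.coeff n) c f.1
lemma cf_one (n : ℕ) : cf n (1 : WA t) = if n = 0 then 1 else 0 := PowerSeries.coeff_one n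
lemma cf_mul (n : ℕ) (f g : WA t) :
    cf n (f * g) = ∑ p ∈ Finset.HasAntidiagonal.antidiagonal n, cf p.1 f * cf p.2 g :=
  PowerSeries.coeff_mul n f.1 g.1

lemma summable (f : WA t) : Summable fun n => |cf n f| * Rw t ^ n := f.2

/-- The norm. -/
noncomputable def nrm (t : ℝ) : AddGroupNorm (WA t) where
  toFun f := ∑' n, |cf n f| * Rw t ^ n
  map_zero' := by simp
  add_le' f g := by
    rw [← f.summable.tsum_add g.summable]
    refine (f + g).summable.tsum_le_tsum (fun n => ?_) (f.summable.add g.summable)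
    rw [cf_add, ← add_mul]
    exact mul_le_mul_of_nonneg_right (abs_add_le _ _) (Rw_pow_pos t n).le
  neg' f := by simp
  eq_zero_of_map_eq_zero' f h := by
    refine WA.ext fun n => ?_
    have hn := f.summable.hasSum
    rw [h] at hn
    have h0 := (hasSum_zero_iff_of_nonneg
      (fun n => mul_nonneg (abs_nonneg (cf n f)) (Rw_pow_pos t n).le)).1 hn
    have h1 := congrFun h0 n
    have h2 : |cf n f| * Rw t ^ n = 0 := h1
    rw [cf_zero]
    exact abs_eq_zero.1 ((mul_eq_zero.1 h2).resolve_right (Rw_pow_pos t n).ne')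

end WA

noncomputable instance : NormedAddCommGroup (WA t) := (WA.nrm t).toNormedAddCommGroup

lemma WA.norm_def (f : WA t) : ‖f‖ = ∑' n, |WA.cf n f| * Rw t ^ n := rfl

noncomputable instance : NormedCommRing (WA t) :=
  { (inferInstance : NormedAddCommGroup (WA t)), (inferInstance : CommRing (WA t)) with
    norm_mul_le := fun f g => (summable_mul f.2 g.2).2 }

noncomputable instance : NormedAlgebra ℝ (WA t) :=
  { (inferInstance : Algebra ℝ (WA t)) with
    norm_smul_le := fun c f => by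
      rw [WA.norm_def, WA.norm_def, ← tsum_mul_left]
      refine le_of_eq (tsum_congr fun n => ?_)
      rw [WA.cf_smul, abs_mul, Real.norm_eq_abs, mul_assoc] }

instance : NormOneClass (WA t) := ⟨by
  rw [WA.norm_def, tsum_eq_single 0 (fun n hn => by rw [WA.cf_one, if_neg hn]; simp)]
  simp [WA.cf_one]⟩

lemma WA.memℓp (f : WA t) : Memℓp (fun n => WA.cf n f * Rw t ^ n) 1 := by
  rw [memℓp_gen_iff (by simp)]
  simp only [ENNReal.toReal_one, Real.rpow_one, norm_mul, Real.norm_eq_abs,
    abs_of_pos (Rw_pow_pos t _)]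
  exact f.summable

/-- The isometry onto `ℓ¹`. -/
noncomputable def WA.toLp (t : ℝ) : WA t ≃ᵢ lp (fun _ : ℕ => ℝ) 1 where
  toFun f := ⟨fun n => WA.cf n f * Rw t ^ n, f.memℓp⟩
  invFun a := WA.mk (fun n => a.1 n / Rw t ^ n) (by
    have h := lp.memℓp a
    rw [memℓp_gen_iff (by simp)] at h
    simp only [ENNReal.toReal_one, Real.rpow_one] at h
    refine h.congr fun n => ?_
    rw [abs_div, abs_of_pos (Rw_pow_pos t n), div_mul_cancel₀ _ (Rw_pow_pos t n).ne']
    rfl)
  left_inv f := by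
    refine WA.ext fun n => ?_
    rw [WA.cf_mk]
    exact mul_div_cancel_right₀ _ (Rw_pow_pos t n).ne'
  right_inv a := by
    refine Subtype.ext (funext fun n => ?_)
    show WA.cf n (WA.mk _ _) * Rw t ^ n = a.1 n
    rw [WA.cf_mk, div_mul_cancel₀ _ (Rw_pow_pos t n).ne']
  isometry_toFun := by
    refine Isometry.of_dist_eq fun f g => ?_
    rw [dist_eq_norm, dist_eq_norm, WA.norm_def, lp.norm_eq_tsum_rpow (by simp)]
    simp only [ENNReal.toReal_one, Real.rpow_one, div_one]
    refine tsum_congr fun n => ?_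
    show ‖WA.cf n f * Rw t ^ n - WA.cf n g * Rw t ^ n‖ = _
    rw [← sub_mul, ← WA.cf_sub, norm_mul, Real.norm_eq_abs, Real.norm_eq_abs,
      abs_of_pos (Rw_pow_pos t n)]

instance : CompleteSpace (WA t) := (WA.toLp t).completeSpace

namespace WA

lemma cf_mul_le (n : ℕ) (f : WA t) : |cf n f| * Rw t ^ n ≤ ‖f‖ := by
  rw [norm_def]
  exact f.summable.le_tsum n (fun j _ => mul_nonneg (abs_nonneg _) (Rw_pow_pos t j).le)

lemma abs_cf_le (n : ℕ) (f : WA t) : |cf n f| ≤ ‖f‖ := by
  refine le_trans ?_ (cf_mul_le n f)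
  exact le_mul_of_one_le_right (abs_nonneg _) (one_le_pow₀ (one_le_Rw t))

/-- The variable. -/
noncomputable def X : WA t := ⟨PowerSeries.X, by
  refine summable_of_ne_finset_zero (s := {1}) fun n hn => ?_
  have hn0 : n ≠ 1 := by simpa using hn
  rw [PowerSeries.coeff_X, if_neg hn0, abs_zero, zero_mul]⟩

lemma cf_X (n : ℕ) : cf n (X : WA t) = if n = 1 then 1 else 0 := PowerSeries.coeff_X n

lemma norm_X : ‖(X : WA t)‖ = Rw t := by
  rw [norm_def, tsum_eq_single 1 (fun n hn => by rw [cf_X, if_neg hn]; simp)]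
  simp [cf_X]

lemma cf_X_mul_succ (n : ℕ) (f : WA t) : cf (n + 1) (X * f) = cf n f :=
  PowerSeries.coeff_succ_X_mul n f.1
lemma cf_X_mul_zero (f : WA t) : cf 0 (X * f) = 0 :=
  PowerSeries.coeff_zero_X_mul f.1

end WA

end Serrin
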