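import Mathlib

set_option autoImplicit false

/-!
# MP_2fa8c7_an: bounded Lipschitz maps

`BL B F a`: on `B` the map `F` is bounded by `b` and `c`-Lipschitz with `b + c ≤ a`.  The constants
multiply under products, so estimates of a map give its Lipschitz constant for free.
-/

namespace Serrin

open Filter Topology

/-- `F` is bounded by `b` and `c`-Lipschitz on `B`, with `b + c ≤ a`. -/
def BL {X Y : Type*} [PseudoMetricSpace X] [SeminormedAddCommGroup Y] (B : Set X) (F : X → Y)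
    (a : ℝ) : Prop :=
  ∃ b c : ℝ, 0 ≤ b ∧ 0 ≤ c ∧ b + c ≤ a ∧ (∀ x ∈ B, ‖F x‖ ≤ b) ∧
    ∀ x ∈ B, ∀ y ∈ B, ‖F x - F y‖ ≤ c * dist x y

section basic

variable {X Y Z : Type*} [PseudoMetricSpace X] [SeminormedAddCommGroup Y]
  [SeminormedAddCommGroup Z] {B : Set X} {F G : X → Y} {a a' : ℝ}

lemma BL.nonneg (h : BL B F a) : 0 ≤ a := by
  obtain ⟨b, c, hb, hc, hbc, -, -⟩ := h
  linarith

lemma BL.mono (h : BL B F a) (ha : a ≤ a') : BL B F a' := by
  obtain ⟨b, c, hb, hc, hbc, h1, h2⟩ := h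
  exact ⟨b, c, hb, hc, hbc.trans ha, h1, h2⟩

lemma BL.norm_le (h : BL B F a) {x : X} (hx : x ∈ B) : ‖F x‖ ≤ a := by
  obtain ⟨b, c, hb, hc, hbc, h1, -⟩ := h
  linarith [h1 x hx]

lemma BL.lip (h : BL B F a) {x y : X} (hx : x ∈ B) (hy : y ∈ B) :
    ‖F x - F y‖ ≤ a * dist x y := by
  obtain ⟨b, c, hb, hc, hbc, -, h2⟩ := h
  exact (h2 x hx y hy).trans (mul_le_mul_of_nonneg_right (by linarith) dist_nonneg)

lemma BL.congr (h : BL B F a) (hFG : ∀ x ∈ B, G x = F x) : BL B G a := by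
  obtain ⟨b, c, hb, hc, hbc, h1, h2⟩ := h
  refine ⟨b, c, hb, hc, hbc, fun x hx => ?_, fun x hx y hy => ?_⟩
  · rw [hFG x hx]; exact h1 x hx
  · rw [hFG x hx, hFG y hy]; exact h2 x hx y hy

lemma BL.const {y : Y} (h : ‖y‖ ≤ a) : BL B (fun _ : X => y) a :=
  ⟨a, 0, (norm_nonneg y).trans h, le_refl _, by simp, fun _ _ => h, fun _ _ _ _ => by simp⟩

lemma BL.add (hF : BL B F a) (hG : BL B G a') : BL B (fun x => F x + G x) (a + a') := by
  obtain ⟨b, c, hb, hc, hbc, h1, h2⟩ := hF
  obtain ⟨b', c', hb', hc', hbc', h1', h2'⟩ := hG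
  refine ⟨b + b', c + c', by positivity, by positivity, by linarith, fun x hx => ?_,
    fun x hx y hy => ?_⟩
  · exact (norm_add_le _ _).trans (add_le_add (h1 x hx) (h1' x hx))
  · rw [add_sub_add_comm, add_mul]
    exact (norm_add_le _ _).trans (add_le_add (h2 x hx y hy) (h2' x hx y hy))

lemma BL.neg (hF : BL B F a) : BL B (fun x => -F x) a := by
  obtain ⟨b, c, hb, hc, hbc, h1, h2⟩ := hF
  refine ⟨b, c, hb, hc, hbc, fun x hx => ?_, fun x hx y hy => ?_⟩
  · rw [norm_neg]; exact h1 x hx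
  · rw [neg_sub_neg, norm_sub_rev]; exact h2 x hx y hy

lemma BL.sub (hF : BL B F a) (hG : BL B G a') : BL B (fun x => F x - G x) (a + a') := by
  simp only [sub_eq_add_neg]
  exact hF.add hG.neg

/-- composition with an additive bounded map -/
lemma BL.map {L : Y → Z} {C : ℝ} (hF : BL B F a) (hC : 0 ≤ C) (hL : ∀ y, ‖L y‖ ≤ C * ‖y‖)
    (hs : ∀ y y', L (y - y') = L y - L y') : BL B (fun x => L (F x)) (C * a) := by
  obtain ⟨b, c, hb, hc, hbc, h1, h2⟩ := hF
  refine ⟨C * b, C * c, by positivity, by positivity, ?_, fun x hx => ?_, fun x hx y hy => ?_⟩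
  · rw [← mul_add]; exact mul_le_mul_of_nonneg_left hbc hC
  · exact (hL _).trans (mul_le_mul_of_nonneg_left (h1 x hx) hC)
  · rw [← hs, mul_assoc]
    exact (hL _).trans (mul_le_mul_of_nonneg_left (h2 x hx y hy) hC)

lemma BL.clm [NormedSpace ℝ Y] [NormedSpace ℝ Z] (L : Y →L[ℝ] Z) (hF : BL B F a) :
    BL B (fun x => L (F x)) (‖L‖ * a) :=
  hF.map (norm_nonneg _) L.le_opNorm (map_sub L)

/-- from separate bounds -/
lemma BL.of {b c : ℝ} (hb : 0 ≤ b) (hc : 0 ≤ c) (h1 : ∀ x ∈ B, ‖F x‖ ≤ b)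
    (h2 : ∀ x ∈ B, ∀ y ∈ B, ‖F x - F y‖ ≤ c * dist x y) : BL B F (b + c) :=
  ⟨b, c, hb, hc, le_refl _, h1, h2⟩

lemma BL.prodMk {G' : X → Z} (hF : BL B F a) (hG : BL B G' a') :
    BL B (fun x => (F x, G' x)) (a + a') := by
  obtain ⟨b, c, hb, hc, hbc, h1, h2⟩ := hF
  obtain ⟨b', c', hb', hc', hbc', h1', h2'⟩ := hG
  refine ⟨b + b', c + c', by positivity, by positivity, by linarith, fun x hx => ?_,
    fun x hx y hy => ?_⟩
  · rw [Prod.norm_def]
    refine max_le ?_ ?_
    · exact (h1 x hx).trans (by simpa using hb')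
    · exact (h1' x hx).trans (by simpa using hb)
  · rw [Prod.norm_def]
    refine max_le ?_ ?_
    · refine (h2 x hx y hy).trans (mul_le_mul_of_nonneg_right (by linarith) dist_nonneg)
    · refine (h2' x hx y hy).trans (mul_le_mul_of_nonneg_right (by linarith) dist_nonneg)

end basic

section mul

variable {X Y : Type*} [PseudoMetricSpace X] {B : Set X} {a a' : ℝ}

lemma BL.smul [SeminormedAddCommGroup Y] [NormedSpace ℝ Y] {F : X → ℝ} {G : X → Y}
    (hF : BL B F a) (hG : BL B G a') : BL B (fun x => F x • G x) (a * a') := by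
  obtain ⟨b, c, hb, hc, hbc, h1, h2⟩ := hF
  obtain ⟨b', c', hb', hc', hbc', h1', h2'⟩ := hG
  refine ⟨b * b', b * c' + c * b', by positivity, by positivity, ?_, fun x hx => ?_,
    fun x hx y hy => ?_⟩
  · calc b * b' + (b * c' + c * b') ≤ (b + c) * (b' + c') := by nlinarith [mul_nonneg hc hc']
      _ ≤ a * a' := mul_le_mul hbc hbc' (by positivity) (by linarith)
  · rw [norm_smul]
    exact mul_le_mul (h1 x hx) (h1' x hx) (norm_nonneg _) hb
  · have e : F x • G x - F y • G y = F x • (G x - G y) + (F x - F y) • G y := by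
      rw [smul_sub, sub_smul]; abel
    rw [e]
    refine (norm_add_le _ _).trans ?_
    rw [norm_smul, norm_smul]
    have i1 : ‖F x‖ * ‖G x - G y‖ ≤ b * (c' * dist x y) :=
      mul_le_mul (h1 x hx) (h2' x hx y hy) (norm_nonneg _) hb
    have i2 : ‖F x - F y‖ * ‖G y‖ ≤ (c * dist x y) * b' :=
      mul_le_mul (h2 x hx y hy) (h1' y hy) (norm_nonneg _) (by positivity)
    calc ‖F x‖ * ‖G x - G y‖ + ‖F x - F y‖ * ‖G y‖
        ≤ b * (c' * dist x y) + (c * dist x y) * b' := add_le_add i1 i2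
      _ = (b * c' + c * b') * dist x y := by ring

lemma BL.mul [SeminormedRing Y] {F G : X → Y}
    (hF : BL B F a) (hG : BL B G a') : BL B (fun x => F x * G x) (a * a') := by
  obtain ⟨b, c, hb, hc, hbc, h1, h2⟩ := hF
  obtain ⟨b', c', hb', hc', hbc', h1', h2'⟩ := hG
  refine ⟨b * b', b * c' + c * b', by positivity, by positivity, ?_, fun x hx => ?_,
    fun x hx y hy => ?_⟩
  · calc b * b' + (b * c' + c * b') ≤ (b + c) * (b' + c') := by nlinarith [mul_nonneg hc hc']
      _ ≤ a * a' := mul_le_mul hbc hbc' (by positivity) (by linarith)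
  · exact (norm_mul_le _ _).trans (mul_le_mul (h1 x hx) (h1' x hx) (norm_nonneg _) hb)
  · have e : F x * G x - F y * G y = F x * (G x - G y) + (F x - F y) * G y := by
      rw [mul_sub, sub_mul]; abel
    rw [e]
    refine (norm_add_le _ _).trans ?_
    have i1 : ‖F x * (G x - G y)‖ ≤ b * (c' * dist x y) :=
      (norm_mul_le _ _).trans (mul_le_mul (h1 x hx) (h2' x hx y hy) (norm_nonneg _) hb)
    have i2 : ‖(F x - F y) * G y‖ ≤ (c * dist x y) * b' :=
      (norm_mul_le _ _).trans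
        (mul_le_mul (h2 x hx y hy) (h1' y hy) (norm_nonneg _) (by positivity))
    calc ‖F x * (G x - G y)‖ + ‖(F x - F y) * G y‖
        ≤ b * (c' * dist x y) + (c * dist x y) * b' := add_le_add i1 i2
      _ = (b * c' + c * b') * dist x y := by ring

lemma BL.pow [NormedRing Y] [NormOneClass Y] {F : X → Y} (hF : BL B F a) (n : ℕ) :
    BL B (fun x => F x ^ n) (a ^ n) := by
  induction n with
  | zero =>
    simp only [pow_zero]
    exact BL.const (by rw [norm_one])
  | succ n ih =>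
    simp only [pow_succ]
    exact ih.mul hF

/-- the reciprocal of a real function -/
lemma BL.inv {F : X → ℝ} {m : ℝ} (hF : BL B F a) (hm : 0 < m) (hFm : ∀ x ∈ B, m ≤ |F x|) :
    BL B (fun x => (F x)⁻¹) (1 / m + a / m ^ 2) := by
  have hF' := hF
  obtain ⟨b, c, hb, hc, hbc, h1, h2⟩ := hF
  refine (BL.of (b := 1 / m) (c := c / m ^ 2) (by positivity) (by positivity) (fun x hx => ?_)
    (fun x hx y hy => ?_)).mono ?_
  · rw [norm_inv, Real.norm_eq_abs, one_div]
    exact inv_anti₀ hm (hFm x hx)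
  · have hx0 : F x ≠ 0 := by
      intro h; have := hFm x hx; rw [h, abs_zero] at this; linarith
    have hy0 : F y ≠ 0 := by
      intro h; have := hFm y hy; rw [h, abs_zero] at this; linarith
    rw [inv_sub_inv hx0 hy0, norm_div, norm_mul, norm_sub_rev, Real.norm_eq_abs (F x),
      Real.norm_eq_abs (F y), div_mul_eq_mul_div]
    refine div_le_div₀ (by positivity) (h2 x hx y hy) (by positivity) ?_
    rw [sq]
    exact mul_le_mul (hFm x hx) (hFm y hy) hm.le (abs_nonneg _)
  · have : c / m ^ 2 ≤ a / m ^ 2 := div_le_div_of_nonneg_right (by linarith) (by positivity)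
    linarith

end mul

section complete

variable {X Y : Type*} [PseudoMetricSpace X] {B : Set X} {a : ℝ}

/-- infinite sums -/
lemma BL.tsum [NormedAddCommGroup Y] [CompleteSpace Y] {F : ℕ → X → Y} {a : ℕ → ℝ}
    (hF : ∀ n, BL B (F n) (a n)) (ha : Summable a) :
    BL B (fun x => ∑' n, F n x) (∑' n, a n) := by
  choose b c hb hc hbc h1 h2 using hF
  have ha0 : ∀ n, 0 ≤ a n := fun n => by linarith [hb n, hc n, hbc n]
  have hbs : Summable b := Summable.of_nonneg_of_le hb (fun n => by linarith [hc n, hbc n]) ha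
  have hcs : Summable c := Summable.of_nonneg_of_le hc (fun n => by linarith [hb n, hbc n]) ha
  have hFs : ∀ x ∈ B, Summable fun n => F n x := fun x hx =>
    Summable.of_norm_bounded hbs (fun n => h1 n x hx)
  refine (BL.of (b := ∑' n, b n) (c := ∑' n, c n) (tsum_nonneg hb) (tsum_nonneg hc) (fun x hx => ?_)
    (fun x hx y hy => ?_)).mono ?_
  · exact tsum_of_norm_bounded hbs.hasSum (fun n => h1 n x hx)
  · rw [← (hFs x hx).tsum_sub (hFs y hy), ← tsum_mul_right]
    exact tsum_of_norm_bounded (hcs.mul_right _).hasSum (fun n => h2 n x hx y hy)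
  · rw [← hbs.tsum_add hcs]
    exact (hbs.add hcs).tsum_le_tsum (fun n => hbc n) ha

lemma BL.summable [NormedAddCommGroup Y] [CompleteSpace Y] {F : ℕ → X → Y} {a : ℕ → ℝ}
    (hF : ∀ n, BL B (F n) (a n)) (ha : Summable a) {x : X} (hx : x ∈ B) :
    Summable fun n => F n x :=
  Summable.of_norm_bounded ha (fun n => (hF n).norm_le hx)

/-- the inverse in a Banach algebra -/
lemma BL.inverse [NormedCommRing Y] [NormOneClass Y] [CompleteSpace Y] {F : X → Y}
    (hF : BL B (fun x => F x - 1) a) (ha : a ≤ 1 / 2) :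
    (∀ x ∈ B, IsUnit (F x)) ∧ BL B (fun x => Ring.inverse (F x) - 1) (2 * a) := by
  have ha0 := hF.nonneg
  have hlt : ∀ x ∈ B, ‖1 - F x‖ < 1 := fun x hx => by
    rw [norm_sub_rev]; exact (hF.norm_le hx).trans_lt (by linarith)
  have hunit : ∀ x ∈ B, IsUnit (F x) := fun x hx => by
    have := isUnit_one_sub_of_norm_lt_one (hlt x hx)
    rwa [sub_sub_cancel] at this
  refine ⟨hunit, ?_⟩
  have hinv : ∀ x ∈ B, Ring.inverse (F x) - 1 = ∑' n : ℕ, (1 - F x) ^ (n + 1) := by
    intro x hx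
    have h1 := NormedRing.inverse_one_sub (1 - F x) (hlt x hx)
    rw [sub_sub_cancel] at h1
    have h2 : Ring.inverse (F x) = ∑' n : ℕ, (1 - F x) ^ n := by
      rw [h1]
      rfl
    have hs : Summable fun n : ℕ => (1 - F x) ^ n :=
      summable_geometric_of_norm_lt_one (hlt x hx)
    rw [h2, hs.tsum_eq_zero_add, pow_zero, add_sub_cancel_left]
  have hG : BL B (fun x => 1 - F x) a := hF.neg.congr fun x _ => by simp
  have hpow : ∀ n : ℕ, BL B (fun x => (1 - F x) ^ (n + 1)) (a ^ (n + 1)) := fun n => hG.pow _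
  have hsum : Summable fun n : ℕ => a ^ (n + 1) := by
    simp only [pow_succ]
    exact (summable_geometric_of_lt_one ha0 (by linarith)).mul_right a
  refine ((BL.tsum hpow hsum).congr hinv).mono ?_
  simp only [pow_succ]
  rw [tsum_mul_right, tsum_geometric_of_lt_one ha0 (by linarith)]
  have h3 : (1 - a)⁻¹ ≤ 2 := by
    rw [inv_le_comm₀ (by linarith) (by norm_num)]
    linarith
  exact mul_le_mul_of_nonneg_right h3 ha0

/-- Banach's fixed point theorem -/
theorem BL.fixedPoint {E : Type*} [NormedAddCommGroup E] [CompleteSpace E] {T : E → E} {x₀ : E}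
    {r κ : ℝ} (hr : 0 ≤ r) (hκr : κ ≤ r) (hκ : κ < 1)
    (hT : BL (Metric.closedBall x₀ r) (fun x => T x - x₀) κ) :
    ∃ x ∈ Metric.closedBall x₀ r, T x = x := by
  have hmaps : Set.MapsTo T (Metric.closedBall x₀ r) (Metric.closedBall x₀ r) := by
    intro x hx
    rw [mem_closedBall_iff_norm]
    exact (hT.norm_le hx).trans hκr
  have hκ0 := hT.nonneg
  have hlip : LipschitzWith ⟨κ, hκ0⟩ (hmaps.restrict T _ _) := by
    refine LipschitzWith.of_dist_le_mul fun x y => ?_
    have h := hT.lip x.2 y.2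
    rw [sub_sub_sub_cancel_right] at h
    rw [Subtype.dist_eq, dist_eq_norm]
    exact h
  have hcontr : ContractingWith ⟨κ, hκ0⟩ (hmaps.restrict T _ _) :=
    ⟨by rw [← NNReal.coe_lt_coe]; exact hκ, hlip⟩
  obtain ⟨y, hy, hfix, -⟩ := hcontr.exists_fixedPoint'
    (Metric.isClosed_closedBall.isComplete) hmaps (x := x₀) (Metric.mem_closedBall_self hr)
    (edist_ne_top _ _)
  exact ⟨y, hy, hfix⟩

end complete

end Serrin
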