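import Pool.Agent.Lib.MP_2fa8c7_an.CoreA2

set_option autoImplicit false

/-!
# MP_2fa8c7_an: the equations at the fixed point
-/

namespace Serrin

open Finset WA

namespace Par

variable (P : Par) {x : ℝ × P.A × P.A}

/-- the negative part of the identity -/
theorem rr_eq_neg (hx : x ∈ P.Bx) (h : P.TT x = x) : P.rr x =
    (1 / 2 : ℝ) • (P.Tz (P.HH x) (P.GG x)
      - algebraMap ℝ P.A (cf 0 (P.Tz (P.HH x) (P.GG x))))
      + P.cc x • (X * P.HH x) := by
  have h0 := P.cf_zero_eta hx h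
  have h1 := P.cf_one_eta hx h
  have hc : ∀ (n : ℕ) (c : ℝ), cf (n + 1) (algebraMap ℝ P.A c) = 0 := by
    intro n c
    rw [Algebra.algebraMap_eq_smul_one, cf_smul, cf_one, if_neg (by omega), mul_zero]
  have hH : ∀ n, cf n (P.HH x) = (if n = 0 then 1 else 0) + cf n (P.eta x) := by
    intro n
    unfold HH
    rw [cf_add, cf_one]
  have key : ∀ m, cf (m + 1) ((1 / 2 : ℝ) • (P.Tz (P.HH x) (P.GG x)
      - algebraMap ℝ P.A (cf 0 (P.Tz (P.HH x) (P.GG x))))
      + P.cc x • (X * P.HH x)) = (if m = 0 then 1 / 2 else 0) + cf m (P.eta x) / ((m : ℝ) + 1)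
        + cf (m + 1) (P.QQ x) + P.cc x * cf m (P.HH x) := by
    intro m
    rw [cf_add, cf_smul, cf_sub, hc, sub_zero, cf_smul, cf_X_mul_succ, P.cf_Tz_HH_GG hx h]
  refine WA.ext fun n => ?_
  rcases n with _ | _ | _ | m
  · rw [P.cf_zero_rr hx, cf_add, cf_smul, cf_sub, cf_smul, cf_X_mul_zero,
      Algebra.algebraMap_eq_smul_one, cf_smul, cf_one, if_pos rfl]
    ring
  · rw [show (0 + 1 : ℕ) = 0 + 1 from rfl, key 0, hH, if_pos rfl, if_pos rfl, h0]
    unfold cc ga
    simp only [zero_add]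
    ring
  · rw [show (0 + 1 + 1 : ℕ) = 1 + 1 from rfl, key 1, hH, h1, if_neg one_ne_zero,
      if_neg one_ne_zero, P.cf_two_rr_eq hx h]
    ring
  · rw [show m + 1 + 1 + 1 = (m + 2) + 1 from rfl, key (m + 2), hH, if_neg (by omega),
      if_neg (by omega)]
    have h3 := P.cf_rr_eq hx h m
    rw [show m + 2 + 1 = m + 3 from rfl, h3]
    push_cast
    ring

end Par

end Serrin
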