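import Pool.Agent.Lib.MP_2fa8c7_an.EstG

set_option autoImplicit false

/-!
# MP_2fa8c7_an: the equations at the fixed point
-/

namespace Serrin

open Finset WA

namespace Par

variable (P : Par) {x : ℝ × P.A × P.A}

/-- `c = -1/2 + γ` -/
noncomputable def cc (x : P.E) : ℝ := -(1 / 2) + P.ga x

theorem eta_eq (hx : x ∈ P.Bx) (h : P.TT x = x) :
    P.eta x = P.L (P.rr x - P.QQ x - P.ga x • (X * P.eta x)) := by
  have h2 : P.tN x = x.2.1 := congrArg (fun y : P.E => y.2.1) h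
  unfold tN at h2
  have hτ : P.τ ^ 7 ≠ 0 := pow_ne_zero _ P.hτ.ne'
  have h3 := congrArg (fun y => P.τ ^ 7 • y) h2
  simp only [smul_smul, mul_inv_cancel₀ hτ, one_smul] at h3
  have h4 : P.be x • P.L (P.K ^ 2) = x.1 • P.Y := P.L_K_sq x.1
  have e : P.rr x - P.be x • P.K ^ 2 - P.QQ x - P.ga x • (X * P.eta x)
      = (P.rr x - P.QQ x - P.ga x • (X * P.eta x)) - P.be x • P.K ^ 2 := by abel
  rw [e, map_sub, map_smul, h4] at h3
  have h5 : P.eta x = x.1 • P.Y + P.τ ^ 7 • x.2.1 := rfl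
  refine h5.trans ?_
  rw [← h3]
  abel

theorem cf_zero_eta (hx : x ∈ P.Bx) (h : P.TT x = x) : cf 0 (P.eta x) = 0 := by
  rw [P.eta_eq hx h, cf_L, if_neg (by omega)]

theorem cf_one_eta (hx : x ∈ P.Bx) (h : P.TT x = x) : cf 1 (P.eta x) = 0 := by
  rw [P.eta_eq hx h, cf_L, if_neg (by omega)]

theorem cf_two_rr_eq (hx : x ∈ P.Bx) (h : P.TT x = x) : cf 2 (P.rr x) = cf 2 (P.QQ x) := by
  have h1 : P.sN x = x.1 := congrArg (fun y : P.E => y.1) h
  unfold sN at h1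
  have hb : (P.be x)⁻¹ ≠ 0 := inv_ne_zero (P.be_neg hx).ne
  have h2 : (cf 2 (P.rr x) - 1 / 2 * cf 2 (P.Tz (P.eta x) (P.II x))) * (P.be x)⁻¹ = 0 := by
    linarith
  have h3 := (mul_eq_zero.1 h2).resolve_right hb
  have h4 : cf 2 (P.I (P.eta x ^ 2)) = 0 := by
    rw [cf_I_succ, sq, cf_mul]
    have : Finset.HasAntidiagonal.antidiagonal 1 = {((0 : ℕ), (1 : ℕ)), (1, 0)} := rfl
    rw [this, Finset.sum_pair (by decide)]
    simp only [P.cf_zero_eta hx h, P.cf_one_eta hx h]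
    simp
  unfold QQ
  rw [cf_smul, cf_add, h4]
  linarith

theorem cf_rr_eq (hx : x ∈ P.Bx) (h : P.TT x = x) (m : ℕ) : cf (m + 3) (P.rr x) =
    cf (m + 3) (P.QQ x) + (1 / ((m : ℝ) + 3) + P.cc x) * cf (m + 2) (P.eta x) := by
  have h1 := congrArg (cf (m + 2)) (P.eta_eq hx h)
  rw [cf_L, if_pos (by omega), cf_sub, cf_sub, cf_smul,
    show m + 2 + 1 = (m + 2) + 1 from rfl, cf_X_mul_succ] at h1
  push_cast at h1
  have hm1 : (m : ℝ) + 1 ≠ 0 := by positivity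
  have hm3 : (m : ℝ) + 3 ≠ 0 := by positivity
  have e1 : (m : ℝ) + 2 - 1 = m + 1 := by ring
  have e2 : (m : ℝ) + 2 + 1 = m + 3 := by ring
  rw [e1, e2] at h1
  unfold cc
  have h2 : ((m : ℝ) + 1) * cf (m + 2) (P.eta x) = -(2 * ((m : ℝ) + 3)) *
      (cf (m + 3) (P.rr x) - cf (m + 3) (P.QQ x) - P.ga x * cf (m + 2) (P.eta x)) := by
    conv_lhs => rw [h1]
    have e3 : m + 2 + 1 = m + 3 := rfl
    rw [e3]
    field_simp
  field_simp
  linarith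

theorem HH_mul_Ph (hx : x ∈ P.Bx) (h : P.TT x = x) :
    P.HH x * P.Ph x = (1 / 2 : ℝ) • P.Tz (P.GG x) (P.HH x) - P.pp x := by
  have h2 : P.pN x = x.2.2 := congrArg (fun y : P.E => y.2.2) h
  unfold pN at h2
  have hτ : P.τ ^ 3 ≠ 0 := pow_ne_zero _ P.hτ.ne'
  have h3 := congrArg (fun y => P.τ ^ 3 • y) h2
  simp only [smul_smul, mul_inv_cancel₀ hτ, one_smul] at h3
  have h4 : P.Ph x = P.Hi x * ((1 / 2 : ℝ) • P.Tz (P.GG x) (P.HH x) - P.pp x) := by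
    unfold Ph
    rw [← h3, map_neg]
    abel
  have hu : P.HH x * P.Hi x = 1 := Ring.mul_inverse_cancel _ (P.BL_Hi.1 x hx)
  rw [h4, ← mul_assoc, hu, one_mul]

end Par

end Serrin
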