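import Pool.Agent.Lib.MP_2fa8c7_an.CoreA1

set_option autoImplicit false

/-!
# MP_2fa8c7_an: the equations at the fixed point
-/

namespace Serrin

open Finset WA

namespace Par

variable (P : Par) {x : ℝ × P.A × P.A}

theorem GG_eq (x : P.E) :
    P.GG x = P.I (P.HH x ^ 2) - algebraMap ℝ P.A (P.evq (P.I (P.HH x ^ 2))) := by
  unfold GG MM
  exact P.Xq_mul_N _

private lemma CoreA2_cf_algebraMap (c : ℝ) (n : ℕ) :
    cf (n + 1) (algebraMap ℝ P.A c) = 0 := by
  rw [Algebra.algebraMap_eq_smul_one, cf_smul, cf_one, if_neg (by omega), mul_zero]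

private lemma CoreA2_HH_sq (x : P.E) : P.HH x ^ 2 = 1 + (2 * P.eta x + P.eta x ^ 2) := by
  unfold HH
  ring

private lemma CoreA2_I_HH_sq (x : P.E) : P.I (P.HH x ^ 2) = P.I 1 + P.II x := by
  rw [CoreA2_HH_sq, map_add]
  rfl

private lemma CoreA2_cf_I_one (n : ℕ) : cf (n + 1) (P.I 1) = if n = 0 then 1 else 0 := by
  rw [cf_I_succ, cf_one]
  by_cases hn : n = 0
  · subst hn; simp
  · rw [if_neg hn, zero_div]

/-- the quadratic part in terms of `G` and `H` -/
theorem cf_Tz_HH_GG (hx : x ∈ P.Bx) (h : P.TT x = x) (m : ℕ) :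
    1 / 2 * cf (m + 1) (P.Tz (P.HH x) (P.GG x)) =
      (if m = 0 then 1 / 2 else 0) + cf m (P.eta x) / ((m : ℝ) + 1) + cf (m + 1) (P.QQ x) := by
  have h0 := P.cf_zero_eta hx h
  have e1 : P.Tz (P.HH x) (P.GG x) = P.Tz 1 (P.GG x) + P.Tz (P.eta x) (P.GG x) := by
    unfold HH
    exact P.Tz_add_left _ _ _
  have e2 : cf (m + 1) (P.Tz 1 (P.GG x)) = cf (m + 1) (P.GG x) := by
    rw [cf_Tz, tsum_eq_single 0 (fun k hk => by rw [cf_one, if_neg hk, zero_mul])]
    rw [cf_one, if_pos rfl, one_mul, zero_add]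
  have e3 : cf (m + 1) (P.GG x) = (if m = 0 then 1 else 0) + cf (m + 1) (P.II x) := by
    rw [GG_eq, cf_sub, CoreA2_cf_algebraMap, CoreA2_I_HH_sq, cf_add, CoreA2_cf_I_one, sub_zero]
  have e4 : cf (m + 1) (P.II x) = (2 * cf m (P.eta x) + cf m (P.eta x ^ 2)) / ((m : ℝ) + 1) := by
    unfold II
    rw [cf_I_succ, cf_add]
    congr 2
    have : (2 : P.A) * P.eta x = P.eta x + P.eta x := two_mul _
    rw [this, cf_add]
    ring
  have e5 : cf (m + 1) (P.Tz (P.eta x) (P.GG x)) = cf (m + 1) (P.Tz (P.eta x) (P.II x)) := by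
    rw [GG_eq, CoreA2_I_HH_sq, map_sub, map_add, cf_sub, cf_add]
    have z1 : cf (m + 1) (P.Tz (P.eta x) (P.I 1)) = 0 := by
      rw [cf_Tz]
      have : ∀ k, cf k (P.eta x) * cf (k + (m + 1)) (P.I 1) = 0 := by
        intro k
        rw [← add_assoc, CoreA2_cf_I_one]
        by_cases hk : k = 0
        · rw [hk, h0, zero_mul]
        · rw [if_neg (by omega), mul_zero]
      rw [tsum_congr this, tsum_zero]
    have z2 : ∀ c : ℝ, cf (m + 1) (P.Tz (P.eta x) (algebraMap ℝ P.A c)) = 0 := by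
      intro c
      rw [cf_Tz]
      have : ∀ k, cf k (P.eta x) * cf (k + (m + 1)) (algebraMap ℝ P.A c) = 0 := by
        intro k
        rw [← add_assoc, CoreA2_cf_algebraMap, mul_zero]
      rw [tsum_congr this, tsum_zero]
    rw [z1, z2]
    ring
  have e6 : cf (m + 1) (P.QQ x) = 1 / 2 * (cf m (P.eta x ^ 2) / ((m : ℝ) + 1)
      + cf (m + 1) (P.Tz (P.eta x) (P.II x))) := by
    unfold QQ
    rw [cf_smul, cf_add, cf_I_succ]
  rw [e1, cf_add, e2, e3, e4, e5, e6]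
  by_cases hm : m = 0
  · rw [if_pos hm, if_pos hm]
    ring
  · rw [if_neg hm, if_neg hm]
    ring

end Par

end Serrin
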