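import Pool.Agent.Lib.MP_2fa8c7_an.CoreA

set_option autoImplicit false

/-!
# MP_2fa8c7_an: the identity on the unit circle
-/

namespace Serrin

open Finset WA

namespace Par

variable (P : Par) {x : ℝ × P.A × P.A}

lemma ne_q {z : ℂ} (hz : ‖z‖ = 1) : z - P.q ≠ 0 := by
  intro h
  have h1 : z = (P.q : ℂ) := sub_eq_zero.1 h
  rw [h1, Complex.norm_real, Real.norm_eq_abs, abs_of_pos P.q_pos] at hz
  linarith [P.q_lt_one]

lemma ev_MM_mul_Mi (hx : x ∈ P.Bx) {z : ℂ} (hz : ‖z‖ ≤ Rw P.t) :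
    ev z (P.MM x) * ev z (P.Mi x) = 1 := by
  have h1 : P.MM x * P.Mi x = 1 := Ring.mul_inverse_cancel _ (P.BL_Mi.1 x hx)
  rw [← ev_mul hz, h1, ev_one]

lemma ev_GG (x : P.E) {z : ℂ} (hz : ‖z‖ ≤ Rw P.t) :
    ev z (P.GG x) = (z - P.q) * ev z (P.MM x) := by
  unfold GG Xq
  rw [ev_mul hz, ev_sub hz, ev_X, ev_algebraMap]

private lemma CoreB_ev_pow {z : ℂ} (hz : ‖z‖ ≤ Rw P.t) (f : P.A) (n : ℕ) :
    ev z (f ^ n) = ev z f ^ n := by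
  induction n with
  | zero => rw [pow_zero, pow_zero, ev_one]
  | succ n ih => rw [pow_succ, pow_succ, ev_mul hz, ih]

/-- the sum of the negative and the positive part -/
theorem ev_rr_add_pp (hx : x ∈ P.Bx) {z : ℂ} (hz : ‖z‖ = 1) :
    ev z⁻¹ (P.rr x) + ev z (P.pp x) =
      P.μ * P.ee x * (ev z (P.GG x))⁻¹ ^ 2 * ev z (P.HH x) *
        ∑' n, (P.ph n x : ℂ) * (P.ee x * (ev z (P.GG x))⁻¹) ^ n := by
  have hz1 : ‖z‖ ≤ Rw P.t := by rw [hz]; exact one_le_Rw _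
  have hz2 : ‖z⁻¹‖ ≤ Rw P.t := by rw [norm_inv, hz, inv_one]; exact one_le_Rw _
  have hm := P.ev_MM_mul_Mi hx hz1
  have hG := P.ev_GG x hz1
  have hq := P.ne_q hz
  have hMi : (z - P.q)⁻¹ * ev z (P.Mi x) = (ev z (P.GG x))⁻¹ := by
    rw [hG, mul_inv, eq_inv_of_mul_eq_one_right hm]
  have hs1 := P.summable_neg hx
  have hs2 := P.summable_pos hx
  unfold rr pp
  rw [ev_smul, ev_smul, ev_tsum hz2 hs1, ev_tsum hz1 hs2, ← mul_add,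
    ← (summable_ev_of hz2 hs1).tsum_add (summable_ev_of hz1 hs2), ← tsum_mul_left,
    ← tsum_mul_left]
  refine tsum_congr fun n => ?_
  have e1 := P.ev_neg_eq (n + 2) (P.FF n x) hz
  have e2 : ev z (P.FF n x) = ev z (P.HH x) * ev z (P.Mi x) ^ (n + 2) := by
    unfold FF
    rw [ev_mul hz1, CoreB_ev_pow P hz1]
  have e3 := congrArg (fun y : ℝ => (y : ℂ)) (P.mu_ee_ph hx n)
  push_cast at e3
  rw [ev_smul, ev_smul, ← mul_add, ← e1, e2]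
  have e4 : (z - P.q)⁻¹ ^ (n + 2) * (ev z (P.HH x) * ev z (P.Mi x) ^ (n + 2))
      = ev z (P.HH x) * (ev z (P.GG x))⁻¹ ^ (n + 2) := by
    rw [← hMi, mul_pow]
    ring
  rw [e4, ← mul_assoc, ← e3, mul_pow, pow_add]
  ring

theorem circle_identity (hx : x ∈ P.Bx) (h : P.TT x = x) {z : ℂ} (hz : ‖z‖ = 1) :
    1 / 2 * ev z⁻¹ (P.GG x) * ev z (P.HH x) + P.cc x * z⁻¹ * ev z⁻¹ (P.HH x) =
      ev z (P.HH x) * (ev z (P.Ph x) + P.μ * P.ee x * (ev z (P.GG x))⁻¹ ^ 2 *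
        ∑' n, (P.ph n x : ℂ) * (P.ee x * (ev z (P.GG x))⁻¹) ^ n) := by
  have hz1 : ‖z‖ ≤ Rw P.t := by rw [hz]; exact one_le_Rw _
  have hz2 : ‖z⁻¹‖ ≤ Rw P.t := by rw [norm_inv, hz, inv_one]; exact one_le_Rw _
  have h1 := P.ev_rr_add_pp hx hz
  have h2 := P.ev_Tz (P.GG x) (P.HH x) hz
  have h3 := congrArg (ev z) (P.HH_mul_Ph hx h)
  rw [ev_mul hz1, ev_sub hz1, ev_smul] at h3
  have h4 := congrArg (ev z⁻¹) (P.rr_eq_neg hx h)
  rw [ev_add hz2, ev_smul, ev_sub hz2, ev_algebraMap, ev_smul, ev_mul hz2, ev_X] at h4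
  rw [P.cf_zero_Tz_comm (P.HH x) (P.GG x)] at h4
  push_cast at h3 h4
  linear_combination (1 / 2) * h2 - h4 - h3 + h1

end Par

end Serrin
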