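import Pool.Agent.Lib.MP_2fa8c7_an.EstB

set_option autoImplicit false

/-!
# MP_2fa8c7_an: the power series of `φ` at `0`
-/

namespace Serrin

open Finset WA

namespace Par

variable (P : Par) {x : ℝ × P.A × P.A}

theorem AA_rec (hx : x ∈ P.Bx) (n : ℕ) :
    P.AA n x = algebraMap ℝ P.A (P.ph n x) + P.GG x * P.AA (n + 1) x := by
  have h1 : P.MM x * P.Mi x = 1 := Ring.mul_inverse_cancel _ (P.BL_Mi.1 x hx)
  have h2 : P.GG x * P.AA (n + 1) x = P.Xq * P.Q (P.AA n x) := by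
    show (P.Xq * P.MM x) * (P.Mi x * P.Q (P.AA n x)) = _
    calc (P.Xq * P.MM x) * (P.Mi x * P.Q (P.AA n x))
        = P.Xq * (P.MM x * P.Mi x) * P.Q (P.AA n x) := by ring
      _ = P.Xq * P.Q (P.AA n x) := by rw [h1, mul_one]
  rw [h2]
  exact P.Q_spec (P.AA n x)

theorem norm_AA_le (hx : x ∈ P.Bx) (n : ℕ) : ‖P.AA n x‖ ≤ 2 * (2 / P.δ) ^ n := by
  cases n with
  | zero =>
    have := P.BL_AA0.norm_le hx
    rw [pow_zero]
    linarith
  | succ n =>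
    have h1 := (P.BL_AA n).norm_le hx
    have h2 : P.τ ^ 3 ≤ 1 := by
      refine pow_le_one₀ P.hτ.le ?_
      have := P.τ_le
      linarith [show (1 : ℝ) / 10 ^ 12 ≤ 1 by norm_num]
    have h3 : 0 ≤ (2 / P.δ) ^ (n + 1) := by
      have := P.δ_pos
      positivity
    calc ‖P.AA (n + 1) x‖ ≤ 3 / 2 * P.τ ^ 3 * (2 / P.δ) ^ (n + 1) := h1
      _ ≤ 2 * (2 / P.δ) ^ (n + 1) := mul_le_mul_of_nonneg_right (by linarith) h3

theorem abs_ph_le (hx : x ∈ P.Bx) (n : ℕ) : |P.ph n x| ≤ 2 * (2 / P.δ) ^ n :=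
  (P.abs_evq_le (P.AA n x)).trans (P.norm_AA_le hx n)

private theorem partial_CoreC (hx : x ∈ P.Bx) {z : ℂ} (hz : ‖z‖ ≤ Rw P.t) (n : ℕ) :
    ev z (P.Ph x) = ∑ k ∈ range n, (P.ph k x : ℂ) * ev z (P.GG x) ^ k +
      ev z (P.GG x) ^ n * ev z (P.AA n x) := by
  induction n with
  | zero =>
    rw [Finset.sum_range_zero, pow_zero, one_mul, zero_add]
    rfl
  | succ n ih =>
    rw [ih, Finset.sum_range_succ]
    have h1 : ev z (P.AA n x) = (P.ph n x : ℂ) + ev z (P.GG x) * ev z (P.AA (n + 1) x) := by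
      rw [P.AA_rec hx n, ev_add hz, ev_algebraMap, ev_mul hz]
    rw [h1]
    ring

theorem hasSum_ph (hx : x ∈ P.Bx) {z : ℂ} (hz : ‖z‖ ≤ Rw P.t)
    (hG : ‖ev z (P.GG x)‖ < P.δ / 2) :
    HasSum (fun n => (P.ph n x : ℂ) * ev z (P.GG x) ^ n) (ev z (P.Ph x)) := by
  have hδ := P.δ_pos
  set g := ev z (P.GG x) with hg
  have hρ0 : 0 ≤ ‖g‖ * (2 / P.δ) := by positivity
  have hρ1 : ‖g‖ * (2 / P.δ) < 1 := by
    rw [mul_div_assoc', div_lt_one hδ]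
    linarith
  have hgeo : Summable fun n : ℕ => 2 * (‖g‖ * (2 / P.δ)) ^ n :=
    (summable_geometric_of_lt_one hρ0 hρ1).mul_left 2
  have hsum : Summable fun n : ℕ => ‖(P.ph n x : ℂ) * g ^ n‖ := by
    refine Summable.of_nonneg_of_le (fun n => norm_nonneg _) (fun n => ?_) hgeo
    rw [norm_mul, norm_pow, Complex.norm_real, Real.norm_eq_abs, mul_pow]
    have h1 := P.abs_ph_le hx n
    have h2 : 0 ≤ ‖g‖ ^ n := by positivity
    calc |P.ph n x| * ‖g‖ ^ n ≤ 2 * (2 / P.δ) ^ n * ‖g‖ ^ n := mul_le_mul_of_nonneg_right h1 h2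
      _ = 2 * (‖g‖ ^ n * (2 / P.δ) ^ n) := by ring
  rw [hasSum_iff_tendsto_nat_of_summable_norm hsum]
  have hrem : Filter.Tendsto (fun n : ℕ => g ^ n * ev z (P.AA n x)) Filter.atTop (nhds 0) := by
    refine squeeze_zero_norm (fun n => ?_) (hgeo.tendsto_atTop_zero)
    rw [norm_mul, norm_pow, mul_pow]
    have h1 : ‖ev z (P.AA n x)‖ ≤ 2 * (2 / P.δ) ^ n := (norm_ev_le hz _).trans (P.norm_AA_le hx n)
    have h2 : 0 ≤ ‖g‖ ^ n := by positivity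
    calc ‖g‖ ^ n * ‖ev z (P.AA n x)‖ ≤ ‖g‖ ^ n * (2 * (2 / P.δ) ^ n) :=
          mul_le_mul_of_nonneg_left h1 h2
      _ = 2 * (‖g‖ ^ n * (2 / P.δ) ^ n) := by ring
  have h3 : (fun n : ℕ => ∑ k ∈ range n, (P.ph k x : ℂ) * g ^ k) =
      fun n : ℕ => ev z (P.Ph x) - g ^ n * ev z (P.AA n x) := by
    funext n
    rw [P.partial_CoreC hx hz n]
    ring
  rw [h3]
  have := (tendsto_const_nhds (x := ev z (P.Ph x)) (f := Filter.atTop (α := ℕ))).sub hrem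
  rwa [sub_zero] at this

end Par

end Serrin
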