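import Mathlib

set_option autoImplicit false

/-!
# MP_2fa8c7_an: the analytic data
-/

namespace Serrin

open Metric Complex

/-- The output of the fixed point argument. -/
structure Data where
  μ : ℝ
  δ : ℝ
  r : ℝ
  e : ℝ
  c : ℝ
  φ : ℕ → ℝ
  g : ℂ → ℂ
  h : ℂ → ℂ
  Φ : ℂ → ℂ
  F : ℂ → ℂ
  hμ : 0 < μ
  hμ1 : μ < 1
  hδ : 0 < δ
  hδ1 : δ ≤ 1 / 100
  hr : 1 < r
  he : 0 < e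
  heδ : e ≤ δ ^ 2 / 10 ^ 4
  hg : ∀ z ∈ ball (0 : ℂ) r, HasDerivAt g (h z ^ 2) z
  hh : ∀ z ∈ ball (0 : ℂ) r, ‖h z - 1‖ ≤ 1 / 10
  hhd : ∀ z ∈ ball (0 : ℂ) r, DifferentiableAt ℂ h z
  hF : ∀ z ∈ ball (0 : ℂ) r, HasDerivAt F (Φ z * h z ^ 2) z
  hΦd : ∀ z ∈ ball (0 : ℂ) r, DifferentiableAt ℂ Φ z
  g_conj : ∀ z, g ((starRingEnd ℂ) z) = (starRingEnd ℂ) (g z)
  h_conj : ∀ z, h ((starRingEnd ℂ) z) = (starRingEnd ℂ) (h z)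
  Φ_conj : ∀ z, Φ ((starRingEnd ℂ) z) = (starRingEnd ℂ) (Φ z)
  F_conj : ∀ z, F ((starRingEnd ℂ) z) = (starRingEnd ℂ) (F z)
  g_q : g ((1 - δ : ℝ) : ℂ) = 0
  hφ : ∀ n, |φ n| ≤ 2 * (2 / δ) ^ n
  hser : ∀ z ∈ ball (0 : ℂ) r, ‖g z‖ < δ / 2 → HasSum (fun n => (φ n : ℂ) * g z ^ n) (Φ z)
  hid : ∀ z : ℂ, ‖z‖ = 1 →
    1 / 2 * (starRingEnd ℂ) (g z) * h z + c * (starRingEnd ℂ) z * (starRingEnd ℂ) (h z) =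
      h z * (Φ z + μ * e * (g z)⁻¹ ^ 2 * ∑' n, (φ n : ℂ) * (e * (g z)⁻¹) ^ n)

end Serrin
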