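import Pool.Agent.Lib.MP_2fa8c7_an.CoreB
import Pool.Agent.Lib.MP_2fa8c7_an.CoreC
import Pool.Agent.Lib.MP_2fa8c7_an.Data

set_option autoImplicit false

/-!
# MP_2fa8c7_an: existence of the analytic data
-/

namespace Serrin

open Finset WA

private lemma CoreD_inv {z : ℂ} (hz : ‖z‖ = 1) : z⁻¹ = (starRingEnd ℂ) z :=
  Complex.inv_eq_conj hz

/-- the data exist, with `δ = τ⁴` and `e ≤ 48 δ³/μ` -/
theorem exists_data (P : Par) : ∃ D : Data, D.μ = P.μ ∧ D.δ = P.δ ∧
    D.e ≤ 48 * P.δ ^ 3 / P.μ := by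
  obtain ⟨x, hx, hT⟩ := P.exists_fixed
  have hδ := P.δ_pos
  have hδle := P.δ_le
  have hμ := P.hμ
  have hee : P.ee x ≤ 48 * P.δ ^ 3 / P.μ :=
    (le_abs_self _).trans (P.BL_ee.norm_le hx)
  have hball : ∀ z ∈ Metric.ball (0 : ℂ) (Rw P.t), ‖z‖ < Rw P.t := fun z hz => by
    simpa using hz
  have hsq : ∀ z ∈ Metric.ball (0 : ℂ) (Rw P.t),
      ev z (P.HH x ^ 2) = ev z (P.HH x) ^ 2 := fun z hz => by
    rw [sq, ev_mul (hball z hz).le, sq]
  refine ⟨{ μ := P.μ
            δ := P.δ
            r := Rw P.t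
            e := P.ee x
            c := P.cc x
            φ := fun n => P.ph n x
            g := fun z => ev z (P.GG x)
            h := fun z => ev z (P.HH x)
            Φ := fun z => ev z (P.Ph x)
            F := fun z => ev z (P.I (P.Ph x * P.HH x ^ 2))
            hμ := P.hμ
            hμ1 := P.hμ1
            hδ := hδ
            hδ1 := hδle.trans (by norm_num)
            hr := by rw [P.R_eq]; linarith
            he := P.ee_pos hx
            heδ := ?_
            hg := ?_
            hh := ?_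
            hhd := fun z hz => P.differentiableAt_ev _ (hball z hz)
            hF := ?_
            hΦd := fun z hz => P.differentiableAt_ev _ (hball z hz)
            g_conj := fun z => ev_conj z _
            h_conj := fun z => ev_conj z _
            Φ_conj := fun z => ev_conj z _
            F_conj := fun z => ev_conj z _
            g_q := ?_
            hφ := fun n => P.abs_ph_le hx n
            hser := fun z hz hg => P.hasSum_ph hx (hball z hz).le hg
            hid := ?_ }, rfl, rfl, hee⟩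
  · refine hee.trans ?_
    have h1 := P.δ_le_μ
    rw [div_le_iff₀ hμ]
    have h2 : P.δ ^ 2 / 10 ^ 4 * (P.δ * 10 ^ 12) ≤ P.δ ^ 2 / 10 ^ 4 * P.μ :=
      mul_le_mul_of_nonneg_left h1 (by positivity)
    refine le_trans ?_ h2
    have h3 : 0 < P.δ ^ 3 := by positivity
    have e : P.δ ^ 2 / 10 ^ 4 * (P.δ * 10 ^ 12) = 10 ^ 8 * P.δ ^ 3 := by ring
    rw [e]
    linarith
  · intro z hz
    have h1 := P.hasDerivAt_ev_I (P.HH x ^ 2) (hball z hz)
    rw [hsq z hz] at h1
    refine (h1.sub_const ((P.evq (P.I (P.HH x ^ 2)) : ℝ) : ℂ)).congr_of_eventuallyEq ?_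
    filter_upwards [Metric.isOpen_ball.mem_nhds hz] with w hw
    show ev w (P.GG x) = _
    rw [P.GG_eq x, ev_sub (hball w hw).le, ev_algebraMap]
  · intro z hz
    have h1 : ev z (P.HH x) - 1 = ev z (P.eta x) := by
      unfold Par.HH
      rw [ev_add (hball z hz).le, ev_one, add_sub_cancel_left]
    show ‖ev z (P.HH x) - 1‖ ≤ 1 / 10
    rw [h1]
    refine (norm_ev_le (hball z hz).le _).trans ((P.BL_eta.norm_le hx).trans ?_)
    have h2 : (1 : ℝ) / 10 ^ 48 ≤ 1 / 10000 := by norm_num
    linarith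
  · intro z hz
    have h1 := P.hasDerivAt_ev_I (P.Ph x * P.HH x ^ 2) (hball z hz)
    rw [ev_mul (hball z hz).le, hsq z hz] at h1
    exact h1
  · have hq : ‖((1 - P.δ : ℝ) : ℂ)‖ ≤ Rw P.t := by
      rw [Complex.norm_real, Real.norm_eq_abs]
      exact P.abs_q_le
    show ev ((1 - P.δ : ℝ) : ℂ) (P.GG x) = 0
    rw [P.ev_GG x hq]
    have : (((1 - P.δ : ℝ) : ℂ) - (P.q : ℂ)) = 0 := sub_self _
    rw [this, zero_mul]
  · intro z hz
    have h1 := P.circle_identity hx hT hz
    rw [CoreD_inv hz, ev_conj, ev_conj] at h1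
    exact h1

end Serrin
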