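import Pool.Agent.Lib.MP_2fa8c7_an.EstA1

set_option autoImplicit false

/-!
# MP_2fa8c7_an: estimates I (coordinates, `η`, `H`, `M`)
-/

namespace Serrin

open Finset WA

namespace Par

variable (P : Par)

private lemma EstA_δ : 0 < P.δ ∧ P.δ ≤ 1 / 100000000 :=
  ⟨P.δ_pos, P.δ_le.trans (by norm_num)⟩

private lemma EstA_τ7 : P.τ ^ 7 ≤ P.δ := by
  have h0 := P.hτ
  have h1 : P.τ ≤ 1 := P.τ_le.trans (by norm_num)
  unfold δ
  exact pow_le_pow_of_le_one h0.le h1 (by norm_num)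

theorem BL_eta : BL P.Bx P.eta (180 * P.δ) := by
  obtain ⟨hδ, _⟩ := P.EstA_δ
  have h1 : BL P.Bx (fun x : P.E => x.1 • P.Y) (5 / 2 * (70 * P.δ)) :=
    P.BL_s.smul (BL.const P.norm_Y_le)
  have h2 : BL P.Bx (fun x : P.E => (P.τ ^ 7) • x.2.1) (P.δ * (3 / 2)) := by
    refine BL.smul (BL.const ?_) P.BL_th
    rw [Real.norm_eq_abs, abs_of_pos (pow_pos P.hτ 7)]
    exact P.EstA_τ7
  exact ((h1.add h2).congr fun x _ => rfl).mono (by linarith)

theorem BL_HH : BL P.Bx P.HH 2 := by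
  obtain ⟨hδ, hδ'⟩ := P.EstA_δ
  have h1 : BL P.Bx (fun _ : P.E => (1 : P.A)) 1 := BL.const (by rw [norm_one])
  exact ((h1.add P.BL_eta).congr fun x _ => rfl).mono (by linarith)

theorem BL_Hi : (∀ x ∈ P.Bx, IsUnit (P.HH x)) ∧ BL P.Bx (fun x => P.Hi x - 1) (360 * P.δ) := by
  obtain ⟨hδ, hδ'⟩ := P.EstA_δ
  have h1 : BL P.Bx (fun x => P.HH x - 1) (180 * P.δ) :=
    P.BL_eta.congr fun x _ => by unfold HH; rw [add_sub_cancel_left]
  obtain ⟨h2, h3⟩ := h1.inverse (by linarith)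
  exact ⟨h2, (h3.congr fun x _ => rfl).mono (by linarith)⟩

theorem BL_Hi' : BL P.Bx P.Hi 2 := by
  obtain ⟨hδ, hδ'⟩ := P.EstA_δ
  have h1 : BL P.Bx (fun _ : P.E => (1 : P.A)) 1 := BL.const (by rw [norm_one])
  exact ((h1.add P.BL_Hi.2).congr fun x _ => by rw [add_sub_cancel]).mono (by linarith)

theorem BL_MM : BL P.Bx (fun x => P.MM x - 1) (400 * P.δ) := by
  obtain ⟨hδ, hδ'⟩ := P.EstA_δ
  have h1 : BL P.Bx (fun x => P.eta x + P.eta x + P.eta x * P.eta x)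
      (180 * P.δ + 180 * P.δ + 180 * P.δ * (180 * P.δ)) :=
    (P.BL_eta.add P.BL_eta).add (P.BL_eta.mul P.BL_eta)
  have h2 : BL P.Bx (fun x => P.N (P.eta x + P.eta x + P.eta x * P.eta x))
      (1 * (180 * P.δ + 180 * P.δ + 180 * P.δ * (180 * P.δ))) :=
    h1.map (L := fun f => P.N f) zero_le_one (fun y => by rw [one_mul]; exact P.norm_N_le y)
      (fun y y' => map_sub _ _ _)
  refine (h2.congr fun x _ => ?_).mono ?_
  · have h3 : P.MM x - P.N 1 = P.N (P.HH x ^ 2 - 1) := by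
      unfold MM
      rw [map_sub]
    rw [P.N_one] at h3
    rw [h3]
    congr 1
    unfold HH
    ring
  · have h4 : P.δ * P.δ ≤ P.δ * (1 / 100000000) := mul_le_mul_of_nonneg_left hδ' hδ.le
    nlinarith

theorem BL_Mi : (∀ x ∈ P.Bx, IsUnit (P.MM x)) ∧ BL P.Bx (fun x => P.Mi x - 1) (800 * P.δ) := by
  obtain ⟨hδ, hδ'⟩ := P.EstA_δ
  obtain ⟨h2, h3⟩ := P.BL_MM.inverse (by linarith)
  exact ⟨h2, (h3.congr fun x _ => rfl).mono (by linarith)⟩

theorem BL_Mi' : BL P.Bx P.Mi 2 := by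
  obtain ⟨hδ, hδ'⟩ := P.EstA_δ
  have h1 : BL P.Bx (fun _ : P.E => (1 : P.A)) 1 := BL.const (by rw [norm_one])
  exact ((h1.add P.BL_Mi.2).congr fun x _ => by rw [add_sub_cancel]).mono (by linarith)

end Par

end Serrin
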