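import Pool.Agent.Lib.MP_2fa8c7_an.TDef

set_option autoImplicit false

/-!
# MP_2fa8c7_an: estimates I (coordinates, `η`, `H`, `M`)
-/

namespace Serrin

open Finset WA

namespace Par

variable (P : Par)

private lemma EstA1_norm_fst (x : P.E) : ‖x.1‖ ≤ ‖x‖ := by
  rw [Prod.norm_def]; exact le_max_left _ _

private lemma EstA1_norm_snd (x : P.E) : ‖x.2‖ ≤ ‖x‖ := by
  rw [Prod.norm_def]; exact le_max_right _ _

private lemma EstA1_norm_snd_fst (x : P.E) : ‖x.2.1‖ ≤ ‖x‖ :=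
  le_trans (by rw [Prod.norm_def]; exact le_max_left _ _) (P.EstA1_norm_snd x)

private lemma EstA1_norm_snd_snd (x : P.E) : ‖x.2.2‖ ≤ ‖x‖ :=
  le_trans (by rw [Prod.norm_def]; exact le_max_right _ _) (P.EstA1_norm_snd x)

private lemma EstA1_mem {x : P.E} (hx : x ∈ P.Bx) : ‖x - P.x₀‖ ≤ 1 / 2 := by
  have h : x ∈ Metric.closedBall P.x₀ (1 / 2) := hx
  rwa [mem_closedBall_iff_norm] at h

private lemma EstA1_abs {x : P.E} (hx : x ∈ P.Bx) : |x.1 - 1| ≤ 1 / 2 := by
  have h := (P.EstA1_norm_fst (x - P.x₀)).trans (P.EstA1_mem hx)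
  exact h

lemma s_mem {x : P.E} (hx : x ∈ P.Bx) : 1 / 2 ≤ x.1 ∧ x.1 ≤ 3 / 2 := by
  have h := abs_le.1 (P.EstA1_abs hx)
  constructor <;> linarith [h.1, h.2]

private lemma EstA1_dist_fst (x y : P.E) : ‖x.1 - y.1‖ ≤ 1 * dist x y := by
  rw [one_mul, dist_eq_norm]
  exact P.EstA1_norm_fst (x - y)

lemma BL_s : BL P.Bx (fun x => x.1) (5 / 2) := by
  refine (BL.of (b := 3 / 2) (c := 1) (by norm_num) (by norm_num) (fun x hx => ?_)
    (fun x _ y _ => P.EstA1_dist_fst x y)).mono (by norm_num)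
  have h := P.s_mem hx
  rw [Real.norm_eq_abs, abs_le]
  constructor <;> linarith [h.1, h.2]

lemma BL_s_sub : BL P.Bx (fun x => x.1 - 1) (3 / 2) := by
  refine (BL.of (b := 1 / 2) (c := 1) (by norm_num) (by norm_num) (fun x hx => P.EstA1_abs hx)
    (fun x _ y _ => ?_)).mono (by norm_num)
  rw [sub_sub_sub_cancel_right]
  exact P.EstA1_dist_fst x y

lemma BL_s_inv : BL P.Bx (fun x => (x.1)⁻¹) 6 := by
  refine (BL.of (b := 2) (c := 4) (by norm_num) (by norm_num) (fun x hx => ?_)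
    (fun x hx y hy => ?_)).mono (by norm_num)
  · have h := P.s_mem hx
    have h0 : (0 : ℝ) < x.1 := by linarith [h.1]
    rw [norm_inv, Real.norm_eq_abs, abs_of_pos h0, inv_le_comm₀ h0 (by norm_num)]
    linarith [h.1]
  · have hx' := P.s_mem hx
    have hy' := P.s_mem hy
    have h0 : (0 : ℝ) < x.1 := by linarith [hx'.1]
    have h1 : (0 : ℝ) < y.1 := by linarith [hy'.1]
    rw [inv_sub_inv h0.ne' h1.ne', norm_div, norm_mul, norm_sub_rev, Real.norm_eq_abs (x.1),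
      Real.norm_eq_abs (y.1), abs_of_pos h0, abs_of_pos h1, div_le_iff₀ (by positivity)]
    have h2 := P.EstA1_dist_fst x y
    have h3 : (1 : ℝ) / 4 ≤ x.1 * y.1 := by nlinarith [hx'.1, hy'.1]
    have h4 : 0 ≤ dist x y := dist_nonneg
    nlinarith

lemma BL_th : BL P.Bx (fun x => x.2.1) (3 / 2) := by
  refine (BL.of (b := 1 / 2) (c := 1) (by norm_num) (by norm_num) (fun x hx => ?_)
    (fun x _ y _ => ?_)).mono (by norm_num)
  · have h := (P.EstA1_norm_snd_fst (x - P.x₀)).trans (P.EstA1_mem hx)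
    have e : (x - P.x₀).2.1 = x.2.1 := by simp [x₀]
    rwa [e] at h
  · rw [one_mul, dist_eq_norm]
    exact P.EstA1_norm_snd_fst (x - y)

lemma BL_Ph' : BL P.Bx (fun x => x.2.2) (3 / 2) := by
  refine (BL.of (b := 1 / 2) (c := 1) (by norm_num) (by norm_num) (fun x hx => ?_)
    (fun x _ y _ => ?_)).mono (by norm_num)
  · have h := (P.EstA1_norm_snd_snd (x - P.x₀)).trans (P.EstA1_mem hx)
    have e : (x - P.x₀).2.2 = x.2.2 := by simp [x₀]
    rwa [e] at h
  · rw [one_mul, dist_eq_norm]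
    exact P.EstA1_norm_snd_snd (x - y)

/-- the bilinear operator `Tz` -/
theorem BL_Tz {F G : P.E → P.A} {a a' : ℝ} (hF : BL P.Bx F a) (hG : BL P.Bx G a') :
    BL P.Bx (fun x => P.Tz (F x) (G x)) (a * a') := by
  obtain ⟨b, c, hb, hc, hbc, h1, h2⟩ := hF
  obtain ⟨b', c', hb', hc', hbc', h1', h2'⟩ := hG
  refine ⟨b * b', b * c' + c * b', by positivity, by positivity, ?_, fun x hx => ?_,
    fun x hx y hy => ?_⟩
  · calc b * b' + (b * c' + c * b') ≤ (b + c) * (b' + c') := by nlinarith [mul_nonneg hc hc']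
      _ ≤ a * a' := mul_le_mul hbc hbc' (by positivity) (by linarith)
  · exact (P.norm_Tz_le _ _).trans (mul_le_mul (h1 x hx) (h1' x hx) (norm_nonneg _) hb)
  · have e : P.Tz (F x) (G x) - P.Tz (F y) (G y)
        = P.Tz (F x) (G x - G y) + P.Tz (F x - F y) (G y) := by
      rw [P.Tz_sub_left, map_sub]; abel
    rw [e]
    refine (norm_add_le _ _).trans ?_
    have i1 : ‖P.Tz (F x) (G x - G y)‖ ≤ b * (c' * dist x y) :=
      (P.norm_Tz_le _ _).trans (mul_le_mul (h1 x hx) (h2' x hx y hy) (norm_nonneg _) hb)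
    have i2 : ‖P.Tz (F x - F y) (G y)‖ ≤ (c * dist x y) * b' :=
      (P.norm_Tz_le _ _).trans
        (mul_le_mul (h2 x hx y hy) (h1' y hy) (norm_nonneg _) (by positivity))
    calc ‖P.Tz (F x) (G x - G y)‖ + ‖P.Tz (F x - F y) (G y)‖
        ≤ b * (c' * dist x y) + (c * dist x y) * b' := add_le_add i1 i2
      _ = (b * c' + c * b') * dist x y := by ring

/-- coefficients -/
theorem BL_cf {F : P.E → P.A} {a : ℝ} (n : ℕ) (hF : BL P.Bx F a) :
    BL P.Bx (fun x => cf n (F x)) a := by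
  have h := hF.map (L := fun f : P.A => cf n f) (C := 1) zero_le_one
    (fun f => by rw [one_mul]; exact abs_cf_le n f) (fun f g => by simp)
  rwa [one_mul] at h

/-- evaluation at `q` -/
theorem BL_evq {F : P.E → P.A} {a : ℝ} (hF : BL P.Bx F a) :
    BL P.Bx (fun x => P.evq (F x)) a := by
  have h := hF.map (L := fun f : P.A => P.evq f) (C := 1) zero_le_one
    (fun f => by rw [one_mul]; exact P.abs_evq_le f) (fun f g => map_sub _ f g)
  rwa [one_mul] at h

theorem BL_Q {F : P.E → P.A} {a : ℝ} (l : ℕ) (hF : BL P.Bx F a) :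
    BL P.Bx (fun x => (P.Q)^[l] (F x)) (P.δ⁻¹ ^ l * a) :=
  hF.map (pow_nonneg (inv_nonneg.2 P.δ_pos.le) l) (P.norm_Q_iter_le l) (P.Q_iter_sub l)

theorem BL_neg {F : P.E → P.A} {a : ℝ} (l : ℕ) (hF : BL P.Bx F a) :
    BL P.Bx (fun x => P.neg l (F x)) ((4 / P.δ) ^ l * a) :=
  hF.map (pow_nonneg (div_nonneg (by norm_num) P.δ_pos.le) l) (P.norm_neg_le l) (P.neg_sub l)

end Par

end Serrin
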