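import Pool.Agent.Lib.MP_2fa8c7_an.EstB1

set_option autoImplicit false

/-!
# MP_2fa8c7_an: estimates II (`φ_n`, `β`, `e`)
-/

namespace Serrin

open Finset WA

namespace Par

variable (P : Par)

lemma EstB_qZ_pos : 0 < 2 * P.q * P.Z := by
  have := P.q_pos
  have := P.Z_pos
  positivity

lemma EstB_qZ_le : 2 * P.q * P.Z ≤ 8 / P.δ ^ 3 := by
  have h1 := P.q_lt_one
  have h2 := P.Z_le
  have h3 := P.Z_pos
  have h4 := P.q_pos
  have h5 : 2 * P.q * P.Z ≤ 2 * (4 / P.δ ^ 3) := by nlinarith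
  refine h5.trans (le_of_eq ?_)
  ring

lemma EstB_inv_le : (2 * P.q * P.Z)⁻¹ ≤ 24 / 5 * P.δ ^ 3 := by
  have h1 := P.q_ge
  have h2 := P.Z_ge
  have h3 := P.Z_pos
  have h4 := P.δ_pos
  have h5 : (24 / 5 * P.δ ^ 3)⁻¹ ≤ 2 * P.q * P.Z := by
    have h6 : (24 / 5 * P.δ ^ 3)⁻¹ = (5 / 3) * (1 / (8 * P.δ ^ 3)) := by
      field_simp
      norm_num
    rw [h6]
    nlinarith
  exact inv_le_of_inv_le₀ (by positivity) h5

theorem BL_be : BL P.Bx P.be (12 * P.δ ^ 3) := by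
  have h := (P.BL_s.map (L := fun y : ℝ => -(y / (2 * P.q * P.Z))) (C := (2 * P.q * P.Z)⁻¹)
    (inv_nonneg.2 P.EstB_qZ_pos.le) (fun y => by
      rw [norm_neg, norm_div, Real.norm_of_nonneg P.EstB_qZ_pos.le, div_eq_inv_mul])
    (fun y y' => by ring))
  refine BL.mono (h.congr fun x _ => rfl) ?_
  have := P.EstB_inv_le
  have h4 := P.δ_pos
  have h5 : 0 < P.δ ^ 3 := by positivity
  linarith

theorem be_neg {x : P.E} (hx : x ∈ P.Bx) : P.be x < 0 := by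
  have h1 := (P.s_mem hx).1
  unfold be
  have := P.EstB_qZ_pos
  have h2 : 0 < x.1 / (2 * P.q * P.Z) := by
    apply div_pos _ this
    linarith
  linarith

theorem BL_be_inv : BL P.Bx (fun x => (P.be x)⁻¹) (50 / P.δ ^ 3) := by
  have h := (P.BL_s_inv.map (L := fun y : ℝ => -(y * (2 * P.q * P.Z))) (C := 2 * P.q * P.Z)
    P.EstB_qZ_pos.le (fun y => by
      rw [norm_neg, norm_mul, Real.norm_of_nonneg P.EstB_qZ_pos.le, mul_comm])
    (fun y y' => by ring))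
  refine BL.mono (h.congr fun x hx => ?_) ?_
  · unfold be
    rw [inv_neg, inv_div, div_eq_inv_mul]
  · have h1 := P.EstB_qZ_le
    have h4 := P.δ_pos
    have h5 : 2 * P.q * P.Z * 6 ≤ 8 / P.δ ^ 3 * 6 := by linarith
    refine h5.trans ?_
    rw [div_mul_eq_mul_div]
    exact div_le_div_of_nonneg_right (by norm_num) (by positivity)

lemma EstB_ph0_ne {x : P.E} (hx : x ∈ P.Bx) : P.ph 0 x ≠ 0 := by
  have := P.ph_zero_le hx
  intro h
  rw [h] at this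
  norm_num at this

theorem BL_ee : BL P.Bx P.ee (48 * P.δ ^ 3 / P.μ) := by
  have h1 := P.BL_be.mul P.BL_ph0_inv
  have h2 := (h1.map (L := fun y : ℝ => P.μ⁻¹ * y) (C := P.μ⁻¹) (inv_nonneg.2 P.hμ.le)
    (fun y => by rw [norm_mul, Real.norm_of_nonneg (inv_nonneg.2 P.hμ.le)])
    (fun y y' => by ring))
  refine BL.mono (h2.congr fun x _ => ?_) (le_of_eq ?_)
  · unfold ee
    rw [mul_inv]
    ring
  · rw [div_eq_inv_mul]
    ring

theorem ee_pos {x : P.E} (hx : x ∈ P.Bx) : 0 < P.ee x := by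
  have h1 := P.be_neg hx
  have h2 := P.ph_zero_le hx
  unfold ee
  refine mul_pos_of_neg_of_neg h1 ?_
  rw [inv_lt_zero]
  refine mul_neg_of_pos_of_neg P.hμ ?_
  linarith

theorem an_zero {x : P.E} (hx : x ∈ P.Bx) : P.an 0 x = 1 := by
  unfold an
  rw [pow_zero, mul_one, mul_inv_cancel₀ (P.EstB_ph0_ne hx)]

theorem BL_an (n : ℕ) :
    BL P.Bx (P.an (n + 1)) (6 * P.τ ^ 3 * (96 * P.δ ^ 2 / P.μ) ^ (n + 1)) := by
  have h := ((P.BL_ph n).mul P.BL_ph0_inv).mul (P.BL_ee.pow (n + 1))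
  refine BL.mono (h.congr fun x _ => rfl) (le_of_eq ?_)
  have hδ := P.δ_pos.ne'
  have e : 96 * P.δ ^ 2 / P.μ = (2 / P.δ) * (48 * P.δ ^ 3 / P.μ) := by
    field_simp
    norm_num
  rw [e, mul_pow]
  ring

theorem mu_ee_ph {x : P.E} (hx : x ∈ P.Bx) (n : ℕ) :
    P.μ * P.ee x * P.ph n x * P.ee x ^ n = P.be x * P.an n x := by
  have h1 := P.EstB_ph0_ne hx
  have h2 := P.hμ.ne'
  have h3 : P.μ * P.ee x = P.be x * (P.ph 0 x)⁻¹ := by
    unfold ee
    rw [mul_inv]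
    field_simp
  unfold an
  rw [h3]
  ring

end Par

end Serrin
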