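import Pool.Agent.Lib.MP_2fa8c7_an.EstA

set_option autoImplicit false

/-!
# MP_2fa8c7_an: estimates II (`φ_n`, `β`, `e`)
-/

namespace Serrin

open Finset WA

namespace Par

variable (P : Par)

theorem ph_zero (x : P.E) : P.ph 0 x = -(1 / 2) + P.τ ^ 3 * P.evq x.2.2 := by
  show P.evq (P.Ph x) = _
  unfold Ph
  rw [map_add, evq_algebraMap, map_smul, smul_eq_mul]

private lemma EstB1_norm {x : P.E} (hx : x ∈ P.Bx) : ‖x.2.2‖ ≤ 1 / 2 := by
  have h : ‖x - P.x₀‖ ≤ 1 / 2 := by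
    have := hx
    unfold Bx at this
    rwa [Metric.mem_closedBall, dist_eq_norm] at this
  have h1 : ‖(x - P.x₀).2.2‖ ≤ ‖x - P.x₀‖ :=
    (norm_snd_le (x - P.x₀).2).trans (norm_snd_le (x - P.x₀))
  have h2 : (x - P.x₀).2.2 = x.2.2 := by
    unfold x₀
    simp
  rw [h2] at h1
  exact h1.trans h

private lemma EstB1_tau : P.τ ^ 3 ≤ 1 / 100 := by
  have h := P.τ_le
  have h1 : P.τ ^ 3 ≤ (1 / 10 ^ 12) ^ 3 := pow_le_pow_left₀ P.hτ.le h 3
  exact h1.trans (by norm_num)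

theorem ph_zero_le {x : P.E} (hx : x ∈ P.Bx) : P.ph 0 x ≤ -(1 / 3) := by
  have h0 := pow_pos P.hτ 3
  have h1 := P.EstB1_tau
  have h2 : P.evq x.2.2 ≤ 1 / 2 :=
    (le_abs_self _).trans ((P.abs_evq_le _).trans (P.EstB1_norm hx))
  rw [ph_zero]
  nlinarith

theorem BL_ph0_inv : BL P.Bx (fun x => (P.ph 0 x)⁻¹) 4 := by
  have h0 := pow_pos P.hτ 3
  have h1 := P.EstB1_tau
  have habs : ∀ x ∈ P.Bx, 1 / 3 ≤ |P.ph 0 x| := fun x hx => by
    have := P.ph_zero_le hx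
    rw [abs_of_neg (by linarith)]
    linarith
  have hne : ∀ x ∈ P.Bx, P.ph 0 x ≠ 0 := fun x hx h => by
    have := P.ph_zero_le hx
    rw [h] at this
    linarith
  refine (BL.of (b := 3) (c := 9 * P.τ ^ 3) (by norm_num) (by positivity) (fun x hx => ?_)
    (fun x hx y hy => ?_)).mono (by linarith)
  · rw [norm_inv, Real.norm_eq_abs]
    refine inv_le_of_inv_le₀ (by norm_num) ?_
    have := habs x hx
    linarith
  · rw [inv_sub_inv (hne x hx) (hne y hy), norm_div, norm_mul, Real.norm_eq_abs,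
      Real.norm_eq_abs, Real.norm_eq_abs]
    have h2 : |P.ph 0 y - P.ph 0 x| ≤ P.τ ^ 3 * dist x y := by
      rw [ph_zero, ph_zero]
      have e : -(1 / 2) + P.τ ^ 3 * P.evq y.2.2 - (-(1 / 2) + P.τ ^ 3 * P.evq x.2.2) =
          P.τ ^ 3 * P.evq (y.2.2 - x.2.2) := by
        rw [map_sub]
        ring
      rw [e, abs_mul, abs_of_pos h0]
      refine mul_le_mul_of_nonneg_left ?_ h0.le
      refine (P.abs_evq_le _).trans ?_
      rw [dist_comm, dist_eq_norm]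
      exact (norm_snd_le (y - x).2).trans (norm_snd_le (y - x))
    have h3 : 1 / 9 ≤ |P.ph 0 x| * |P.ph 0 y| := by
      have := mul_le_mul (habs x hx) (habs y hy) (by norm_num) (abs_nonneg _)
      linarith
    rw [div_le_iff₀ (by linarith)]
    have h4 : 0 ≤ P.τ ^ 3 * dist x y := mul_nonneg h0.le dist_nonneg
    nlinarith

private lemma EstB1_AA (n : ℕ) (x : P.E) : P.AA (n + 1) x = P.Mi x * P.Q (P.AA n x) := rfl

private lemma EstB1_tau_smul {F : P.E → P.A} {a : ℝ} (hF : BL P.Bx F a) :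
    BL P.Bx (fun x => (P.τ ^ 3) • F x) (P.τ ^ 3 * a) := by
  have h0 := pow_pos P.hτ 3
  refine hF.map (L := fun y => (P.τ ^ 3) • y) h0.le (fun y => ?_) (fun y y' => smul_sub _ _ _)
  rw [norm_smul, Real.norm_eq_abs, abs_of_pos h0]

private lemma EstB1_Q {F : P.E → P.A} {a : ℝ} (hF : BL P.Bx F a) :
    BL P.Bx (fun x => P.Q (F x)) (P.δ⁻¹ * a) :=
  hF.map (L := fun y => P.Q y) (inv_nonneg.2 P.δ_pos.le) P.norm_Q_le (fun y y' => map_sub _ _ _)

theorem BL_AA (n : ℕ) : BL P.Bx (P.AA (n + 1)) (3 / 2 * P.τ ^ 3 * (2 / P.δ) ^ (n + 1)) := by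
  have hd := P.δ_pos
  induction n with
  | zero =>
    have h1 : BL P.Bx (fun x => P.Mi x * (P.τ ^ 3) • P.Q x.2.2)
        (2 * (P.τ ^ 3 * (P.δ⁻¹ * (3 / 2)))) :=
      P.BL_Mi'.mul (P.EstB1_tau_smul (P.EstB1_Q P.BL_Ph'))
    have h2 : BL P.Bx (P.AA (0 + 1)) (2 * (P.τ ^ 3 * (P.δ⁻¹ * (3 / 2)))) := by
      refine h1.congr fun x _ => ?_
      rw [EstB1_AA]
      show P.Mi x * P.Q (P.Ph x) = _
      unfold Ph
      rw [map_add, Q_algebraMap, zero_add, map_smul]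
    refine h2.mono (le_of_eq ?_)
    rw [zero_add, pow_one, div_eq_mul_inv]
    ring
  | succ n ih =>
    have h1 : BL P.Bx (P.AA (n + 1 + 1))
        (2 * (P.δ⁻¹ * (3 / 2 * P.τ ^ 3 * (2 / P.δ) ^ (n + 1)))) :=
      P.BL_Mi'.mul (P.EstB1_Q ih)
    refine h1.mono (le_of_eq ?_)
    rw [pow_succ (2 / P.δ) (n + 1)]
    field_simp

theorem BL_AA0 : BL P.Bx (P.AA 0) 1 := by
  have h1 := P.EstB1_tau
  have h2 : BL P.Bx (fun x : P.E => algebraMap ℝ P.A (-(1 / 2)) + (P.τ ^ 3) • x.2.2)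
      (1 / 2 + P.τ ^ 3 * (3 / 2)) := by
    refine BL.add (BL.const ?_) (P.EstB1_tau_smul P.BL_Ph')
    rw [norm_algebraMap', Real.norm_eq_abs, abs_neg, abs_of_pos (by norm_num)]
  exact h2.mono (by linarith)

theorem BL_ph (n : ℕ) : BL P.Bx (P.ph (n + 1)) (3 / 2 * P.τ ^ 3 * (2 / P.δ) ^ (n + 1)) :=
  P.BL_evq (P.BL_AA n)

end Par

end Serrin
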