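import Pool.Agent.Lib.MP_2fa8c7_an.EstC2

set_option autoImplicit false

/-!
# MP_2fa8c7_an: estimates III (`r`, `p`)
-/

namespace Serrin

open Finset WA

namespace Par

variable (P : Par)

theorem summable_neg {x : P.E} (hx : x ∈ P.Bx) :
    Summable fun n => P.an n x • P.neg (n + 2) (P.FF n x) := by
  rw [← summable_nat_add_iff 1]
  exact BL.summable P.BL_neg_term P.summable_geo hx

theorem summable_pos {x : P.E} (hx : x ∈ P.Bx) :
    Summable fun n => P.an n x • (P.Q)^[n + 2] (P.FF n x) := by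
  rw [← summable_nat_add_iff 1]
  exact BL.summable P.BL_pos_term P.summable_geo hx

/-- splitting off the first term -/
theorem rr_eq {x : P.E} (hx : x ∈ P.Bx) : P.rr x - P.be x • P.K ^ 2 =
    P.be x • (P.neg 2 (P.FF 0 x - 1)
      + ∑' n, P.an (n + 1) x • P.neg (n + 3) (P.FF (n + 1) x)) := by
  unfold rr
  rw [(P.summable_neg hx).tsum_eq_zero_add, ← smul_sub, P.an_zero hx, one_smul, P.neg_sub,
    P.neg_two_one]
  congr 1
  abel

theorem pp_eq {x : P.E} (hx : x ∈ P.Bx) : P.pp x =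
    P.be x • ((P.Q)^[2] (P.FF 0 x) + ∑' n, P.an (n + 1) x • (P.Q)^[n + 3] (P.FF (n + 1) x)) := by
  unfold pp
  rw [(P.summable_pos hx).tsum_eq_zero_add, P.an_zero hx, one_smul]

theorem EstC_tau_cube_le : P.τ ^ 3 / P.μ ≤ 1 / 10 ^ 30 := by
  have hμ := P.hμ
  have hτ := P.hτ
  rw [div_le_div_iff₀ hμ (by positivity), one_mul]
  have h1 := P.τ_le
  have h2 := P.hs
  have h3 : P.τ ^ 2 ≤ (1 / 10 ^ 12) ^ 2 := pow_le_pow_left₀ hτ.le h1 2
  calc P.τ ^ 3 * 10 ^ 30 = (P.τ ^ 2 * 10 ^ 18) * (P.τ * 10 ^ 12) := by ring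
    _ ≤ ((1 / 10 ^ 12) ^ 2 * 10 ^ 18) * P.μ :=
        mul_le_mul (by nlinarith) h2 (by positivity) (by positivity)
    _ ≤ P.μ := by
        have : ((1 : ℝ) / 10 ^ 12) ^ 2 * 10 ^ 18 ≤ 1 := by norm_num
        nlinarith

theorem BL_rr : BL P.Bx (fun x => P.rr x - P.be x • P.K ^ 2) (10 ^ 6 * P.δ ^ 2) := by
  have hδ := P.δ_pos
  have hμ := P.hμ
  have hτ := P.hτ
  have h1 := P.BL_neg 2 P.BL_FF0
  have h2 := BL.tsum P.BL_neg_term P.summable_geo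
  refine ((P.BL_be.smul (h1.add h2)).congr fun x hx => P.rr_eq hx).mono ?_
  have h3 := P.tsum_geo_le
  calc 12 * P.δ ^ 3 * ((4 / P.δ) ^ 2 * (4000 * P.δ)
        + ∑' n : ℕ, 800 * P.τ ^ 3 / P.δ ^ 2 * (1000 * P.δ / P.μ) ^ (n + 1))
      ≤ 12 * P.δ ^ 3 * ((4 / P.δ) ^ 2 * (4000 * P.δ) + 1600000 * P.τ ^ 3 / (P.δ * P.μ)) :=
        mul_le_mul_of_nonneg_left (by linarith) (by positivity)
    _ = 768000 * P.δ ^ 2 + 19200000 * (P.τ ^ 3 / P.μ) * P.δ ^ 2 := by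
        field_simp
        ring
    _ ≤ 768000 * P.δ ^ 2 + 19200000 * (1 / 10 ^ 30) * P.δ ^ 2 := by
        have := P.EstC_tau_cube_le
        have h5 : 0 ≤ P.δ ^ 2 := by positivity
        nlinarith
    _ ≤ 10 ^ 6 * P.δ ^ 2 := by
        have h5 : 0 ≤ P.δ ^ 2 := by positivity
        nlinarith

theorem BL_pp : BL P.Bx P.pp (100 * P.δ) := by
  have hδ := P.δ_pos
  have hμ := P.hμ
  have hτ := P.hτ
  have h1 := P.BL_Q 2 (P.BL_FF 0)
  have h2 := BL.tsum P.BL_pos_term P.summable_geo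
  refine ((P.BL_be.smul (h1.add h2)).congr fun x hx => P.pp_eq hx).mono ?_
  have h3 := P.tsum_geo_le
  calc 12 * P.δ ^ 3 * (P.δ⁻¹ ^ 2 * (2 * 2 ^ (0 + 2))
        + ∑' n : ℕ, 800 * P.τ ^ 3 / P.δ ^ 2 * (1000 * P.δ / P.μ) ^ (n + 1))
      ≤ 12 * P.δ ^ 3 * (P.δ⁻¹ ^ 2 * (2 * 2 ^ (0 + 2)) + 1600000 * P.τ ^ 3 / (P.δ * P.μ)) :=
        mul_le_mul_of_nonneg_left (by linarith) (by positivity)
    _ = 96 * P.δ + 19200000 * (P.τ ^ 3 / P.μ) * P.δ * P.δ := by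
        field_simp
        ring
    _ ≤ 96 * P.δ + 19200000 * (1 / 10 ^ 30) * 1 * P.δ := by
        have h4 := P.EstC_tau_cube_le
        have h5 : P.δ ≤ 1 := P.δ_le.trans (by norm_num)
        have h6 : (P.τ ^ 3 / P.μ) * P.δ ≤ 1 / 10 ^ 30 * 1 :=
          mul_le_mul h4 h5 hδ.le (by positivity)
        nlinarith
    _ ≤ 100 * P.δ := by nlinarith

theorem cf_zero_rr {x : P.E} (hx : x ∈ P.Bx) : cf 0 (P.rr x) = 0 := by
  have hz : ‖(0 : ℂ)‖ ≤ Rw P.t := by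
    rw [norm_zero]
    exact (Rw_pos _).le
  have h0 : ∀ f : P.A, ev 0 f = (cf 0 f : ℂ) := by
    intro f
    unfold ev
    rw [tsum_eq_single 0 (fun n hn => by rw [zero_pow hn, mul_zero]), pow_zero, mul_one]
  have h1 : ev 0 (P.rr x) = 0 := by
    unfold rr
    rw [ev_smul, ev_tsum hz (P.summable_neg hx)]
    have h2 : ∀ n, ev 0 (P.an n x • P.neg (n + 2) (P.FF n x)) = 0 := by
      intro n
      rw [h0, cf_smul, P.cf_neg_zero, mul_zero, Complex.ofReal_zero]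
    simp only [h2, tsum_zero, mul_zero]
  rw [h0] at h1
  exact_mod_cast h1

end Par

end Serrin
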