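import Pool.Agent.Lib.MP_2fa8c7_an.EstB

set_option autoImplicit false

/-!
# MP_2fa8c7_an: estimates III (`r`, `p`)
-/

namespace Serrin

open Finset WA

namespace Par

variable (P : Par)

theorem BL_FF (n : ℕ) : BL P.Bx (P.FF n) (2 * 2 ^ (n + 2)) :=
  P.BL_HH.mul (P.BL_Mi'.pow (n + 2))

theorem BL_FF0 : BL P.Bx (fun x => P.FF 0 x - 1) (4000 * P.δ) := by
  have h1 := P.BL_eta.mul (P.BL_Mi'.pow 2)
  have h2 : BL P.Bx (fun x => P.Mi x + 1) (2 + 1) :=
    P.BL_Mi'.add (BL.const (y := (1 : P.A)) (by rw [norm_one]))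
  have h3 := P.BL_Mi.2.mul h2
  refine ((h1.add h3).congr fun x _ => ?_).mono ?_
  · unfold FF HH
    ring
  · have := P.δ_pos
    linarith

end Par

end Serrin
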