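import Pool.Agent.Lib.MP_2fa8c7_an.EstC1

set_option autoImplicit false

/-!
# MP_2fa8c7_an: estimates III (`r`, `p`)
-/

namespace Serrin

open Finset WA

namespace Par

variable (P : Par)

/-- terms of the series of the negative part -/
theorem BL_neg_term (n : ℕ) : BL P.Bx (fun x => P.an (n + 1) x • P.neg (n + 3) (P.FF (n + 1) x))
    (800 * P.τ ^ 3 / P.δ ^ 2 * (1000 * P.δ / P.μ) ^ (n + 1)) := by
  have hδ := P.δ_pos
  have hμ := P.hμ
  have hτ := P.hτ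
  refine ((P.BL_an n).smul (P.BL_neg (n + 3) (P.BL_FF (n + 1)))).mono ?_
  have e : 6 * P.τ ^ 3 * (96 * P.δ ^ 2 / P.μ) ^ (n + 1) * ((4 / P.δ) ^ (n + 3) *
      (2 * 2 ^ (n + 1 + 2))) = 768 * P.τ ^ 3 / P.δ ^ 2 * (768 * P.δ / P.μ) ^ (n + 1) := by
    have e1 : (768 * P.δ / P.μ) ^ (n + 1)
        = (96 * P.δ ^ 2 / P.μ) ^ (n + 1) * (4 / P.δ) ^ (n + 1) * 2 ^ (n + 1) := by
      rw [← mul_pow, ← mul_pow]
      congr 1
      field_simp
      ring
    have e2 : (4 / P.δ) ^ (n + 3) = (4 / P.δ) ^ (n + 1) * (16 / P.δ ^ 2) := by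
      rw [show n + 3 = (n + 1) + 2 by ring, pow_add, div_pow 4 P.δ 2]
      norm_num
    have e3 : (2 : ℝ) ^ (n + 1 + 2) = 2 ^ (n + 1) * 4 := by
      rw [pow_add]
      norm_num
    rw [e1, e2, e3]
    field_simp
    ring
  rw [e]
  refine mul_le_mul ?_ (pow_le_pow_left₀ (by positivity) ?_ _) (by positivity) (by positivity)
  · exact div_le_div_of_nonneg_right (mul_le_mul_of_nonneg_right (by norm_num) (by positivity))
      (by positivity)
  · exact div_le_div_of_nonneg_right (mul_le_mul_of_nonneg_right (by norm_num) hδ.le) hμ.le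

/-- terms of the series of the positive part -/
theorem BL_pos_term (n : ℕ) :
    BL P.Bx (fun x => P.an (n + 1) x • (P.Q)^[n + 3] (P.FF (n + 1) x))
    (800 * P.τ ^ 3 / P.δ ^ 2 * (1000 * P.δ / P.μ) ^ (n + 1)) := by
  have hδ := P.δ_pos
  have hμ := P.hμ
  have hτ := P.hτ
  refine ((P.BL_an n).smul (P.BL_Q (n + 3) (P.BL_FF (n + 1)))).mono ?_
  have e : 6 * P.τ ^ 3 * (96 * P.δ ^ 2 / P.μ) ^ (n + 1) * (P.δ⁻¹ ^ (n + 3) *
      (2 * 2 ^ (n + 1 + 2))) = 48 * P.τ ^ 3 / P.δ ^ 2 * (192 * P.δ / P.μ) ^ (n + 1) := by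
    have e1 : (192 * P.δ / P.μ) ^ (n + 1)
        = (96 * P.δ ^ 2 / P.μ) ^ (n + 1) * P.δ⁻¹ ^ (n + 1) * 2 ^ (n + 1) := by
      rw [← mul_pow, ← mul_pow]
      congr 1
      field_simp
      ring
    have e2 : P.δ⁻¹ ^ (n + 3) = P.δ⁻¹ ^ (n + 1) * (1 / P.δ ^ 2) := by
      rw [show n + 3 = (n + 1) + 2 by ring, pow_add, inv_pow P.δ 2, one_div]
    have e3 : (2 : ℝ) ^ (n + 1 + 2) = 2 ^ (n + 1) * 4 := by
      rw [pow_add]
      norm_num
    rw [e1, e2, e3]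
    field_simp
    ring
  rw [e]
  refine mul_le_mul ?_ (pow_le_pow_left₀ (by positivity) ?_ _) (by positivity) (by positivity)
  · exact div_le_div_of_nonneg_right (mul_le_mul_of_nonneg_right (by norm_num) (by positivity))
      (by positivity)
  · exact div_le_div_of_nonneg_right (mul_le_mul_of_nonneg_right (by norm_num) hδ.le) hμ.le

theorem EstC2_ratio_le : 1000 * P.δ / P.μ ≤ 1 / 10 ^ 9 := by
  rw [div_le_div_iff₀ P.hμ (by positivity)]
  have := P.δ_le_μ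
  linarith

theorem EstC2_ratio_nonneg : 0 ≤ 1000 * P.δ / P.μ := by
  have := P.δ_pos
  have := P.hμ
  positivity

theorem summable_geo : Summable fun n : ℕ =>
    800 * P.τ ^ 3 / P.δ ^ 2 * (1000 * P.δ / P.μ) ^ (n + 1) := by
  have h1 : 1000 * P.δ / P.μ < 1 := lt_of_le_of_lt P.EstC2_ratio_le (by norm_num)
  simp only [pow_succ]
  exact ((summable_geometric_of_lt_one P.EstC2_ratio_nonneg h1).mul_right _).mul_left _

theorem tsum_geo_le : ∑' n : ℕ, 800 * P.τ ^ 3 / P.δ ^ 2 * (1000 * P.δ / P.μ) ^ (n + 1)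
    ≤ 1600000 * P.τ ^ 3 / (P.δ * P.μ) := by
  have hδ := P.δ_pos
  have hμ := P.hμ
  have hτ := P.hτ
  have h1 : 1000 * P.δ / P.μ < 1 := lt_of_le_of_lt P.EstC2_ratio_le (by norm_num)
  have h0 := P.EstC2_ratio_nonneg
  simp only [pow_succ]
  rw [tsum_mul_left, tsum_mul_right, tsum_geometric_of_lt_one h0 h1]
  have h2 : (1 - 1000 * P.δ / P.μ)⁻¹ ≤ 2 := by
    rw [inv_le_comm₀ (by linarith) (by norm_num)]
    have := P.EstC2_ratio_le
    have h3 : (1 : ℝ) / 10 ^ 9 ≤ 1 / 2 := by norm_num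
    linarith
  calc 800 * P.τ ^ 3 / P.δ ^ 2 * ((1 - 1000 * P.δ / P.μ)⁻¹ * (1000 * P.δ / P.μ))
      ≤ 800 * P.τ ^ 3 / P.δ ^ 2 * (2 * (1000 * P.δ / P.μ)) :=
        mul_le_mul_of_nonneg_left (mul_le_mul_of_nonneg_right h2 h0) (by positivity)
    _ = 1600000 * P.τ ^ 3 / (P.δ * P.μ) := by
        field_simp
        ring

end Par

end Serrin
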