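import Pool.Agent.Lib.MP_2fa8c7_an.EstC

set_option autoImplicit false

/-!
# MP_2fa8c7_an: estimates IV (the component `θ`)
-/

namespace Serrin

open Finset WA

namespace Par

variable (P : Par)

private lemma estD_I {F : P.E → P.A} {a : ℝ} (hF : BL P.Bx F a) :
    BL P.Bx (fun x => P.I (F x)) (2 * a) :=
  hF.map (by norm_num) (fun y => P.colI.norm_op_le y) (fun y y' => map_sub P.I y y')

private lemma estD_L {F : P.E → P.A} {a : ℝ} (hF : BL P.Bx F a) :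
    BL P.Bx (fun x => P.L (F x)) (6 * a) :=
  hF.map (by norm_num) (fun y => P.colL.norm_op_le y) (fun y y' => map_sub P.L y y')

theorem BL_II : BL P.Bx P.II (800 * P.δ) := by
  have h1 : BL P.Bx (fun x => P.eta x + P.eta x) (180 * P.δ + 180 * P.δ) := P.BL_eta.add P.BL_eta
  have h2 : BL P.Bx (fun x => P.eta x ^ 2) ((180 * P.δ) ^ 2) := P.BL_eta.pow 2
  have h3 := P.estD_I (h1.add h2)
  refine (h3.congr fun x _ => ?_).mono ?_
  · unfold II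
    rw [two_mul]
  · have hd := P.δ_pos
    have hd1 := P.δ_le
    nlinarith [mul_le_mul_of_nonneg_left hd1 hd.le]

theorem BL_QQ : BL P.Bx P.QQ (10 ^ 6 * P.δ ^ 2) := by
  have h2 : BL P.Bx (fun x => P.eta x ^ 2) ((180 * P.δ) ^ 2) := P.BL_eta.pow 2
  have h3 := P.estD_I h2
  have h4 := P.BL_Tz P.BL_eta P.BL_II
  have h5 : BL P.Bx (fun _ : P.E => (1 / 2 : ℝ)) (1 / 2) := BL.const (by norm_num)
  refine ((h5.smul (h3.add h4)).congr fun x _ => rfl).mono ?_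
  nlinarith [sq_nonneg P.δ]

theorem ga_eq (x : P.E) :
    P.ga x = cf 1 (P.rr x - P.be x • P.K ^ 2) - cf 1 (P.QQ x) := by
  unfold ga
  rw [cf_sub, cf_smul, P.cf_K_sq]
  simp

theorem BL_ga : BL P.Bx P.ga (2 * 10 ^ 6 * P.δ ^ 2) := by
  have h1 := (P.BL_cf 1 P.BL_rr).sub (P.BL_cf 1 P.BL_QQ)
  exact (h1.congr fun x _ => P.ga_eq x).mono (by linarith)

theorem BL_tN : BL P.Bx P.tN (1 / 12) := by
  have hd := P.δ_pos
  have hX : BL P.Bx (fun _ : P.E => (X : P.A)) 2 := by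
    refine BL.const ?_
    rw [norm_X]
    linarith [P.R_le]
  have h1 := P.BL_ga.smul (hX.mul P.BL_eta)
  have h2 := P.estD_L ((P.BL_rr.sub P.BL_QQ).sub h1)
  have h3 : BL P.Bx (fun _ : P.E => (P.τ ^ 7)⁻¹) ((P.τ ^ 7)⁻¹) := by
    refine BL.const ?_
    rw [norm_inv, norm_pow, Real.norm_eq_abs, abs_of_pos P.hτ]
  refine ((h3.smul h2).congr fun x _ => rfl).mono ?_
  have hτ := P.hτ
  have hδ1 : P.δ ≤ 1 / 1000 := P.δ_le.trans (by norm_num)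
  have h4 : 6 * (10 ^ 6 * P.δ ^ 2 + 10 ^ 6 * P.δ ^ 2 + 2 * 10 ^ 6 * P.δ ^ 2 * (2 * (180 * P.δ)))
      ≤ 10 ^ 8 * P.δ ^ 2 := by
    have : P.δ ^ 2 * P.δ ≤ P.δ ^ 2 * (1 / 1000) := mul_le_mul_of_nonneg_left hδ1 (sq_nonneg _)
    nlinarith [sq_nonneg P.δ]
  have h5 : P.δ ^ 2 = P.τ ^ 7 * P.τ := by unfold δ; ring
  calc (P.τ ^ 7)⁻¹ * (6 * (10 ^ 6 * P.δ ^ 2 + 10 ^ 6 * P.δ ^ 2 +
        2 * 10 ^ 6 * P.δ ^ 2 * (2 * (180 * P.δ))))
      ≤ (P.τ ^ 7)⁻¹ * (10 ^ 8 * P.δ ^ 2) := mul_le_mul_of_nonneg_left h4 (by positivity)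
    _ = 10 ^ 8 * P.τ := by
        rw [h5]
        field_simp
    _ ≤ 1 / 12 := by
        have := P.τ_le
        have h6 : (10 : ℝ) ^ 8 * (1 / 10 ^ 12) ≤ 1 / 12 := by norm_num
        calc (10 : ℝ) ^ 8 * P.τ ≤ 10 ^ 8 * (1 / 10 ^ 12) := by linarith
          _ ≤ 1 / 12 := h6

end Par

end Serrin
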