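import Pool.Agent.Lib.MP_2fa8c7_an.EstE2

set_option autoImplicit false

/-!
# MP_2fa8c7_an: estimates V (the component `s`)
-/

namespace Serrin

open Finset WA

namespace Par

variable (P : Par)

/-- the higher terms -/
theorem BL_cf2_term (n : ℕ) : BL P.Bx (fun x => P.an (n + 1) x *
    cf 2 (P.neg (n + 3) (P.FF (n + 1) x)))
    (200 * P.τ ^ 3 / P.δ * (200 * P.δ / P.μ) ^ (n + 1)) := by
  have hδ0 := P.δ_pos
  have hτ0 := P.hτ
  have hμ0 := P.hμ
  have h1 : BL P.Bx (fun x => cf 2 (P.neg (n + 3) (P.FF (n + 1) x)))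
      (2 * P.δ⁻¹ ^ (n + 2) * (2 * 2 ^ (n + 1 + 2))) := by
    refine (P.BL_FF (n + 1)).map (L := fun F => cf 2 (P.neg (n + 3) F)) (by positivity)
      (fun F => ?_) (fun F G => ?_)
    · exact P.abs_cf_neg_two_le (n + 1) F
    · show cf 2 (P.neg (n + 3) (F - G)) = _
      rw [neg_sub, cf_sub]
  refine ((P.BL_an n).mul h1).mono ?_
  have e1 : 6 * P.τ ^ 3 * (96 * P.δ ^ 2 / P.μ) ^ (n + 1) *
      (2 * P.δ⁻¹ ^ (n + 2) * (2 * 2 ^ (n + 1 + 2)))
      = 96 * P.τ ^ 3 / P.δ * (192 * P.δ / P.μ) ^ (n + 1) := by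
    have e2 : 192 * P.δ / P.μ = (96 * P.δ ^ 2 / P.μ) * P.δ⁻¹ * 2 := by
      field_simp
      norm_num
    rw [e2, mul_pow, mul_pow, pow_succ P.δ⁻¹ (n + 1), pow_add 2 (n + 1) 2]
    field_simp
    ring
  rw [e1]
  have e3 : 192 * P.δ / P.μ ≤ 200 * P.δ / P.μ := by
    apply div_le_div_of_nonneg_right _ hμ0.le
    linarith
  have e4 : 96 * P.τ ^ 3 / P.δ ≤ 200 * P.τ ^ 3 / P.δ := by
    apply div_le_div_of_nonneg_right _ hδ0.le
    have := pow_pos hτ0 3
    linarith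
  exact mul_le_mul e4 (pow_le_pow_left₀ (by positivity) e3 _) (by positivity) (by positivity)

private lemma EstE_ratio : 200 * P.δ / P.μ ≤ 1 / 2 := by
  rw [div_le_iff₀ P.hμ]
  have := P.δ_le_μ
  have h2 := P.δ_pos
  have : P.δ * 400 ≤ P.δ * 10 ^ 12 := mul_le_mul_of_nonneg_left (by norm_num) h2.le
  linarith

private lemma EstE_summable :
    Summable fun n : ℕ => 200 * P.τ ^ 3 / P.δ * (200 * P.δ / P.μ) ^ (n + 1) := by
  have h0 : 0 ≤ 200 * P.δ / P.μ := div_nonneg (by linarith [P.δ_pos]) P.hμ.le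
  have h1 : 200 * P.δ / P.μ < 1 := by linarith [P.EstE_ratio]
  simp only [pow_succ]
  exact ((summable_geometric_of_lt_one h0 h1).mul_right _).mul_left _

private lemma EstE_sum_le :
    ∑' n : ℕ, 200 * P.τ ^ 3 / P.δ * (200 * P.δ / P.μ) ^ (n + 1) ≤ P.τ / 10 ^ 3 := by
  have hδ0 := P.δ_pos
  have hτ0 := P.hτ
  have hμ0 := P.hμ
  have h0 : 0 ≤ 200 * P.δ / P.μ := div_nonneg (by linarith [P.δ_pos]) P.hμ.le
  have h1 : 200 * P.δ / P.μ < 1 := by linarith [P.EstE_ratio]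
  simp only [pow_succ]
  rw [tsum_mul_left, tsum_mul_right, tsum_geometric_of_lt_one h0 h1]
  have h3 : (1 - 200 * P.δ / P.μ)⁻¹ ≤ 2 := by
    rw [inv_le_comm₀ (by linarith) (by norm_num)]
    linarith [P.EstE_ratio]
  calc 200 * P.τ ^ 3 / P.δ * ((1 - 200 * P.δ / P.μ)⁻¹ * (200 * P.δ / P.μ))
      ≤ 200 * P.τ ^ 3 / P.δ * (2 * (200 * P.δ / P.μ)) := by
        refine mul_le_mul_of_nonneg_left ?_ (by positivity)
        exact mul_le_mul_of_nonneg_right h3 h0
    _ = 80000 * P.τ ^ 3 / P.μ := by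
        field_simp
        norm_num
    _ ≤ P.τ / 10 ^ 3 := by
        rw [div_le_div_iff₀ hμ0 (by norm_num)]
        have h4 : P.τ ^ 2 ≤ P.τ / 10 ^ 12 := by
          calc P.τ ^ 2 = P.τ * P.τ := by ring
            _ ≤ (1 / 10 ^ 12) * P.τ := mul_le_mul_of_nonneg_right P.τ_le hτ0.le
            _ = P.τ / 10 ^ 12 := by ring
        have h5 : P.τ ^ 2 * 10 ^ 8 ≤ P.μ := by
          have h6 := P.hs
          have h7 : P.τ / 10 ^ 12 * 10 ^ 8 ≤ P.τ * 10 ^ 12 := by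
            have : P.τ / 10 ^ 12 * 10 ^ 8 = P.τ * (1 / 10 ^ 4) := by ring
            rw [this]
            exact mul_le_mul_of_nonneg_left (by norm_num) hτ0.le
          linarith
        calc 80000 * P.τ ^ 3 * 10 ^ 3 = P.τ * (P.τ ^ 2 * (80000 * 10 ^ 3)) := by ring
          _ ≤ P.τ * (P.τ ^ 2 * 10 ^ 8) := by
              refine mul_le_mul_of_nonneg_left ?_ hτ0.le
              exact mul_le_mul_of_nonneg_left (by norm_num) (by positivity)
          _ ≤ P.τ * P.μ := mul_le_mul_of_nonneg_left h5 hτ0.le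

theorem BL_cf2_sum : BL P.Bx (fun x => ∑' n, P.an (n + 1) x *
    cf 2 (P.neg (n + 3) (P.FF (n + 1) x))) (P.τ / 10 ^ 3) :=
  (BL.tsum P.BL_cf2_term P.EstE_summable).mono P.EstE_sum_le

/-- the coefficient as a continuous linear map -/
private noncomputable def EstE_cfL (n : ℕ) : P.A →L[ℝ] ℝ :=
  LinearMap.mkContinuous
    { toFun := fun f => cf n f
      map_add' := fun f g => cf_add n f g
      map_smul' := fun c f => cf_smul n c f } 1
    (fun f => by rw [one_mul]; exact abs_cf_le n f)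

theorem cf_two_rr {x : P.E} (hx : x ∈ P.Bx) : cf 2 (P.rr x) * (P.be x)⁻¹ =
    cf 2 (P.neg 2 (P.FF 0 x))
      + ∑' n, P.an (n + 1) x * cf 2 (P.neg (n + 3) (P.FF (n + 1) x)) := by
  have hb : P.be x ≠ 0 := (P.be_neg hx).ne
  have hs := P.summable_neg hx
  have h1 : cf 2 (∑' n, P.an n x • P.neg (n + 2) (P.FF n x))
      = ∑' n, P.an n x * cf 2 (P.neg (n + 2) (P.FF n x)) := by
    have h2 := (P.EstE_cfL 2).map_tsum hs
    have h3 : ∀ f : P.A, P.EstE_cfL 2 f = cf 2 f := fun _ => rfl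
    simp only [h3] at h2
    rw [h2]
    exact tsum_congr fun n => cf_smul _ _ _
  have hs2 : Summable fun n => P.an n x * cf 2 (P.neg (n + 2) (P.FF n x)) := by
    have h2 := (P.EstE_cfL 2).summable hs
    refine h2.congr fun n => ?_
    exact cf_smul _ _ _
  unfold rr
  rw [cf_smul, mul_assoc, mul_comm, mul_assoc, inv_mul_cancel₀ hb, mul_one, h1,
    hs2.tsum_eq_zero_add, P.an_zero hx, one_mul]

end Par

end Serrin
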