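import Pool.Agent.Lib.MP_2fa8c7_an.EstC

set_option autoImplicit false

/-!
# MP_2fa8c7_an: estimates V (the component `s`)
-/

namespace Serrin

open Finset WA

namespace Par

variable (P : Par)

private lemma EstE1_evq_MM (x : P.E) : P.evq (P.MM x) = P.evq (P.HH x) ^ 2 := by
  unfold MM
  rw [evq_N, pow_two, evq_mul, pow_two]

private lemma EstE1_evq_Q_MM (x : P.E) :
    P.evq (P.Q (P.MM x)) = P.evq (P.HH x) * P.evq (P.Q (P.HH x)) := by
  unfold MM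
  rw [evq_Q_N, pow_two, evq_Q_mul]
  ring

private lemma EstE1_Q_one : P.Q (1 : P.A) = 0 := by
  have := P.Q_algebraMap 1
  rwa [map_one] at this

/-- exact first term of the second coefficient -/
theorem cf_two_neg_FF0 {x : P.E} (hx : x ∈ P.Bx) : cf 2 (P.neg 2 (P.FF 0 x)) =
    (P.evq (P.HH x))⁻¹ ^ 3
      - P.q * P.evq (P.Q (P.HH x)) * (P.evq (P.HH x))⁻¹ ^ 4 := by
  have hMi : P.Mi x * P.MM x = 1 := Ring.inverse_mul_cancel _ (P.BL_Mi.1 x hx)
  have h1 : P.evq (P.Mi x) * P.evq (P.HH x) ^ 2 = 1 := by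
    rw [← EstE1_evq_MM, ← evq_mul, hMi, evq_one]
  have hne : P.evq (P.HH x) ≠ 0 := by
    intro h
    rw [h] at h1
    norm_num at h1
  have h2 : P.evq (P.Q (P.Mi x)) * P.evq (P.HH x) ^ 2
      + P.evq (P.Mi x) * (P.evq (P.HH x) * P.evq (P.Q (P.HH x))) = 0 := by
    rw [← EstE1_evq_MM, ← EstE1_evq_Q_MM, ← evq_Q_mul, hMi, EstE1_Q_one, map_zero]
  have e1 : P.evq (P.Mi x) = (P.evq (P.HH x))⁻¹ ^ 2 := by
    rw [inv_pow]
    exact eq_inv_of_mul_eq_one_left h1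
  have e2 : P.evq (P.Q (P.Mi x)) = - P.evq (P.Q (P.HH x)) * (P.evq (P.HH x))⁻¹ ^ 3 := by
    rw [e1] at h2
    have h3 : P.evq (P.Q (P.Mi x)) = - ((P.evq (P.HH x))⁻¹ ^ 2 *
        (P.evq (P.HH x) * P.evq (P.Q (P.HH x)))) * ((P.evq (P.HH x))⁻¹ ^ 2) := by
      rw [← eq_neg_iff_add_eq_zero] at h2
      rw [← h2, mul_assoc, ← mul_pow, mul_inv_cancel₀ hne, one_pow, mul_one]
    rw [h3]
    field_simp
  have e3 := P.cf_neg_two 0 (P.FF 0 x)
  rw [zero_add] at e3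
  rw [e3]
  simp only [Function.iterate_zero, id_eq, zero_add, Function.iterate_one]
  unfold FF
  rw [zero_add, evq_mul, evq_Q_mul, pow_two (P.Mi x), evq_mul, evq_Q_mul, e1, e2]
  field_simp
  ring

theorem q_evq_Q_HH (x : P.E) :
    P.q * P.evq (P.Q (P.HH x)) = x.1 + P.τ ^ 7 * (P.q * P.evq (P.Q x.2.1)) := by
  have h := P.q_mul_evq_Q_Y
  unfold HH eta
  rw [map_add, EstE1_Q_one, zero_add, map_add, map_add, map_smul, map_smul, map_smul, map_smul,
    smul_eq_mul, smul_eq_mul]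
  linear_combination x.1 * h

end Par

end Serrin
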