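import Pool.Agent.Lib.MP_2fa8c7_an.EstE1

set_option autoImplicit false

/-!
# MP_2fa8c7_an: estimates V (the component `s`)
-/

namespace Serrin

open Finset WA

namespace Par

variable (P : Par)

/-- `1 / H(q)` -/
theorem BL_hq : BL P.Bx (fun x => (P.evq (P.HH x))⁻¹ - 1) (400 * P.δ) := by
  have h1 : BL P.Bx (fun x => P.evq (P.HH x) - 1) (180 * P.δ) := by
    refine (P.BL_evq P.BL_eta).congr fun x _ => ?_
    unfold HH
    rw [map_add, evq_one, add_sub_cancel_left]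
  have hδ := P.δ_le
  have hδ0 := P.δ_pos
  have h2 : 180 * P.δ ≤ 1 / 2 := by
    have h : (1 : ℝ) / 10 ^ 48 ≤ 1 / 1000 := by norm_num
    linarith
  refine ((BL.inverse h1 h2).2.congr fun x _ => ?_).mono (by linarith)
  rw [Ring.inverse_eq_inv]

theorem BL_main : BL P.Bx (fun x => x.1 - 1 + ((P.evq (P.HH x))⁻¹ ^ 3
      - P.q * P.evq (P.Q (P.HH x)) * (P.evq (P.HH x))⁻¹ ^ 4)) (P.τ / 10 ^ 3) := by
  have hδ := P.δ_le
  have hδ0 := P.δ_pos
  have hδτ := P.δ_le_τ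
  have hτ0 := P.hτ
  have hτ1 := P.τ_le
  have hd := P.BL_hq
  have hh : BL P.Bx (fun x => (P.evq (P.HH x))⁻¹) 2 := by
    have h0 : BL P.Bx (fun _ : P.E => (1 : ℝ)) 1 := BL.const (by simp)
    refine ((hd.add h0).congr fun x _ => ?_).mono ?_
    · ring
    · have h : (1 : ℝ) / 10 ^ 48 ≤ 1 / 1000 := by norm_num
      linarith
  have h0 : BL P.Bx (fun _ : P.E => (1 : ℝ)) 1 := BL.const (by simp)
  have hh2 := hh.pow 2
  have hh3 := hh.pow 3
  have hh4 := hh.pow 4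
  have hA := hd.mul ((hh2.add hh).add h0)
  have hB := P.BL_s.mul (hd.mul (((hh3.add hh2).add hh).add h0))
  have hq : BL P.Bx (fun _ : P.E => P.τ ^ 7 * P.q) (P.τ ^ 7) := by
    refine BL.const ?_
    rw [Real.norm_eq_abs, abs_of_pos (mul_pos (pow_pos hτ0 7) P.q_pos)]
    exact mul_le_of_le_one_right (pow_pos hτ0 7).le P.q_lt_one.le
  have hC := hq.mul ((P.BL_evq (P.BL_Q 1 P.BL_th)).mul hh4)
  refine (((hA.sub hB).sub hC).congr fun x _ => ?_).mono ?_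
  · rw [q_evq_Q_HH]
    simp only [Function.iterate_one]
    ring
  · have e1 : P.τ ^ 7 * (P.δ⁻¹ ^ 1 * (3 / 2) * 2 ^ 4) = 24 * P.τ ^ 3 := by
      have : P.δ = P.τ ^ 4 := rfl
      rw [this]
      field_simp
      norm_num
    rw [e1]
    have e2 : P.τ ^ 3 ≤ P.τ / 10 ^ 24 := by
      calc P.τ ^ 3 = P.τ ^ 2 * P.τ := by ring
        _ ≤ (1 / 10 ^ 12) ^ 2 * P.τ :=
          mul_le_mul_of_nonneg_right (pow_le_pow_left₀ hτ0.le hτ1 2) hτ0.le
        _ = P.τ / 10 ^ 24 := by ring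
    have e3 : P.τ / 10 ^ 24 ≤ P.τ / 10 ^ 10 := by
      apply div_le_div_of_nonneg_left hτ0.le (by norm_num) (by norm_num)
    have e4 : P.τ / 10 ^ 36 ≤ P.τ / 10 ^ 10 := by
      apply div_le_div_of_nonneg_left hτ0.le (by norm_num) (by norm_num)
    have e5 : P.δ ≤ P.τ / 10 ^ 10 := hδτ.trans e4
    have e6 : P.τ ^ 3 ≤ P.τ / 10 ^ 10 := e2.trans e3
    have e7 : P.τ / 10 ^ 3 = 10 ^ 7 * (P.τ / 10 ^ 10) := by ring
    rw [e7]
    have e8 : 0 < P.τ / 10 ^ 10 := by positivity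
    norm_num at e5 e6 e8 ⊢
    linarith

end Par

end Serrin
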