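import Pool.Agent.Lib.MP_2fa8c7_an.EstF2

set_option autoImplicit false

/-!
# MP_2fa8c7_an: estimates VI (the quadratic term in the component `s`)
-/

namespace Serrin

open Finset WA

namespace Par

variable (P : Par)

theorem BL_sN : BL P.Bx (fun x => P.sN x - 1) (1 / 12) := by
  have hδ := P.δ_pos
  have hτ := P.hτ
  have h3 : BL P.Bx (fun x => (1 / 2 : ℝ) * (P.Bf (P.eta x) (2 * P.eta x + P.eta x ^ 2)
      * (P.be x)⁻¹)) (1 / 2 * (10 ^ 6 * P.τ ^ 14 * (50 / P.δ ^ 3))) :=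
    (BL.const (B := P.Bx) (y := (1 / 2 : ℝ)) (a := 1 / 2)
      (by rw [Real.norm_eq_abs, abs_of_pos (by norm_num)])).mul (P.BL_Bf.mul P.BL_be_inv)
  refine (((P.BL_main.add P.BL_cf2_sum).sub h3).congr fun x hx => ?_).mono ?_
  · unfold sN
    rw [sub_mul, P.cf_two_rr hx, P.cf_two_neg_FF0 hx]
    have : cf 2 (P.Tz (P.eta x) (P.II x)) = P.Bf (P.eta x) (2 * P.eta x + P.eta x ^ 2) :=
      P.cf_two_Tz_I _ _
    rw [this]
    ring
  · have e : 1 / 2 * (10 ^ 6 * P.τ ^ 14 * (50 / P.δ ^ 3)) = 25 * 10 ^ 6 * P.τ ^ 2 := by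
      unfold δ
      field_simp
      ring
    rw [e]
    have h1 := P.τ_le
    have h2 : P.τ ^ 2 ≤ P.τ * (1 / 10 ^ 12) := by
      rw [sq]
      exact mul_le_mul_of_nonneg_left h1 hτ.le
    have h4 : (1 : ℝ) / 10 ^ 12 ≤ 1 / 1000 := by norm_num
    nlinarith

end Par

end Serrin
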