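import Pool.Agent.Lib.MP_2fa8c7_an.EstD
import Pool.Agent.Lib.MP_2fa8c7_an.EstE

set_option autoImplicit false

/-!
# MP_2fa8c7_an: estimates VI (the quadratic term in the component `s`)
-/

namespace Serrin

open Finset WA

namespace Par

variable (P : Par)

/-- the bilinear form `∑ a_k b_{k+1} / (k+2)` -/
noncomputable def Bf (a b : P.A) : ℝ := ∑' k, cf k a * cf (k + 1) b / ((k : ℝ) + 2)

private lemma EstF1_summable_abs (a : P.A) : Summable fun k : ℕ => |cf k a| :=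
  Summable.of_nonneg_of_le (fun _ => abs_nonneg _)
    (fun k => le_mul_of_one_le_right (abs_nonneg _) (one_le_pow₀ (one_le_Rw P.t))) a.summable

private lemma EstF1_tsum_abs_le (a : P.A) : ∑' k : ℕ, |cf k a| ≤ ‖a‖ := by
  rw [norm_def]
  exact (P.EstF1_summable_abs a).tsum_le_tsum
    (fun k => le_mul_of_one_le_right (abs_nonneg _) (one_le_pow₀ (one_le_Rw P.t))) a.summable

private lemma EstF1_summable_abs_succ (a : P.A) : Summable fun k : ℕ => |cf (k + 1) a| :=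
  (summable_nat_add_iff 1).2 (P.EstF1_summable_abs a)

private lemma EstF1_tsum_abs_succ_le (a : P.A) : ∑' k : ℕ, |cf (k + 1) a| ≤ ‖a‖ := by
  refine le_trans ?_ (P.EstF1_tsum_abs_le a)
  rw [(P.EstF1_summable_abs a).tsum_eq_zero_add]
  linarith [abs_nonneg (cf 0 a)]

private lemma EstF1_term_le (a b : P.A) (k : ℕ) :
    ‖cf k a * cf (k + 1) b / ((k : ℝ) + 2)‖ ≤ |cf k a| * ‖b‖ := by
  have hk : (0 : ℝ) < (k : ℝ) + 2 := by positivity
  rw [norm_div, norm_mul, Real.norm_eq_abs, Real.norm_eq_abs, Real.norm_eq_abs, abs_of_pos hk,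
    div_le_iff₀ hk]
  have h1 := abs_cf_le (k + 1) b
  have h2 : (1 : ℝ) ≤ (k : ℝ) + 2 := by linarith [Nat.cast_nonneg (α := ℝ) k]
  calc |cf k a| * |cf (k + 1) b| ≤ |cf k a| * ‖b‖ :=
        mul_le_mul_of_nonneg_left h1 (abs_nonneg _)
    _ ≤ |cf k a| * ‖b‖ * ((k : ℝ) + 2) :=
        le_mul_of_one_le_right (mul_nonneg (abs_nonneg _) (norm_nonneg _)) h2

theorem Bf_summable (a b : P.A) :
    Summable fun k : ℕ => cf k a * cf (k + 1) b / ((k : ℝ) + 2) :=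
  Summable.of_norm_bounded ((P.EstF1_summable_abs a).mul_right ‖b‖) (P.EstF1_term_le a b)

theorem cf_two_Tz_I (a b : P.A) : cf 2 (P.Tz a (P.I b)) = P.Bf a b := by
  rw [cf_Tz]
  unfold Bf
  refine tsum_congr fun k => ?_
  rw [show k + 2 = (k + 1) + 1 by omega, cf_I_succ]
  push_cast
  rw [show (k : ℝ) + 1 + 1 = k + 2 by ring]
  ring

/-- `a ∈ Lip` with small coefficients `|a_k| ≤ c (k + 2)` -/
theorem abs_Bf_le_left {a b : P.A} {c : ℝ} (hc : 0 ≤ c)
    (ha : ∀ k, |cf k a| ≤ c * ((k : ℝ) + 2)) : |P.Bf a b| ≤ c * ‖b‖ := by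
  have h1 : ∀ k : ℕ, ‖cf k a * cf (k + 1) b / ((k : ℝ) + 2)‖ ≤ c * |cf (k + 1) b| := by
    intro k
    have hk : (0 : ℝ) < (k : ℝ) + 2 := by positivity
    rw [norm_div, norm_mul, Real.norm_eq_abs, Real.norm_eq_abs, Real.norm_eq_abs, abs_of_pos hk,
      div_le_iff₀ hk]
    calc |cf k a| * |cf (k + 1) b| ≤ c * ((k : ℝ) + 2) * |cf (k + 1) b| :=
          mul_le_mul_of_nonneg_right (ha k) (abs_nonneg _)
      _ = c * |cf (k + 1) b| * ((k : ℝ) + 2) := by ring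
  have h2 := tsum_of_norm_bounded ((P.EstF1_summable_abs_succ b).mul_left c).hasSum h1
  rw [tsum_mul_left] at h2
  exact h2.trans (mul_le_mul_of_nonneg_left (P.EstF1_tsum_abs_succ_le b) hc)

theorem abs_Bf_le_right {a b : P.A} {c : ℝ} (hc : 0 ≤ c)
    (hb : ∀ k, |cf (k + 1) b| ≤ c * ((k : ℝ) + 2)) : |P.Bf a b| ≤ c * ‖a‖ := by
  have h1 : ∀ k : ℕ, ‖cf k a * cf (k + 1) b / ((k : ℝ) + 2)‖ ≤ c * |cf k a| := by
    intro k
    have hk : (0 : ℝ) < (k : ℝ) + 2 := by positivity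
    rw [norm_div, norm_mul, Real.norm_eq_abs, Real.norm_eq_abs, Real.norm_eq_abs, abs_of_pos hk,
      div_le_iff₀ hk]
    calc |cf k a| * |cf (k + 1) b| ≤ |cf k a| * (c * ((k : ℝ) + 2)) :=
          mul_le_mul_of_nonneg_left (hb k) (abs_nonneg _)
      _ = c * |cf k a| * ((k : ℝ) + 2) := by ring
  have h2 := tsum_of_norm_bounded ((P.EstF1_summable_abs a).mul_left c).hasSum h1
  rw [tsum_mul_left] at h2
  exact h2.trans (mul_le_mul_of_nonneg_left (P.EstF1_tsum_abs_le a) hc)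

theorem abs_Bf_le (a b : P.A) : |P.Bf a b| ≤ ‖a‖ * ‖b‖ := by
  have h2 := tsum_of_norm_bounded ((P.EstF1_summable_abs a).mul_right ‖b‖).hasSum
    (P.EstF1_term_le a b)
  rw [tsum_mul_right] at h2
  exact h2.trans (mul_le_mul_of_nonneg_right (P.EstF1_tsum_abs_le a) (norm_nonneg _))

private lemma EstF1_add_left (a a' b : P.A) : P.Bf (a + a') b = P.Bf a b + P.Bf a' b := by
  unfold Bf
  rw [← (P.Bf_summable a b).tsum_add (P.Bf_summable a' b)]
  exact tsum_congr fun k => by rw [cf_add]; ring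

private lemma EstF1_add_right (a b b' : P.A) : P.Bf a (b + b') = P.Bf a b + P.Bf a b' := by
  unfold Bf
  rw [← (P.Bf_summable a b).tsum_add (P.Bf_summable a b')]
  exact tsum_congr fun k => by rw [cf_add]; ring

private lemma EstF1_smul_left (c : ℝ) (a b : P.A) : P.Bf (c • a) b = c * P.Bf a b := by
  unfold Bf
  rw [← tsum_mul_left]
  exact tsum_congr fun k => by rw [cf_smul]; ring

private lemma EstF1_smul_right (c : ℝ) (a b : P.A) : P.Bf a (c • b) = c * P.Bf a b := by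
  unfold Bf
  rw [← tsum_mul_left]
  exact tsum_congr fun k => by rw [cf_smul]; ring

/-- splitting of the bilinear form at `η = s Y + τ⁷ θ` -/
theorem Bf_split (x : P.E) : P.Bf (P.eta x) (2 * P.eta x + P.eta x ^ 2) =
    x.1 * P.Bf P.Y (2 * P.eta x + P.eta x ^ 2)
      + (2 * P.τ ^ 7 * x.1) * P.Bf x.2.1 P.Y
      + P.τ ^ 7 * P.Bf x.2.1 ((2 * P.τ ^ 7) • x.2.1 + P.eta x ^ 2) := by
  have h1 : ∀ W : P.A, P.Bf (P.eta x) W = x.1 * P.Bf P.Y W + P.τ ^ 7 * P.Bf x.2.1 W := by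
    intro W
    unfold eta
    rw [EstF1_add_left, EstF1_smul_left, EstF1_smul_left]
  have h2 : 2 * P.eta x + P.eta x ^ 2 = (2 * x.1) • P.Y + ((2 * P.τ ^ 7) • x.2.1
      + P.eta x ^ 2) := by
    have h3 : (2 : P.A) * P.eta x = (2 * x.1) • P.Y + (2 * P.τ ^ 7) • x.2.1 := by
      unfold eta
      rw [mul_add, mul_smul, mul_smul, two_mul, two_mul, two_smul, two_smul]
    rw [h3, add_assoc]
  rw [h1]
  have h4 : P.Bf x.2.1 (2 * P.eta x + P.eta x ^ 2) = 2 * x.1 * P.Bf x.2.1 P.Y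
      + P.Bf x.2.1 ((2 * P.τ ^ 7) • x.2.1 + P.eta x ^ 2) := by
    rw [h2, EstF1_add_right, EstF1_smul_right]
  rw [h4]
  ring

end Par

end Serrin
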