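import Pool.Agent.Lib.MP_2fa8c7_an.EstF1

set_option autoImplicit false

/-!
# MP_2fa8c7_an: estimates VI (the quadratic term in the component `s`)
-/

namespace Serrin

open Finset WA

namespace Par

variable (P : Par)

private lemma EstF2_sub_right (a b b' : P.A) : P.Bf a (b - b') = P.Bf a b - P.Bf a b' := by
  rw [← cf_two_Tz_I, ← cf_two_Tz_I, ← cf_two_Tz_I, map_sub, map_sub, cf_sub]

private lemma EstF2_sub_left (a a' b : P.A) : P.Bf (a - a') b = P.Bf a b - P.Bf a' b := by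
  have h := (P.Bf_summable a b).tsum_sub (P.Bf_summable a' b)
  have e : ∀ k : ℕ, cf k (a - a') * cf (k + 1) b / ((k : ℝ) + 2)
      = cf k a * cf (k + 1) b / ((k : ℝ) + 2) - cf k a' * cf (k + 1) b / ((k : ℝ) + 2) := by
    intro k
    rw [cf_sub]
    ring
  unfold Bf
  rw [← h]
  exact tsum_congr e

private lemma EstF2_mul {F G : P.E → P.A} {a a' : ℝ} (hF : BL P.Bx F a) (hG : BL P.Bx G a') :
    BL P.Bx (fun x => P.Bf (F x) (G x)) (a * (2 * a')) := by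
  have h1 : BL P.Bx (fun x => P.I (G x)) (2 * a') :=
    hG.map (by norm_num) P.norm_I_le (fun y y' => map_sub P.I y y')
  exact (P.BL_cf 2 (P.BL_Tz hF h1)).congr fun x _ => (P.cf_two_Tz_I _ _).symm

private lemma EstF2_num {t : ℝ} (ht : 0 < t) (ht1 : t ≤ 1 / 10 ^ 12) :
    5 / 2 * (17 * (t ^ 4) ^ 3 * (180 * t ^ 4 + 180 * t ^ 4 + 180 * t ^ 4 * (180 * t ^ 4)))
      + (2 * t ^ 7) * (5 / 2) * (17 * (t ^ 4) ^ 3 * (3 / 2))
      + t ^ 7 * (3 / 2 * (2 * ((2 * t ^ 7) * (3 / 2) + 180 * t ^ 4 * (180 * t ^ 4))))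
      ≤ 10 ^ 6 * t ^ 14 := by
  have h1 : t ≤ 1 := ht1.trans (by norm_num)
  have h15 : t ^ 15 ≤ t ^ 14 * (1 / 10 ^ 12) := by
    rw [pow_succ]
    exact mul_le_mul_of_nonneg_left ht1 (by positivity)
  have h16 : t ^ 16 ≤ t ^ 15 := pow_le_pow_of_le_one ht.le h1 (by norm_num)
  have h19 : t ^ 19 ≤ t ^ 15 := pow_le_pow_of_le_one ht.le h1 (by norm_num)
  have h20 : t ^ 20 ≤ t ^ 15 := pow_le_pow_of_le_one ht.le h1 (by norm_num)
  have h14 : 0 < t ^ 14 := by positivity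
  have e : 5 / 2 * (17 * (t ^ 4) ^ 3 * (180 * t ^ 4 + 180 * t ^ 4 + 180 * t ^ 4 * (180 * t ^ 4)))
      + (2 * t ^ 7) * (5 / 2) * (17 * (t ^ 4) ^ 3 * (3 / 2))
      + t ^ 7 * (3 / 2 * (2 * ((2 * t ^ 7) * (3 / 2) + 180 * t ^ 4 * (180 * t ^ 4))))
      = 15300 * t ^ 16 + 1377000 * t ^ 20 + 255 / 2 * t ^ 19 + 9 * t ^ 14 + 97200 * t ^ 15 := by
    ring
  rw [e]
  linarith

theorem BL_Bf : BL P.Bx (fun x => P.Bf (P.eta x) (2 * P.eta x + P.eta x ^ 2))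
    (10 ^ 6 * P.τ ^ 14) := by
  have hδ := P.δ_pos
  have hτ := P.hτ
  have he := P.BL_eta
  have he2 : BL P.Bx (fun x => P.eta x ^ 2) (180 * P.δ * (180 * P.δ)) :=
    (he.mul he).congr fun x _ => by rw [sq]
  have h2e : BL P.Bx (fun x => 2 * P.eta x + P.eta x ^ 2)
      (180 * P.δ + 180 * P.δ + 180 * P.δ * (180 * P.δ)) :=
    ((he.add he).add he2).congr fun x _ => by rw [two_mul]
  have hY : ∀ k, |cf k P.Y| ≤ 17 * P.δ ^ 3 * ((k : ℝ) + 2) := fun k =>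
    (P.abs_cf_Y_le k).trans (mul_le_mul_of_nonneg_left (by linarith) (by positivity))
  have hY' : ∀ k, |cf (k + 1) P.Y| ≤ 17 * P.δ ^ 3 * ((k : ℝ) + 2) := fun k => by
    have := P.abs_cf_Y_le (k + 1)
    push_cast at this
    refine this.trans (le_of_eq ?_)
    ring
  have hc : 0 ≤ 17 * P.δ ^ 3 := by positivity
  have t1 : BL P.Bx (fun x => x.1 * P.Bf P.Y (2 * P.eta x + P.eta x ^ 2))
      (5 / 2 * (17 * P.δ ^ 3 * (180 * P.δ + 180 * P.δ + 180 * P.δ * (180 * P.δ)))) := by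
    refine P.BL_s.mul (h2e.map (L := fun b => P.Bf P.Y b) hc (fun b => ?_)
      (fun b b' => P.EstF2_sub_right _ _ _))
    exact P.abs_Bf_le_left hc hY
  have hs2 : BL P.Bx (fun x => 2 * P.τ ^ 7 * x.1) ((2 * P.τ ^ 7) * (5 / 2)) :=
    (BL.const (B := P.Bx) (y := 2 * P.τ ^ 7) (a := 2 * P.τ ^ 7)
      (by rw [Real.norm_eq_abs, abs_of_pos (by positivity)])).mul P.BL_s
  have t2 : BL P.Bx (fun x => (2 * P.τ ^ 7 * x.1) * P.Bf x.2.1 P.Y)
      ((2 * P.τ ^ 7) * (5 / 2) * (17 * P.δ ^ 3 * (3 / 2))) := by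
    refine hs2.mul (P.BL_th.map (L := fun a => P.Bf a P.Y) hc (fun a => ?_)
      (fun a a' => P.EstF2_sub_left _ _ _))
    exact P.abs_Bf_le_right hc hY'
  have hth2 : BL P.Bx (fun x => (2 * P.τ ^ 7) • x.2.1) ((2 * P.τ ^ 7) * (3 / 2)) :=
    (BL.const (B := P.Bx) (y := 2 * P.τ ^ 7) (a := 2 * P.τ ^ 7)
      (by rw [Real.norm_eq_abs, abs_of_pos (by positivity)])).smul P.BL_th
  have t3 : BL P.Bx (fun x => P.τ ^ 7 * P.Bf x.2.1 ((2 * P.τ ^ 7) • x.2.1 + P.eta x ^ 2))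
      (P.τ ^ 7 * (3 / 2 * (2 * ((2 * P.τ ^ 7) * (3 / 2) + 180 * P.δ * (180 * P.δ))))) :=
    (BL.const (B := P.Bx) (y := P.τ ^ 7) (a := P.τ ^ 7)
      (by rw [Real.norm_eq_abs, abs_of_pos (by positivity)])).mul
      (P.EstF2_mul P.BL_th (hth2.add he2))
  refine (((t1.add t2).add t3).congr fun x _ => P.Bf_split x).mono ?_
  exact EstF2_num hτ P.τ_le

end Par

end Serrin
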