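import Pool.Agent.Lib.MP_2fa8c7_an.EstD
import Pool.Agent.Lib.MP_2fa8c7_an.EstF

set_option autoImplicit false

/-!
# MP_2fa8c7_an: estimates VII (the component `Φ'`) and the fixed point
-/

namespace Serrin

open Finset WA

namespace Par

variable (P : Par)

private lemma EstG_norm_alg (c : ℝ) : ‖algebraMap ℝ P.A c‖ = |c| := by
  rw [Algebra.algebraMap_eq_smul_one, norm_smul, norm_one, mul_one, Real.norm_eq_abs]

theorem norm_Xq_le : ‖P.Xq‖ ≤ 21 / 10 := by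
  unfold Xq
  refine (norm_sub_le _ _).trans ?_
  rw [P.EstG_norm_alg, norm_X, abs_of_pos P.q_pos]
  linarith [P.R_le, P.q_lt_one]

/-- `(1/2) T(G) H + q/2` -/
theorem BL_TzGH : BL P.Bx (fun x => (1 / 2 : ℝ) • P.Tz (P.GG x) (P.HH x)
    - algebraMap ℝ P.A (-(P.q / 2))) (2000 * P.δ) := by
  have hδ := P.δ_pos
  have h1 : BL P.Bx (fun _ : P.E => P.Xq) (21 / 10) := BL.const P.norm_Xq_le
  have h2 := P.BL_Tz h1 P.BL_eta
  have h3 := P.BL_Tz (h1.mul P.BL_MM) P.BL_HH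
  have h4 : BL P.Bx (fun _ : P.E => (1 / 2 : ℝ)) (1 / 2) := BL.const (by rw [Real.norm_eq_abs, abs_of_pos (by norm_num)])
  have h5 := h4.smul (h2.add h3)
  refine (h5.congr fun x hx => ?_).mono ?_
  · have e1 : P.GG x = P.Xq + P.Xq * (P.MM x - 1) := by
      unfold GG
      ring
    have e2 : P.Tz (P.GG x) (P.HH x) = algebraMap ℝ P.A (-P.q) + P.Tz P.Xq (P.eta x)
        + P.Tz (P.Xq * (P.MM x - 1)) (P.HH x) := by
      rw [e1, P.Tz_add_left]
      congr 1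
      have e3 : P.HH x = 1 + P.eta x := rfl
      rw [e3, map_add, P.Tz_Xq_one]
    have e4 : algebraMap ℝ P.A (-(P.q / 2)) = (1 / 2 : ℝ) • algebraMap ℝ P.A (-P.q) := by
      rw [Algebra.algebraMap_eq_smul_one, Algebra.algebraMap_eq_smul_one, smul_smul]
      congr 1
      ring
    rw [e2, e4]
    module
  · nlinarith

theorem BL_pN : BL P.Bx P.pN (1 / 12) := by
  have hδ := P.δ_pos
  have hτ := P.hτ
  have h1 : BL P.Bx (fun x => P.Hi x * (((1 / 2 : ℝ) • P.Tz (P.GG x) (P.HH x)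
    - algebraMap ℝ P.A (-(P.q / 2))) - P.pp x)) (2 * (2000 * P.δ + 100 * P.δ)) :=
    P.BL_Hi'.mul (P.BL_TzGH.sub P.BL_pp)
  have h2 : BL P.Bx (fun x => (P.Hi x - 1) * algebraMap ℝ P.A (-(P.q / 2))) (360 * P.δ * 1) := by
    refine P.BL_Hi.2.mul (BL.const ?_)
    rw [P.EstG_norm_alg, abs_neg, abs_of_pos (by linarith [P.q_pos])]
    linarith [P.q_lt_one, P.q_pos]
  have h3 : BL P.Bx (fun _ : P.E => algebraMap ℝ P.A (P.δ / 2)) P.δ := by
    refine BL.const ?_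
    rw [P.EstG_norm_alg, abs_of_pos (by positivity)]
    linarith
  have h4 : BL P.Bx (fun _ : P.E => (P.τ ^ 3)⁻¹) (P.τ ^ 3)⁻¹ :=
    BL.const (by rw [Real.norm_eq_abs, abs_of_pos (by positivity)])
  have h5 := h4.smul ((h1.add h2).add h3)
  refine (h5.congr fun x hx => ?_).mono ?_
  · unfold pN
    congr 1
    have e1 : algebraMap ℝ P.A (1 / 2) = algebraMap ℝ P.A (P.δ / 2) - algebraMap ℝ P.A (-(P.q / 2)) := by
      rw [← map_sub]
      congr 1
      unfold q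
      ring
    rw [e1]
    ring
  · have e1 : (P.τ ^ 3)⁻¹ * (2 * (2000 * P.δ + 100 * P.δ) + 360 * P.δ * 1 + P.δ) = 4561 * P.τ := by
      unfold δ
      field_simp
      ring
    rw [e1]
    have := P.τ_le
    calc 4561 * P.τ ≤ 4561 * (1 / 10 ^ 12) := mul_le_mul_of_nonneg_left this (by norm_num)
      _ ≤ 1 / 12 := by norm_num

theorem BL_TT : BL P.Bx (fun x => P.TT x - P.x₀) (1 / 4) := by
  have h := (P.BL_sN.prodMk (P.BL_tN.prodMk P.BL_pN))
  refine (h.congr fun x hx => ?_).mono (by norm_num)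
  unfold TT x₀
  simp

theorem exists_fixed : ∃ x ∈ P.Bx, P.TT x = x := by
  obtain ⟨x, hx, h⟩ := BL.fixedPoint (T := P.TT) (x₀ := P.x₀) (r := 1 / 2) (κ := 1 / 4)
    (by norm_num) (by norm_num) (by norm_num) P.BL_TT
  exact ⟨x, hx, h⟩

end Par

end Serrin
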