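import Pool.Agent.Lib.MP_2fa8c7_an.Alg

set_option autoImplicit false

/-!
# MP_2fa8c7_an: evaluation of elements of the Wiener algebra
-/

namespace Serrin

namespace WA

variable {t : ℝ}

/-- evaluation at a complex number -/
noncomputable def ev (z : ℂ) (f : WA t) : ℂ := ∑' n, (cf n f : ℂ) * z ^ n

/-- evaluation at a real number -/
noncomputable def er (x : ℝ) (f : WA t) : ℝ := ∑' n, cf n f * x ^ n

lemma norm_term_le {z : ℂ} (hz : ‖z‖ ≤ Rw t) (f : WA t) (n : ℕ) :
    ‖(cf n f : ℂ) * z ^ n‖ ≤ |cf n f| * Rw t ^ n := by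
  rw [norm_mul, norm_pow, Complex.norm_real, Real.norm_eq_abs]
  exact mul_le_mul_of_nonneg_left (pow_le_pow_left₀ (norm_nonneg _) hz n) (abs_nonneg _)

lemma summable_ev {z : ℂ} (hz : ‖z‖ ≤ Rw t) (f : WA t) :
    Summable fun n => (cf n f : ℂ) * z ^ n :=
  Summable.of_norm_bounded f.summable (norm_term_le hz f)

lemma norm_ev_le {z : ℂ} (hz : ‖z‖ ≤ Rw t) (f : WA t) : ‖ev z f‖ ≤ ‖f‖ :=
  tsum_of_norm_bounded f.summable.hasSum (norm_term_le hz f)

lemma ofReal_er (x : ℝ) (f : WA t) : ((er x f : ℝ) : ℂ) = ev (x : ℂ) f := by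
  unfold er ev
  rw [Complex.ofReal_tsum]
  simp

lemma ev_add {z : ℂ} (hz : ‖z‖ ≤ Rw t) (f g : WA t) : ev z (f + g) = ev z f + ev z g := by
  unfold ev
  rw [← (summable_ev hz f).tsum_add (summable_ev hz g)]
  exact tsum_congr fun n => by rw [cf_add]; push_cast; ring

lemma ev_smul (z : ℂ) (c : ℝ) (f : WA t) : ev z (c • f) = (c : ℂ) * ev z f := by
  unfold ev
  rw [← tsum_mul_left]
  exact tsum_congr fun n => by rw [cf_smul]; push_cast; ring

lemma ev_neg (z : ℂ) (f : WA t) : ev z (-f) = -ev z f := by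
  have := ev_smul z (-1) f
  simpa using this

lemma ev_sub {z : ℂ} (hz : ‖z‖ ≤ Rw t) (f g : WA t) : ev z (f - g) = ev z f - ev z g := by
  rw [sub_eq_add_neg, ev_add hz, ev_neg, ← sub_eq_add_neg]

@[simp] lemma ev_one (z : ℂ) : ev z (1 : WA t) = 1 := by
  unfold ev
  rw [tsum_eq_single 0 (fun n hn => by rw [cf_one, if_neg hn]; simp)]
  simp [cf_one]

@[simp] lemma ev_zero (z : ℂ) : ev z (0 : WA t) = 0 := by
  unfold ev
  simp

@[simp] lemma ev_X (z : ℂ) : ev z (X : WA t) = z := by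
  unfold ev
  rw [tsum_eq_single 1 (fun n hn => by rw [cf_X, if_neg hn]; simp)]
  simp [cf_X]

lemma ev_mul {z : ℂ} (hz : ‖z‖ ≤ Rw t) (f g : WA t) : ev z (f * g) = ev z f * ev z g := by
  unfold ev
  rw [tsum_mul_tsum_eq_tsum_sum_antidiagonal_of_summable_norm
    (Summable.of_nonneg_of_le (fun _ => norm_nonneg _) (norm_term_le hz f) f.summable)
    (Summable.of_nonneg_of_le (fun _ => norm_nonneg _) (norm_term_le hz g) g.summable)]
  refine tsum_congr fun n => ?_
  rw [cf_mul, Complex.ofReal_sum, Finset.sum_mul]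
  refine Finset.sum_congr rfl fun p hp => ?_
  rw [← Finset.HasAntidiagonal.mem_antidiagonal.1 hp, pow_add]
  push_cast
  ring

lemma ev_algebraMap (z : ℂ) (c : ℝ) : ev z (algebraMap ℝ (WA t) c) = c := by
  rw [Algebra.algebraMap_eq_smul_one, ev_smul, ev_one, mul_one]

/-- evaluation as a continuous linear map over `ℝ` -/
noncomputable def evL (t : ℝ) (z : ℂ) (hz : ‖z‖ ≤ Rw t) : WA t →L[ℝ] ℂ :=
  LinearMap.mkContinuous
    { toFun := ev z
      map_add' := ev_add hz
      map_smul' := fun c f => by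
        rw [ev_smul, RingHom.id_apply, Complex.real_smul] } 1
    (fun f => by rw [one_mul]; exact norm_ev_le hz f)

lemma evL_apply {z : ℂ} (hz : ‖z‖ ≤ Rw t) (f : WA t) : evL t z hz f = ev z f := rfl

lemma ev_tsum {z : ℂ} (hz : ‖z‖ ≤ Rw t) {F : ℕ → WA t} (hF : Summable F) :
    ev z (∑' n, F n) = ∑' n, ev z (F n) := by
  have := (evL t z hz).map_tsum hF
  simpa only [evL_apply] using this

lemma summable_ev_of {z : ℂ} (hz : ‖z‖ ≤ Rw t) {F : ℕ → WA t} (hF : Summable F) :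
    Summable fun n => ev z (F n) := by
  have := (evL t z hz).summable hF
  simpa only [evL_apply] using this

lemma ev_conj (z : ℂ) (f : WA t) :
    ev ((starRingEnd ℂ) z) f = (starRingEnd ℂ) (ev z f) := by
  unfold ev
  rw [Complex.conj_tsum]
  refine tsum_congr fun n => ?_
  rw [map_mul, map_pow, Complex.conj_ofReal]

/-! real evaluation -/

lemma er_add {x : ℝ} (hx : |x| ≤ Rw t) (f g : WA t) : er x (f + g) = er x f + er x g := by
  have hz : ‖(x : ℂ)‖ ≤ Rw t := by rwa [Complex.norm_real, Real.norm_eq_abs]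
  have : ((er x (f + g) : ℝ) : ℂ) = ((er x f + er x g : ℝ) : ℂ) := by
    rw [Complex.ofReal_add, ofReal_er, ofReal_er, ofReal_er, ev_add hz]
  exact_mod_cast this

lemma er_mul {x : ℝ} (hx : |x| ≤ Rw t) (f g : WA t) : er x (f * g) = er x f * er x g := by
  have hz : ‖(x : ℂ)‖ ≤ Rw t := by rwa [Complex.norm_real, Real.norm_eq_abs]
  have : ((er x (f * g) : ℝ) : ℂ) = ((er x f * er x g : ℝ) : ℂ) := by
    rw [Complex.ofReal_mul, ofReal_er, ofReal_er, ofReal_er, ev_mul hz]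
  exact_mod_cast this

lemma er_smul (x : ℝ) (c : ℝ) (f : WA t) : er x (c • f) = c * er x f := by
  unfold er
  rw [← tsum_mul_left]
  exact tsum_congr fun n => by rw [cf_smul]; ring

@[simp] lemma er_one (x : ℝ) : er x (1 : WA t) = 1 := by
  unfold er
  rw [tsum_eq_single 0 (fun n hn => by rw [cf_one, if_neg hn]; simp)]
  simp [cf_one]

@[simp] lemma er_X (x : ℝ) : er x (X : WA t) = x := by
  unfold er
  rw [tsum_eq_single 1 (fun n hn => by rw [cf_X, if_neg hn]; simp)]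
  simp [cf_X]

lemma abs_er_le {x : ℝ} (hx : |x| ≤ Rw t) (f : WA t) : |er x f| ≤ ‖f‖ := by
  have hz : ‖(x : ℂ)‖ ≤ Rw t := by rwa [Complex.norm_real, Real.norm_eq_abs]
  have := norm_ev_le hz f
  rwa [← ofReal_er, Complex.norm_real, Real.norm_eq_abs] at this

end WA

end Serrin
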