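import Pool.Agent.Lib.MP_2fa8c7_an.GeoE3

set_option autoImplicit false

/-!
# MP_2fa8c7_an: the holomorphic function `f` and the boundary conditions
-/

namespace Serrin

open MeasureTheory Set Filter Topology Metric
open scoped ContDiff NNReal

namespace Data

variable (D : Data)

theorem isSolution {σc : ℝ} (hσ : 1 < σc) (hμ : D.μ = (σc - 1) / (σc + 1)) :
    IsSolution σc (ball 0 1) D.Ω := by
  set C₀ : ℝ := (D.pde σc hσ 0).uo (D.G 1) with hC₀
  have huo : ∀ (C : ℝ) (w : ℂ), (D.pde σc hσ C).uo w = (D.pde σc hσ 0).uo w + C := by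
    intro C w
    simp only [Pde.uo, pde, Pde.μ]
    ring
  have hb : ∀ p ∈ frontier (D.pde σc hσ (-C₀)).Ω, (D.pde σc hσ (-C₀)).uo p = 0 := by
    intro p hp
    have hp' : p ∈ frontier D.Ω := hp
    rw [D.frontier_Ω] at hp'
    obtain ⟨z, hz, rfl⟩ := hp'
    have hz1 : ‖z‖ = 1 := mem_sphere_zero_iff_norm.1 hz
    rw [D.uo_const hσ hμ (-C₀) hz1, huo, hC₀]
    ring
  have key := (D.pde σc hσ (-C₀)).isSolution hb (c := D.c / D.ε) (by
    intro p hp V ρ hρ
    have hp' : p ∈ frontier D.Ω := hp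
    rw [D.frontier_Ω] at hp'
    obtain ⟨z, hz, rfl⟩ := hp'
    have hz1 : ‖z‖ = 1 := mem_sphere_zero_iff_norm.1 hz
    have h1 := D.go_eq hσ hμ (-C₀) hz1
    have h2 := D.gr_locDef hz1 hρ
    rw [h1]
    conv_rhs => rw [h2]
    ring)
  exact key

end Data

end Serrin
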