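import Pool.Agent.Lib.MP_2fa8c7_an.CoreD
import Pool.Agent.Lib.MP_2fa8c7_an.GeoE

set_option autoImplicit false

/-!
# MP_2fa8c7_an: the final theorem
-/

namespace Serrin

open MeasureTheory Set Filter Topology Metric
open scoped ContDiff NNReal

/-- the parameters used in the final theorem -/
lemma exists_par {μ : ℝ} (hμ : 0 < μ) (hμ1 : μ < 1) {V : ℝ} (hV : 4 ≤ V) :
    ∃ P : Par, P.μ = μ ∧ 48 * P.δ ^ 3 / P.μ ≤ 1 / (4 * V) := by
  have hV0 : 0 < V := by linarith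
  set τ : ℝ := min (μ / 10 ^ 12) (1 / (4 * V)) with hτ
  have hτ0 : 0 < τ := lt_min (by positivity) (by positivity)
  have h1 : τ ≤ μ / 10 ^ 12 := min_le_left _ _
  have h2 : τ ≤ 1 / (4 * V) := min_le_right _ _
  refine ⟨⟨μ, τ, hμ, hμ1, hτ0, by rw [le_div_iff₀ (by positivity)] at h1; exact h1⟩, rfl, ?_⟩
  show 48 * (τ ^ 4) ^ 3 / μ ≤ 1 / (4 * V)
  refine le_trans ?_ h2
  rw [div_le_iff₀ hμ]
  have h3 : τ * 10 ^ 12 ≤ μ := by rw [le_div_iff₀ (by positivity)] at h1; exact h1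
  have h4 : τ ≤ 1 := by
    have : μ / 10 ^ 12 ≤ 1 := by
      rw [div_le_one (by positivity)]
      have : (1 : ℝ) ≤ 10 ^ 12 := by norm_num
      linarith
    linarith
  have h5 : τ ^ 10 ≤ 1 := pow_le_one₀ hτ0.le h4
  have h6 : 48 * (τ ^ 4) ^ 3 = (48 * τ) * (τ * τ ^ 10) := by ring
  rw [h6]
  have h7 : τ * τ ^ 10 ≤ τ := mul_le_of_le_one_right hτ0.le h5
  have h8 : 48 * τ ≤ μ := by
    have : (48 : ℝ) ≤ 10 ^ 12 := by norm_num
    nlinarith
  calc 48 * τ * (τ * τ ^ 10) ≤ μ * τ :=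
        mul_le_mul h8 h7 (by positivity) hμ.le
    _ = τ * μ := mul_comm _ _

/-- For every `σ_c > 1` there are arbitrarily large `V₀` for which the outer problem for the unit
disc has two different solutions of area `V₀`: the concentric disc and another domain. -/
theorem main {σc : ℝ} (hσ : 1 < σc) (V : ℝ) : ∃ V₀ > V, ∃ R : ℝ, 1 < R ∧ ∃ Ω : Set ℂ,
    Ω ≠ ball 0 R ∧ volume (ball (0 : ℂ) R) = ENNReal.ofReal V₀ ∧
    volume Ω = ENNReal.ofReal V₀ ∧ IsSolution σc (ball 0 1) (ball 0 R) ∧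
    IsSolution σc (ball 0 1) Ω := by
  have hμ : 0 < (σc - 1) / (σc + 1) := div_pos (by linarith) (by linarith)
  have hμ1 : (σc - 1) / (σc + 1) < 1 := by rw [div_lt_one (by linarith)]; linarith
  have hV4 : 4 ≤ max V 4 := le_max_right _ _
  obtain ⟨P, hPμ, hP⟩ := exists_par hμ hμ1 hV4
  obtain ⟨D, hDμ, hDδ, hDe⟩ := exists_data P
  have he0 := D.he
  have hπ := Real.pi_pos
  have hπ3 := Real.pi_gt_three
  have hvol := D.volume_ge
  have hfin := D.volume_lt_top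
  have he1 : D.e ≤ 1 / (4 * max V 4) := hDe.trans hP
  set W : ℝ := max V 4 with hW
  have hW0 : 0 < W := by linarith
  have hbig : W * Real.pi ≤ (volume D.Ω).toReal := by
    refine le_trans ?_ hvol
    rw [le_div_iff₀ (by positivity)]
    have h1 : D.e * (4 * W) ≤ 1 := by
      rw [le_div_iff₀ (by positivity)] at he1; exact he1
    calc W * Real.pi * (4 * D.e) = (D.e * (4 * W)) * Real.pi := by ring
      _ ≤ 1 * Real.pi := mul_le_mul_of_nonneg_right h1 hπ.le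
      _ = Real.pi := one_mul _
  set V₀ : ℝ := (volume D.Ω).toReal with hV₀
  have hV0pos : 0 < V₀ := lt_of_lt_of_le (by positivity) hbig
  have hR2 : Real.sqrt (V₀ / Real.pi) ^ 2 = V₀ / Real.pi := Real.sq_sqrt (by positivity)
  set R : ℝ := Real.sqrt (V₀ / Real.pi) with hR
  have hR0 : 0 ≤ R := Real.sqrt_nonneg _
  have hRge : W ≤ R ^ 2 := by
    rw [hR2, le_div_iff₀ hπ]; exact hbig
  have hR1 : 1 < R := by
    by_contra hcon
    have : R ^ 2 ≤ 1 := pow_le_one₀ hR0 (not_lt.1 hcon)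
    linarith
  refine ⟨V₀, ?_, R, hR1, D.Ω, ?_, ?_, ?_, isSolution_ball hσ hR1,
    D.isSolution hσ (hDμ.trans hPμ)⟩
  · have h1 : V ≤ W := le_max_left _ _
    have h2 : W * 3 ≤ W * Real.pi := mul_le_mul_of_nonneg_left hπ3.le hW0.le
    show V < V₀
    linarith
  · intro heq
    have h1 : D.G 1 ∈ frontier D.Ω := by
      rw [D.frontier_Ω]
      exact ⟨1, by simp, rfl⟩
    rw [heq, frontier_ball (0 : ℂ) (by linarith : R ≠ 0), mem_sphere_zero_iff_norm] at h1
    have h2 := D.norm_G_one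
    rw [h1] at h2
    have hε := D.ε_pos
    have h3 : R ^ 2 ≥ 1 / (4 * D.e) := by
      rw [hR2, ge_iff_le, le_div_iff₀ hπ]
      have : 1 / (4 * D.e) * Real.pi = Real.pi / (4 * D.e) := by ring
      rw [this]; exact hvol
    have h4 : (1 / (2 * D.ε)) ^ 2 ≤ R ^ 2 := by
      have : (1 / (2 * D.ε)) ^ 2 = 1 / (4 * D.e) := by
        rw [← D.ε_sq, div_pow, mul_pow]; norm_num
      rw [this]; exact h3
    have h5 : 1 / (2 * D.ε) ≤ R := le_of_sq_le_sq h4 hR0
    have h6 : 1 / (2 * D.ε) ≤ 2 * D.δ / D.ε := h5.trans h2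
    rw [div_le_div_iff₀ (by positivity) hε] at h6
    have h7 := D.hδ1
    nlinarith
  · rw [Complex.volume_ball]
    have h8 : V₀ = R ^ 2 * Real.pi := by rw [hR2]; field_simp
    rw [h8, ENNReal.ofReal_mul (by positivity), ENNReal.ofReal_pow hR0]
    congr 1
    rw [← NNReal.coe_real_pi, ENNReal.ofReal_coe_nnreal]
  · rw [hV₀, ENNReal.ofReal_toReal hfin.ne]

end Serrin
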