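import Pool.Agent.Lib.MP_2fa8c7_an.PDefs

set_option autoImplicit false

/-!
# MP_2fa8c7_an: gradients
-/

namespace Serrin

open MeasureTheory Set Filter Topology
open scoped ContDiff

/-- the real-linear functional `v ↦ ⟨a, v⟩` -/
noncomputable def dotL (a : ℂ) : ℂ →L[ℝ] ℝ :=
  a.re • Complex.reCLM + a.im • Complex.imCLM

@[simp] lemma dotL_apply (a v : ℂ) : dotL a v = dot a v := by
  simp [dotL, dot]

lemma norm_dotL_le (a : ℂ) : ‖dotL a‖ ≤ ‖a‖ := by
  refine ContinuousLinearMap.opNorm_le_bound _ (norm_nonneg a) (fun v => ?_)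
  rw [dotL_apply, Real.norm_eq_abs]
  have h1 : dot a v = ((starRingEnd ℂ) a * v).re := by
    simp [dot, Complex.mul_re]
  rw [h1]
  refine (Complex.abs_re_le_norm _).trans ?_
  rw [norm_mul, Complex.norm_conj]

/-- functions with a given gradient -/
lemma gr_of_hasFDerivAt {u : ℂ → ℝ} {a z : ℂ} (h : HasFDerivAt u (dotL a) z) : gr u z = a := by
  unfold gr
  rw [h.fderiv, dotL_apply, dotL_apply]
  apply Complex.ext <;> simp [dot]

lemma hasFDerivAt_of_differentiableAt {u : ℂ → ℝ} {z : ℂ} (h : DifferentiableAt ℝ u z) :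
    HasFDerivAt u (dotL (gr u z)) z := by
  have h1 : fderiv ℝ u z = dotL (gr u z) := by
    ext v
    have hv : v = v.re • (1 : ℂ) + v.im • Complex.I := by
      apply Complex.ext <;> simp
    conv_lhs => rw [hv]
    rw [map_add, map_smul, map_smul, dotL_apply]
    simp only [gr, dot, smul_eq_mul]
    ring
  rw [← h1]
  exact h.hasFDerivAt

/-- `∇ Re f = conj f'` -/
lemma hasFDerivAt_re {f : ℂ → ℂ} {f' z : ℂ} (h : HasDerivAt f f' z) :
    HasFDerivAt (fun w => (f w).re) (dotL ((starRingEnd ℂ) f')) z := by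
  have h1 : HasFDerivAt f ((ContinuousLinearMap.toSpanSingleton ℂ f' : ℂ →L[ℂ] ℂ).restrictScalars ℝ)
      z := h.hasFDerivAt.restrictScalars ℝ
  have h2 := Complex.reCLM.hasFDerivAt.comp z h1
  refine h2.congr_fderiv ?_
  ext v
  simp [dot, Complex.mul_re]
  ring

/-- `∇ Im f = i conj f'` -/
lemma hasFDerivAt_im {f : ℂ → ℂ} {f' z : ℂ} (h : HasDerivAt f f' z) :
    HasFDerivAt (fun w => (f w).im) (dotL (Complex.I * (starRingEnd ℂ) f')) z := by
  have h1 : HasFDerivAt f ((ContinuousLinearMap.toSpanSingleton ℂ f' : ℂ →L[ℂ] ℂ).restrictScalars ℝ)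
      z := h.hasFDerivAt.restrictScalars ℝ
  have h2 := Complex.imCLM.hasFDerivAt.comp z h1
  refine h2.congr_fderiv ?_
  ext v
  simp [dot, Complex.mul_re, Complex.mul_im]
  ring

/-- `∇ |z|² = 2 z` -/
lemma hasFDerivAt_normSq (z : ℂ) :
    HasFDerivAt (fun w : ℂ => ‖w‖ ^ 2) (dotL (2 * z)) z := by
  have h0 : (fun w : ℂ => ‖w‖ ^ 2) = fun w => Complex.reCLM w * Complex.reCLM w +
      Complex.imCLM w * Complex.imCLM w := by
    funext w
    rw [← Complex.normSq_eq_norm_sq, Complex.normSq_apply]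
    rfl
  rw [h0]
  have hr : HasFDerivAt (fun w => Complex.reCLM w) Complex.reCLM z := Complex.reCLM.hasFDerivAt
  have hi : HasFDerivAt (fun w => Complex.imCLM w) Complex.imCLM z := Complex.imCLM.hasFDerivAt
  refine ((hr.mul hr).add (hi.mul hi)).congr_fderiv ?_
  ext v
  simp [dot]
  ring

end Serrin
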