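import Pool.Agent.Lib.MP_2fa8c7_an.Data
import Pool.Agent.Lib.MP_2fa8c7_an.PGrad

set_option autoImplicit false

/-!
# MP_2fa8c7_an: the domain `Ω = G(𝔻)`
-/

namespace Serrin

open MeasureTheory Set Filter Topology Metric
open scoped ContDiff NNReal

namespace Data

variable (D : Data)

/-- `ε = √e` -/
noncomputable def ε : ℝ := Real.sqrt D.e

lemma ε_pos : 0 < D.ε := Real.sqrt_pos.2 D.he

lemma ε_sq : D.ε ^ 2 = D.e := Real.sq_sqrt D.he.le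

lemma ε_le : D.ε ≤ D.δ / 100 := by
  unfold ε
  have h : D.e ≤ (D.δ / 100) ^ 2 := by
    have := D.heδ
    calc D.e ≤ D.δ ^ 2 / 10 ^ 4 := this
      _ = (D.δ / 100) ^ 2 := by ring
  calc Real.sqrt D.e ≤ Real.sqrt ((D.δ / 100) ^ 2) := Real.sqrt_le_sqrt h
    _ = D.δ / 100 := Real.sqrt_sq (by linarith [D.hδ])

/-- the scaled conformal map -/
noncomputable def G (z : ℂ) : ℂ := D.g z / D.ε

/-- the domain -/
def Ω : Set ℂ := D.G '' ball 0 1

/-- the larger domain -/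
def Ω' : Set ℂ := D.G '' ball 0 D.r

theorem norm_sq_sub_one_le {z : ℂ} (hz : z ∈ ball (0 : ℂ) D.r) : ‖D.h z ^ 2 - 1‖ ≤ 1 / 4 := by
  have h1 := D.hh z hz
  have h2 : D.h z ^ 2 - 1 = (D.h z - 1) * (D.h z - 1) + 2 * (D.h z - 1) := by ring
  rw [h2]
  calc ‖(D.h z - 1) * (D.h z - 1) + 2 * (D.h z - 1)‖
      ≤ ‖(D.h z - 1) * (D.h z - 1)‖ + ‖2 * (D.h z - 1)‖ := norm_add_le _ _
    _ = ‖D.h z - 1‖ * ‖D.h z - 1‖ + 2 * ‖D.h z - 1‖ := by
        rw [norm_mul, norm_mul]; norm_num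
    _ ≤ 1 / 10 * (1 / 10) + 2 * (1 / 10) := by
        have h0 := norm_nonneg (D.h z - 1)
        have h3 : ‖D.h z - 1‖ * ‖D.h z - 1‖ ≤ 1 / 10 * (1 / 10) :=
          mul_le_mul h1 h1 h0 (by norm_num)
        linarith
    _ ≤ 1 / 4 := by norm_num

theorem h_ne {z : ℂ} (hz : z ∈ ball (0 : ℂ) D.r) : D.h z ≠ 0 := by
  intro h0
  have h1 := D.hh z hz
  rw [h0, zero_sub, norm_neg, norm_one] at h1
  norm_num at h1

/-- the mean value inequality for `g - id` -/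
theorem norm_sub_sub_le {a b : ℂ} (ha : a ∈ ball (0 : ℂ) D.r) (hb : b ∈ ball (0 : ℂ) D.r) :
    ‖(D.g a - D.g b) - (a - b)‖ ≤ 1 / 4 * ‖a - b‖ := by
  have h1 : ∀ z ∈ ball (0 : ℂ) D.r, HasDerivWithinAt (fun z => D.g z - z) (D.h z ^ 2 - 1)
      (ball (0 : ℂ) D.r) z := fun z hz =>
    ((D.hg z hz).sub (hasDerivAt_id z)).hasDerivWithinAt
  have h2 := (convex_ball (0 : ℂ) D.r).norm_image_sub_le_of_norm_hasDerivWithin_le h1
    (fun z hz => D.norm_sq_sub_one_le hz) hb ha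
  have h3 : (D.g a - D.g b) - (a - b) = (D.g a - a) - (D.g b - b) := by ring
  rw [h3]
  exact h2

theorem norm_sub_le {a b : ℂ} (ha : a ∈ ball (0 : ℂ) D.r) (hb : b ∈ ball (0 : ℂ) D.r) :
    ‖D.g a - D.g b‖ ≤ 2 * ‖a - b‖ := by
  have h1 := D.norm_sub_sub_le ha hb
  have h2 : D.g a - D.g b = ((D.g a - D.g b) - (a - b)) + (a - b) := by ring
  rw [h2]
  have h3 := norm_add_le ((D.g a - D.g b) - (a - b)) (a - b)
  have h4 := norm_nonneg (a - b)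
  linarith

theorem le_norm_sub {a b : ℂ} (ha : a ∈ ball (0 : ℂ) D.r) (hb : b ∈ ball (0 : ℂ) D.r) :
    1 / 2 * ‖a - b‖ ≤ ‖D.g a - D.g b‖ := by
  have h1 := D.norm_sub_sub_le ha hb
  have h2 : ‖a - b‖ ≤ ‖D.g a - D.g b‖ + ‖(D.g a - D.g b) - (a - b)‖ := by
    have h3 : a - b = (D.g a - D.g b) - ((D.g a - D.g b) - (a - b)) := by ring
    calc ‖a - b‖ = ‖(D.g a - D.g b) - ((D.g a - D.g b) - (a - b))‖ := by rw [← h3]
      _ ≤ _ := _root_.norm_sub_le _ _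
  have h4 := norm_nonneg (a - b)
  linarith

theorem hasDerivAt_G {z : ℂ} (hz : z ∈ ball (0 : ℂ) D.r) :
    HasDerivAt D.G (D.h z ^ 2 / D.ε) z :=
  (D.hg z hz).div_const _

theorem injOn_G : InjOn D.G (ball 0 D.r) := by
  intro a ha b hb hab
  have hε : (D.ε : ℂ) ≠ 0 := by exact_mod_cast D.ε_pos.ne'
  have h1 : D.g a = D.g b := by
    have h2 : D.g a / D.ε = D.g b / D.ε := hab
    rwa [div_left_inj' hε] at h2
  have h3 := D.le_norm_sub ha hb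
  rw [h1, sub_self, norm_zero] at h3
  have h4 : ‖a - b‖ = 0 := le_antisymm (by linarith) (norm_nonneg _)
  exact sub_eq_zero.1 (norm_eq_zero.1 h4)

theorem G_conj (z : ℂ) : D.G ((starRingEnd ℂ) z) = (starRingEnd ℂ) (D.G z) := by
  unfold G
  rw [D.g_conj, map_div₀, Complex.conj_ofReal]

theorem G_q : D.G ((1 - D.δ : ℝ) : ℂ) = 0 := by
  unfold G
  rw [D.g_q, zero_div]

end Data

end Serrin
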