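import Pool.Agent.Lib.MP_2fa8c7_an.GeoB2

set_option autoImplicit false

/-!
# MP_2fa8c7_an: topology of `Ω`
-/

namespace Serrin

open MeasureTheory Set Filter Topology Metric
open scoped ContDiff NNReal

namespace Data

variable (D : Data)

theorem volume_lt_top : volume D.Ω < ⊤ := D.isBounded_Ω.measure_lt_top

theorem volume_ge : Real.pi / (4 * D.e) ≤ (volume D.Ω).toReal := by
  have hε := D.ε_pos
  have h1 : volume (ball (D.G 0) (1 / (2 * D.ε))) ≤ volume D.Ω := measure_mono D.ball_subset
  rw [Complex.volume_ball] at h1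
  have h2 := ENNReal.toReal_mono D.volume_lt_top.ne h1
  refine le_trans (le_of_eq ?_) h2
  rw [ENNReal.toReal_mul, ENNReal.toReal_pow, ENNReal.toReal_ofReal (by positivity),
    ENNReal.coe_toReal, NNReal.coe_real_pi, ← D.ε_sq, div_pow, mul_pow]
  field_simp
  norm_num

end Data

end Serrin
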