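import Pool.Agent.Lib.MP_2fa8c7_an.GeoA

set_option autoImplicit false

/-!
# MP_2fa8c7_an: topology of `Ω`
-/

namespace Serrin

open MeasureTheory Set Filter Topology Metric
open scoped ContDiff NNReal

namespace Data

variable (D : Data)

private lemma G_image_isOpen {s : Set ℂ} (hs : s ⊆ ball (0 : ℂ) D.r) (hso : IsOpen s) :
    IsOpen (D.G '' s) := by
  have hr := D.hr
  have han : AnalyticOnNhd ℂ D.G (ball (0 : ℂ) D.r) := by
    apply DifferentiableOn.analyticOnNhd _ isOpen_ball
    intro z hz
    exact (D.hasDerivAt_G hz).differentiableAt.differentiableWithinAt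
  rcases han.is_constant_or_isOpen (convex_ball (0 : ℂ) D.r).isPreconnected with h | h
  · exfalso
    obtain ⟨w, hw⟩ := h
    have h0 : (0 : ℂ) ∈ ball (0 : ℂ) D.r := by
      simp only [mem_ball, dist_self]; linarith
    have h1 : (1 / 2 : ℂ) ∈ ball (0 : ℂ) D.r := by
      simp only [mem_ball, dist_zero_right]
      norm_num
      linarith
    have := D.injOn_G h0 h1 (by rw [hw _ h0, hw _ h1])
    norm_num at this
  · exact h s hs hso

private lemma ball_sub : ball (0 : ℂ) 1 ⊆ ball (0 : ℂ) D.r :=
  ball_subset_ball D.hr.le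

private lemma closedBall_sub : closedBall (0 : ℂ) 1 ⊆ ball (0 : ℂ) D.r :=
  closedBall_subset_ball D.hr

private lemma continuousOn_G : ContinuousOn D.G (closedBall (0 : ℂ) 1) := by
  intro z hz
  exact (D.hasDerivAt_G (D.closedBall_sub hz)).continuousAt.continuousWithinAt

theorem isOpen_Ω : IsOpen D.Ω :=
  D.G_image_isOpen D.ball_sub isOpen_ball

theorem isOpen_Ω' : IsOpen D.Ω' :=
  D.G_image_isOpen subset_rfl isOpen_ball

theorem closure_Ω : closure D.Ω = D.G '' closedBall 0 1 := by
  apply subset_antisymm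
  · apply closure_minimal
    · exact image_mono ball_subset_closedBall
    · exact ((isCompact_closedBall (0 : ℂ) 1).image_of_continuousOn D.continuousOn_G).isClosed
  · have h : closure (ball (0 : ℂ) 1) = closedBall 0 1 := closure_ball (0 : ℂ) one_ne_zero
    have h2 := D.continuousOn_G
    rw [← h] at h2 ⊢
    exact h2.image_closure

theorem frontier_Ω : frontier D.Ω = D.G '' sphere 0 1 := by
  rw [frontier, D.isOpen_Ω.interior_eq, closure_Ω]
  ext w
  constructor
  · rintro ⟨⟨z, hz, rfl⟩, h2⟩
    refine ⟨z, ?_, rfl⟩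
    have h3 : z ∉ ball (0 : ℂ) 1 := fun h => h2 ⟨z, h, rfl⟩
    simp only [mem_closedBall, mem_ball, mem_sphere, not_lt] at *
    exact le_antisymm hz h3
  · rintro ⟨z, hz, rfl⟩
    refine ⟨⟨z, sphere_subset_closedBall hz, rfl⟩, ?_⟩
    rintro ⟨y, hy, hyz⟩
    have := D.injOn_G (D.ball_sub hy) (D.closedBall_sub (sphere_subset_closedBall hz)) hyz
    subst this
    simp only [mem_ball, mem_sphere] at *
    linarith

theorem closure_Ω_subset : closure D.Ω ⊆ D.Ω' := by
  rw [closure_Ω]
  exact image_mono D.closedBall_sub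

theorem isConnected_Ω : IsConnected D.Ω := by
  have h : IsConnected (ball (0 : ℂ) 1) :=
    ⟨⟨0, by simp⟩, (convex_ball (0 : ℂ) 1).isPreconnected⟩
  exact h.image _ (D.continuousOn_G.mono ball_subset_closedBall)

theorem isBounded_Ω : Bornology.IsBounded D.Ω := by
  have h := ((isCompact_closedBall (0 : ℂ) 1).image_of_continuousOn D.continuousOn_G).isBounded
  exact h.subset (image_mono ball_subset_closedBall)

end Data

end Serrin
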