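import Pool.Agent.Lib.MP_2fa8c7_an.GeoB1

set_option autoImplicit false

/-!
# MP_2fa8c7_an: topology of `Ω`
-/

namespace Serrin

open MeasureTheory Set Filter Topology Metric
open scoped ContDiff NNReal

namespace Data

variable (D : Data)

theorem null_frontier : volume (frontier D.Ω) = 0 := by
  rw [D.frontier_Ω]
  refine addHaar_image_eq_zero_of_differentiableOn_of_addHaar_eq_zero volume ?_ ?_
  · intro z hz
    have hzr : z ∈ ball (0 : ℂ) D.r := by
      rw [mem_ball_zero_iff, mem_sphere_zero_iff_norm.1 hz]; exact D.hr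
    exact ((D.hasDerivAt_G hzr).differentiableAt.restrictScalars ℝ).differentiableWithinAt
  · exact Measure.addHaar_sphere volume 0 1

theorem mem_Ω_iff {z : ℂ} (hz : z ∈ ball (0 : ℂ) D.r) : D.G z ∈ D.Ω ↔ ‖z‖ < 1 := by
  constructor
  · rintro ⟨w, hw, hwz⟩
    have hwr : w ∈ ball (0 : ℂ) D.r := by
      rw [mem_ball_zero_iff] at hw ⊢
      linarith [D.hr]
    rw [← D.injOn_G hwr hz hwz]
    exact mem_ball_zero_iff.1 hw
  · intro h
    exact ⟨z, mem_ball_zero_iff.2 h, rfl⟩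

/-- a connected set which meets `Ω` and does not meet the frontier is contained in `Ω` -/
theorem subset_of_disjoint {s : Set ℂ} (hs : IsPreconnected s) (h1 : (s ∩ D.Ω).Nonempty)
    (h2 : s ∩ frontier D.Ω = ∅) : s ⊆ D.Ω := by
  by_contra hcon
  obtain ⟨x, hx, hxΩ⟩ := not_subset.1 hcon
  have h3 := isPreconnected_iff_subset_of_disjoint.1 hs
  have hΩ := D.isOpen_Ω
  have hcover : s ⊆ D.Ω ∪ (closure D.Ω)ᶜ := by
    intro y hy
    by_cases hyc : y ∈ closure D.Ω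
    · left
      by_contra hyΩ
      have : y ∈ s ∩ frontier D.Ω := ⟨hy, by rw [hΩ.frontier_eq]; exact ⟨hyc, hyΩ⟩⟩
      rw [h2] at this
      exact this
    · right; exact hyc
  rcases h3 D.Ω (closure D.Ω)ᶜ hΩ isClosed_closure.isOpen_compl hcover (by
    rw [eq_empty_iff_forall_notMem]
    rintro y ⟨-, hy1, hy2⟩
    exact hy2 (subset_closure hy1)) with h | h
  · exact hxΩ (h hx)
  · obtain ⟨y, hy1, hy2⟩ := h1
    exact h hy1 (subset_closure hy2)

theorem closedBall_subset : closedBall (0 : ℂ) 1 ⊆ D.Ω := by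
  have hδ := D.hδ
  have hδ1 := D.hδ1
  have hε := D.ε_pos
  have hε1 := D.ε_le
  have hq1 : ‖((1 - D.δ : ℝ) : ℂ)‖ = 1 - D.δ := by
    rw [Complex.norm_real, Real.norm_eq_abs, abs_of_pos (by linarith)]
  refine D.subset_of_disjoint (convex_closedBall (0 : ℂ) 1).isPreconnected
    ⟨0, mem_closedBall_self (by norm_num), ?_⟩ ?_
  · rw [← D.G_q]
    exact ⟨_, by rw [mem_ball_zero_iff, hq1]; linarith, rfl⟩
  · rw [eq_empty_iff_forall_notMem]
    rintro w ⟨hw1, hw2⟩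
    rw [D.frontier_Ω] at hw2
    obtain ⟨z, hz, rfl⟩ := hw2
    have hz1 := mem_sphere_zero_iff_norm.1 hz
    have hzr : z ∈ ball (0 : ℂ) D.r := by rw [mem_ball_zero_iff, hz1]; exact D.hr
    have hqr : ((1 - D.δ : ℝ) : ℂ) ∈ ball (0 : ℂ) D.r := by
      rw [mem_ball_zero_iff, hq1]; linarith [D.hr]
    have h1 := D.le_norm_sub hzr hqr
    rw [D.g_q, sub_zero] at h1
    have h2 : D.δ ≤ ‖z - ((1 - D.δ : ℝ) : ℂ)‖ := by
      have := norm_sub_norm_le z ((1 - D.δ : ℝ) : ℂ)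
      rw [hz1, hq1] at this
      linarith
    have h3 : ‖D.G z‖ ≤ 1 := mem_closedBall_zero_iff.1 hw1
    have h4 : ‖D.G z‖ = ‖D.g z‖ / D.ε := by
      unfold G
      rw [norm_div, Complex.norm_real, Real.norm_eq_abs, abs_of_pos hε]
    rw [h4, div_le_one hε] at h3
    linarith

theorem ball_subset : ball (D.G 0) (1 / (2 * D.ε)) ⊆ D.Ω := by
  have hε := D.ε_pos
  have h0r : (0 : ℂ) ∈ ball (0 : ℂ) D.r := mem_ball_self (by linarith [D.hr])
  refine D.subset_of_disjoint (convex_ball _ _).isPreconnected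
    ⟨D.G 0, mem_ball_self (by positivity), ⟨0, mem_ball_self one_pos, rfl⟩⟩ ?_
  rw [eq_empty_iff_forall_notMem]
  rintro w ⟨hw1, hw2⟩
  rw [D.frontier_Ω] at hw2
  obtain ⟨z, hz, rfl⟩ := hw2
  have hz1 := mem_sphere_zero_iff_norm.1 hz
  have hzr : z ∈ ball (0 : ℂ) D.r := by rw [mem_ball_zero_iff, hz1]; exact D.hr
  have h1 := D.le_norm_sub hzr h0r
  rw [sub_zero, hz1] at h1
  rw [mem_ball, dist_eq_norm] at hw1
  have h4 : ‖D.G z - D.G 0‖ = ‖D.g z - D.g 0‖ / D.ε := by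
    unfold G
    rw [← sub_div, norm_div, Complex.norm_real, Real.norm_eq_abs, abs_of_pos hε]
  rw [h4, div_lt_div_iff₀ hε (by positivity)] at hw1
  nlinarith

theorem norm_G_one : ‖D.G 1‖ ≤ 2 * D.δ / D.ε := by
  have hδ := D.hδ
  have hδ1 := D.hδ1
  have hε := D.ε_pos
  have h1r : (1 : ℂ) ∈ ball (0 : ℂ) D.r := by
    rw [mem_ball_zero_iff, norm_one]; exact D.hr
  have hq1 : ‖((1 - D.δ : ℝ) : ℂ)‖ = 1 - D.δ := by
    rw [Complex.norm_real, Real.norm_eq_abs, abs_of_pos (by linarith)]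
  have hqr : ((1 - D.δ : ℝ) : ℂ) ∈ ball (0 : ℂ) D.r := by
    rw [mem_ball_zero_iff, hq1]; linarith [D.hr]
  have h1 := D.norm_sub_le h1r hqr
  rw [D.g_q, sub_zero] at h1
  have h2 : ‖(1 : ℂ) - ((1 - D.δ : ℝ) : ℂ)‖ = D.δ := by
    have : (1 : ℂ) - ((1 - D.δ : ℝ) : ℂ) = ((D.δ : ℝ) : ℂ) := by push_cast; ring
    rw [this, Complex.norm_real, Real.norm_eq_abs, abs_of_pos hδ]
  rw [h2] at h1
  have h4 : ‖D.G 1‖ = ‖D.g 1‖ / D.ε := by
    unfold G
    rw [norm_div, Complex.norm_real, Real.norm_eq_abs, abs_of_pos hε]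
  rw [h4]
  exact div_le_div_of_nonneg_right h1 hε.le

end Data

end Serrin
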