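import Pool.Agent.Lib.MP_2fa8c7_an.GeoC1

set_option autoImplicit false

/-!
# MP_2fa8c7_an: the inverse map, smoothness of the boundary
-/

namespace Serrin

open MeasureTheory Set Filter Topology Metric
open scoped ContDiff NNReal

namespace Data

variable (D : Data)

theorem isSmoothDomain : IsSmoothDomain D.Ω := by
  refine ⟨D.isOpen_Ω, D.isConnected_Ω, D.isBounded_Ω, fun p hp => ?_⟩
  set U : Set ℂ := D.Ω' ∩ {w | w ≠ D.G 0} with hU
  have hUo : IsOpen U := D.isOpen_Ω'.inter isOpen_ne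
  have h0r : (0 : ℂ) ∈ ball (0 : ℂ) D.r := mem_ball_self (by linarith [D.hr])
  have hdiff : DifferentiableOn ℂ D.Gi D.Ω' := fun w hw =>
    (D.hasDerivAt_Gi hw).differentiableAt.differentiableWithinAt
  have hsm : ContDiffOn ℝ ∞ D.Gi D.Ω' :=
    (hdiff.contDiffOn (n := ∞) D.isOpen_Ω').restrict_scalars ℝ
  have hgr : ∀ w ∈ D.Ω', HasFDerivAt (fun w => ‖D.Gi w‖ ^ 2 - 1)
      (dotL (2 * D.Gi w * (starRingEnd ℂ) (D.ε / D.h (D.Gi w) ^ 2))) w := by
    intro w hw
    have h1 : HasFDerivAt D.Gi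
        ((ContinuousLinearMap.toSpanSingleton ℂ (D.ε / D.h (D.Gi w) ^ 2)).restrictScalars ℝ) w :=
      (D.hasDerivAt_Gi hw).hasFDerivAt.restrictScalars ℝ
    have h2 := (hasFDerivAt_normSq (D.Gi w)).comp w h1
    have h3 := h2.sub_const 1
    refine h3.congr_fderiv ?_
    ext v
    simp only [ContinuousLinearMap.comp_apply, dotL_apply,
      ContinuousLinearMap.coe_restrictScalars', ContinuousLinearMap.toSpanSingleton_apply,
      smul_eq_mul]
    generalize (D.ε : ℂ) / D.h (D.Gi w) ^ 2 = c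
    generalize D.Gi w = b
    simp [dot]
    ring
  refine ⟨U, fun w => ‖D.Gi w‖ ^ 2 - 1, hUo, ?_, ?_, ?_, ?_⟩
  · refine ⟨D.closure_Ω_subset hp.1, ?_⟩
    intro heq
    have h1 : p ∈ D.Ω := by
      rw [heq]
      exact ⟨0, mem_ball_self one_pos, rfl⟩
    rw [D.isOpen_Ω.frontier_eq] at hp
    exact hp.2 h1
  · have h1 : ContDiffOn ℝ ∞ (fun w => ‖D.Gi w‖ ^ 2) D.Ω' := hsm.norm_sq ℝ
    exact (h1.sub contDiffOn_const).mono inter_subset_left
  · intro w hw
    have hm := D.Gi_mem hw.1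
    rw [gr_of_hasFDerivAt (hgr w hw.1)]
    have hGi0 : D.Gi w ≠ 0 := by
      intro h0
      apply hw.2
      rw [← D.G_Gi hw.1, h0]
    have hε : (D.ε : ℂ) ≠ 0 := by exact_mod_cast D.ε_pos.ne'
    refine mul_ne_zero (mul_ne_zero two_ne_zero hGi0) ?_
    rw [Ne, map_eq_zero]
    exact div_ne_zero hε (pow_ne_zero _ (D.h_ne hm))
  · intro w hw
    have h1 := D.mem_Ω_iff (D.Gi_mem hw.1)
    rw [D.G_Gi hw.1] at h1
    rw [h1]
    have h2 : 0 ≤ ‖D.Gi w‖ := norm_nonneg _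
    constructor
    · intro h; nlinarith
    · intro h
      by_contra hcon
      have : 1 ≤ ‖D.Gi w‖ := not_lt.1 hcon
      nlinarith

end Data

end Serrin
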