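import Pool.Agent.Lib.MP_2fa8c7_an.GeoB

set_option autoImplicit false

/-!
# MP_2fa8c7_an: the inverse map, smoothness of the boundary
-/

namespace Serrin

open MeasureTheory Set Filter Topology Metric
open scoped ContDiff NNReal

namespace Data

variable (D : Data)

/-- the inverse of `G` on `Ω'` -/
noncomputable def Gi : ℂ → ℂ := Function.invFunOn D.G (ball 0 D.r)

theorem Gi_G {z : ℂ} (hz : z ∈ ball (0 : ℂ) D.r) : D.Gi (D.G z) = z :=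
  D.injOn_G.leftInvOn_invFunOn hz

theorem Gi_mem {w : ℂ} (hw : w ∈ D.Ω') : D.Gi w ∈ ball (0 : ℂ) D.r :=
  Function.invFunOn_mem hw

theorem G_Gi {w : ℂ} (hw : w ∈ D.Ω') : D.G (D.Gi w) = w :=
  Function.invFunOn_eq hw

theorem norm_Gi_sub_le {w w' : ℂ} (hw : w ∈ D.Ω') (hw' : w' ∈ D.Ω') :
    ‖D.Gi w - D.Gi w'‖ ≤ 2 * D.ε * ‖w - w'‖ := by
  have h1 := D.le_norm_sub (D.Gi_mem hw) (D.Gi_mem hw')
  have hε : (D.ε : ℂ) ≠ 0 := by exact_mod_cast D.ε_pos.ne'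
  have hg : ∀ v ∈ D.Ω', D.g (D.Gi v) = D.ε * v := by
    intro v hv
    have h2 : D.g (D.Gi v) / D.ε = v := D.G_Gi hv
    rw [div_eq_iff hε] at h2
    rw [h2, mul_comm]
  rw [hg w hw, hg w' hw', ← mul_sub, norm_mul, Complex.norm_real, Real.norm_eq_abs,
    abs_of_pos D.ε_pos] at h1
  linarith

theorem continuousAt_Gi {w : ℂ} (hw : w ∈ D.Ω') : ContinuousAt D.Gi w := by
  rw [Metric.continuousAt_iff']
  intro η hη
  have h1 : ∀ᶠ v in 𝓝 w, v ∈ D.Ω' := D.isOpen_Ω'.mem_nhds hw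
  have hε := D.ε_pos
  have h2 : ∀ᶠ v in 𝓝 w, dist v w < η / (2 * D.ε) :=
    Metric.ball_mem_nhds w (by positivity)
  filter_upwards [h1, h2] with v hv1 hv2
  rw [dist_eq_norm] at hv2 ⊢
  calc ‖D.Gi v - D.Gi w‖ ≤ 2 * D.ε * ‖v - w‖ := D.norm_Gi_sub_le hv1 hw
    _ < 2 * D.ε * (η / (2 * D.ε)) := mul_lt_mul_of_pos_left hv2 (by positivity)
    _ = η := by field_simp

theorem hasDerivAt_Gi {w : ℂ} (hw : w ∈ D.Ω') :
    HasDerivAt D.Gi (D.ε / D.h (D.Gi w) ^ 2) w := by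
  have hm := D.Gi_mem hw
  have hε : (D.ε : ℂ) ≠ 0 := by exact_mod_cast D.ε_pos.ne'
  have h1 := HasDerivAt.of_local_left_inverse (D.continuousAt_Gi hw) (D.hasDerivAt_G hm)
    (div_ne_zero (pow_ne_zero _ (D.h_ne hm)) hε)
    (by
      filter_upwards [D.isOpen_Ω'.mem_nhds hw] with v hv
      exact D.G_Gi hv)
  rw [inv_div] at h1
  exact h1

theorem Gi_conj {w : ℂ} (hw : w ∈ D.Ω') :
    (starRingEnd ℂ) w ∈ D.Ω' ∧ D.Gi ((starRingEnd ℂ) w) = (starRingEnd ℂ) (D.Gi w) := by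
  have hm := D.Gi_mem hw
  have hm' : (starRingEnd ℂ) (D.Gi w) ∈ ball (0 : ℂ) D.r := by
    rw [mem_ball_zero_iff, Complex.norm_conj]
    exact mem_ball_zero_iff.1 hm
  have h1 : D.G ((starRingEnd ℂ) (D.Gi w)) = (starRingEnd ℂ) w := by
    rw [D.G_conj, D.G_Gi hw]
  refine ⟨⟨_, hm', h1⟩, ?_⟩
  rw [← h1, D.Gi_G hm']

end Data

end Serrin
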