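import Pool.Agent.Lib.MP_2fa8c7_an.GeoB

set_option autoImplicit false

/-!
# MP_2fa8c7_an: the outward unit normal of `Ω`
-/

namespace Serrin

open MeasureTheory Set Filter Topology Metric
open scoped ContDiff NNReal

/-- a local defining function vanishes on the boundary -/
theorem LocDef.eq_zero {Ω : Set ℂ} (hΩ : IsOpen Ω) {p : ℂ} {V : Set ℂ} {ρ : ℂ → ℝ}
    (hρ : LocDef Ω p V ρ) {w : ℂ} (hw : w ∈ V) (hf : w ∈ frontier Ω) : ρ w = 0 := by
  obtain ⟨hV, -, hsm, -, hiff⟩ := hρ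
  rw [hΩ.frontier_eq] at hf
  have h1 : ¬ ρ w < 0 := fun h => hf.2 ((hiff w hw).2 h)
  refine le_antisymm ?_ (not_lt.1 h1)
  by_contra hcon
  have hpos : 0 < ρ w := not_le.1 hcon
  have hcont : ContinuousAt ρ w := (hsm.continuousOn.continuousAt (hV.mem_nhds hw))
  have h2 : ∀ᶠ y in 𝓝 w, 0 < ρ y := hcont.eventually (lt_mem_nhds hpos)
  have h3 : ∀ᶠ y in 𝓝 w, y ∈ V := hV.mem_nhds hw
  obtain ⟨y, ⟨hy1, hy2⟩, hyΩ⟩ := mem_closure_iff_nhds.1 hf.1 _ (h2.and h3)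
  have := (hiff y hy2).1 hyΩ
  linarith

theorem LocDef.hasFDerivAt {Ω : Set ℂ} {p : ℂ} {V : Set ℂ} {ρ : ℂ → ℝ}
    (hρ : LocDef Ω p V ρ) : HasFDerivAt ρ (dotL (gr ρ p)) p := by
  obtain ⟨hV, hp, hsm, -, -⟩ := hρ
  exact hasFDerivAt_of_differentiableAt
    ((hsm.contDiffAt (hV.mem_nhds hp)).differentiableAt (by simp))

namespace Data

variable (D : Data)

/-- the gradient of a local defining function points in the direction `z G'(z)` -/
theorem gr_locDef {z : ℂ} (hz : ‖z‖ = 1) {V : Set ℂ} {ρ : ℂ → ℝ}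
    (hρ : LocDef D.Ω (D.G z) V ρ) :
    gr ρ (D.G z) = ‖gr ρ (D.G z)‖ * (z * (D.h z ^ 2 / ‖D.h z‖ ^ 2)) := by
  have hzr : z ∈ ball (0 : ℂ) D.r := by rw [mem_ball_zero_iff, hz]; exact D.hr
  have hh := D.h_ne hzr
  have hz0 : z ≠ 0 := by intro h; rw [h, norm_zero] at hz; linarith
  have hε : (D.ε : ℂ) ≠ 0 := by exact_mod_cast D.ε_pos.ne'
  have hGd := D.hasDerivAt_G hzr
  have hV : IsOpen V := hρ.1
  have hpV : D.G z ∈ V := hρ.2.1
  have hfr : ∀ w : ℂ, ‖w‖ = 1 → D.G w ∈ frontier D.Ω := by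
    intro w hw
    rw [D.frontier_Ω]
    exact ⟨w, by rw [mem_sphere_zero_iff_norm, hw], rfl⟩
  have hcont : ContinuousAt D.G z := hGd.continuousAt
  set a := gr ρ (D.G z) with ha
  have hρd := hρ.hasFDerivAt
  rw [← ha] at hρd
  set T : ℂ := D.h z ^ 2 / D.ε * z with hT
  -- tangential derivative
  have htan : dot a (Complex.I * T) = 0 := by
    have h1 : HasDerivAt (fun t : ℝ => Complex.exp (t * Complex.I) * z)
        (Complex.I * z) 0 := by
      have h2 : HasDerivAt (fun s : ℂ => Complex.exp (s * Complex.I))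
          (Complex.exp (((0 : ℝ) : ℂ) * Complex.I) * (1 * Complex.I)) ((0 : ℝ) : ℂ) :=
        ((hasDerivAt_id ((0 : ℝ) : ℂ)).mul_const Complex.I).cexp
      have h3 := (h2.comp_ofReal).mul_const z
      refine h3.congr_deriv ?_
      rw [Complex.ofReal_zero, zero_mul, Complex.exp_zero, one_mul, one_mul]
    have h0 : Complex.exp (((0 : ℝ) : ℂ) * Complex.I) * z = z := by simp
    have h4 : HasDerivAt (fun t : ℝ => D.G (Complex.exp (t * Complex.I) * z))
        (D.h z ^ 2 / D.ε * (Complex.I * z)) 0 :=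
      HasDerivAt.comp_of_eq (0 : ℝ) hGd h1 h0.symm
    have h5 : HasDerivAt (fun t : ℝ => ρ (D.G (Complex.exp (t * Complex.I) * z)))
        (dotL a (D.h z ^ 2 / D.ε * (Complex.I * z))) 0 := by
      have h6 : HasFDerivAt ρ (dotL a) (D.G (Complex.exp (((0 : ℝ) : ℂ) * Complex.I) * z)) := by
        rw [h0]; exact hρd
      exact h6.comp_hasDerivAt (0 : ℝ) h4
    have h7 : ∀ᶠ t : ℝ in 𝓝 (0 : ℝ), ρ (D.G (Complex.exp ((t : ℂ) * Complex.I) * z)) = 0 := by
      have h8 : ContinuousAt (fun t : ℝ => D.G (Complex.exp ((t : ℂ) * Complex.I) * z)) 0 :=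
        h4.continuousAt
      have h9 : ∀ᶠ t : ℝ in 𝓝 (0 : ℝ), D.G (Complex.exp ((t : ℂ) * Complex.I) * z) ∈ V := by
        refine h8.preimage_mem_nhds ?_
        show V ∈ 𝓝 (D.G (Complex.exp (((0 : ℝ) : ℂ) * Complex.I) * z))
        rw [h0]
        exact hV.mem_nhds hpV
      filter_upwards [h9] with t ht
      refine hρ.eq_zero D.isOpen_Ω ht (hfr _ ?_)
      rw [norm_mul, Complex.norm_exp_ofReal_mul_I, hz, one_mul]
    have h10 : HasDerivAt (fun t : ℝ => ρ (D.G (Complex.exp (t * Complex.I) * z))) 0 0 :=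
      (hasDerivAt_const (0 : ℝ) (0 : ℝ)).congr_of_eventuallyEq h7
    have h11 := h5.unique h10
    rw [dotL_apply] at h11
    rw [← h11, hT]
    congr 1
    ring
  -- normal derivative
  have hnor : 0 ≤ dot a T := by
    have h1 : HasDerivAt (fun s : ℝ => ((1 - s : ℝ) : ℂ) * z) (-z) 0 := by
      have h2 : HasDerivAt (fun s : ℝ => ((1 - s : ℝ) : ℂ)) (-1) 0 := by
        have h3 : HasDerivAt (fun s : ℝ => (1 - s : ℝ)) (-1) 0 := by
          simpa using (hasDerivAt_id (0 : ℝ)).const_sub 1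
        have h4 := h3.ofReal_comp
        simpa using h4
      have h5 := h2.mul_const z
      simpa using h5
    have h0 : ((1 - (0 : ℝ) : ℝ) : ℂ) * z = z := by simp
    have h4 : HasDerivAt (fun s : ℝ => D.G (((1 - s : ℝ) : ℂ) * z))
        (D.h z ^ 2 / D.ε * (-z)) 0 :=
      HasDerivAt.comp_of_eq (0 : ℝ) hGd h1 h0.symm
    have h5 : HasDerivAt (fun s : ℝ => ρ (D.G (((1 - s : ℝ) : ℂ) * z)))
        (dotL a (D.h z ^ 2 / D.ε * (-z))) 0 := by
      have h6 : HasFDerivAt ρ (dotL a) (D.G (((1 - (0 : ℝ) : ℝ) : ℂ) * z)) := by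
        rw [h0]; exact hρd
      exact h6.comp_hasDerivAt (0 : ℝ) h4
    have h6 := h5.tendsto_slope_zero_right
    have h7 : ∀ᶠ s in 𝓝[>] (0 : ℝ), s⁻¹ • (ρ (D.G (((1 - (0 + s) : ℝ) : ℂ) * z))
        - ρ (D.G (((1 - 0 : ℝ) : ℂ) * z))) ≤ 0 := by
      have h8 : ContinuousAt (fun s : ℝ => D.G (((1 - s : ℝ) : ℂ) * z)) 0 := h4.continuousAt
      have h9 : ∀ᶠ s : ℝ in 𝓝 (0 : ℝ), D.G (((1 - s : ℝ) : ℂ) * z) ∈ V := by
        refine h8.preimage_mem_nhds ?_
        show V ∈ 𝓝 (D.G (((1 - (0 : ℝ) : ℝ) : ℂ) * z))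
        rw [h0]
        exact hV.mem_nhds hpV
      have h10 : ∀ᶠ s in 𝓝[>] (0 : ℝ), s < 1 :=
        mem_nhdsWithin_of_mem_nhds (gt_mem_nhds one_pos)
      filter_upwards [mem_nhdsWithin_of_mem_nhds h9, h10, self_mem_nhdsWithin] with s hs1 hs2 hs3
      have hs3' : 0 < s := hs3
      have h11 : ρ (D.G (((1 - 0 : ℝ) : ℂ) * z)) = 0 := by
        have e0 : ((1 - 0 : ℝ) : ℂ) * z = z := by simp
        rw [e0]
        exact hρ.eq_zero D.isOpen_Ω hpV (hfr z hz)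
      have h12 : ρ (D.G (((1 - s : ℝ) : ℂ) * z)) < 0 := by
        refine (hρ.2.2.2.2 _ hs1).1 ?_
        refine ⟨_, ?_, rfl⟩
        rw [mem_ball_zero_iff, norm_mul, hz, mul_one, Complex.norm_real, Real.norm_eq_abs,
          abs_of_pos (by linarith)]
        linarith
      rw [h11, sub_zero, zero_add, smul_eq_mul]
      exact mul_nonpos_of_nonneg_of_nonpos (inv_nonneg.2 hs3'.le) h12.le
    have h13 : dotL a (D.h z ^ 2 / D.ε * (-z)) ≤ 0 := le_of_tendsto h6 h7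
    rw [dotL_apply] at h13
    have h14 : dot a (D.h z ^ 2 / D.ε * (-z)) = - dot a T := by
      rw [hT]
      simp only [dot, mul_neg, Complex.neg_re, Complex.neg_im]
      ring
    linarith
  -- conclusion
  have hT0 : T ≠ 0 := by
    rw [hT]
    exact mul_ne_zero (div_ne_zero (pow_ne_zero _ hh) hε) hz0
  have hprod : (starRingEnd ℂ) a * T = ((dot a T : ℝ) : ℂ) := by
    apply Complex.ext
    · simp [dot]
    · have : ((starRingEnd ℂ) a * T).im = -(dot a (Complex.I * T)) := by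
        simp [dot]
        ring
      rw [this, htan]
      simp
  have hnT : 0 < ‖T‖ := norm_pos_iff.2 hT0
  have hnorm : ‖a‖ * ‖T‖ = dot a T := by
    have h1 := congrArg norm hprod
    rw [norm_mul, Complex.norm_conj, Complex.norm_real, Real.norm_eq_abs,
      abs_of_nonneg hnor] at h1
    exact h1
  have haT : a = ((‖a‖ : ℝ) : ℂ) * (T / ((‖T‖ : ℝ) : ℂ)) := by
    have h1 : a * (starRingEnd ℂ) T = ((dot a T : ℝ) : ℂ) := by
      have h2 := congrArg (starRingEnd ℂ) hprod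
      rw [map_mul, Complex.conj_conj, Complex.conj_ofReal] at h2
      exact h2
    have h3 : a * (starRingEnd ℂ) T * T = ((dot a T : ℝ) : ℂ) * T := by rw [h1]
    have h4 : a * (starRingEnd ℂ) T * T = a * (((‖T‖ : ℝ) : ℂ) ^ 2) := by
      rw [mul_assoc, mul_comm ((starRingEnd ℂ) T) T, Complex.mul_conj,
        Complex.normSq_eq_norm_sq]
      push_cast
      rfl
    have hnTc : ((‖T‖ : ℝ) : ℂ) ≠ 0 := by exact_mod_cast hnT.ne'
    rw [h4, ← hnorm] at h3
    push_cast at h3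
    field_simp
    have h5 : ((‖T‖ : ℝ) : ℂ) * (a * ((‖T‖ : ℝ) : ℂ)) = ((‖T‖ : ℝ) : ℂ) * (((‖a‖ : ℝ) : ℂ) * T) := by
      linear_combination h3
    exact mul_left_cancel₀ hnTc h5
  rw [haT]
  have hna : ‖((‖a‖ : ℝ) : ℂ) * (T / ((‖T‖ : ℝ) : ℂ))‖ = ‖a‖ := by rw [← haT]
  rw [hna]
  congr 1
  have hTn : ‖T‖ = ‖D.h z‖ ^ 2 / D.ε := by
    rw [hT, norm_mul, norm_div, norm_pow, hz, mul_one, Complex.norm_real, Real.norm_eq_abs,
      abs_of_pos D.ε_pos]
  rw [hTn, hT]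
  push_cast
  have hhn : ((‖D.h z‖ : ℝ) : ℂ) ≠ 0 := by exact_mod_cast (norm_ne_zero_iff.2 hh)
  field_simp

end Data

end Serrin
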