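import Pool.Agent.Lib.MP_2fa8c7_an.PSol5

set_option autoImplicit false

/-!
# MP_2fa8c7_an: the explicit weak solution
-/

namespace Serrin

open MeasureTheory Set Filter Topology Metric
open scoped ContDiff NNReal

namespace Pde

variable (S : Pde)

/-- the conclusion of the PDE part -/
theorem isSolution (hb : ∀ p ∈ frontier S.Ω, S.uo p = 0) {c : ℝ}
    (hn : ∀ p ∈ frontier S.Ω, ∀ (V : Set ℂ) (ρ : ℂ → ℝ), LocDef S.Ω p V ρ →
      S.go p * ‖gr ρ p‖ = c * gr ρ p) :
    IsSolution S.σc (ball 0 1) S.Ω := by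
  obtain ⟨L, hL⟩ := S.exists_lipschitz hb
  have h0 : ∀ z ∉ S.Ω, S.u z = 0 := by
    intro z hz
    have h1 : z ∉ closedBall (0 : ℂ) 1 := fun h => hz (S.sub h)
    simp only [Pde.u, h1, hz, if_false]
  have hfr : ∀ p ∈ frontier S.Ω, 1 < ‖p‖ ∧ p ∈ S.V := by
    intro p hp
    have h1 : p ∉ S.Ω := by
      rw [S.dom.isOpen.frontier_eq] at hp
      exact hp.2
    have h2 : 1 < ‖p‖ := by
      by_contra h
      exact h1 (S.sub (by simpa using not_lt.mp h))
    exact ⟨h2, S.mem_V hp.1 h2.le⟩
  refine ⟨isSmoothDomain_ball one_pos, S.dom, (closure_ball_subset_closedBall).trans S.sub, S.u, gr S.u, c,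
    ⟨isH10_of_lipschitz S.dom.isOpen S.dom.isBounded S.null hL h0, fun v hv => S.weak_eq hv⟩,
    S.V ∩ {z | 1 < ‖z‖}, S.uo, S.isOpen_V.inter (isOpen_lt continuous_const continuous_norm),
    fun p hp => ⟨(hfr p hp).2, (hfr p hp).1⟩, S.contDiffOn_uo.mono inter_subset_left, ?_, hb, ?_⟩
  · rintro z ⟨⟨-, hz1⟩, hz2⟩
    have h1 : z ∉ closedBall (0 : ℂ) 1 := by
      simp only [mem_closedBall_zero_iff, not_le]
      exact hz1
    simp only [Pde.u, h1, hz2, if_false, if_true]
  · intro p hp V ρ hρ
    have h1 := hn p hp V ρ hρ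
    have h2 : gr ρ p ≠ 0 := hρ.2.2.2.1 p hρ.2.1
    rw [gr_of_hasFDerivAt (S.hasFDerivAt_uo (hfr p hp).2)]
    set g := gr ρ p with hg
    set a := S.go p with ha
    have hgn : 0 < ‖g‖ := norm_pos_iff.mpr h2
    have hre : a.re * ‖g‖ = c * g.re := by
      have := congrArg Complex.re h1
      simpa using this
    have him : a.im * ‖g‖ = c * g.im := by
      have := congrArg Complex.im h1
      simpa using this
    have hsq : g.re * g.re + g.im * g.im = ‖g‖ ^ 2 := by
      rw [Complex.sq_norm, Complex.normSq_apply]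
    have h3 : dot a g * ‖g‖ = c * ‖g‖ * ‖g‖ := by
      unfold dot
      calc (a.re * g.re + a.im * g.im) * ‖g‖ = (a.re * ‖g‖) * g.re + (a.im * ‖g‖) * g.im := by ring
        _ = c * (g.re * g.re + g.im * g.im) := by rw [hre, him]; ring
        _ = c * ‖g‖ * ‖g‖ := by rw [hsq]; ring
    exact mul_right_cancel₀ hgn.ne' h3

end Pde

private lemma ps_normal_ball {R : ℝ} (hR : 0 < R) {p : ℂ} (hp : ‖p‖ = R) {V : Set ℂ} {ρ : ℂ → ℝ}
    (h : LocDef (ball (0 : ℂ) R) p V ρ) : p * ‖gr ρ p‖ = R * gr ρ p := by
  obtain ⟨hV, hpV, hsm, hne, hiff⟩ := h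
  have hd : DifferentiableAt ℝ ρ p := (hsm.contDiffAt (hV.mem_nhds hpV)).differentiableAt (by simp)
  have hfd := hasFDerivAt_of_differentiableAt hd
  set g := gr ρ p with hg
  have hgne : g ≠ 0 := hne p hpV
  have hρp : 0 ≤ ρ p := by
    by_contra hcon
    have := (hiff p hpV).mpr (not_le.mp hcon)
    rw [mem_ball_zero_iff, hp] at this
    exact lt_irrefl _ this
  have hpn : p.re * p.re + p.im * p.im = R ^ 2 := by
    rw [← hp, Complex.sq_norm, Complex.normSq_apply]
  have key : ∀ v : ℂ, dot p v < 0 → dot g v ≤ 0 := by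
    intro v hv
    have hline : HasDerivAt (fun t : ℝ => ρ (p + t • v)) (dot g v) 0 := by
      have h1 : HasDerivAt (fun t : ℝ => p + t • v) v 0 := by
        simpa using ((hasDerivAt_id (0 : ℝ)).smul_const v).const_add p
      have h2 : HasFDerivAt ρ (dotL g) (p + (0 : ℝ) • v) := by simpa using hfd
      have h3 : HasDerivAt (fun t : ℝ => ρ (p + t • v)) (dotL g v) 0 := h2.comp_hasDerivAt (0 : ℝ) h1
      rwa [dotL_apply] at h3
    have hsl := hasDerivAt_iff_tendsto_slope_zero.mp hline
    have hsl2 : Tendsto (fun t : ℝ => t⁻¹ • (ρ (p + (0 + t) • v) - ρ (p + (0 : ℝ) • v))) (𝓝[>] 0)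
        (𝓝 (dot g v)) :=
      hsl.mono_left (nhdsWithin_mono _ (fun t ht => ne_of_gt ht))
    refine le_of_tendsto hsl2 ?_
    have hcont : Tendsto (fun t : ℝ => p + t • v) (𝓝[>] 0) (𝓝 p) := by
      have : Continuous fun t : ℝ => p + t • v := by fun_prop
      have h1 := this.tendsto 0
      simp only [zero_smul, add_zero] at h1
      exact h1.mono_left nhdsWithin_le_nhds
    have hsmall : ∀ᶠ t : ℝ in 𝓝[>] 0, t * (v.re * v.re + v.im * v.im) < -2 * dot p v := by
      have : Tendsto (fun t : ℝ => t * (v.re * v.re + v.im * v.im)) (𝓝[>] 0) (𝓝 0) := by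
        have h1 : Continuous fun t : ℝ => t * (v.re * v.re + v.im * v.im) := by fun_prop
        have h2 := h1.tendsto 0
        simp only [zero_mul] at h2
        exact h2.mono_left nhdsWithin_le_nhds
      exact this.eventually_lt_const (by linarith)
    filter_upwards [hcont.eventually (hV.mem_nhds hpV), hsmall, self_mem_nhdsWithin] with t ht1 ht2 ht3
    have ht0 : (0 : ℝ) < t := ht3
    have hin : p + t • v ∈ ball (0 : ℂ) R := by
      rw [mem_ball_zero_iff]
      have h4 : ‖p + t • v‖ ^ 2 < R ^ 2 := by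
        rw [Complex.sq_norm, Complex.normSq_apply]
        have e : (p + t • v).re * (p + t • v).re + (p + t • v).im * (p + t • v).im =
            (p.re * p.re + p.im * p.im) + t * (2 * dot p v + t * (v.re * v.re + v.im * v.im)) := by
          simp [dot]
          ring
        rw [e, hpn]
        have : t * (2 * dot p v + t * (v.re * v.re + v.im * v.im)) < 0 :=
          mul_neg_of_pos_of_neg ht0 (by linarith)
        linarith
      exact lt_of_pow_lt_pow_left₀ 2 hR.le h4
    have h5 : ρ (p + t • v) < 0 := (hiff _ ht1).mp hin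
    have h6 : ρ (p + (0 + t) • v) - ρ (p + (0 : ℝ) • v) ≤ 0 := by
      simp only [zero_add, zero_smul, add_zero]
      linarith
    exact mul_nonpos_of_nonneg_of_nonpos (inv_nonneg.mpr ht0.le) h6
  -- the tangential component vanishes
  set w : ℂ := ⟨-p.im, p.re⟩ with hw
  have hR2 : 0 < R ^ 2 := by positivity
  have k1 : 0 ≤ dot g p := by
    have := key (-p) (by simp only [dot, Complex.neg_re, Complex.neg_im]; nlinarith)
    simp only [dot, Complex.neg_re, Complex.neg_im] at this ⊢
    linarith
  have k2 : ∀ ε > (0 : ℝ), dot g w ≤ ε * dot g p ∧ -dot g w ≤ ε * dot g p := by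
    intro ε hε
    constructor
    · have := key ⟨-ε * p.re - p.im, -ε * p.im + p.re⟩ (by
        simp only [dot]
        have e : p.re * (-ε * p.re - p.im) + p.im * (-ε * p.im + p.re) = -ε * (p.re * p.re + p.im * p.im) := by ring
        rw [e, hpn]
        nlinarith [mul_pos hε hR2])
      simp only [dot, hw] at this ⊢
      linarith
    · have := key ⟨-ε * p.re + p.im, -ε * p.im - p.re⟩ (by
        simp only [dot]
        have e : p.re * (-ε * p.re + p.im) + p.im * (-ε * p.im - p.re) = -ε * (p.re * p.re + p.im * p.im) := by ring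
        rw [e, hpn]
        nlinarith [mul_pos hε hR2])
      simp only [dot, hw] at this ⊢
      linarith
  have k3 : dot g w = 0 := by
    apply le_antisymm
    · apply le_of_forall_pos_le_add
      intro δ hδ
      have := (k2 (δ / (dot g p + 1)) (by positivity)).1
      refine this.trans ?_
      rw [zero_add, div_mul_eq_mul_div, div_le_iff₀ (by positivity)]
      nlinarith
    · have : -dot g w ≤ 0 := by
        apply le_of_forall_pos_le_add
        intro δ hδ
        have := (k2 (δ / (dot g p + 1)) (by positivity)).2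
        refine this.trans ?_
        rw [zero_add, div_mul_eq_mul_div, div_le_iff₀ (by positivity)]
        nlinarith
      linarith
  set lam : ℝ := dot g p / R ^ 2 with hlam
  have hlam0 : 0 ≤ lam := by positivity
  have e1 : g = (lam : ℂ) * p := by
    have h1 : dot g p = g.re * p.re + g.im * p.im := rfl
    have h2 : g.re * -p.im + g.im * p.re = 0 := k3
    apply Complex.ext
    · rw [Complex.re_ofReal_mul, hlam, h1, div_mul_eq_mul_div, eq_div_iff hR2.ne', ← hpn]
      linear_combination (-p.im) * h2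
    · rw [Complex.im_ofReal_mul, hlam, h1, div_mul_eq_mul_div, eq_div_iff hR2.ne', ← hpn]
      linear_combination (p.re) * h2
  have e2 : ‖g‖ = lam * R := by
    rw [e1, norm_mul, Complex.norm_real, Real.norm_eq_abs, abs_of_nonneg hlam0, hp]
  rw [e2, e1]
  push_cast
  ring

/-- concentric discs -/
theorem isSolution_ball {σc R : ℝ} (hσ : 1 < σc) (hR : 1 < R) :
    IsSolution σc (ball 0 1) (ball 0 R) := by
  have hR0 : 0 < R := by linarith
  let S : Pde :=
    { σc := σc
      hσ := hσ
      Ω := ball 0 R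
      Ω' := univ
      dom := isSmoothDomain_ball hR0
      null := by
        rw [frontier_ball _ hR0.ne']
        exact Measure.addHaar_sphere volume 0 R
      sub := closedBall_subset_ball hR
      open' := isOpen_univ
      sub' := subset_univ _
      f := fun _ => 0
      hf := differentiableOn_const _
      f_conj := by
        intro z _
        simp
      C := R ^ 2 / 4 }
  have hfr : ∀ p ∈ frontier S.Ω, ‖p‖ = R := by
    intro p hp
    have : p ∈ sphere (0 : ℂ) R := by
      rw [← frontier_ball _ hR0.ne']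
      exact hp
    simpa using this
  refine S.isSolution (c := -(R / 2)) (fun p hp => ?_) (fun p hp V ρ hρ => ?_)
  · have := hfr p hp
    simp only [Pde.uo, this, S]
    simp
  · have h1 := ps_normal_ball hR0 (hfr p hp) hρ
    have h2 : S.go p = -p / 2 := by
      simp [Pde.go, S]
    rw [h2]
    push_cast
    linear_combination (-1 / 2 : ℂ) * h1

end Serrin
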