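import Pool.Agent.Lib.MP_2fa8c7_an.GeoC
import Pool.Agent.Lib.MP_2fa8c7_an.GeoD
import Pool.Agent.Lib.MP_2fa8c7_an.PSol

set_option autoImplicit false

/-!
# MP_2fa8c7_an: the holomorphic function `f` and the boundary conditions
-/

namespace Serrin

open MeasureTheory Set Filter Topology Metric
open scoped ContDiff NNReal

namespace Data

variable (D : Data)

/-- the holomorphic part of the solution -/
noncomputable def f (w : ℂ) : ℂ := D.F (D.Gi w) / D.e

theorem hasDerivAt_f {w : ℂ} (hw : w ∈ D.Ω') : HasDerivAt D.f (D.Φ (D.Gi w) / D.ε) w := by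
  have hm := D.Gi_mem hw
  have hε : (D.ε : ℂ) ≠ 0 := by exact_mod_cast D.ε_pos.ne'
  have hh := D.h_ne hm
  have he : (D.e : ℂ) = (D.ε : ℂ) ^ 2 := by rw [← D.ε_sq]; push_cast; ring
  have h1 := ((D.hF _ hm).comp w (D.hasDerivAt_Gi hw)).div_const (D.e : ℂ)
  have h2 : D.Φ (D.Gi w) * D.h (D.Gi w) ^ 2 * (D.ε / D.h (D.Gi w) ^ 2) / (D.e : ℂ)
      = D.Φ (D.Gi w) / D.ε := by
    rw [he]
    field_simp
  rw [h2] at h1
  exact h1

theorem f_conj {w : ℂ} (hw : w ∈ D.Ω') :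
    D.f ((starRingEnd ℂ) w) = (starRingEnd ℂ) (D.f w) := by
  unfold f
  rw [(D.Gi_conj hw).2, D.F_conj, map_div₀, Complex.conj_ofReal]

theorem deriv_f_small {v : ℂ} (hv : ‖v‖ ≤ 1) :
    deriv D.f v = (∑' n, (D.φ n : ℂ) * (D.ε * v) ^ n) / D.ε := by
  have hvΩ : v ∈ D.Ω' := D.closure_Ω_subset (subset_closure (D.closedBall_subset
    (by rw [mem_closedBall_zero_iff]; exact hv)))
  have hε : (D.ε : ℂ) ≠ 0 := by exact_mod_cast D.ε_pos.ne'
  rw [(D.hasDerivAt_f hvΩ).deriv]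
  have hm := D.Gi_mem hvΩ
  have hG := D.G_Gi hvΩ
  have hg : D.g (D.Gi v) = D.ε * v := by
    have h1 : D.g (D.Gi v) / D.ε = v := hG
    rw [div_eq_iff hε] at h1
    rw [h1, mul_comm]
  have hlt : ‖D.g (D.Gi v)‖ < D.δ / 2 := by
    rw [hg, norm_mul, Complex.norm_real, Real.norm_eq_abs, abs_of_pos D.ε_pos]
    have h2 := D.ε_le
    have h3 := D.hδ
    have h4 : D.ε * ‖v‖ ≤ D.ε * 1 := mul_le_mul_of_nonneg_left hv D.ε_pos.le
    linarith
  have h5 := D.hser _ hm hlt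
  rw [hg] at h5
  rw [← h5.tsum_eq]

/-- the data of the PDE part, with a free constant -/
noncomputable def pde (σc : ℝ) (hσ : 1 < σc) (C : ℝ) : Pde where
  σc := σc
  hσ := hσ
  Ω := D.Ω
  Ω' := D.Ω'
  dom := D.isSmoothDomain
  null := D.null_frontier
  sub := D.closedBall_subset
  open' := D.isOpen_Ω'
  sub' := D.closure_Ω_subset
  f := D.f
  hf := fun w hw => (D.hasDerivAt_f hw).differentiableAt.differentiableWithinAt
  f_conj := fun z hz => D.f_conj (D.closure_Ω_subset (subset_closure (D.closedBall_subset hz)))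
  C := C

end Data

end Serrin
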