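import Pool.Agent.Lib.MP_2fa8c7_an.GeoE1

set_option autoImplicit false

/-!
# MP_2fa8c7_an: the holomorphic function `f` and the boundary conditions
-/

namespace Serrin

open MeasureTheory Set Filter Topology Metric
open scoped ContDiff NNReal

namespace Data

variable (D : Data)

/-- the gradient on the boundary -/
theorem go_eq {σc : ℝ} (hσ : 1 < σc) (hμ : D.μ = (σc - 1) / (σc + 1)) (C : ℝ) {z : ℂ}
    (hz : ‖z‖ = 1) : (D.pde σc hσ C).go (D.G z) =
      (D.c / D.ε : ℝ) * (z * (D.h z ^ 2 / ‖D.h z‖ ^ 2)) := by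
  have hzr : z ∈ ball (0 : ℂ) D.r := by rw [mem_ball_zero_iff, hz]; exact D.hr
  have hε : (D.ε : ℂ) ≠ 0 := by exact_mod_cast D.ε_pos.ne'
  have hh := D.h_ne hzr
  have hhn : ((‖D.h z‖ : ℝ) : ℂ) ≠ 0 := by exact_mod_cast (norm_ne_zero_iff.2 hh)
  have hcl : D.G z ∈ closure D.Ω := by
    rw [D.closure_Ω]
    exact ⟨z, by rw [mem_closedBall_zero_iff, hz], rfl⟩
  have hn1 : 1 ≤ ‖D.G z‖ := by
    have hfr' : D.G z ∈ frontier D.Ω := by
      rw [D.frontier_Ω]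
      exact ⟨z, by rw [mem_sphere_zero_iff_norm, hz], rfl⟩
    by_contra hcon
    have h1 : D.G z ∈ D.Ω := D.closedBall_subset
      (by rw [mem_closedBall_zero_iff]; exact (not_le.1 hcon).le)
    rw [D.isOpen_Ω.frontier_eq] at hfr'
    exact hfr'.2 h1
  have hG0 : D.G z ≠ 0 := by
    intro h0; rw [h0, norm_zero] at hn1; linarith
  have hg0 : D.g z ≠ 0 := by
    intro h0; apply hG0; unfold G; rw [h0, zero_div]
  have hd1 : deriv D.f (D.G z) = D.Φ z / D.ε := by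
    rw [(D.hasDerivAt_f (D.closure_Ω_subset hcl)).deriv, D.Gi_G hzr]
  have hinv : ‖(D.G z)⁻¹‖ ≤ 1 := by
    rw [norm_inv]
    exact inv_le_one_of_one_le₀ hn1
  have hd2 := D.deriv_f_small hinv
  have he : (D.e : ℂ) = (D.ε : ℂ) ^ 2 := by rw [← D.ε_sq]; push_cast; ring
  have harg : (D.ε : ℂ) * (D.G z)⁻¹ = D.e * (D.g z)⁻¹ := by
    unfold G
    rw [inv_div, he]
    field_simp
  rw [harg] at hd2
  have hid := D.hid z hz
  set Sg : ℂ := ∑' n, (D.φ n : ℂ) * (D.e * (D.g z)⁻¹) ^ n with hSg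
  -- the conjugate of the gradient
  have hkey : -(starRingEnd ℂ) (D.G z) / 2 + (deriv D.f (D.G z) + D.μ * (D.G z)⁻¹ ^ 2 *
      deriv D.f (D.G z)⁻¹) = (D.c / D.ε : ℝ) * ((starRingEnd ℂ) z * (starRingEnd ℂ) (D.h z))
        / D.h z := by
    rw [hd1, hd2]
    have hGc : (starRingEnd ℂ) (D.G z) = (starRingEnd ℂ) (D.g z) / D.ε := by
      unfold G
      rw [map_div₀, Complex.conj_ofReal]
    have hG2 : (D.G z)⁻¹ ^ 2 = D.e * (D.g z)⁻¹ ^ 2 := by
      unfold G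
      rw [inv_div, div_pow, he, inv_pow]
      field_simp
    rw [hGc, hG2]
    have h1 : D.Φ z + D.μ * D.e * (D.g z)⁻¹ ^ 2 * Sg =
        (1 / 2 * (starRingEnd ℂ) (D.g z) * D.h z
          + D.c * (starRingEnd ℂ) z * (starRingEnd ℂ) (D.h z)) / D.h z := by
      rw [hid, mul_div_cancel_left₀ _ hh]
    have h2 : -((starRingEnd ℂ) (D.g z) / D.ε) / 2 + (D.Φ z / D.ε
        + D.μ * (D.e * (D.g z)⁻¹ ^ 2) * (Sg / D.ε)) =
        (-((starRingEnd ℂ) (D.g z)) / 2 + (D.Φ z + D.μ * D.e * (D.g z)⁻¹ ^ 2 * Sg)) / D.ε := by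
      field_simp
    rw [h2, h1]
    push_cast
    field_simp
    ring
  have hconj : (D.pde σc hσ C).go (D.G z) = (starRingEnd ℂ)
      (-(starRingEnd ℂ) (D.G z) / 2 + (deriv D.f (D.G z) + D.μ * (D.G z)⁻¹ ^ 2 *
      deriv D.f (D.G z)⁻¹)) := by
    have hμ' : (D.pde σc hσ C).μ = D.μ := by rw [hμ]; rfl
    unfold Pde.go
    rw [hμ']
    simp only [pde, map_add, map_mul, map_div₀, map_neg, Complex.conj_conj, map_pow, map_inv₀,
      Complex.conj_ofReal, map_ofNat]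
  rw [hconj, hkey]
  simp only [map_mul, map_div₀, Complex.conj_conj, Complex.conj_ofReal]
  have hnsq : ((‖D.h z‖ : ℝ) : ℂ) ^ 2 = (starRingEnd ℂ) (D.h z) * D.h z := by
    rw [mul_comm, Complex.mul_conj, Complex.normSq_eq_norm_sq]
    push_cast
    rfl
  have hcn : (starRingEnd ℂ) (D.h z) ≠ 0 := by
    intro h0
    apply hh
    have := congrArg (starRingEnd ℂ) h0
    simpa using this
  rw [hnsq]
  field_simp

end Data

end Serrin
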