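import Pool.Agent.Lib.MP_2fa8c7_an.GeoE2

set_option autoImplicit false

/-!
# MP_2fa8c7_an: the holomorphic function `f` and the boundary conditions
-/

namespace Serrin

open MeasureTheory Set Filter Topology Metric
open scoped ContDiff NNReal

namespace Data

variable (D : Data)

/-- `uo` is constant on the boundary -/
theorem uo_const {σc : ℝ} (hσ : 1 < σc) (hμ : D.μ = (σc - 1) / (σc + 1)) (C : ℝ) {z : ℂ}
    (hz : ‖z‖ = 1) : (D.pde σc hσ C).uo (D.G z) = (D.pde σc hσ C).uo (D.G 1) := by
  set S := D.pde σc hσ C with hS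
  have hcirc : ∀ t : ℝ, ‖Complex.exp (t * Complex.I)‖ = 1 := fun t =>
    Complex.norm_exp_ofReal_mul_I t
  -- the boundary curve
  have hγ : ∀ t : ℝ, HasDerivAt (fun t : ℝ => Complex.exp (t * Complex.I))
      (Complex.I * Complex.exp (t * Complex.I)) t := by
    intro t
    have h1 : HasDerivAt (fun s : ℂ => Complex.exp (s * Complex.I))
        (Complex.exp (t * Complex.I) * (1 * Complex.I)) (t : ℂ) :=
      ((hasDerivAt_id (t : ℂ)).mul_const Complex.I).cexp
    have h2 := h1.comp_ofReal
    convert h2 using 1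
    ring
  have hmem : ∀ t : ℝ, Complex.exp (t * Complex.I) ∈ ball (0 : ℂ) D.r := by
    intro t
    rw [mem_ball_zero_iff, hcirc]
    exact D.hr
  have hGγ : ∀ t : ℝ, HasDerivAt (fun t : ℝ => D.G (Complex.exp (t * Complex.I)))
      (D.h (Complex.exp (t * Complex.I)) ^ 2 / D.ε *
        (Complex.I * Complex.exp (t * Complex.I))) t := by
    intro t
    exact HasDerivAt.comp_of_eq t (D.hasDerivAt_G (hmem t)) (hγ t) rfl
  have hder : ∀ t : ℝ, HasDerivAt (fun t : ℝ => S.uo (D.G (Complex.exp (t * Complex.I)))) 0 t := by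
    intro t
    set w := Complex.exp (t * Complex.I) with hw
    have hfr : D.G w ∈ closure D.Ω := by
      rw [D.closure_Ω]
      exact ⟨w, by rw [mem_closedBall_zero_iff, hcirc], rfl⟩
    have hn1 : 1 ≤ ‖D.G w‖ := by
      have hfr' : D.G w ∈ frontier D.Ω := by
        rw [D.frontier_Ω]
        exact ⟨w, by rw [mem_sphere_zero_iff_norm, hcirc], rfl⟩
      by_contra hcon
      have h1 : D.G w ∈ D.Ω := D.closedBall_subset
        (by rw [mem_closedBall_zero_iff]; exact (not_le.1 hcon).le)
      rw [D.isOpen_Ω.frontier_eq] at hfr'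
      exact hfr'.2 h1
    have h1 := S.hasFDerivAt_uo (S.mem_V hfr hn1)
    have h2 := h1.comp_hasDerivAt t (hGγ t)
    have h3 : dotL (S.go (D.G w)) (D.h w ^ 2 / D.ε * (Complex.I * w)) = 0 := by
      rw [hS, D.go_eq hσ hμ C (hcirc t), dotL_apply]
      -- dot (c a) (b i a) = 0 with a = w h²
      have h4 : ∀ (r s : ℝ) (a : ℂ), dot ((r : ℂ) * a) ((s : ℂ) * (Complex.I * a)) = 0 := by
        intro r s a
        simp [dot]
        ring
      have e1 : ((D.c / D.ε : ℝ) : ℂ) * (w * (D.h w ^ 2 / ((‖D.h w‖ : ℝ) : ℂ) ^ 2))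
          = ((D.c / D.ε / ‖D.h w‖ ^ 2 : ℝ) : ℂ) * (w * D.h w ^ 2) := by
        push_cast
        ring
      have e2 : D.h w ^ 2 / (D.ε : ℂ) * (Complex.I * w)
          = ((1 / D.ε : ℝ) : ℂ) * (Complex.I * (w * D.h w ^ 2)) := by
        push_cast
        ring
      rw [e1, e2]
      exact h4 _ _ _
    rw [h3] at h2
    exact h2
  have hconst : ∀ s t : ℝ, S.uo (D.G (Complex.exp (s * Complex.I)))
      = S.uo (D.G (Complex.exp (t * Complex.I))) := by
    intro s t
    exact is_const_of_deriv_eq_zero (f := fun t : ℝ => S.uo (D.G (Complex.exp (t * Complex.I))))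
      (fun t => (hder t).differentiableAt) (fun t => (hder t).deriv) s t
  have h5 : Complex.exp ((Complex.arg z : ℝ) * Complex.I) = z := by
    have := Complex.norm_mul_exp_arg_mul_I z
    rw [hz] at this
    simpa using this
  have h6 : Complex.exp (((0 : ℝ) : ℂ) * Complex.I) = 1 := by simp
  have h7 := hconst (Complex.arg z) 0
  rw [h5, h6] at h7
  exact h7

end Data

end Serrin
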