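import Pool.Agent.Lib.MP_2fa8c7_an.Alg

set_option autoImplicit false

/-!
# MP_2fa8c7_an: operators on the Wiener algebra given by matrices
-/

namespace Serrin

open Finset

variable {t : ℝ}

/-- Column bounds: the `i`-th column of the matrix `K j i` is supported in `j ≤ i + 1` and its
weighted `ℓ¹` norm is at most `C R^i`. -/
structure ColBound (t : ℝ) (K : ℕ → ℕ → ℝ) (C : ℝ) : Prop where
  nonneg : 0 ≤ C
  zero : ∀ i j, i + 1 < j → K j i = 0
  le : ∀ i, ∑ j ∈ range (i + 2), |K j i| * Rw t ^ j ≤ C * Rw t ^ i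

namespace ColBound

variable {K : ℕ → ℕ → ℝ} {C : ℝ}

lemma hasSum_col (h : ColBound t K C) (f : WA t) (i : ℕ) :
    HasSum (fun j => |K j i * WA.cf i f| * Rw t ^ j)
      (∑ j ∈ range (i + 2), |K j i * WA.cf i f| * Rw t ^ j) := by
  refine hasSum_sum_of_ne_finset_zero fun j hj => ?_
  have hj' : i + 1 < j := by
    rw [Finset.mem_range] at hj
    omega
  rw [h.zero i j hj', zero_mul, abs_zero, zero_mul]

lemma col_le (h : ColBound t K C) (f : WA t) (i : ℕ) :
    ∑ j ∈ range (i + 2), |K j i * WA.cf i f| * Rw t ^ j ≤ C * (|WA.cf i f| * Rw t ^ i) := by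
  have e : ∑ j ∈ range (i + 2), |K j i * WA.cf i f| * Rw t ^ j
      = |WA.cf i f| * ∑ j ∈ range (i + 2), |K j i| * Rw t ^ j := by
    rw [mul_sum]
    exact sum_congr rfl fun j _ => by rw [abs_mul]; ring
  rw [e]
  calc |WA.cf i f| * ∑ j ∈ range (i + 2), |K j i| * Rw t ^ j
      ≤ |WA.cf i f| * (C * Rw t ^ i) := mul_le_mul_of_nonneg_left (h.le i) (abs_nonneg _)
    _ = C * (|WA.cf i f| * Rw t ^ i) := by ring

lemma summable_prod (h : ColBound t K C) (f : WA t) :
    Summable fun p : ℕ × ℕ => |K p.2 p.1 * WA.cf p.1 f| * Rw t ^ p.2 := by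
  rw [summable_prod_of_nonneg (fun p => mul_nonneg (abs_nonneg _) (Rw_pow_pos t _).le)]
  refine ⟨fun i => (h.hasSum_col f i).summable, ?_⟩
  refine Summable.of_nonneg_of_le (fun i => tsum_nonneg fun j =>
    mul_nonneg (abs_nonneg _) (Rw_pow_pos t _).le) (fun i => ?_) (f.summable.mul_left C)
  rw [(h.hasSum_col f i).tsum_eq]
  exact h.col_le f i

lemma summable_prod' (h : ColBound t K C) (f : WA t) :
    Summable fun p : ℕ × ℕ => |K p.1 p.2 * WA.cf p.2 f| * Rw t ^ p.1 :=
  (Equiv.prodComm ℕ ℕ).summable_iff.1 (h.summable_prod f)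

lemma summable_row (h : ColBound t K C) (f : WA t) (j : ℕ) :
    Summable fun i => K j i * WA.cf i f := by
  have h1 := (h.summable_prod' f).prod_factor j
  have h2 : Summable fun i => |K j i * WA.cf i f| := by
    have := h1.mul_right (Rw t ^ j)⁻¹
    refine this.congr fun i => ?_
    show |K j i * WA.cf i f| * Rw t ^ j * (Rw t ^ j)⁻¹ = _
    rw [mul_inv_cancel_right₀ (Rw_pow_pos t j).ne']
  exact h2.of_abs

lemma row_le (h : ColBound t K C) (f : WA t) (j : ℕ) :
    |∑' i, K j i * WA.cf i f| * Rw t ^ j ≤ ∑' i, |K j i * WA.cf i f| * Rw t ^ j := by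
  rw [tsum_mul_right]
  refine mul_le_mul_of_nonneg_right ?_ (Rw_pow_pos t j).le
  have := norm_tsum_le_tsum_norm (h.summable_row f j).norm
  simpa only [Real.norm_eq_abs] using this

lemma summable_rows (h : ColBound t K C) (f : WA t) :
    Summable fun j => |∑' i, K j i * WA.cf i f| * Rw t ^ j :=
  Summable.of_nonneg_of_le (fun j => mul_nonneg (abs_nonneg _) (Rw_pow_pos t _).le)
    (h.row_le f) (h.summable_prod' f).prod

lemma tsum_rows_le (h : ColBound t K C) (f : WA t) :
    ∑' j, |∑' i, K j i * WA.cf i f| * Rw t ^ j ≤ C * ‖f‖ := by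
  calc ∑' j, |∑' i, K j i * WA.cf i f| * Rw t ^ j
      ≤ ∑' j, ∑' i, |K j i * WA.cf i f| * Rw t ^ j :=
        (h.summable_rows f).tsum_le_tsum (h.row_le f) (h.summable_prod' f).prod
    _ = ∑' i, ∑' j, |K j i * WA.cf i f| * Rw t ^ j :=
        Summable.tsum_comm (f := fun i j => |K j i * WA.cf i f| * Rw t ^ j)
          (h.summable_prod f)
    _ ≤ ∑' i, C * (|WA.cf i f| * Rw t ^ i) := by
        refine (h.summable_prod f).prod.tsum_le_tsum (fun i => ?_) (f.summable.mul_left C)
        rw [(h.hasSum_col f i).tsum_eq]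
        exact h.col_le f i
    _ = C * ‖f‖ := by rw [tsum_mul_left, WA.norm_def]

/-- The operator with matrix `K`. -/
noncomputable def op (h : ColBound t K C) : WA t →L[ℝ] WA t :=
  LinearMap.mkContinuous
    { toFun := fun f => WA.mk (fun j => ∑' i, K j i * WA.cf i f) (h.summable_rows f)
      map_add' := fun f g => by
        refine WA.ext fun j => ?_
        simp only [WA.cf_mk, WA.cf_add, mul_add]
        exact (h.summable_row f j).tsum_add (h.summable_row g j)
      map_smul' := fun c f => by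
        refine WA.ext fun j => ?_
        simp only [WA.cf_mk, WA.cf_smul, RingHom.id_apply]
        rw [← tsum_mul_left]
        exact tsum_congr fun i => by ring } C
    (fun f => by
      rw [WA.norm_def]
      simp only [LinearMap.coe_mk, AddHom.coe_mk, WA.cf_mk]
      exact h.tsum_rows_le f)

lemma cf_op (h : ColBound t K C) (f : WA t) (j : ℕ) :
    WA.cf j (h.op f) = ∑' i, K j i * WA.cf i f := WA.cf_mk _ (h.summable_rows f) _

lemma norm_op_le (h : ColBound t K C) (f : WA t) : ‖h.op f‖ ≤ C * ‖f‖ :=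
  (h.op.le_opNorm f).trans
    (mul_le_mul_of_nonneg_right (LinearMap.mkContinuous_norm_le _ h.nonneg _) (norm_nonneg f))

end ColBound

end Serrin
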