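import Pool.Agent.Lib.MP_2fa8c7_an.Par
import Pool.Agent.Lib.MP_2fa8c7_an.Ev

set_option autoImplicit false

/-!
# MP_2fa8c7_an: the operators `Q, I, N, L, T` and the series `K`
-/

namespace Serrin

open Finset

namespace Par

variable (P : Par)

/-- matrix of the difference quotient at `q` -/
noncomputable def Qk (j i : ℕ) : ℝ := if j < i then P.q ^ (i - 1 - j) else 0

theorem colQ : ColBound P.t P.Qk P.δ⁻¹ where
  nonneg := inv_nonneg.2 P.δ_pos.le
  zero i j h := by unfold Qk; rw [if_neg (by omega)]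
  le i := by
    have hR := Rw_pos P.t
    have hq := P.q_pos
    have hd := P.δ_pos
    -- the sum is at most `R^i / (R - q)`
    have key : ∀ i : ℕ, (Rw P.t - P.q) * ∑ j ∈ range i, P.q ^ (i - 1 - j) * Rw P.t ^ j
        = Rw P.t ^ i - P.q ^ i := by
      intro i
      have := Commute.geom_sum₂_mul (Commute.all (Rw P.t) P.q) i
      rw [← this, mul_comm]
      congr 1
      exact Finset.sum_congr rfl fun j _ => mul_comm _ _
    have e : ∑ j ∈ range (i + 2), |P.Qk j i| * Rw P.t ^ j
        = ∑ j ∈ range i, P.q ^ (i - 1 - j) * Rw P.t ^ j := by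
      rw [Finset.sum_range_succ, Finset.sum_range_succ]
      have h1 : P.Qk (i + 1) i = 0 := by unfold Qk; rw [if_neg (by omega)]
      have h2 : P.Qk i i = 0 := by unfold Qk; rw [if_neg (by omega)]
      rw [h1, h2, abs_zero, zero_mul, zero_mul, add_zero, add_zero]
      refine Finset.sum_congr rfl fun j hj => ?_
      have hj' := Finset.mem_range.1 hj
      unfold Qk
      rw [if_pos hj', abs_of_pos (pow_pos hq _)]
    rw [e]
    have hS : 0 ≤ ∑ j ∈ range i, P.q ^ (i - 1 - j) * Rw P.t ^ j :=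
      Finset.sum_nonneg fun j _ => by positivity
    have h3 : P.δ * ∑ j ∈ range i, P.q ^ (i - 1 - j) * Rw P.t ^ j ≤ Rw P.t ^ i := by
      have h4 := mul_le_mul_of_nonneg_right P.δ_le_R_sub_q hS
      rw [key] at h4
      linarith [pow_pos hq i]
    calc ∑ j ∈ range i, P.q ^ (i - 1 - j) * Rw P.t ^ j
        = P.δ⁻¹ * (P.δ * ∑ j ∈ range i, P.q ^ (i - 1 - j) * Rw P.t ^ j) := by
          rw [← mul_assoc, inv_mul_cancel₀ hd.ne', one_mul]
      _ ≤ P.δ⁻¹ * Rw P.t ^ i := mul_le_mul_of_nonneg_left h3 (inv_nonneg.2 hd.le)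

/-- matrix of the antiderivative -/
noncomputable def Ik (j i : ℕ) : ℝ := if j = i + 1 then 1 / ((i : ℝ) + 1) else 0

theorem colI : ColBound P.t (Ik) 2 where
  nonneg := by norm_num
  zero i j h := by unfold Ik; rw [if_neg (by omega)]
  le i := by
    rw [Finset.sum_eq_single_of_mem (i + 1) (Finset.mem_range.2 (by omega))
      (fun j _ hj => by unfold Ik; rw [if_neg hj, abs_zero, zero_mul])]
    unfold Ik
    rw [if_pos rfl, abs_of_pos (by positivity), pow_succ]
    have hR := P.R_le
    have h1 : 1 / ((i : ℝ) + 1) ≤ 1 := by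
      rw [div_le_one (by positivity)]
      linarith [Nat.cast_nonneg (α := ℝ) i]
    have hRi := Rw_pow_pos P.t i
    have h0 := Rw_pos P.t
    calc 1 / ((i : ℝ) + 1) * (Rw P.t ^ i * Rw P.t) ≤ 1 * (Rw P.t ^ i * Rw P.t) :=
          mul_le_mul_of_nonneg_right h1 (by positivity)
      _ ≤ 2 * Rw P.t ^ i := by nlinarith

/-- matrix of `N = Q ∘ I` -/
noncomputable def Nk (j i : ℕ) : ℝ := if j ≤ i then P.q ^ (i - j) / ((i : ℝ) + 1) else 0

theorem colN : ColBound P.t P.Nk 1 where
  nonneg := by norm_num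
  zero i j h := by unfold Nk; rw [if_neg (by omega)]
  le i := by
    have hq := P.q_pos
    have hq1 := P.q_lt_one
    have h1R := one_le_Rw P.t
    have h0 : (0 : ℝ) < (i : ℝ) + 1 := by positivity
    rw [Finset.sum_range_succ]
    have hz : P.Nk (i + 1) i = 0 := by unfold Nk; rw [if_neg (by omega)]
    rw [hz, abs_zero, zero_mul, add_zero, one_mul]
    calc ∑ j ∈ range (i + 1), |P.Nk j i| * Rw P.t ^ j
        ≤ ∑ _j ∈ range (i + 1), Rw P.t ^ i / ((i : ℝ) + 1) := by
          refine Finset.sum_le_sum fun j hj => ?_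
          have hj' : j ≤ i := by have := Finset.mem_range.1 hj; omega
          unfold Nk
          rw [if_pos hj', abs_of_pos (by positivity), div_mul_eq_mul_div]
          refine div_le_div_of_nonneg_right ?_ h0.le
          calc P.q ^ (i - j) * Rw P.t ^ j ≤ 1 * Rw P.t ^ i :=
                mul_le_mul (pow_le_one₀ hq.le hq1.le) (pow_le_pow_right₀ h1R hj')
                  (by positivity) (by norm_num)
            _ = Rw P.t ^ i := one_mul _
      _ = Rw P.t ^ i := by
          rw [Finset.sum_const, Finset.card_range, nsmul_eq_mul]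
          push_cast
          field_simp

/-- matrix of the diagonal operator `r ↦ -(2m/(m-2)) r_m` at index `m - 1` -/
noncomputable def Lk (j i : ℕ) : ℝ :=
  if 2 ≤ j ∧ i = j + 1 then -(2 * ((j : ℝ) + 1) / ((j : ℝ) - 1)) else 0

theorem colL : ColBound P.t Lk 6 where
  nonneg := by norm_num
  zero i j h := by unfold Lk; rw [if_neg (by omega)]
  le i := by
    have h1R := one_le_Rw P.t
    by_cases hi : 3 ≤ i
    · obtain ⟨m, rfl⟩ : ∃ m, i = m + 3 := ⟨i - 3, by omega⟩
      rw [Finset.sum_eq_single_of_mem (m + 2) (Finset.mem_range.2 (by omega))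
        (fun j _ hj => by unfold Lk; rw [if_neg (by omega), abs_zero, zero_mul])]
      unfold Lk
      rw [if_pos ⟨by omega, by omega⟩, abs_neg]
      push_cast
      have hm : (0 : ℝ) ≤ m := Nat.cast_nonneg m
      have e1 : (m : ℝ) + 2 - 1 = m + 1 := by ring
      rw [e1, abs_of_nonneg (by positivity)]
      have h2 : 2 * ((m : ℝ) + 2 + 1) / (m + 1) ≤ 6 := by
        rw [div_le_iff₀ (by positivity)]; linarith
      have h3 : Rw P.t ^ (m + 2) ≤ Rw P.t ^ (m + 3) := pow_le_pow_right₀ h1R (by omega)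
      exact mul_le_mul h2 h3 (Rw_pow_pos _ _).le (by norm_num)
    · rw [Finset.sum_eq_zero]
      · have := Rw_pow_pos P.t i
        positivity
      · intro j _
        unfold Lk
        rw [if_neg (by omega), abs_zero, zero_mul]

/-- the matrix of `h ↦ P_{≥0}[g(1/ζ) h(ζ)]` -/
noncomputable def Tk (g : P.A) (m i : ℕ) : ℝ := if m ≤ i then WA.cf (i - m) g else 0

theorem colT (g : P.A) : ColBound P.t (P.Tk g) ‖g‖ where
  nonneg := norm_nonneg _
  zero i j h := by unfold Tk; rw [if_neg (by omega)]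
  le i := by
    have h1R := one_le_Rw P.t
    rw [Finset.sum_range_succ]
    have hz : P.Tk g (i + 1) i = 0 := by unfold Tk; rw [if_neg (by omega)]
    rw [hz, abs_zero, zero_mul, add_zero]
    have e : ∑ j ∈ range (i + 1), |P.Tk g j i| * Rw P.t ^ j
        = ∑ j ∈ range (i + 1), |WA.cf j g| * Rw P.t ^ (i - j) := by
      rw [← Finset.sum_range_reflect]
      refine Finset.sum_congr rfl fun j hj => ?_
      have hj' := Finset.mem_range.1 hj
      unfold Tk
      rw [if_pos (by omega)]
      congr 3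
      omega
    rw [e]
    calc ∑ j ∈ range (i + 1), |WA.cf j g| * Rw P.t ^ (i - j)
        ≤ ∑ j ∈ range (i + 1), (|WA.cf j g| * Rw P.t ^ j) * Rw P.t ^ i := by
          refine Finset.sum_le_sum fun j hj => ?_
          rw [mul_assoc]
          refine mul_le_mul_of_nonneg_left ?_ (abs_nonneg _)
          calc Rw P.t ^ (i - j) ≤ Rw P.t ^ i := pow_le_pow_right₀ h1R (by omega)
            _ ≤ Rw P.t ^ j * Rw P.t ^ i := by
                have h5 : 1 ≤ Rw P.t ^ j := one_le_pow₀ h1R
                have h6 := Rw_pow_pos P.t i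
                nlinarith
      _ = (∑ j ∈ range (i + 1), |WA.cf j g| * Rw P.t ^ j) * Rw P.t ^ i := by
          rw [Finset.sum_mul]
      _ ≤ ‖g‖ * Rw P.t ^ i := by
          refine mul_le_mul_of_nonneg_right ?_ (Rw_pow_pos _ _).le
          rw [WA.norm_def]
          exact g.summable.sum_le_tsum _
            (fun j _ => mul_nonneg (abs_nonneg _) (Rw_pow_pos _ _).le)

/-- `Q f = (f - f(q)) / (x - q)` -/
noncomputable def Q : P.A →L[ℝ] P.A := P.colQ.op
/-- the antiderivative vanishing at `0` -/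
noncomputable def I : P.A →L[ℝ] P.A := P.colI.op
/-- `N = Q ∘ I` -/
noncomputable def N : P.A →L[ℝ] P.A := P.colN.op
/-- the diagonal operator `(L r)_{m-1} = -(2m/(m-2)) r_m`, `m ≥ 3` -/
noncomputable def L : P.A →L[ℝ] P.A := P.colL.op
/-- `Tz g h = P_{≥0}[g(1/ζ) h(ζ)]`, coefficients `∑_k g_k h_{k+m}` -/
noncomputable def Tz (g : P.A) : P.A →L[ℝ] P.A := (P.colT g).op

lemma abs_q_le : |P.q| ≤ Rw P.t := by
  rw [abs_of_pos P.q_pos]
  linarith [P.q_lt_one, one_le_Rw P.t]

/-- evaluation at `q` -/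
noncomputable def evq : P.A →L[ℝ] ℝ :=
  LinearMap.mkContinuous
    { toFun := fun f => WA.er P.q f
      map_add' := fun f g => WA.er_add P.abs_q_le f g
      map_smul' := fun c f => WA.er_smul P.q c f } 1
    (fun f => by rw [one_mul]; exact WA.abs_er_le P.abs_q_le f)

lemma evq_def (f : P.A) : P.evq f = ∑' n, WA.cf n f * P.q ^ n := rfl

lemma evq_eq (f : P.A) : P.evq f = WA.er P.q f := rfl

lemma K_summable : Summable fun n : ℕ => |(if n = 0 then 0 else P.q ^ (n - 1) : ℝ)|
    * Rw P.t ^ n := by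
  rw [← summable_nat_add_iff 1]
  have h1 : ∀ n : ℕ, |(if n + 1 = 0 then 0 else P.q ^ (n + 1 - 1) : ℝ)| * Rw P.t ^ (n + 1)
      = Rw P.t * (P.q * Rw P.t) ^ n := by
    intro n
    rw [if_neg (by omega), Nat.add_sub_cancel, abs_of_pos (pow_pos P.q_pos n), mul_pow, pow_succ]
    ring
  simp_rw [h1]
  exact (summable_geometric_of_lt_one (mul_nonneg P.q_pos.le (Rw_pos _).le)
    P.qR_lt_one).mul_left _

/-- the series of `1/(ζ - q)` in `x = 1/ζ` -/
noncomputable def K : P.A := WA.mk (fun n => if n = 0 then 0 else P.q ^ (n - 1)) P.K_summable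

/-- the negative part of `(ζ - q)^{-l} F`, as a power series in `1/ζ` -/
noncomputable def neg : ℕ → P.A → P.A
  | 0, _ => 0
  | (l + 1), F => P.K * neg l F + P.evq ((P.Q)^[l] F) • P.K

/-- normalising constant -/
noncomputable def Z : ℝ :=
  ∑' k : ℕ, (((k : ℝ) + 3) * ((k : ℝ) + 2) ^ 2 / ((k : ℝ) + 1)) * P.q ^ (2 * (k + 1))

/-- the profile -/
noncomputable def Y : P.A := (-(1 / (2 * P.q * P.Z))) • P.L (P.K ^ 2)

end Par

end Serrin
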