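import Pool.Agent.Lib.MP_2fa8c7_an.OpsK2

set_option autoImplicit false

/-!
# MP_2fa8c7_an: the series `K` and the negative parts
-/

namespace Serrin

open Finset WA

namespace Par

variable (P : Par)

theorem ev_neg_eq (l : ℕ) (F : P.A) {z : ℂ} (hz : ‖z‖ = 1) :
    (z - P.q)⁻¹ ^ l * ev z F = ev z⁻¹ (P.neg l F) + ev z ((P.Q)^[l] F) := by
  have hzR : ‖z‖ ≤ Rw P.t := by rw [hz]; exact one_le_Rw _
  have hzR' : ‖z⁻¹‖ ≤ Rw P.t := by
    rw [norm_inv, hz, inv_one]
    exact one_le_Rw _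
  have hne : z - (P.q : ℂ) ≠ 0 := by
    intro h
    have h2 : z = (P.q : ℂ) := sub_eq_zero.1 h
    rw [h2, Complex.norm_real, Real.norm_eq_abs, abs_of_pos P.q_pos] at hz
    exact absurd hz P.q_lt_one.ne
  induction l with
  | zero =>
    rw [pow_zero, one_mul, neg_zero_apply, ev_zero, zero_add, Function.iterate_zero, id]
  | succ l ih =>
    have h1 : ev z ((P.Q)^[l] F) = (P.evq ((P.Q)^[l] F) : ℂ)
        + (z - P.q) * ev z ((P.Q)^[l + 1] F) := by
      conv_lhs => rw [P.Q_spec ((P.Q)^[l] F)]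
      rw [ev_add hzR, ev_algebraMap, ev_mul hzR, Xq, ev_sub hzR, ev_X, ev_algebraMap,
        Function.iterate_succ_apply']
    rw [pow_succ', mul_assoc, ih, neg_succ, ev_add hzR', ev_mul hzR', ev_smul, P.ev_K hz, mul_add,
      h1, mul_add, ← mul_assoc (z - (P.q : ℂ))⁻¹ (z - (P.q : ℂ)), inv_mul_cancel₀ hne, one_mul]
    ring

end Par

end Serrin
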