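import Pool.Agent.Lib.MP_2fa8c7_an.OpsQ

set_option autoImplicit false

/-!
# MP_2fa8c7_an: the series `K` and the negative parts
-/

namespace Serrin

open Finset WA

namespace Par

variable (P : Par)

lemma cf_K (n : ℕ) : cf n P.K = if n = 0 then 0 else P.q ^ (n - 1) := cf_mk _ P.K_summable n

lemma cf_K_zero : cf 0 P.K = 0 := by rw [cf_K, if_pos rfl]

lemma cf_K_succ (n : ℕ) : cf (n + 1) P.K = P.q ^ n := by
  rw [cf_K, if_neg (Nat.succ_ne_zero n), Nat.add_sub_cancel]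

lemma norm_K_le : ‖P.K‖ ≤ 3 / P.δ := by
  have hqR0 : 0 ≤ P.q * Rw P.t := mul_nonneg P.q_pos.le (Rw_pos _).le
  rw [norm_def, P.K.summable.tsum_eq_zero_add]
  have h1 : ∀ n : ℕ, |cf (n + 1) P.K| * Rw P.t ^ (n + 1) = Rw P.t * (P.q * Rw P.t) ^ n := by
    intro n
    rw [cf_K_succ, abs_of_pos (pow_pos P.q_pos n), mul_pow, pow_succ]
    ring
  rw [cf_K_zero, abs_zero, zero_mul, zero_add, tsum_congr h1, tsum_mul_left,
    tsum_geometric_of_lt_one hqR0 P.qR_lt_one, ← div_eq_mul_inv]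
  have hd := P.δ_pos
  have h2 := P.one_sub_qR
  have h3 := P.R_le
  rw [div_le_div_iff₀ (by linarith) hd]
  nlinarith

theorem cf_K_sq (m : ℕ) :
    cf m (P.K ^ 2) = if 2 ≤ m then ((m : ℝ) - 1) * P.q ^ (m - 2) else 0 := by
  rw [pow_two, cf_mul]
  rcases Nat.lt_or_ge m 2 with hm | hm
  · rw [if_neg (by omega)]
    refine Finset.sum_eq_zero fun p hp => ?_
    have hp' := Finset.HasAntidiagonal.mem_antidiagonal.1 hp
    have h01 : p.1 = 0 ∨ p.2 = 0 := by omega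
    rcases h01 with h | h
    · rw [h, cf_K_zero, zero_mul]
    · rw [h, cf_K_zero, mul_zero]
  · obtain ⟨k, rfl⟩ : ∃ k, m = k + 2 := ⟨m - 2, by omega⟩
    rw [if_pos (by omega), Finset.Nat.sum_antidiagonal_eq_sum_range_succ
      (fun a b => cf a P.K * cf b P.K), Finset.sum_range_succ, Nat.sub_self, cf_K_zero, mul_zero,
      add_zero, Finset.sum_range_succ', cf_K_zero, zero_mul, add_zero]
    have h1 : ∀ i ∈ range (k + 1), cf (i + 1) P.K * cf (k + 2 - (i + 1)) P.K = P.q ^ k := by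
      intro i hi
      have hi' := Finset.mem_range.1 hi
      rw [show k + 2 - (i + 1) = (k - i) + 1 by omega, cf_K_succ, cf_K_succ, ← pow_add]
      congr 1
      omega
    rw [Finset.sum_congr rfl h1, Finset.sum_const, Finset.card_range, nsmul_eq_mul,
      Nat.add_sub_cancel]
    push_cast
    ring

theorem ev_K {z : ℂ} (hz : ‖z‖ = 1) : ev z⁻¹ P.K = (z - P.q)⁻¹ := by
  have hz0 : z ≠ 0 := by
    intro h
    rw [h, norm_zero] at hz
    exact zero_ne_one hz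
  have hz' : ‖z⁻¹‖ ≤ Rw P.t := by
    rw [norm_inv, hz, inv_one]
    exact one_le_Rw _
  have hs := summable_ev hz' P.K
  unfold ev
  rw [hs.tsum_eq_zero_add, cf_K_zero]
  have h1 : ∀ n : ℕ, (cf (n + 1) P.K : ℂ) * z⁻¹ ^ (n + 1) = z⁻¹ * ((P.q : ℂ) * z⁻¹) ^ n := by
    intro n
    rw [cf_K_succ, mul_pow, pow_succ]
    push_cast
    ring
  have hn : ‖(P.q : ℂ) * z⁻¹‖ < 1 := by
    rw [norm_mul, norm_inv, hz, inv_one, mul_one, Complex.norm_real, Real.norm_eq_abs,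
      abs_of_pos P.q_pos]
    exact P.q_lt_one
  rw [tsum_congr h1, tsum_mul_left, tsum_geometric_of_norm_lt_one hn]
  have hne : z - (P.q : ℂ) ≠ 0 := by
    intro h
    have h2 : z = (P.q : ℂ) := sub_eq_zero.1 h
    rw [h2, Complex.norm_real, Real.norm_eq_abs, abs_of_pos P.q_pos] at hz
    exact absurd hz P.q_lt_one.ne
  have hne2 : 1 - (P.q : ℂ) * z⁻¹ ≠ 0 := by
    intro h
    apply hne
    have h3 : (1 - (P.q : ℂ) * z⁻¹) * z = 0 := by rw [h, zero_mul]
    rw [sub_mul, one_mul, mul_assoc, inv_mul_cancel₀ hz0, mul_one] at h3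
    exact h3
  push_cast
  rw [zero_mul, zero_add, ← mul_inv, mul_sub, mul_one]
  congr 1
  rw [mul_comm (P.q : ℂ) z⁻¹, ← mul_assoc, mul_inv_cancel₀ hz0, one_mul]

end Par

end Serrin
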