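import Pool.Agent.Lib.MP_2fa8c7_an.OpsK1

set_option autoImplicit false

/-!
# MP_2fa8c7_an: the series `K` and the negative parts
-/

namespace Serrin

open Finset WA

namespace Par

variable (P : Par)

lemma neg_zero_apply (F : P.A) : P.neg 0 F = 0 := rfl

lemma neg_succ (l : ℕ) (F : P.A) :
    P.neg (l + 1) F = P.K * P.neg l F + P.evq ((P.Q)^[l] F) • P.K := rfl

lemma neg_sub (l : ℕ) (F G : P.A) : P.neg l (F - G) = P.neg l F - P.neg l G := by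
  induction l with
  | zero => rw [neg_zero_apply, neg_zero_apply, neg_zero_apply, sub_zero]
  | succ l ih =>
    rw [neg_succ, neg_succ, neg_succ, ih, Q_iter_sub, map_sub, sub_smul, mul_sub]
    abel

lemma neg_smul (l : ℕ) (c : ℝ) (F : P.A) : P.neg l (c • F) = c • P.neg l F := by
  induction l with
  | zero => rw [neg_zero_apply, neg_zero_apply, smul_zero]
  | succ l ih =>
    rw [neg_succ, neg_succ, ih, Q_iter_smul, map_smul, smul_add, mul_smul_comm, smul_eq_mul,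
      mul_smul]

lemma OpsK2_abs_evq (l : ℕ) (F : P.A) : |P.evq ((P.Q)^[l] F)| ≤ P.δ⁻¹ ^ l * ‖F‖ :=
  (P.abs_evq_le _).trans (P.norm_Q_iter_le l F)

theorem norm_neg_le (l : ℕ) (F : P.A) : ‖P.neg l F‖ ≤ (4 / P.δ) ^ l * ‖F‖ := by
  have hd := P.δ_pos
  have hF := norm_nonneg F
  have hK0 := norm_nonneg P.K
  -- stronger: `‖neg l F‖ ≤ ((4/δ)^l - δ⁻¹^l) ‖F‖`
  have key : ∀ l : ℕ, ‖P.neg l F‖ ≤ ((4 / P.δ) ^ l - P.δ⁻¹ ^ l) * ‖F‖ := by
    intro l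
    induction l with
    | zero => rw [neg_zero_apply, norm_zero, pow_zero, pow_zero, sub_self, zero_mul]
    | succ l ih =>
      rw [neg_succ]
      have h1 : ‖P.K * P.neg l F‖ ≤ 3 / P.δ * (((4 / P.δ) ^ l - P.δ⁻¹ ^ l) * ‖F‖) :=
        (norm_mul_le _ _).trans (mul_le_mul P.norm_K_le ih (norm_nonneg _) (by positivity))
      have h2 : ‖P.evq ((P.Q)^[l] F) • P.K‖ ≤ P.δ⁻¹ ^ l * ‖F‖ * (3 / P.δ) := by
        rw [norm_smul, Real.norm_eq_abs]
        exact mul_le_mul (P.OpsK2_abs_evq l F) P.norm_K_le hK0 (by positivity)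
      have h3 : (P.δ⁻¹ : ℝ) ^ l ≤ (4 / P.δ) ^ l := by
        refine pow_le_pow_left₀ (inv_nonneg.2 hd.le) ?_ l
        rw [inv_eq_one_div]
        exact div_le_div_of_nonneg_right (by norm_num) hd.le
      calc ‖P.K * P.neg l F + P.evq ((P.Q)^[l] F) • P.K‖
          ≤ 3 / P.δ * (((4 / P.δ) ^ l - P.δ⁻¹ ^ l) * ‖F‖) + P.δ⁻¹ ^ l * ‖F‖ * (3 / P.δ) :=
            (norm_add_le _ _).trans (add_le_add h1 h2)
        _ = 3 / P.δ * (4 / P.δ) ^ l * ‖F‖ := by ring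
        _ ≤ ((4 / P.δ) ^ (l + 1) - P.δ⁻¹ ^ (l + 1)) * ‖F‖ := by
            refine mul_le_mul_of_nonneg_right ?_ hF
            have h4 : P.δ⁻¹ * P.δ⁻¹ ^ l ≤ P.δ⁻¹ * (4 / P.δ) ^ l :=
              mul_le_mul_of_nonneg_left h3 (inv_nonneg.2 hd.le)
            rw [pow_succ, pow_succ]
            have h5 : (4 / P.δ) ^ l * (4 / P.δ) = 3 / P.δ * (4 / P.δ) ^ l
                + P.δ⁻¹ * (4 / P.δ) ^ l := by
              rw [inv_eq_one_div]; ring
            rw [h5]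
            linarith
  refine (key l).trans (mul_le_mul_of_nonneg_right ?_ hF)
  have : 0 ≤ P.δ⁻¹ ^ l := pow_nonneg (inv_nonneg.2 hd.le) l
  linarith

theorem neg_two_one : P.neg 2 1 = P.K ^ 2 := by
  have h1 : P.Q (1 : P.A) = 0 := by
    have := P.Q_algebraMap 1
    rwa [map_one] at this
  rw [neg_succ, neg_succ, neg_zero_apply, mul_zero, zero_add, Function.iterate_zero, id,
    Function.iterate_one, h1, evq_one, one_smul, map_zero, zero_smul, add_zero, pow_two]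

theorem cf_neg_zero (l : ℕ) (F : P.A) : cf 0 (P.neg l F) = 0 := by
  cases l with
  | zero => rw [neg_zero_apply, cf_zero]
  | succ l =>
    rw [neg_succ, cf_add, cf_smul, cf_K_zero, mul_zero, add_zero, cf_mul,
      Finset.Nat.antidiagonal_zero, Finset.sum_singleton, cf_K_zero, zero_mul]

lemma OpsK2_cf_K_mul (n : ℕ) (F : P.A) :
    cf n (P.K * F) = ∑ k ∈ range (n + 1), cf k P.K * cf (n - k) F := by
  rw [cf_mul]
  exact Finset.Nat.sum_antidiagonal_eq_sum_range_succ (fun a b => cf a P.K * cf b F) n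

theorem cf_neg_one (l : ℕ) (F : P.A) : cf 1 (P.neg (l + 1) F) = P.evq ((P.Q)^[l] F) := by
  have hK1 : cf 1 P.K = 1 := by rw [show (1 : ℕ) = 0 + 1 from rfl, cf_K_succ, pow_zero]
  rw [neg_succ, cf_add, cf_smul, hK1, mul_one, OpsK2_cf_K_mul, Finset.sum_range_succ,
    Finset.sum_range_one, cf_K_zero, zero_mul, Nat.sub_self, cf_neg_zero, mul_zero, zero_add,
    zero_add]

theorem cf_neg_two (m : ℕ) (F : P.A) : cf 2 (P.neg (m + 2) F) =
    P.evq ((P.Q)^[m] F) + P.q * P.evq ((P.Q)^[m + 1] F) := by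
  have hK1 : cf 1 P.K = 1 := by rw [show (1 : ℕ) = 0 + 1 from rfl, cf_K_succ, pow_zero]
  have hK2 : cf 2 P.K = P.q := by rw [show (2 : ℕ) = 1 + 1 from rfl, cf_K_succ, pow_one]
  rw [show m + 2 = (m + 1) + 1 from rfl, neg_succ, cf_add, cf_smul, hK2, OpsK2_cf_K_mul,
    Finset.sum_range_succ, Finset.sum_range_succ, Finset.sum_range_one, cf_K_zero, zero_mul,
    Nat.sub_self, cf_neg_zero, mul_zero, zero_add, add_zero, hK1, one_mul,
    show 2 - 1 = 1 from rfl, cf_neg_one]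
  ring

theorem abs_cf_neg_two_le (m : ℕ) (F : P.A) :
    |cf 2 (P.neg (m + 2) F)| ≤ 2 * P.δ⁻¹ ^ (m + 1) * ‖F‖ := by
  have hd := P.δ_pos
  rw [cf_neg_two]
  have h1 := P.OpsK2_abs_evq m F
  have h2 := P.OpsK2_abs_evq (m + 1) F
  have h3 : |P.q * P.evq ((P.Q)^[m + 1] F)| ≤ P.δ⁻¹ ^ (m + 1) * ‖F‖ := by
    rw [abs_mul, abs_of_pos P.q_pos]
    calc P.q * |P.evq ((P.Q)^[m + 1] F)| ≤ 1 * |P.evq ((P.Q)^[m + 1] F)| :=
          mul_le_mul_of_nonneg_right P.q_lt_one.le (abs_nonneg _)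
      _ ≤ P.δ⁻¹ ^ (m + 1) * ‖F‖ := by rw [one_mul]; exact h2
  have hδ1 : 1 ≤ P.δ⁻¹ := by
    rw [one_le_inv₀ hd]
    have := P.δ_le
    have h : (1 : ℝ) / 10 ^ 48 ≤ 1 := by norm_num
    linarith
  have h4 : P.δ⁻¹ ^ m * ‖F‖ ≤ P.δ⁻¹ ^ (m + 1) * ‖F‖ :=
    mul_le_mul_of_nonneg_right (pow_le_pow_right₀ hδ1 (Nat.le_succ m)) (norm_nonneg F)
  calc |P.evq ((P.Q)^[m] F) + P.q * P.evq ((P.Q)^[m + 1] F)|
      ≤ |P.evq ((P.Q)^[m] F)| + |P.q * P.evq ((P.Q)^[m + 1] F)| := abs_add_le _ _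
    _ ≤ P.δ⁻¹ ^ (m + 1) * ‖F‖ + P.δ⁻¹ ^ (m + 1) * ‖F‖ := add_le_add (h1.trans h4) h3
    _ = 2 * P.δ⁻¹ ^ (m + 1) * ‖F‖ := by ring

end Par

end Serrin
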