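import Pool.Agent.Lib.MP_2fa8c7_an.OpsN2

set_option autoImplicit false

/-!
# MP_2fa8c7_an: the antiderivative and `N = Q ∘ I`
-/

namespace Serrin

open Finset WA

namespace Par

variable (P : Par)

private lemma OpsN_ev_I (f : P.A) {w : ℂ} (hw : ‖w‖ ≤ Rw P.t) :
    ev w (P.I f) = ∑' n, ((cf n f : ℂ) / ((n : ℂ) + 1)) * w ^ (n + 1) := by
  have hs := summable_ev hw (P.I f)
  unfold ev
  rw [hs.tsum_eq_zero_add, cf_I_zero, Complex.ofReal_zero, zero_mul, zero_add]
  refine tsum_congr fun n => ?_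
  rw [cf_I_succ]
  push_cast
  rfl

/-- the derivative of the antiderivative -/
theorem hasDerivAt_ev_I (f : P.A) {z : ℂ} (hz : ‖z‖ < Rw P.t) :
    HasDerivAt (fun w => ev w (P.I f)) (ev z f) z := by
  have hR := Rw_pos P.t
  have hopen : IsOpen (Metric.ball (0 : ℂ) (Rw P.t)) := Metric.isOpen_ball
  have hpre : IsPreconnected (Metric.ball (0 : ℂ) (Rw P.t)) :=
    (convex_ball _ _).isPreconnected
  have hz' : z ∈ Metric.ball (0 : ℂ) (Rw P.t) := by simpa using hz
  have key : HasDerivAt
      (fun w => ∑' n, ((cf n f : ℂ) / ((n : ℂ) + 1)) * w ^ (n + 1))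
      (∑' n, (cf n f : ℂ) * z ^ n) z := by
    refine hasDerivAt_tsum_of_isPreconnected (u := fun n => |cf n f| * Rw P.t ^ n) f.summable
      hopen hpre (g := fun n w => ((cf n f : ℂ) / ((n : ℂ) + 1)) * w ^ (n + 1))
      (g' := fun n w => (cf n f : ℂ) * w ^ n) (y₀ := 0) ?_ ?_ (by simpa using hR) ?_ hz'
    · intro n y _
      have h1 := (hasDerivAt_pow (n + 1) y).const_mul ((cf n f : ℂ) / ((n : ℂ) + 1))
      refine h1.congr_deriv ?_
      have h2 : (n : ℂ) + 1 ≠ 0 := Nat.cast_add_one_ne_zero n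
      rw [Nat.add_sub_cancel]
      push_cast
      field_simp
    · intro n y hy
      have hy' : ‖y‖ ≤ Rw P.t := by
        rw [Metric.mem_ball, dist_zero_right] at hy
        exact hy.le
      exact norm_term_le hy' f n
    · simp
  refine key.congr_of_eventuallyEq ?_
  filter_upwards [hopen.mem_nhds hz'] with w hw
  exact P.OpsN_ev_I f (by rw [Metric.mem_ball, dist_zero_right] at hw; exact hw.le)

theorem differentiableAt_ev (f : P.A) {z : ℂ} (hz : ‖z‖ < Rw P.t) :
    DifferentiableAt ℂ (fun w => ev w f) z := by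
  have hopen : IsOpen (Metric.ball (0 : ℂ) (Rw P.t)) := Metric.isOpen_ball
  have hz' : z ∈ Metric.ball (0 : ℂ) (Rw P.t) := by simpa using hz
  have h : DifferentiableOn ℂ (fun w => ∑' n, (cf n f : ℂ) * w ^ n)
      (Metric.ball (0 : ℂ) (Rw P.t)) := by
    refine Complex.differentiableOn_tsum_of_summable_norm (u := fun n => |cf n f| * Rw P.t ^ n)
      f.summable ?_ hopen ?_
    · intro n
      exact ((differentiable_id.pow n).const_mul _).differentiableOn
    · intro n w hw
      exact norm_term_le (by rw [Metric.mem_ball, dist_zero_right] at hw; exact hw.le) f n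
  exact h.differentiableAt (hopen.mem_nhds hz')

end Par

end Serrin
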