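import Pool.Agent.Lib.MP_2fa8c7_an.OpsQ

set_option autoImplicit false

/-!
# MP_2fa8c7_an: the antiderivative and `N = Q ∘ I`
-/

namespace Serrin

open Finset WA

namespace Par

variable (P : Par)

lemma cf_I_succ (f : P.A) (n : ℕ) : cf (n + 1) (P.I f) = cf n f / ((n : ℝ) + 1) := by
  unfold I
  rw [P.colI.cf_op, tsum_eq_single n]
  · unfold Ik
    rw [if_pos rfl]
    ring
  · intro i hi
    unfold Ik
    rw [if_neg (by omega), zero_mul]

lemma cf_I_zero (f : P.A) : cf 0 (P.I f) = 0 := by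
  unfold I
  rw [P.colI.cf_op]
  have h : ∀ i, Ik 0 i * cf i f = 0 := by
    intro i
    unfold Ik
    rw [if_neg (by omega), zero_mul]
  rw [tsum_congr h, tsum_zero]

lemma norm_I_le (f : P.A) : ‖P.I f‖ ≤ 2 * ‖f‖ := P.colI.norm_op_le f

lemma norm_N_le (f : P.A) : ‖P.N f‖ ≤ ‖f‖ := by
  have := P.colN.norm_op_le f
  rwa [one_mul] at this

theorem N_eq (f : P.A) : P.N f = P.Q (P.I f) := by
  refine WA.ext fun j => ?_
  rw [cf_Q]
  unfold N
  rw [P.colN.cf_op, ← (P.colN.summable_row f j).sum_add_tsum_nat_add j]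
  have h1 : ∑ i ∈ range j, P.Nk j i * cf i f = 0 := by
    refine Finset.sum_eq_zero fun i hi => ?_
    have hi' := Finset.mem_range.1 hi
    unfold Nk
    rw [if_neg (by omega), zero_mul]
  rw [h1, zero_add]
  refine tsum_congr fun i => ?_
  rw [show j + 1 + i = (i + j) + 1 by omega, cf_I_succ]
  unfold Nk
  rw [if_pos (by omega), Nat.add_sub_cancel]
  ring

theorem N_one : P.N (1 : P.A) = 1 := by
  refine WA.ext fun j => ?_
  unfold N
  rw [P.colN.cf_op, tsum_eq_single 0 (fun i hi => by rw [cf_one, if_neg hi, mul_zero])]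
  rw [cf_one, cf_one, if_pos rfl, mul_one]
  unfold Nk
  by_cases hj : j = 0
  · subst hj
    simp
  · rw [if_neg (by omega), if_neg hj]

private lemma OpsN1_evq_op {K : ℕ → ℕ → ℝ} {C : ℝ} (h : ColBound P.t K C) (f : P.A) :
    P.evq (h.op f) = ∑' i, cf i f * ∑ j ∈ range (i + 2), K j i * P.q ^ j := by
  have hq := P.q_pos
  have hqR : P.q ≤ Rw P.t := (le_abs_self _).trans P.abs_q_le
  have hs : Summable fun p : ℕ × ℕ => K p.2 p.1 * cf p.1 f * P.q ^ p.2 := by
    refine Summable.of_norm_bounded (h.summable_prod f) fun p => ?_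
    rw [norm_mul, Real.norm_eq_abs, Real.norm_eq_abs, abs_of_pos (pow_pos hq _)]
    exact mul_le_mul_of_nonneg_left (pow_le_pow_left₀ hq.le hqR _) (abs_nonneg _)
  rw [evq_def]
  have h1 : ∀ j, cf j (h.op f) * P.q ^ j = ∑' i, K j i * cf i f * P.q ^ j := by
    intro j
    rw [h.cf_op, tsum_mul_right]
  rw [tsum_congr h1]
  rw [Summable.tsum_comm (f := fun i j => K j i * cf i f * P.q ^ j) hs]
  refine tsum_congr fun i => ?_
  rw [tsum_eq_sum (s := range (i + 2))]
  · rw [Finset.mul_sum]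
    exact Finset.sum_congr rfl fun j _ => by ring
  · intro j hj
    have hj' : i + 1 < j := by
      rw [Finset.mem_range] at hj
      omega
    rw [h.zero i j hj', zero_mul, zero_mul]

theorem evq_N (f : P.A) : P.evq (P.N f) = P.evq f := by
  unfold N
  rw [OpsN1_evq_op, evq_def]
  refine tsum_congr fun i => ?_
  congr 1
  rw [Finset.sum_range_succ]
  have hz : P.Nk (i + 1) i = 0 := by unfold Nk; rw [if_neg (by omega)]
  rw [hz, zero_mul, add_zero]
  have h1 : ∀ j ∈ range (i + 1), P.Nk j i * P.q ^ j = P.q ^ i / ((i : ℝ) + 1) := by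
    intro j hj
    have hj' : j ≤ i := by have := Finset.mem_range.1 hj; omega
    unfold Nk
    rw [if_pos hj', div_mul_eq_mul_div, ← pow_add, Nat.sub_add_cancel hj']
  rw [Finset.sum_congr rfl h1, Finset.sum_const, Finset.card_range, nsmul_eq_mul]
  push_cast
  have : (i : ℝ) + 1 ≠ 0 := by positivity
  field_simp

theorem Xq_mul_N (f : P.A) :
    P.Xq * P.N f = P.I f - algebraMap ℝ P.A (P.evq (P.I f)) := by
  rw [N_eq]
  exact (sub_eq_of_eq_add' (P.Q_spec (P.I f))).symm

end Par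

end Serrin
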