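import Pool.Agent.Lib.MP_2fa8c7_an.OpsN1

set_option autoImplicit false

/-!
# MP_2fa8c7_an: the antiderivative and `N = Q ∘ I`
-/

namespace Serrin

open Finset WA

namespace Par

variable (P : Par)

private lemma OpsN2_op {K : ℕ → ℕ → ℝ} {C : ℝ} (h : ColBound P.t K C) (w : ℕ → ℝ) {C' : ℝ}
    (hw : ∀ j, |w j| ≤ C' * Rw P.t ^ j) (f : P.A) :
    ∑' j, cf j (h.op f) * w j = ∑' i, cf i f * ∑ j ∈ range (i + 2), K j i * w j := by
  have hs : Summable fun p : ℕ × ℕ => K p.2 p.1 * cf p.1 f * w p.2 := by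
    refine Summable.of_norm_bounded ((h.summable_prod f).mul_left C') fun p => ?_
    rw [norm_mul, Real.norm_eq_abs, Real.norm_eq_abs]
    calc |K p.2 p.1 * cf p.1 f| * |w p.2| ≤ |K p.2 p.1 * cf p.1 f| * (C' * Rw P.t ^ p.2) :=
          mul_le_mul_of_nonneg_left (hw _) (abs_nonneg _)
      _ = C' * (|K p.2 p.1 * cf p.1 f| * Rw P.t ^ p.2) := by ring
  have h1 : ∀ j, cf j (h.op f) * w j = ∑' i, K j i * cf i f * w j := by
    intro j
    rw [h.cf_op, tsum_mul_right]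
  rw [tsum_congr h1]
  rw [Summable.tsum_comm (f := fun i j => K j i * cf i f * w j) hs]
  refine tsum_congr fun i => ?_
  rw [tsum_eq_sum (s := range (i + 2))]
  · rw [Finset.mul_sum]
    exact Finset.sum_congr rfl fun j _ => by ring
  · intro j hj
    have hj' : i + 1 < j := by
      rw [Finset.mem_range] at hj
      omega
    rw [h.zero i j hj', zero_mul, zero_mul]

private lemma OpsN2_Qk (i : ℕ) :
    ∑ j ∈ range (i + 2), P.Qk j i * P.q ^ j = (i : ℝ) * P.q ^ (i - 1) := by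
  rw [Finset.sum_range_succ, Finset.sum_range_succ]
  have h1 : P.Qk (i + 1) i = 0 := by unfold Qk; rw [if_neg (by omega)]
  have h2 : P.Qk i i = 0 := by unfold Qk; rw [if_neg (by omega)]
  rw [h1, h2, zero_mul, zero_mul, add_zero, add_zero]
  have h3 : ∀ j ∈ range i, P.Qk j i * P.q ^ j = P.q ^ (i - 1) := by
    intro j hj
    have hj' := Finset.mem_range.1 hj
    unfold Qk
    rw [if_pos hj', ← pow_add]
    congr 1
    omega
  rw [Finset.sum_congr rfl h3, Finset.sum_const, Finset.card_range, nsmul_eq_mul]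

private lemma OpsN2_evq_Q (g : P.A) :
    P.evq (P.Q g) = ∑' i, cf i g * ((i : ℝ) * P.q ^ (i - 1)) := by
  have hq := P.q_pos
  have hqR : P.q ≤ Rw P.t := (le_abs_self _).trans P.abs_q_le
  unfold Q
  rw [evq_def, OpsN2_op P P.colQ (fun n => P.q ^ n) (C' := 1)]
  · exact tsum_congr fun i => by rw [OpsN2_Qk]
  · intro j
    rw [abs_of_pos (pow_pos hq _), one_mul]
    exact pow_le_pow_left₀ hq.le hqR _

private lemma OpsN2_bound (i : ℕ) : |(i : ℝ) * P.q ^ (i - 1)| ≤ P.δ⁻¹ * Rw P.t ^ i := by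
  have hq := P.q_pos
  have hqR : P.q ≤ Rw P.t := (le_abs_self _).trans P.abs_q_le
  rw [← OpsN2_Qk]
  refine (Finset.abs_sum_le_sum_abs _ _).trans (le_trans ?_ (P.colQ.le i))
  refine Finset.sum_le_sum fun j _ => ?_
  rw [abs_mul, abs_of_pos (pow_pos hq j)]
  exact mul_le_mul_of_nonneg_left (pow_le_pow_left₀ hq.le hqR _) (abs_nonneg _)

private lemma OpsN2_sum (i : ℕ) :
    ∑ j ∈ range (i + 2), P.Nk j i * ((j : ℝ) * P.q ^ (j - 1)) =
      ((i : ℝ) * P.q ^ (i - 1)) / 2 := by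
  rw [Finset.sum_range_succ]
  have hz : P.Nk (i + 1) i = 0 := by unfold Nk; rw [if_neg (by omega)]
  rw [hz, zero_mul, add_zero]
  have h1 : ∀ j ∈ range (i + 1), P.Nk j i * ((j : ℝ) * P.q ^ (j - 1)) =
      (j : ℝ) * (P.q ^ (i - 1) / ((i : ℝ) + 1)) := by
    intro j hj
    have hj' : j ≤ i := by have := Finset.mem_range.1 hj; omega
    unfold Nk
    rw [if_pos hj']
    rcases Nat.eq_zero_or_pos j with rfl | hj0
    · simp
    · have : P.q ^ (i - j) * P.q ^ (j - 1) = P.q ^ (i - 1) := by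
        rw [← pow_add]
        congr 1
        omega
      rw [← this]
      ring
  rw [Finset.sum_congr rfl h1, ← Finset.sum_mul, ← Nat.cast_sum, Finset.sum_range_id]
  have h2 : (((i + 1) * (i + 1 - 1) / 2 : ℕ) : ℝ) = ((i : ℝ) + 1) * i / 2 := by
    have h3 : ((i + 1) * (i + 1 - 1) / 2) * 2 = (i + 1) * i := by
      rw [Nat.add_sub_cancel]
      exact Nat.div_mul_cancel (by
        rw [mul_comm]; exact (Nat.even_mul_succ_self i).two_dvd)
    have h4 : ((((i + 1) * (i + 1 - 1) / 2) * 2 : ℕ) : ℝ) = (((i + 1) * i : ℕ) : ℝ) := by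
      rw [h3]
    push_cast at h4 ⊢
    linarith
  rw [h2]
  have : (i : ℝ) + 1 ≠ 0 := by positivity
  field_simp

theorem evq_Q_N (f : P.A) : P.evq (P.Q (P.N f)) = P.evq (P.Q f) / 2 := by
  rw [OpsN2_evq_Q, OpsN2_evq_Q]
  unfold N
  rw [OpsN2_op P P.colN (fun j => (j : ℝ) * P.q ^ (j - 1)) (C' := P.δ⁻¹) (P.OpsN2_bound),
    ← tsum_div_const]
  refine tsum_congr fun i => ?_
  rw [OpsN2_sum]
  ring

end Par

end Serrin
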