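import Pool.Agent.Lib.MP_2fa8c7_an.OpsQ1

set_option autoImplicit false

/-!
# MP_2fa8c7_an: the difference quotient `Q` and the evaluation at `q`
-/

namespace Serrin

open Finset WA

namespace Par

variable (P : Par)

private lemma OpsQ_Xq_mul_Q (f : P.A) : P.Xq * P.Q f = f - algebraMap ℝ P.A (P.evq f) :=
  (sub_eq_of_eq_add' (P.Q_spec f)).symm

theorem Q_algebraMap (c : ℝ) : P.Q (algebraMap ℝ P.A c) = 0 := by
  apply P.Xq_mul_inj
  rw [OpsQ_Xq_mul_Q, evq_algebraMap, sub_self, mul_zero]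

theorem Q_mul (f g : P.A) : P.Q (f * g) = P.Q f * g + P.evq f • P.Q g := by
  apply P.Xq_mul_inj
  rw [OpsQ_Xq_mul_Q, evq_mul, mul_add, ← mul_assoc, OpsQ_Xq_mul_Q, mul_smul_comm, OpsQ_Xq_mul_Q,
    sub_mul, smul_sub, map_mul, Algebra.smul_def, Algebra.smul_def]
  ring

theorem evq_Q_mul (f g : P.A) :
    P.evq (P.Q (f * g)) = P.evq (P.Q f) * P.evq g + P.evq f * P.evq (P.Q g) := by
  rw [Q_mul, map_add, evq_mul, map_smul, smul_eq_mul]

end Par

end Serrin
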