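import Pool.Agent.Lib.MP_2fa8c7_an.Ops

set_option autoImplicit false

/-!
# MP_2fa8c7_an: the difference quotient `Q` and the evaluation at `q`
-/

namespace Serrin

open Finset WA

namespace Par

variable (P : Par)

private lemma OpsQ1_summable (f : P.A) (j : ℕ) : Summable fun i => cf (j + i) f * P.q ^ i := by
  refine Summable.of_norm_bounded (g := fun i => ‖f‖ * P.q ^ i)
    ((summable_geometric_of_lt_one P.q_pos.le P.q_lt_one).mul_left _) fun i => ?_
  rw [norm_mul, Real.norm_eq_abs, Real.norm_eq_abs, abs_of_pos (pow_pos P.q_pos i)]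
  exact mul_le_mul_of_nonneg_right (abs_cf_le _ f) (pow_pos P.q_pos i).le

lemma cf_Q (f : P.A) (j : ℕ) : cf j (P.Q f) = ∑' i, cf (j + 1 + i) f * P.q ^ i := by
  unfold Q
  rw [P.colQ.cf_op, ← (P.colQ.summable_row f j).sum_add_tsum_nat_add (j + 1)]
  have h1 : ∑ i ∈ range (j + 1), P.Qk j i * cf i f = 0 := by
    refine Finset.sum_eq_zero fun i hi => ?_
    have hi' := Finset.mem_range.1 hi
    unfold Qk
    rw [if_neg (by omega), zero_mul]
  rw [h1, zero_add]
  refine tsum_congr fun i => ?_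
  unfold Qk
  rw [if_pos (by omega), mul_comm]
  congr 2
  · omega
  · omega

lemma norm_Q_le (f : P.A) : ‖P.Q f‖ ≤ P.δ⁻¹ * ‖f‖ := P.colQ.norm_op_le f

lemma norm_Q_iter_le (l : ℕ) (f : P.A) : ‖(P.Q)^[l] f‖ ≤ P.δ⁻¹ ^ l * ‖f‖ := by
  induction l with
  | zero => simp
  | succ l ih =>
    rw [Function.iterate_succ_apply', pow_succ]
    have hδ : 0 ≤ P.δ⁻¹ := inv_nonneg.2 P.δ_pos.le
    calc ‖P.Q ((P.Q)^[l] f)‖ ≤ P.δ⁻¹ * ‖(P.Q)^[l] f‖ := P.norm_Q_le _
      _ ≤ P.δ⁻¹ * (P.δ⁻¹ ^ l * ‖f‖) := mul_le_mul_of_nonneg_left ih hδ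
      _ = P.δ⁻¹ ^ l * P.δ⁻¹ * ‖f‖ := by ring

lemma Q_iter_sub (l : ℕ) (f g : P.A) : (P.Q)^[l] (f - g) = (P.Q)^[l] f - (P.Q)^[l] g := by
  induction l with
  | zero => simp
  | succ l ih =>
    rw [Function.iterate_succ_apply', Function.iterate_succ_apply', Function.iterate_succ_apply',
      ih, map_sub]

lemma Q_iter_smul (l : ℕ) (c : ℝ) (f : P.A) : (P.Q)^[l] (c • f) = c • (P.Q)^[l] f := by
  induction l with
  | zero => simp
  | succ l ih =>
    rw [Function.iterate_succ_apply', Function.iterate_succ_apply', ih, map_smul]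

lemma abs_evq_le (f : P.A) : |P.evq f| ≤ ‖f‖ := abs_er_le P.abs_q_le f

lemma evq_one : P.evq (1 : P.A) = 1 := er_one _

lemma evq_X : P.evq (X : P.A) = P.q := er_X _

lemma evq_mul (f g : P.A) : P.evq (f * g) = P.evq f * P.evq g := er_mul P.abs_q_le f g

lemma evq_algebraMap (c : ℝ) : P.evq (algebraMap ℝ P.A c) = c := by
  rw [Algebra.algebraMap_eq_smul_one, map_smul, evq_one, smul_eq_mul, mul_one]

/-- `x - q` -/
noncomputable def Xq : P.A := X - algebraMap ℝ P.A P.q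

private lemma OpsQ1_Xq_mul (f : P.A) : P.Xq * f = X * f - P.q • f := by
  unfold Xq
  rw [sub_mul, Algebra.algebraMap_eq_smul_one, smul_mul_assoc, one_mul]

private lemma OpsQ1_cf_zero (f : P.A) : cf 0 (P.Xq * f) = -(P.q * cf 0 f) := by
  rw [OpsQ1_Xq_mul, cf_sub, cf_X_mul_zero, cf_smul, zero_sub]

private lemma OpsQ1_cf_succ (f : P.A) (n : ℕ) :
    cf (n + 1) (P.Xq * f) = cf n f - P.q * cf (n + 1) f := by
  rw [OpsQ1_Xq_mul, cf_sub, cf_X_mul_succ, cf_smul]

theorem Xq_mul_inj {f g : P.A} (h : P.Xq * f = P.Xq * g) : f = g := by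
  have hq := P.q_pos
  refine WA.ext fun n => ?_
  induction n with
  | zero =>
    have h1 := congrArg (cf 0) h
    rw [OpsQ1_cf_zero, OpsQ1_cf_zero, neg_inj] at h1
    exact mul_left_cancel₀ hq.ne' h1
  | succ n ih =>
    have h1 := congrArg (cf (n + 1)) h
    rw [OpsQ1_cf_succ, OpsQ1_cf_succ, ih] at h1
    have h2 : P.q * cf (n + 1) f = P.q * cf (n + 1) g := by linarith
    exact mul_left_cancel₀ hq.ne' h2

theorem Q_spec (f : P.A) : f = algebraMap ℝ P.A (P.evq f) + P.Xq * P.Q f := by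
  refine WA.ext fun n => ?_
  rw [cf_add, Algebra.algebraMap_eq_smul_one, cf_smul, cf_one]
  cases n with
  | zero =>
    rw [if_pos rfl, OpsQ1_cf_zero, cf_Q, evq_def]
    have h1 : Summable fun i => cf i f * P.q ^ i := by
      have := P.OpsQ1_summable f 0
      simpa using this
    rw [h1.tsum_eq_zero_add, ← tsum_mul_left]
    have h2 : ∀ i, P.q * (cf (0 + 1 + i) f * P.q ^ i) = cf (i + 1) f * P.q ^ (i + 1) := by
      intro i
      rw [pow_succ, show 0 + 1 + i = i + 1 by omega]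
      ring
    rw [tsum_congr h2]
    ring
  | succ n =>
    rw [if_neg (by omega), OpsQ1_cf_succ, cf_Q, cf_Q]
    have h1 := P.OpsQ1_summable f (n + 1)
    rw [h1.tsum_eq_zero_add, ← tsum_mul_left]
    have h2 : ∀ i, P.q * (cf (n + 1 + 1 + i) f * P.q ^ i) =
        cf (n + 1 + (i + 1)) f * P.q ^ (i + 1) := by
      intro i
      rw [pow_succ, show n + 1 + 1 + i = n + 1 + (i + 1) by omega]
      ring
    rw [tsum_congr h2]
    simp

end Par

end Serrin
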