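import Pool.Agent.Lib.MP_2fa8c7_an.OpsT1

set_option autoImplicit false

/-!
# MP_2fa8c7_an: the operator `Tz` and the diagonal operator `L`
-/

namespace Serrin

open Finset WA

private theorem split_OpsT {a b : ℕ → ℂ} (ha : Summable fun n => ‖a n‖)
    (hb : Summable fun n => ‖b n‖) :
    (∑' n, a n) * ∑' n, b n = (∑' m, ∑' k, a k * b (k + m)) +
      ∑' m, ∑' k, a (k + (m + 1)) * b k := by
  have hF : Summable fun p : ℕ × ℕ => a p.1 * b p.2 := summable_mul_of_summable_norm ha hb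
  rw [tsum_mul_tsum_of_summable_norm ha hb]
  have hs1 : Summable (Set.indicator {p : ℕ × ℕ | p.1 ≤ p.2} fun p => a p.1 * b p.2) :=
    hF.indicator _
  have hs2 : Summable (Set.indicator {p : ℕ × ℕ | p.2 < p.1} fun p => a p.1 * b p.2) :=
    hF.indicator _
  have hsplit : ∀ p : ℕ × ℕ, a p.1 * b p.2 =
      Set.indicator {p : ℕ × ℕ | p.1 ≤ p.2} (fun p => a p.1 * b p.2) p +
      Set.indicator {p : ℕ × ℕ | p.2 < p.1} (fun p => a p.1 * b p.2) p := by
    intro p
    by_cases hp : p.1 ≤ p.2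
    · have h1 : p ∈ {p : ℕ × ℕ | p.1 ≤ p.2} := hp
      have h2 : p ∉ {p : ℕ × ℕ | p.2 < p.1} := by
        intro h3
        exact absurd h3 (not_lt.2 hp)
      rw [Set.indicator_of_mem h1, Set.indicator_of_notMem h2, add_zero]
    · have h1 : p ∉ {p : ℕ × ℕ | p.1 ≤ p.2} := hp
      have h2 : p ∈ {p : ℕ × ℕ | p.2 < p.1} := not_le.1 hp
      rw [Set.indicator_of_notMem h1, Set.indicator_of_mem h2, zero_add]
  rw [tsum_congr hsplit, hs1.tsum_add hs2]
  have hφinj : Function.Injective (fun p : ℕ × ℕ => ((p.2, p.2 + p.1) : ℕ × ℕ)) := by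
    rintro ⟨a, b⟩ ⟨c, d⟩ h
    simp only [Prod.mk.injEq] at h ⊢
    omega
  have hψinj : Function.Injective (fun p : ℕ × ℕ => ((p.2 + (p.1 + 1), p.2) : ℕ × ℕ)) := by
    rintro ⟨a, b⟩ ⟨c, d⟩ h
    simp only [Prod.mk.injEq] at h ⊢
    omega
  congr 1
  · have hsupp : Function.support
        (Set.indicator {p : ℕ × ℕ | p.1 ≤ p.2} fun p => a p.1 * b p.2) ⊆
        Set.range (fun p : ℕ × ℕ => ((p.2, p.2 + p.1) : ℕ × ℕ)) := by
      rintro ⟨c, d⟩ hab
      have h1 : (c, d) ∈ {p : ℕ × ℕ | p.1 ≤ p.2} := by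
        by_contra h2
        exact hab (Set.indicator_of_notMem h2 _)
      have h3 : c ≤ d := h1
      exact ⟨(d - c, c), by simp only [Prod.mk.injEq, true_and]; omega⟩
    have hsc := hs1.comp_injective hφinj
    have h4 := hφinj.tsum_eq hsupp
    rw [← h4]
    refine (hsc.tsum_prod).trans ?_
    refine tsum_congr fun m => tsum_congr fun k => ?_
    have h1 : (k, k + m) ∈ {p : ℕ × ℕ | p.1 ≤ p.2} := Nat.le_add_right k m
    exact Set.indicator_of_mem h1 _
  · have hsupp : Function.support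
        (Set.indicator {p : ℕ × ℕ | p.2 < p.1} fun p => a p.1 * b p.2) ⊆
        Set.range (fun p : ℕ × ℕ => ((p.2 + (p.1 + 1), p.2) : ℕ × ℕ)) := by
      rintro ⟨c, d⟩ hab
      have h1 : (c, d) ∈ {p : ℕ × ℕ | p.2 < p.1} := by
        by_contra h2
        exact hab (Set.indicator_of_notMem h2 _)
      have h3 : d < c := h1
      exact ⟨(c - d - 1, d), by simp only [Prod.mk.injEq, and_true]; omega⟩
    have hsc := hs2.comp_injective hψinj
    have h4 := hψinj.tsum_eq hsupp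
    rw [← h4]
    refine (hsc.tsum_prod).trans ?_
    refine tsum_congr fun m => tsum_congr fun k => ?_
    have h1 : (k + (m + 1), k) ∈ {p : ℕ × ℕ | p.2 < p.1} := by
      show k < k + (m + 1)
      omega
    exact Set.indicator_of_mem h1 _

namespace Par

variable (P : Par)

private lemma norm_OpsT (f : P.A) {z : ℂ} (hz : ‖z‖ = 1) :
    Summable fun n => ‖(cf n f : ℂ) * z ^ n‖ := by
  have hz' : ‖z‖ ≤ Rw P.t := by rw [hz]; exact one_le_Rw _
  exact Summable.of_nonneg_of_le (fun _ => norm_nonneg _) (norm_term_le hz' f) f.summable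

/-- `g(1/ζ) h(ζ)` on the unit circle -/
theorem ev_Tz (g h : P.A) {z : ℂ} (hz : ‖z‖ = 1) :
    ev z⁻¹ g * ev z h = ev z (P.Tz g h) + ev z⁻¹ (P.Tz h g) - (cf 0 (P.Tz g h) : ℂ) := by
  have hz0 : z ≠ 0 := by
    intro h0
    rw [h0, norm_zero] at hz
    exact zero_ne_one hz
  have hzi : ‖z⁻¹‖ = 1 := by rw [norm_inv, hz, inv_one]
  have hR : ‖z⁻¹‖ ≤ Rw P.t := by rw [hzi]; exact one_le_Rw _
  have key := split_OpsT (P.norm_OpsT g hzi) (P.norm_OpsT h hz)
  have hk : ∀ k : ℕ, z⁻¹ ^ k * z ^ k = 1 := fun k => by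
    rw [← mul_pow, inv_mul_cancel₀ hz0, one_pow]
  have e1 : (∑' m, ∑' k, ((cf k g : ℂ) * z⁻¹ ^ k) * ((cf (k + m) h : ℂ) * z ^ (k + m))) =
      ev z (P.Tz g h) := by
    unfold ev
    refine tsum_congr fun m => ?_
    rw [cf_Tz, Complex.ofReal_tsum, ← tsum_mul_right]
    refine tsum_congr fun k => ?_
    rw [pow_add, Complex.ofReal_mul]
    linear_combination (cf k g : ℂ) * (cf (k + m) h : ℂ) * z ^ m * hk k
  have e2 : (∑' m, ∑' k, ((cf (k + (m + 1)) g : ℂ) * z⁻¹ ^ (k + (m + 1))) *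
      ((cf k h : ℂ) * z ^ k)) = ev z⁻¹ (P.Tz h g) - (cf 0 (P.Tz g h) : ℂ) := by
    have h0 : ev z⁻¹ (P.Tz h g) = (cf 0 (P.Tz h g) : ℂ) +
        ∑' m, (cf (m + 1) (P.Tz h g) : ℂ) * z⁻¹ ^ (m + 1) := by
      have := (summable_ev hR (P.Tz h g)).tsum_eq_zero_add
      rw [pow_zero, mul_one] at this
      exact this
    rw [h0, P.cf_zero_Tz_comm h g, add_sub_cancel_left]
    refine tsum_congr fun m => ?_
    rw [cf_Tz, Complex.ofReal_tsum, ← tsum_mul_right]
    refine tsum_congr fun k => ?_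
    rw [pow_add, Complex.ofReal_mul]
    linear_combination (cf (k + (m + 1)) g : ℂ) * (cf k h : ℂ) * z⁻¹ ^ (m + 1) * hk k
  rw [e1, e2] at key
  rw [add_sub_assoc]
  exact key

end Par

end Serrin
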