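import Pool.Agent.Lib.MP_2fa8c7_an.OpsQ

set_option autoImplicit false

/-!
# MP_2fa8c7_an: the operator `Tz` and the diagonal operator `L`
-/

namespace Serrin

open Finset WA

namespace Par

variable (P : Par)

lemma cf_Tz (g h : P.A) (m : ℕ) : cf m (P.Tz g h) = ∑' k, cf k g * cf (k + m) h := by
  unfold Tz
  rw [(P.colT g).cf_op, ← ((P.colT g).summable_row h m).sum_add_tsum_nat_add m]
  have h1 : ∑ i ∈ range m, P.Tk g m i * cf i h = 0 := by
    refine Finset.sum_eq_zero fun i hi => ?_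
    have hi' := Finset.mem_range.1 hi
    unfold Tk
    rw [if_neg (by omega), zero_mul]
  rw [h1, zero_add]
  refine tsum_congr fun i => ?_
  unfold Tk
  rw [if_pos (by omega), Nat.add_sub_cancel]

private lemma OpsT1_summable (g h : P.A) (m : ℕ) : Summable fun k => cf k g * cf (k + m) h := by
  have h1 := ((P.colT g).summable_row h m)
  rw [← summable_nat_add_iff m] at h1
  refine h1.congr fun i => ?_
  unfold Tk
  rw [if_pos (by omega), Nat.add_sub_cancel]

lemma norm_Tz_le (g h : P.A) : ‖P.Tz g h‖ ≤ ‖g‖ * ‖h‖ := (P.colT g).norm_op_le h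

lemma Tz_sub_left (g g' h : P.A) : P.Tz (g - g') h = P.Tz g h - P.Tz g' h := by
  refine WA.ext fun m => ?_
  rw [cf_sub, cf_Tz, cf_Tz, cf_Tz, ← (P.OpsT1_summable g h m).tsum_sub (P.OpsT1_summable g' h m)]
  exact tsum_congr fun k => by rw [cf_sub]; ring

lemma Tz_add_left (g g' h : P.A) : P.Tz (g + g') h = P.Tz g h + P.Tz g' h := by
  refine WA.ext fun m => ?_
  rw [cf_add, cf_Tz, cf_Tz, cf_Tz, ← (P.OpsT1_summable g h m).tsum_add (P.OpsT1_summable g' h m)]
  exact tsum_congr fun k => by rw [cf_add]; ring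

lemma Tz_smul_left (c : ℝ) (g h : P.A) : P.Tz (c • g) h = c • P.Tz g h := by
  refine WA.ext fun m => ?_
  rw [cf_smul, cf_Tz, cf_Tz, ← tsum_mul_left]
  exact tsum_congr fun k => by rw [cf_smul]; ring

lemma cf_zero_Tz_comm (g h : P.A) : cf 0 (P.Tz g h) = cf 0 (P.Tz h g) := by
  rw [cf_Tz, cf_Tz]
  exact tsum_congr fun k => by rw [add_zero, mul_comm]

/-- `P_{≥0}` of `(1/ζ - q) · 1` -/
lemma Tz_Xq_one : P.Tz P.Xq 1 = algebraMap ℝ P.A (-P.q) := by
  refine WA.ext fun m => ?_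
  rw [cf_Tz, tsum_eq_single 0 (fun k hk => by rw [cf_one, if_neg (by omega), mul_zero]),
    Algebra.algebraMap_eq_smul_one, cf_smul, cf_one, cf_one, zero_add]
  unfold Xq
  rw [cf_sub, Algebra.algebraMap_eq_smul_one, cf_smul, cf_one, cf_X, if_pos rfl,
    if_neg (by omega)]
  ring

lemma cf_L (r : P.A) (j : ℕ) : cf j (P.L r) =
    if 2 ≤ j then -(2 * ((j : ℝ) + 1) / ((j : ℝ) - 1)) * cf (j + 1) r else 0 := by
  unfold L
  rw [P.colL.cf_op, tsum_eq_single (j + 1)]
  · unfold Lk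
    by_cases hj : 2 ≤ j
    · rw [if_pos ⟨hj, rfl⟩, if_pos hj]
    · rw [if_neg (fun h => hj h.1), if_neg hj, zero_mul]
  · intro i hi
    unfold Lk
    rw [if_neg (fun h => hi h.2), zero_mul]

lemma norm_L_le (r : P.A) : ‖P.L r‖ ≤ 6 * ‖r‖ := P.colL.norm_op_le r

end Par

end Serrin
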