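import Pool.Agent.Lib.MP_2fa8c7_an.OpsY1

set_option autoImplicit false

/-!
# MP_2fa8c7_an: the constant `Z` and the profile `Y`
-/

namespace Serrin

open Finset WA

namespace Par

variable (P : Par)

theorem cf_Y (j : ℕ) : cf j P.Y =
    if 2 ≤ j then 1 / (P.q * P.Z) * ((((j : ℝ) + 1) * j) / ((j : ℝ) - 1)) * P.q ^ (j - 1)
    else 0 := by
  unfold Y
  rw [cf_smul, cf_L]
  by_cases hj : 2 ≤ j
  · rw [if_pos hj, if_pos hj, cf_K_sq, if_pos (by omega), show j + 1 - 2 = j - 1 by omega]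
    push_cast
    have hq := P.q_pos.ne'
    have hZ := P.Z_pos.ne'
    have hj1 : (j : ℝ) - 1 ≠ 0 := by
      have : (2 : ℝ) ≤ j := by exact_mod_cast hj
      linarith
    field_simp
    ring
  · rw [if_neg hj, if_neg hj, mul_zero]

private lemma OpsY_inv_le : 1 / (P.q * P.Z) ≤ 8 * (100 / 99) * P.δ ^ 3 := by
  have hd := P.δ_pos
  have hq := P.q_ge
  have hZ := P.Z_ge
  have h1 : 99 / 100 * (1 / (8 * P.δ ^ 3)) ≤ P.q * P.Z :=
    mul_le_mul hq hZ (by positivity) P.q_pos.le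
  have h2 : 0 < 99 / 100 * (1 / (8 * P.δ ^ 3)) := by positivity
  calc 1 / (P.q * P.Z) ≤ 1 / (99 / 100 * (1 / (8 * P.δ ^ 3))) :=
        one_div_le_one_div_of_le h2 h1
    _ = 8 * (100 / 99) * P.δ ^ 3 := by
        field_simp

private lemma OpsY_abs_le (j : ℕ) :
    |cf j P.Y| ≤ 16 * (100 / 99) * P.δ ^ 3 * ((j : ℝ) + 1) * P.q ^ (j - 1) := by
  have hd := P.δ_pos
  have hq := P.q_pos
  have hZ := P.Z_pos
  rw [cf_Y]
  by_cases hj : 2 ≤ j
  · rw [if_pos hj]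
    have hj2 : (2 : ℝ) ≤ j := by exact_mod_cast hj
    have h0 : (0 : ℝ) < (j : ℝ) - 1 := by linarith
    rw [abs_of_nonneg (by positivity)]
    have h1 : (((j : ℝ) + 1) * j) / ((j : ℝ) - 1) ≤ 2 * ((j : ℝ) + 1) := by
      rw [div_le_iff₀ h0]
      nlinarith
    calc 1 / (P.q * P.Z) * ((((j : ℝ) + 1) * j) / ((j : ℝ) - 1)) * P.q ^ (j - 1)
        ≤ (8 * (100 / 99) * P.δ ^ 3) * (2 * ((j : ℝ) + 1)) * P.q ^ (j - 1) := by
          refine mul_le_mul_of_nonneg_right ?_ (pow_pos hq _).le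
          exact mul_le_mul P.OpsY_inv_le h1 (by positivity) (by positivity)
      _ = 16 * (100 / 99) * P.δ ^ 3 * ((j : ℝ) + 1) * P.q ^ (j - 1) := by ring
  · rw [if_neg hj, abs_zero]
    positivity

theorem abs_cf_Y_le (j : ℕ) : |cf j P.Y| ≤ 17 * P.δ ^ 3 * ((j : ℝ) + 1) := by
  have hd := P.δ_pos
  have hq := P.q_pos
  refine (P.OpsY_abs_le j).trans ?_
  have h1 : P.q ^ (j - 1) ≤ 1 := pow_le_one₀ hq.le P.q_lt_one.le
  calc 16 * (100 / 99) * P.δ ^ 3 * ((j : ℝ) + 1) * P.q ^ (j - 1)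
      ≤ 16 * (100 / 99) * P.δ ^ 3 * ((j : ℝ) + 1) * 1 :=
        mul_le_mul_of_nonneg_left h1 (by positivity)
    _ = 16 * (100 / 99) * (P.δ ^ 3 * ((j : ℝ) + 1)) := by ring
    _ ≤ 17 * (P.δ ^ 3 * ((j : ℝ) + 1)) :=
        mul_le_mul_of_nonneg_right (by norm_num) (by positivity)
    _ = 17 * P.δ ^ 3 * ((j : ℝ) + 1) := by ring

theorem norm_Y_le : ‖P.Y‖ ≤ 70 * P.δ := by
  have hd := P.δ_pos
  have hq := P.q_pos
  have hq1 := P.q_lt_one
  have hqg := P.q_ge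
  have hR := Rw_pos P.t
  set y : ℝ := P.q * Rw P.t with hy
  have hy0 : 0 < y := mul_pos hq hR
  have hy1 : y < 1 := P.qR_lt_one
  have hys := P.one_sub_qR
  rw [← hy] at hys
  have hs : HasSum (fun n : ℕ => ((n : ℝ) + 1) * y ^ n) (1 / (1 - y) ^ 2) := by
    have h := hasSum_choose_mul_geometric_of_norm_lt_one (𝕜 := ℝ) 1 (r := y) (by
      rw [Real.norm_eq_abs, abs_of_pos hy0]
      exact hy1)
    simpa using h
  have hb : ∀ j, |cf j P.Y| * Rw P.t ^ j ≤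
      (16 * (100 / 99) * P.δ ^ 3 / P.q) * (((j : ℝ) + 1) * y ^ j) := by
    intro j
    rcases Nat.eq_zero_or_pos j with rfl | hj
    · rw [cf_Y, if_neg (by omega), abs_zero, zero_mul]
      positivity
    · have e : (16 * (100 / 99) * P.δ ^ 3 / P.q) * (((j : ℝ) + 1) * y ^ j) =
          (16 * (100 / 99) * P.δ ^ 3 * ((j : ℝ) + 1) * P.q ^ (j - 1)) * Rw P.t ^ j := by
        obtain ⟨m, rfl⟩ : ∃ m, j = m + 1 := ⟨j - 1, by omega⟩
        rw [hy, mul_pow, Nat.add_sub_cancel, pow_succ P.q m]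
        have := hq.ne'
        field_simp
      rw [e]
      exact mul_le_mul_of_nonneg_right (P.OpsY_abs_le j) (Rw_pow_pos _ _).le
  rw [norm_def]
  calc ∑' j, |cf j P.Y| * Rw P.t ^ j
      ≤ ∑' j : ℕ, (16 * (100 / 99) * P.δ ^ 3 / P.q) * (((j : ℝ) + 1) * y ^ j) :=
        P.Y.summable.tsum_le_tsum hb (hs.summable.mul_left _)
    _ = (16 * (100 / 99) * P.δ ^ 3 / P.q) * (1 / (1 - y) ^ 2) := by
        rw [tsum_mul_left, hs.tsum_eq]
    _ ≤ (16 * (100 / 99) * P.δ ^ 3 / (99 / 100)) * (1 / (P.δ / 2) ^ 2) := by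
        refine mul_le_mul ?_ ?_ (by positivity) (by positivity)
        · exact div_le_div_of_nonneg_left (by positivity) (by norm_num) hqg
        · exact one_div_le_one_div_of_le (by positivity)
            (pow_le_pow_left₀ (by positivity) hys 2)
    _ = (16 * (100 / 99) / (99 / 100) * 4) * P.δ := by
        field_simp
        ring
    _ ≤ 70 * P.δ := mul_le_mul_of_nonneg_right (by norm_num) hd.le

private lemma OpsY_op {K : ℕ → ℕ → ℝ} {C : ℝ} (h : ColBound P.t K C) (w : ℕ → ℝ) {C' : ℝ}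
    (hw : ∀ j, |w j| ≤ C' * Rw P.t ^ j) (f : P.A) :
    ∑' j, cf j (h.op f) * w j = ∑' i, cf i f * ∑ j ∈ range (i + 2), K j i * w j := by
  have hs : Summable fun p : ℕ × ℕ => K p.2 p.1 * cf p.1 f * w p.2 := by
    refine Summable.of_norm_bounded ((h.summable_prod f).mul_left C') fun p => ?_
    rw [norm_mul, Real.norm_eq_abs, Real.norm_eq_abs]
    calc |K p.2 p.1 * cf p.1 f| * |w p.2| ≤ |K p.2 p.1 * cf p.1 f| * (C' * Rw P.t ^ p.2) :=
          mul_le_mul_of_nonneg_left (hw _) (abs_nonneg _)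
      _ = C' * (|K p.2 p.1 * cf p.1 f| * Rw P.t ^ p.2) := by ring
  have h1 : ∀ j, cf j (h.op f) * w j = ∑' i, K j i * cf i f * w j := by
    intro j
    rw [h.cf_op, tsum_mul_right]
  rw [tsum_congr h1]
  rw [Summable.tsum_comm (f := fun i j => K j i * cf i f * w j) hs]
  refine tsum_congr fun i => ?_
  rw [tsum_eq_sum (s := range (i + 2))]
  · rw [Finset.mul_sum]
    exact Finset.sum_congr rfl fun j _ => by ring
  · intro j hj
    have hj' : i + 1 < j := by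
      rw [Finset.mem_range] at hj
      omega
    rw [h.zero i j hj', zero_mul, zero_mul]

private lemma OpsY_Qk (i : ℕ) :
    ∑ j ∈ range (i + 2), P.Qk j i * P.q ^ j = (i : ℝ) * P.q ^ (i - 1) := by
  rw [Finset.sum_range_succ, Finset.sum_range_succ]
  have h1 : P.Qk (i + 1) i = 0 := by unfold Qk; rw [if_neg (by omega)]
  have h2 : P.Qk i i = 0 := by unfold Qk; rw [if_neg (by omega)]
  rw [h1, h2, zero_mul, zero_mul, add_zero, add_zero]
  have h3 : ∀ j ∈ range i, P.Qk j i * P.q ^ j = P.q ^ (i - 1) := by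
    intro j hj
    have hj' := Finset.mem_range.1 hj
    unfold Qk
    rw [if_pos hj', ← pow_add]
    congr 1
    omega
  rw [Finset.sum_congr rfl h3, Finset.sum_const, Finset.card_range, nsmul_eq_mul]

private lemma OpsY_evq_Q (g : P.A) :
    P.evq (P.Q g) = ∑' i, cf i g * ((i : ℝ) * P.q ^ (i - 1)) := by
  have hq := P.q_pos
  have hqR : P.q ≤ Rw P.t := (le_abs_self _).trans P.abs_q_le
  unfold Q
  rw [evq_def, OpsY_op P P.colQ (fun n => P.q ^ n) (C' := 1)]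
  · exact tsum_congr fun i => by rw [OpsY_Qk]
  · intro j
    rw [abs_of_pos (pow_pos hq _), one_mul]
    exact pow_le_pow_left₀ hq.le hqR _

private lemma OpsY_bound (i : ℕ) : |(i : ℝ) * P.q ^ (i - 1)| ≤ P.δ⁻¹ * Rw P.t ^ i := by
  have hq := P.q_pos
  have hqR : P.q ≤ Rw P.t := (le_abs_self _).trans P.abs_q_le
  rw [← OpsY_Qk]
  refine (Finset.abs_sum_le_sum_abs _ _).trans (le_trans ?_ (P.colQ.le i))
  refine Finset.sum_le_sum fun j _ => ?_
  rw [abs_mul, abs_of_pos (pow_pos hq j)]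
  exact mul_le_mul_of_nonneg_left (pow_le_pow_left₀ hq.le hqR _) (abs_nonneg _)

theorem q_mul_evq_Q_Y : P.q * P.evq (P.Q P.Y) = 1 := by
  have hq := P.q_pos
  have hZ := P.Z_pos
  have hs : Summable fun i => cf i P.Y * ((i : ℝ) * P.q ^ (i - 1)) := by
    refine Summable.of_norm_bounded (P.Y.summable.mul_left P.δ⁻¹) fun i => ?_
    rw [norm_mul, Real.norm_eq_abs, Real.norm_eq_abs]
    calc |cf i P.Y| * |(i : ℝ) * P.q ^ (i - 1)| ≤ |cf i P.Y| * (P.δ⁻¹ * Rw P.t ^ i) :=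
          mul_le_mul_of_nonneg_left (P.OpsY_bound i) (abs_nonneg _)
      _ = P.δ⁻¹ * (|cf i P.Y| * Rw P.t ^ i) := by ring
  rw [OpsY_evq_Q, ← hs.sum_add_tsum_nat_add 2]
  have h0 : ∑ i ∈ range 2, cf i P.Y * ((i : ℝ) * P.q ^ (i - 1)) = 0 := by
    refine Finset.sum_eq_zero fun i hi => ?_
    have hi' := Finset.mem_range.1 hi
    rw [cf_Y, if_neg (by omega), zero_mul]
  rw [h0, zero_add, ← tsum_mul_left]
  have h1 : ∀ k : ℕ, P.q * (cf (k + 2) P.Y * (((k + 2 : ℕ) : ℝ) * P.q ^ (k + 2 - 1))) =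
      P.Z⁻¹ * ((((k : ℝ) + 3) * ((k : ℝ) + 2) ^ 2 / ((k : ℝ) + 1)) * P.q ^ (2 * (k + 1))) := by
    intro k
    rw [cf_Y, if_pos (by omega), show k + 2 - 1 = k + 1 by omega, pow_mul']
    push_cast
    have hk : (k : ℝ) + 1 ≠ 0 := by positivity
    have e : (k : ℝ) + 2 - 1 = k + 1 := by ring
    rw [e]
    have hq' := hq.ne'
    have hZ' := hZ.ne'
    field_simp
    ring
  rw [tsum_congr h1, tsum_mul_left]
  show P.Z⁻¹ * P.Z = 1
  exact inv_mul_cancel₀ hZ.ne'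

theorem L_K_sq (s : ℝ) : (-(s / (2 * P.q * P.Z))) • P.L (P.K ^ 2) = s • P.Y := by
  unfold Y
  rw [smul_smul]
  congr 1
  ring

end Par

end Serrin
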