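import Pool.Agent.Lib.MP_2fa8c7_an.OpsT
import Pool.Agent.Lib.MP_2fa8c7_an.OpsK

set_option autoImplicit false

/-!
# MP_2fa8c7_an: the constant `Z` and the profile `Y`
-/

namespace Serrin

open Finset WA

namespace Par

variable (P : Par)

private lemma OpsY1_x_lt : P.q ^ 2 < 1 := by
  have h0 := P.q_pos
  have h1 := P.q_lt_one
  nlinarith

private lemma OpsY1_hasSum : HasSum (fun n : ℕ => (((n + 2).choose 2 : ℕ) : ℝ) * (P.q ^ 2) ^ n)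
    (1 / (1 - P.q ^ 2) ^ 3) := by
  have h := hasSum_choose_mul_geometric_of_norm_lt_one (𝕜 := ℝ) 2 (r := P.q ^ 2) (by
    rw [Real.norm_eq_abs, abs_of_nonneg (sq_nonneg _)]
    exact P.OpsY1_x_lt)
  simpa using h

private lemma OpsY1_choose (n : ℕ) :
    (((n + 2).choose 2 : ℕ) : ℝ) = ((n : ℝ) + 2) * ((n : ℝ) + 1) / 2 := by
  rw [Nat.cast_choose_two]
  push_cast
  ring

private lemma OpsY1_hasSum' : HasSum (fun n : ℕ => (((n : ℝ) + 3) * ((n : ℝ) + 2)) *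
    P.q ^ (2 * (n + 1))) (2 * (1 / (1 - P.q ^ 2) ^ 3) - 2) := by
  have h := (hasSum_nat_add_iff' (f := fun n : ℕ => (((n + 2).choose 2 : ℕ) : ℝ) * (P.q ^ 2) ^ n)
    1).2 P.OpsY1_hasSum
  have h2 := h.mul_left 2
  have e1 : (fun n : ℕ => (((n : ℝ) + 3) * ((n : ℝ) + 2)) * P.q ^ (2 * (n + 1))) =
      fun n : ℕ => 2 * ((((n + 1 + 2).choose 2 : ℕ) : ℝ) * (P.q ^ 2) ^ (n + 1)) := by
    funext n
    rw [OpsY1_choose, ← pow_mul]
    push_cast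
    ring
  have e2 : 2 * (1 / (1 - P.q ^ 2) ^ 3) - 2 = 2 * (1 / (1 - P.q ^ 2) ^ 3 -
      ∑ i ∈ range 1, (((i + 2).choose 2 : ℕ) : ℝ) * (P.q ^ 2) ^ i) := by
    simp
    ring
  rw [e1, e2]
  exact h2

private lemma OpsY1_le (k : ℕ) :
    (((k : ℝ) + 3) * ((k : ℝ) + 2) ^ 2 / ((k : ℝ) + 1)) * P.q ^ (2 * (k + 1)) ≤
      2 * ((((k : ℝ) + 3) * ((k : ℝ) + 2)) * P.q ^ (2 * (k + 1))) := by
  have hq := pow_pos P.q_pos (2 * (k + 1))
  rw [← mul_assoc]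
  refine mul_le_mul_of_nonneg_right ?_ hq.le
  rw [div_le_iff₀ (by positivity)]
  have hk : (0 : ℝ) ≤ k := Nat.cast_nonneg k
  have h1 : 0 ≤ ((k : ℝ) + 3) * ((k : ℝ) + 2) := by positivity
  nlinarith [mul_nonneg h1 hk]

private lemma OpsY1_ge (k : ℕ) :
    (((k : ℝ) + 3) * ((k : ℝ) + 2)) * P.q ^ (2 * (k + 1)) ≤
      (((k : ℝ) + 3) * ((k : ℝ) + 2) ^ 2 / ((k : ℝ) + 1)) * P.q ^ (2 * (k + 1)) := by
  have hq := pow_pos P.q_pos (2 * (k + 1))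
  refine mul_le_mul_of_nonneg_right ?_ hq.le
  rw [le_div_iff₀ (by positivity)]
  have hk : (0 : ℝ) ≤ k := Nat.cast_nonneg k
  have h1 : 0 ≤ ((k : ℝ) + 3) * ((k : ℝ) + 2) := by positivity
  nlinarith [mul_nonneg h1 hk]

theorem Z_summable : Summable fun k : ℕ =>
    (((k : ℝ) + 3) * ((k : ℝ) + 2) ^ 2 / ((k : ℝ) + 1)) * P.q ^ (2 * (k + 1)) := by
  refine Summable.of_nonneg_of_le (fun k => ?_) P.OpsY1_le
    (P.OpsY1_hasSum'.summable.mul_left 2)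
  have hq := pow_pos P.q_pos (2 * (k + 1))
  positivity

private lemma OpsY1_one_sub : 1 - P.q ^ 2 = P.δ * (2 - P.δ) := by
  unfold q
  ring

theorem Z_ge : 1 / (8 * P.δ ^ 3) ≤ P.Z := by
  have hd := P.δ_pos
  have hd1 := P.δ_le
  have hd2 : P.δ ≤ 1 / 10 := hd1.trans (by norm_num)
  have h1 : 2 * (1 / (1 - P.q ^ 2) ^ 3) - 2 ≤ P.Z := by
    unfold Z
    rw [← P.OpsY1_hasSum'.tsum_eq]
    exact P.OpsY1_hasSum'.summable.tsum_le_tsum P.OpsY1_ge P.Z_summable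
  refine le_trans ?_ h1
  rw [OpsY1_one_sub]
  have h2 : 1 / (8 * P.δ ^ 3) ≤ 1 / (P.δ * (2 - P.δ)) ^ 3 := by
    refine one_div_le_one_div_of_le (pow_pos (mul_pos hd (by linarith)) 3) ?_
    calc (P.δ * (2 - P.δ)) ^ 3 ≤ (P.δ * 2) ^ 3 :=
          pow_le_pow_left₀ (mul_pos hd (by linarith)).le
            (mul_le_mul_of_nonneg_left (by linarith) hd.le) 3
      _ = 8 * P.δ ^ 3 := by ring
  have h3 : 2 ≤ 1 / (8 * P.δ ^ 3) := by
    rw [le_div_iff₀ (by positivity)]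
    have h4 : P.δ ^ 3 ≤ (1 / 10) ^ 3 := pow_le_pow_left₀ hd.le hd2 3
    nlinarith
  linarith

theorem Z_le : P.Z ≤ 4 / P.δ ^ 3 := by
  have hd := P.δ_pos
  have hd1 := P.δ_le
  have hd2 : P.δ ≤ 1 / 10 := hd1.trans (by norm_num)
  have h1 : P.Z ≤ 2 * (2 * (1 / (1 - P.q ^ 2) ^ 3) - 2) := by
    unfold Z
    rw [← P.OpsY1_hasSum'.tsum_eq, ← tsum_mul_left]
    exact P.Z_summable.tsum_le_tsum P.OpsY1_le (P.OpsY1_hasSum'.summable.mul_left 2)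
  refine h1.trans ?_
  rw [OpsY1_one_sub]
  have h2 : 1 / (P.δ * (2 - P.δ)) ^ 3 ≤ 1 / P.δ ^ 3 := by
    refine one_div_le_one_div_of_le (by positivity) ?_
    refine pow_le_pow_left₀ hd.le ?_ 3
    nlinarith
  have h3 : 4 / P.δ ^ 3 = 4 * (1 / P.δ ^ 3) := by ring
  rw [h3]
  linarith

lemma Z_pos : 0 < P.Z :=
  lt_of_lt_of_le (by have := P.δ_pos; positivity) P.Z_ge

end Par

end Serrin
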