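import Pool.Agent.Lib.MP_2fa8c7_an.PGrad

set_option autoImplicit false

/-!
# MP_2fa8c7_an: cutting off a Lipschitz function near the boundary
-/

namespace Serrin

open MeasureTheory Set Filter Topology
open scoped ContDiff NNReal

/-- a Lipschitz function vanishing outside `Ω` is bounded by the distance to the complement -/
theorem pcut_abs_le {Ω : Set ℂ} (hne : Ωᶜ.Nonempty) {u : ℂ → ℝ} {L : ℝ≥0}
    (hu : LipschitzWith L u) (h0 : ∀ z ∉ Ω, u z = 0) (z : ℂ) :
    |u z| ≤ L * Metric.infDist z Ωᶜ := by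
  rcases eq_or_lt_of_le (NNReal.coe_nonneg L) with hL | hL
  · obtain ⟨y, hy⟩ := hne
    have h1 := hu.dist_le_mul z y
    rw [← hL, zero_mul, h0 y hy, Real.dist_eq, sub_zero] at h1
    rw [← hL, zero_mul]
    exact h1
  · rw [← div_le_iff₀' hL]
    refine (Metric.le_infDist hne).2 fun {y} hy => ?_
    rw [div_le_iff₀' hL]
    have h1 := hu.dist_le_mul z y
    rwa [h0 y hy, Real.dist_eq, sub_zero] at h1

/-- the Lipschitz estimate for the product, one-sided in the condition -/
theorem pcut_lip {η a b p q x y D L : ℝ} (hη : 0 < η) (hL : 0 ≤ L) (hD : 0 ≤ D)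
    (hp0 : 0 ≤ p) (hp1 : p ≤ 1) (hq0 : 0 ≤ q) (hq1 : q ≤ 1)
    (hpq : |p - q| ≤ D / η) (hab : |a - b| ≤ L * D)
    (ha : |a| ≤ L * x) (hb : |b| ≤ L * y) (h1 : 2 * η ≤ x → p = 1) (h2 : 2 * η ≤ y → q = 1) :
    |a * p - b * q| ≤ 3 * L * D := by
  rcases le_or_gt (2 * η) x with hx | hx
  · rcases le_or_gt (2 * η) y with hy | hy
    · rw [h1 hx, h2 hy, mul_one, mul_one]
      nlinarith [mul_nonneg hL hD]
    · have e : a * p - b * q = b * (p - q) + p * (a - b) := by ring
      have e1 : |b| ≤ L * (2 * η) := hb.trans (mul_le_mul_of_nonneg_left hy.le hL)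
      have e2 : |b * (p - q)| ≤ (L * (2 * η)) * (D / η) := by
        rw [abs_mul]
        exact mul_le_mul e1 hpq (abs_nonneg _) (by positivity)
      have e3 : (L * (2 * η)) * (D / η) = 2 * L * D := by
        field_simp
      have e4 : |p * (a - b)| ≤ 1 * (L * D) := by
        rw [abs_mul, abs_of_nonneg hp0]
        exact mul_le_mul hp1 hab (abs_nonneg _) zero_le_one
      rw [e]
      refine (abs_add_le _ _).trans ?_
      rw [e3] at e2
      linarith
  · have e : a * p - b * q = a * (p - q) + q * (a - b) := by ring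
    have e1 : |a| ≤ L * (2 * η) := ha.trans (mul_le_mul_of_nonneg_left hx.le hL)
    have e2 : |a * (p - q)| ≤ (L * (2 * η)) * (D / η) := by
      rw [abs_mul]
      exact mul_le_mul e1 hpq (abs_nonneg _) (by positivity)
    have e3 : (L * (2 * η)) * (D / η) = 2 * L * D := by
      field_simp
    have e4 : |q * (a - b)| ≤ 1 * (L * D) := by
      rw [abs_mul, abs_of_nonneg hq0]
      exact mul_le_mul hq1 hab (abs_nonneg _) zero_le_one
    rw [e]
    refine (abs_add_le _ _).trans ?_
    rw [e3] at e2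
    linarith

/-- the layers near the boundary have small measure -/
theorem pcut_small {Ω : Set ℂ} (hΩ : IsOpen Ω) (hb : Bornology.IsBounded Ω)
    (hne : Ωᶜ.Nonempty) (hn : volume (frontier Ω) = 0) {ε : ℝ} (hε : 0 < ε) :
    ∃ η > 0, volume (closure Ω ∩ {z | Metric.infDist z Ωᶜ ≤ 2 * η}) ≤ ENNReal.ofReal ε := by
  set S : ℕ → Set ℂ := fun n => closure Ω ∩ {z | Metric.infDist z Ωᶜ ≤ 2 * (1 / ((n : ℝ) + 1))}
    with hS
  have hcl : ∀ n, IsClosed (S n) := fun n =>
    isClosed_closure.inter (isClosed_le (Metric.continuous_infDist_pt _) continuous_const)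
  have hanti : Antitone S := by
    intro m n hmn z hz
    refine ⟨hz.1, ?_⟩
    have h1 : Metric.infDist z Ωᶜ ≤ 2 * (1 / ((n : ℝ) + 1)) := hz.2
    have h2 : 1 / ((n : ℝ) + 1) ≤ 1 / ((m : ℝ) + 1) := Nat.one_div_le_one_div hmn
    show Metric.infDist z Ωᶜ ≤ 2 * (1 / ((m : ℝ) + 1))
    linarith
  have hint : ⋂ n, S n = frontier Ω := by
    ext z
    simp only [mem_iInter, frontier, hΩ.interior_eq, Set.mem_sdiff]
    constructor
    · intro h
      refine ⟨(h 0).1, ?_⟩
      have h1 : Metric.infDist z Ωᶜ = 0 := by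
        refine le_antisymm ?_ Metric.infDist_nonneg
        have h2 : Tendsto (fun n : ℕ => 2 * (1 / ((n : ℝ) + 1))) atTop (𝓝 (2 * 0)) :=
          (tendsto_one_div_add_atTop_nhds_zero_nat).const_mul 2
        rw [mul_zero] at h2
        exact ge_of_tendsto' h2 fun n => (h n).2
      have := (hΩ.isClosed_compl.mem_iff_infDist_zero hne).2 h1
      exact this
    · rintro ⟨h1, h2⟩ n
      refine ⟨h1, ?_⟩
      have h3 : Metric.infDist z Ωᶜ = 0 := Metric.infDist_zero_of_mem h2
      show Metric.infDist z Ωᶜ ≤ 2 * (1 / ((n : ℝ) + 1))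
      rw [h3]
      positivity
  have hfin : volume (S 0) ≠ ⊤ :=
    ((measure_mono inter_subset_left).trans_lt hb.closure.measure_lt_top).ne
  have ht := tendsto_measure_iInter_atTop (μ := volume) (fun n => (hcl n).nullMeasurableSet)
    hanti ⟨0, hfin⟩
  rw [hint, hn] at ht
  have h3 := (ht.eventually_lt_const (ENNReal.ofReal_pos.2 hε)).exists
  obtain ⟨n, hn⟩ := h3
  exact ⟨1 / ((n : ℝ) + 1), by positivity, hn.le⟩

/-- A Lipschitz function vanishing outside the bounded open set `Ω` is approximated by uniformly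
Lipschitz functions with compact support in `Ω`, which agree with it outside sets of small
measure. -/
theorem exists_cutoff {Ω : Set ℂ} (hΩ : IsOpen Ω) (hb : Bornology.IsBounded Ω)
    (hn : volume (frontier Ω) = 0) {u : ℂ → ℝ}
    {L : ℝ≥0} (hu : LipschitzWith L u) (h0 : ∀ z ∉ Ω, u z = 0) {ε : ℝ} (hε : 0 < ε) :
    ∃ (v : ℂ → ℝ) (S : Set ℂ), LipschitzWith (3 * L) v ∧ HasCompactSupport v ∧ tsupport v ⊆ Ω ∧
      IsClosed S ∧ volume S ≤ ENNReal.ofReal ε ∧ (∀ z ∉ S, v z = u z) ∧
      (∀ z, |v z| ≤ |u z|) := by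
  have hne : Ωᶜ.Nonempty := by
    rw [nonempty_compl]
    rintro rfl
    exact NoncompactSpace.noncompact_univ (X := ℂ) (by
      have := hb.isCompact_closure
      rwa [closure_univ] at this)
  obtain ⟨η, hη, hS⟩ := pcut_small hΩ hb hne hn hε
  set d : ℂ → ℝ := fun z => Metric.infDist z Ωᶜ with hd
  set χ : ℂ → ℝ := fun z => max 0 (min 1 (d z / η - 1)) with hχ
  have hχ0 : ∀ z, 0 ≤ χ z := fun z => le_max_left _ _
  have hχ1 : ∀ z, χ z ≤ 1 := fun z => max_le zero_le_one (min_le_left _ _)
  have hχ2 : ∀ z, 2 * η ≤ d z → χ z = 1 := by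
    intro z hz
    have : 1 ≤ d z / η - 1 := by
      rw [le_sub_iff_add_le, le_div_iff₀ hη]
      linarith
    simp only [hχ, min_eq_left this, max_eq_right zero_le_one]
  have hχ3 : ∀ z, d z < η → χ z = 0 := by
    intro z hz
    have : d z / η - 1 ≤ 0 := by
      rw [sub_nonpos, div_le_one hη]
      exact hz.le
    simp only [hχ, min_eq_right (this.trans zero_le_one), max_eq_left this]
  have hχd : ∀ z w, |χ z - χ w| ≤ dist z w / η := by
    intro z w
    have h1 : |max 0 (min 1 (d z / η - 1)) - max 0 (min 1 (d w / η - 1))| ≤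
        |min 1 (d z / η - 1) - min 1 (d w / η - 1)| := by
      refine (abs_max_sub_max_le_max _ _ _ _).trans ?_
      rw [sub_self, abs_zero, max_eq_right (abs_nonneg _)]
    have h2 : |min 1 (d z / η - 1) - min 1 (d w / η - 1)| ≤
        |(d z / η - 1) - (d w / η - 1)| := by
      refine (abs_min_sub_min_le_max _ _ _ _).trans ?_
      rw [sub_self, abs_zero, max_eq_right (abs_nonneg _)]
    have h3 : (d z / η - 1) - (d w / η - 1) = (d z - d w) / η := by ring
    rw [h3, abs_div, abs_of_pos hη] at h2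
    have h4 : |d z - d w| ≤ dist z w := by
      have := (Metric.lipschitz_infDist_pt Ωᶜ).dist_le_mul z w
      rw [Real.dist_eq, NNReal.coe_one, one_mul] at this
      exact this
    exact (h1.trans h2).trans (div_le_div_of_nonneg_right h4 hη.le)
  have hdu := pcut_abs_le hne hu h0
  have hts : tsupport (fun z => u z * χ z) ⊆ {z | η ≤ d z} := by
    refine closure_minimal ?_ (isClosed_le continuous_const (Metric.continuous_infDist_pt _))
    intro z hz
    by_contra hc
    have hc' : d z < η := not_le.1 hc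
    exact hz (by simp [hχ3 z hc'])
  have hsub : {z | η ≤ d z} ⊆ Ω := by
    intro z hz
    by_contra hc
    have h1 : d z = 0 := Metric.infDist_zero_of_mem hc
    have h2 : η ≤ d z := hz
    linarith
  refine ⟨fun z => u z * χ z, closure Ω ∩ {z | d z ≤ 2 * η}, ?_, ?_, hts.trans hsub, ?_, hS,
    ?_, ?_⟩
  · refine LipschitzWith.of_dist_le_mul fun z w => ?_
    rw [Real.dist_eq]
    have := pcut_lip (η := η) (a := u z) (b := u w) (p := χ z) (q := χ w) (x := d z) (y := d w)
      (D := dist z w) (L := L) hη L.2 dist_nonneg (hχ0 z) (hχ1 z) (hχ0 w) (hχ1 w) (hχd z w)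
      (by rw [← Real.dist_eq]; exact hu.dist_le_mul z w) (hdu z) (hdu w) (hχ2 z) (hχ2 w)
    simpa using this
  · refine HasCompactSupport.of_support_subset_isCompact (K := closure Ω) hb.isCompact_closure ?_
    exact (subset_tsupport _).trans ((hts.trans hsub).trans subset_closure)
  · exact isClosed_closure.inter (isClosed_le (Metric.continuous_infDist_pt _) continuous_const)
  · intro z hz
    by_cases hzc : z ∈ closure Ω
    · have h1 : 2 * η ≤ d z := by
        by_contra hc
        exact hz ⟨hzc, (not_le.1 hc).le⟩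
      simp only [hχ2 z h1, mul_one]
    · have h1 : u z = 0 := h0 z fun h => hzc (subset_closure h)
      simp only [h1, zero_mul]
  · intro z
    show |u z * χ z| ≤ |u z|
    rw [abs_mul, abs_of_nonneg (hχ0 z)]
    exact mul_le_of_le_one_right (abs_nonneg _) (hχ1 z)

end Serrin
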