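import Mathlib

set_option autoImplicit false

/-!
# MP_2fa8c7_an: the overdetermined problem in the plane (definitions)

The plane is `ℂ` with Lebesgue measure.
-/

namespace Serrin

open MeasureTheory Set Filter Topology
open scoped ContDiff

/-- Gradient of a real function on the plane, as a complex number. -/
noncomputable def gr (u : ℂ → ℝ) (z : ℂ) : ℂ :=
  ⟨fderiv ℝ u z 1, fderiv ℝ u z Complex.I⟩

/-- Euclidean inner product of two vectors of the plane. -/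
def dot (a b : ℂ) : ℝ := a.re * b.re + a.im * b.im

/-- `ρ` is a smooth local defining function of `Ω` on the open neighbourhood `U` of `p`:
`ρ` is smooth on `U` with nonvanishing gradient, and `Ω ∩ U = {ρ < 0}`. -/
def LocDef (Ω : Set ℂ) (p : ℂ) (U : Set ℂ) (ρ : ℂ → ℝ) : Prop :=
  IsOpen U ∧ p ∈ U ∧ ContDiffOn ℝ ∞ ρ U ∧ (∀ z ∈ U, gr ρ z ≠ 0) ∧ (∀ z ∈ U, z ∈ Ω ↔ ρ z < 0)

/-- Smooth bounded domains of the plane: nonempty, open, connected, bounded, and every boundary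
point has a smooth local defining function. -/
structure IsSmoothDomain (Ω : Set ℂ) : Prop where
  isOpen : IsOpen Ω
  isConnected : IsConnected Ω
  isBounded : Bornology.IsBounded Ω
  smooth : ∀ p ∈ frontier Ω, ∃ (U : Set ℂ) (ρ : ℂ → ℝ), LocDef Ω p U ρ

/-- Test functions: `C_c^∞(Ω)`. -/
def IsTest (Ω : Set ℂ) (v : ℂ → ℝ) : Prop :=
  ContDiff ℝ ∞ v ∧ HasCompactSupport v ∧ tsupport v ⊆ Ω

/-- `u ∈ H¹₀(Ω)` with (weak) gradient `w`: the pair `(u, w)` is the limit in `L²` of a sequence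
`(v_k, ∇ v_k)` with `v_k ∈ C_c^∞(Ω)`. -/
def IsH10 (Ω : Set ℂ) (u : ℂ → ℝ) (w : ℂ → ℂ) : Prop :=
  MemLp u 2 volume ∧ MemLp w 2 volume ∧ ∃ v : ℕ → ℂ → ℝ, (∀ k, IsTest Ω (v k)) ∧
    Tendsto (fun k => ∫ z, (v k z - u z) ^ 2) atTop (𝓝 0) ∧
    Tendsto (fun k => ∫ z, ‖gr (v k) z - w z‖ ^ 2) atTop (𝓝 0)

open Classical in
/-- The conductivity `σ = σ_c` in `D`, `σ = 1` outside `D`. -/
noncomputable def sig (σc : ℝ) (D : Set ℂ) (z : ℂ) : ℝ := if z ∈ D then σc else 1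

/-- `u ∈ H¹₀(Ω)`, with gradient `w`, is the weak solution of `-div (σ ∇u) = 1` in `Ω`,
`u = 0` on `∂Ω`. -/
def IsWeakSol (σc : ℝ) (D Ω : Set ℂ) (u : ℂ → ℝ) (w : ℂ → ℂ) : Prop :=
  IsH10 Ω u w ∧ ∀ v, IsTest Ω v → ∫ z, sig σc D z * dot (w z) (gr v z) = ∫ z, v z

/-- `∂_n u ≡ c` on `∂Ω`, where `u` is smooth up to the boundary: near `∂Ω`, `u` agrees in `Ω` with
a function `f` which is smooth on an open neighbourhood `U` of `∂Ω` and vanishes on `∂Ω`, and at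
every `p ∈ ∂Ω` the derivative of `f` in the direction of the outward unit normal
`n = ∇ρ/|∇ρ|` (`ρ` any local defining function at `p`) is `c`. -/
def HasNormalDeriv (Ω : Set ℂ) (u : ℂ → ℝ) (c : ℝ) : Prop :=
  ∃ (U : Set ℂ) (f : ℂ → ℝ), IsOpen U ∧ frontier Ω ⊆ U ∧ ContDiffOn ℝ ∞ f U ∧
    (∀ z ∈ U ∩ Ω, u z = f z) ∧ (∀ p ∈ frontier Ω, f p = 0) ∧
    ∀ p ∈ frontier Ω, ∀ (V : Set ℂ) (ρ : ℂ → ℝ), LocDef Ω p V ρ →
      dot (gr f p) (gr ρ p) = c * ‖gr ρ p‖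

/-- `(D, Ω)` is a solution of the overdetermined problem. -/
def IsSolution (σc : ℝ) (D Ω : Set ℂ) : Prop :=
  IsSmoothDomain D ∧ IsSmoothDomain Ω ∧ closure D ⊆ Ω ∧
    ∃ (u : ℂ → ℝ) (w : ℂ → ℂ) (c : ℝ), IsWeakSol σc D Ω u w ∧ HasNormalDeriv Ω u c

end Serrin
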