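import Pool.Agent.Lib.MP_2fa8c7_an.PGrad

set_option autoImplicit false

/-!
# MP_2fa8c7_an: gluing of Lipschitz functions
-/

namespace Serrin

open MeasureTheory Set Filter Topology
open scoped ContDiff NNReal

/-- one-sided estimate along a segment -/
theorem pglue_segment {u : ℂ → ℝ} {L : ℝ≥0}
    (h : ∀ z : ℂ, ∀ ε > (0 : ℝ), ∀ᶠ w in 𝓝 z, |u w - u z| ≤ (L + ε) * ‖w - z‖) (z w : ℂ) :
    u w ≤ u z + L * ‖w - z‖ := by
  have hcont : Continuous u := by
    rw [continuous_iff_continuousAt]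
    intro x
    rw [Metric.continuousAt_iff]
    intro ε hε
    have h1 := h x 1 one_pos
    have h2 : ∀ᶠ y in 𝓝 x, (L + 1) * ‖y - x‖ < ε := by
      have : Tendsto (fun y : ℂ => ((L : ℝ) + 1) * ‖y - x‖) (𝓝 x) (𝓝 (((L : ℝ) + 1) * ‖x - x‖)) :=
        (Continuous.tendsto (by fun_prop) x)
      rw [sub_self, norm_zero, mul_zero] at this
      exact this.eventually_lt_const hε
    obtain ⟨δ, hδ, hb⟩ := Metric.eventually_nhds_iff.1 (h1.and h2)
    refine ⟨δ, hδ, fun {y} hy => ?_⟩
    rw [Real.dist_eq]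
    exact (hb hy).1.trans_lt (hb hy).2
  have hl : Continuous (fun t : ℝ => z + (t : ℂ) * (w - z)) := by fun_prop
  have key := image_le_of_liminf_slope_right_le_deriv_boundary (a := (0 : ℝ)) (b := 1)
    (f := fun t : ℝ => u (z + (t : ℂ) * (w - z)))
    (B := fun t : ℝ => u z + t * (L * ‖w - z‖)) (B' := fun _ => L * ‖w - z‖)
    (hcont.comp hl).continuousOn (by simp) (by fun_prop)
    (fun x _ => by
      have := ((hasDerivAt_id x).mul_const (L * ‖w - z‖)).const_add (u z)
      simpa using this.hasDerivWithinAt)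
    (by
      intro x _ r hr
      refine Eventually.frequently ?_
      -- choose `ε` with `(L + ε) ‖w - z‖ < r`
      obtain ⟨ε, hε, hεr⟩ : ∃ ε > (0 : ℝ), ((L : ℝ) + ε) * ‖w - z‖ < r := by
        have : Tendsto (fun ε : ℝ => ((L : ℝ) + ε) * ‖w - z‖) (𝓝[>] 0)
            (𝓝 (((L : ℝ) + 0) * ‖w - z‖)) :=
          ((Continuous.tendsto (by fun_prop) (0 : ℝ)).mono_left nhdsWithin_le_nhds)
        rw [add_zero] at this
        have h3 := (this.eventually_lt_const hr).and self_mem_nhdsWithin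
        obtain ⟨ε, h4, h5⟩ := h3.exists
        exact ⟨ε, h5, h4⟩
      have h1 := hl.continuousAt (x := x)
      have h2 := (h1.eventually (h (z + (x : ℂ) * (w - z)) ε hε)).filter_mono
        (nhdsWithin_le_nhds (s := Ioi x))
      filter_upwards [h2, self_mem_nhdsWithin] with y hy hyx
      have hyx' : 0 < y - x := sub_pos.2 hyx
      rw [slope_def_field, div_lt_iff₀ hyx']
      have e1 : z + (y : ℂ) * (w - z) - (z + (x : ℂ) * (w - z)) = ((y - x : ℝ) : ℂ) * (w - z) := by
        push_cast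
        ring
      rw [e1, norm_mul, Complex.norm_real, Real.norm_eq_abs, abs_of_pos hyx'] at hy
      have e2 := le_of_abs_le hy
      refine e2.trans_lt ?_
      have e3 := mul_lt_mul_of_pos_right hεr hyx'
      calc ((L : ℝ) + ε) * ((y - x) * ‖w - z‖) = ((L : ℝ) + ε) * ‖w - z‖ * (y - x) := by ring
        _ < r * (y - x) := e3)
  have := key (right_mem_Icc.2 zero_le_one)
  simpa using this

/-- A function with pointwise Lipschitz constant `≤ L` everywhere is `L`-Lipschitz. -/
theorem lipschitz_of_local {u : ℂ → ℝ} {L : ℝ≥0}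
    (h : ∀ z : ℂ, ∀ ε > (0 : ℝ), ∀ᶠ w in 𝓝 z, |u w - u z| ≤ (L + ε) * ‖w - z‖) :
    LipschitzWith L u := by
  refine LipschitzWith.of_dist_le_mul fun z w => ?_
  rw [Real.dist_eq, dist_eq_norm, abs_le]
  have h1 := pglue_segment h z w
  have h2 := pglue_segment h w z
  rw [norm_sub_rev] at h1
  constructor <;> linarith

/-- Gluing along a finite closed cover. -/
theorem lipschitz_glue {ι : Type*} [Finite ι] (A : ι → Set ℂ) (hA : ∀ i, IsClosed (A i))
    (hcov : ∀ z, ∃ i, z ∈ A i) (f : ι → ℂ → ℝ) (a : ι → ℂ → ℂ) {L : ℝ≥0}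
    (hf : ∀ i, ∀ z ∈ A i, HasFDerivAt (f i) (dotL (a i z)) z)
    (ha : ∀ i, ∀ z ∈ A i, ‖a i z‖ ≤ L)
    {u : ℂ → ℝ} (hu : ∀ i, ∀ z ∈ A i, u z = f i z) : LipschitzWith L u := by
  refine lipschitz_of_local fun z ε hε => ?_
  have h1 : ∀ i, ∀ᶠ w in 𝓝 z, w ∈ A i → |u w - u z| ≤ (L + ε) * ‖w - z‖ := by
    intro i
    by_cases hz : z ∈ A i
    · have h2 := (hasFDerivAt_iff_isLittleO.1 (hf i z hz)).bound hε
      filter_upwards [h2] with w hw hwA
      rw [hu i w hwA, hu i z hz]
      rw [Real.norm_eq_abs] at hw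
      have h3 : |dotL (a i z) (w - z)| ≤ L * ‖w - z‖ := by
        rw [← Real.norm_eq_abs]
        refine ((dotL (a i z)).le_opNorm _).trans ?_
        exact mul_le_mul_of_nonneg_right ((norm_dotL_le _).trans (ha i z hz)) (norm_nonneg _)
      have h4 : f i w - f i z = (f i w - f i z - dotL (a i z) (w - z)) + dotL (a i z) (w - z) := by
        ring
      rw [h4]
      refine (abs_add_le _ _).trans ?_
      linarith
    · filter_upwards [(hA i).isOpen_compl.mem_nhds hz] with w hw hwA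
      exact absurd hwA hw
  filter_upwards [eventually_all.2 h1] with w hw
  obtain ⟨i, hi⟩ := hcov w
  exact hw i hi

end Serrin
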