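import Pool.Agent.Lib.MP_2fa8c7_an.PGrad

set_option autoImplicit false

/-!
# MP_2fa8c7_an: mollification of a compactly supported Lipschitz function
-/

namespace Serrin

open MeasureTheory Set Filter Topology
open scoped ContDiff NNReal Convolution

theorem pm_norm (T : ℂ →L[ℝ] ℝ) : ‖(⟨T 1, T Complex.I⟩ : ℂ)‖ ≤ ‖T‖ := by
  set a : ℂ := ⟨T 1, T Complex.I⟩ with ha
  have h1 : T a = ‖a‖ ^ 2 := by
    have e : a = a.re • (1 : ℂ) + a.im • Complex.I := by
      apply Complex.ext <;> simp
    rw [e, map_add, map_smul, map_smul, ← e, ← Complex.normSq_eq_norm_sq, Complex.normSq_apply]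
    simp only [ha, smul_eq_mul]
  rcases eq_or_lt_of_le (norm_nonneg a) with h0 | h0
  · rw [← h0]
    exact norm_nonneg _
  · have h2 : ‖a‖ ^ 2 ≤ ‖T‖ * ‖a‖ := by
      rw [← h1]
      exact (le_abs_self _).trans (T.le_opNorm a)
    rw [pow_two] at h2
    exact le_of_mul_le_mul_right h2 h0

lemma norm_gr_le {u : ℂ → ℝ} {L : ℝ≥0} (hu : LipschitzWith L u) (z : ℂ) : ‖gr u z‖ ≤ L :=
  (pm_norm (fderiv ℝ u z)).trans (norm_fderiv_le_of_lipschitz ℝ hu)

lemma measurable_gr {u : ℂ → ℝ} (hu : Continuous u) : Measurable (gr u) := by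
  have e : gr u = fun z => ((fderiv ℝ u z 1 : ℝ) : ℂ) + ((fderiv ℝ u z Complex.I : ℝ) : ℂ) * Complex.I := by
    funext z
    apply Complex.ext <;> simp [gr]
  rw [e]
  exact (Complex.measurable_ofReal.comp (measurable_fderiv_apply_const ℝ u 1)).add
    ((Complex.measurable_ofReal.comp (measurable_fderiv_apply_const ℝ u Complex.I)).mul_const _)

/-- the derivative of the mollification -/
theorem pm_hasFDerivAt (φ : ContDiffBump (0 : ℂ)) {u : ℂ → ℝ} {L : ℝ≥0}
    (hu : LipschitzWith L u) (z : ℂ) :
    HasFDerivAt (φ.normed volume ⋆[ContinuousLinearMap.lsmul ℝ ℝ, volume] u)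
      ((φ.normed volume ⋆[ContinuousLinearMap.lsmul ℝ ℝ, volume] (fderiv ℝ u)) z) z := by
  have hφc : Continuous (φ.normed (volume : Measure ℂ)) := φ.continuous_normed
  have hφs : HasCompactSupport (φ.normed (volume : Measure ℂ)) := φ.hasCompactSupport_normed
  have hφ0 : ∀ a, 0 ≤ φ.normed (volume : Measure ℂ) a := fun a => φ.nonneg_normed a
  have key := hasFDerivAt_integral_of_dominated_loc_of_lip (𝕜 := ℝ) (μ := (volume : Measure ℂ))
    (F := fun (x a : ℂ) => φ.normed volume a • u (x - a))
    (F' := fun a : ℂ => φ.normed volume a • fderiv ℝ u (z - a)) (x₀ := z) (s := univ)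
    (bound := fun a => φ.normed volume a * L) univ_mem
    (Eventually.of_forall fun x =>
      (hφc.smul (hu.continuous.comp (continuous_const.sub continuous_id))).aestronglyMeasurable)
    ((hφc.smul (hu.continuous.comp (continuous_const.sub continuous_id))).integrable_of_hasCompactSupport
      hφs.smul_right)
    (by
      refine (hφc.aestronglyMeasurable).smul ?_
      exact ((measurable_fderiv ℝ u).comp
        (measurable_const.sub measurable_id)).aestronglyMeasurable)
    (Eventually.of_forall fun a => by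
      refine LipschitzOnWith.of_dist_le_mul fun x _ y _ => ?_
      rw [Real.coe_nnabs, abs_of_nonneg (mul_nonneg (hφ0 a) (NNReal.coe_nonneg L))]
      rw [dist_smul₀, Real.norm_eq_abs, abs_of_nonneg (hφ0 a), mul_assoc]
      refine mul_le_mul_of_nonneg_left ?_ (hφ0 a)
      have := hu.dist_le_mul (x - a) (y - a)
      rwa [dist_sub_right] at this)
    (φ.integrable_normed.mul_const _)
    (by
      have h1 : ∀ᵐ a : ℂ, DifferentiableAt ℝ u (z - a) :=
        (Measure.measurePreserving_sub_left volume z).quasiMeasurePreserving.ae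
          hu.ae_differentiableAt
      filter_upwards [h1] with a ha
      have h2 := ha.hasFDerivAt.comp z ((hasFDerivAt_id (𝕜 := ℝ) z).sub_const a)
      exact h2.const_smul (φ.normed volume a))
  exact key.2

/-- compactly supported Lipschitz functions are in `H¹₀` -/
theorem isH10_of_compact {Ω : Set ℂ} (hΩ : IsOpen Ω) {u : ℂ → ℝ} {L : ℝ≥0}
    (hu : LipschitzWith L u) (hc : HasCompactSupport u) (hs : tsupport u ⊆ Ω) :
    IsH10 Ω u (gr u) := by
  obtain ⟨δ, hδ, hδΩ⟩ := hc.isCompact.exists_cthickening_subset_open hΩ hs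
  set K : Set ℂ := Metric.cthickening δ (tsupport u) with hK
  have hKc : IsCompact K := hc.isCompact.cthickening
  have huK : tsupport u ⊆ K := Metric.self_subset_cthickening _
  have hli : LocallyIntegrable u (volume : Measure ℂ) := hu.continuous.locallyIntegrable
  -- bumps
  have hr : ∀ k : ℕ, 0 < δ / ((k : ℝ) + 1) := fun k => by positivity
  let φ : ℕ → ContDiffBump (0 : ℂ) := fun k =>
    ⟨δ / ((k : ℝ) + 1) / 2, δ / ((k : ℝ) + 1), half_pos (hr k), half_lt_self (hr k)⟩
  have hφr : ∀ k, (φ k).rOut ≤ δ := fun k => by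
    show δ / ((k : ℝ) + 1) ≤ δ
    exact div_le_self hδ.le (by linarith [Nat.cast_nonneg (α := ℝ) k])
  have hφ0 : Tendsto (fun k => (φ k).rOut) atTop (𝓝 0) := by
    show Tendsto (fun k : ℕ => δ / ((k : ℝ) + 1)) atTop (𝓝 0)
    have := (tendsto_one_div_add_atTop_nhds_zero_nat (𝕜 := ℝ)).const_mul δ
    rw [mul_zero] at this
    refine this.congr fun k => ?_
    ring
  set v : ℕ → ℂ → ℝ := fun k =>
    ((φ k).normed volume ⋆[ContinuousLinearMap.lsmul ℝ ℝ, volume] u) with hv
  have hvs : ∀ k, ContDiff ℝ ∞ (v k) := fun k =>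
    (φ k).hasCompactSupport_normed.contDiff_convolution_left _ (φ k).contDiff_normed hli
  have hvK : ∀ k, tsupport (v k) ⊆ K := by
    intro k
    refine closure_minimal ?_ hKc.isClosed
    refine (support_convolution_subset _).trans ?_
    rintro _ ⟨a, ha, b, hb, rfl⟩
    rw [(φ k).support_normed_eq, Metric.mem_ball, dist_zero_right] at ha
    refine Metric.mem_cthickening_of_dist_le (a + b) b δ (tsupport u) (subset_tsupport _ hb) ?_
    rw [dist_eq_norm, add_sub_cancel_right]
    exact ha.le.trans (hφr k)
  have hvc : ∀ k, HasCompactSupport (v k) := fun k =>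
    hKc.of_isClosed_subset (isClosed_tsupport _) (hvK k)
  have hgrK : ∀ (w : ℂ → ℝ), tsupport w ⊆ K → ∀ z ∉ K, gr w z = 0 ∧ w z = 0 := by
    intro w hw z hz
    have hz' : z ∉ tsupport w := fun h => hz (hw h)
    have h1 : fderiv ℝ w z = 0 := by
      by_contra hne
      exact hz' (support_fderiv_subset ℝ (f := w) hne)
    refine ⟨?_, image_eq_zero_of_notMem_tsupport hz'⟩
    simp only [gr, h1, zero_apply]
    rfl
  have hdv : ∀ k z, fderiv ℝ (v k) z =
      ((φ k).normed volume ⋆[ContinuousLinearMap.lsmul ℝ ℝ, volume] (fderiv ℝ u)) z :=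
    fun k z => (pm_hasFDerivAt (φ k) hu z).fderiv
  have hnv : ∀ k z, ‖fderiv ℝ (v k) z‖ ≤ L := by
    intro k z
    rw [hdv, convolution_def]
    have h1 := norm_integral_le_of_norm_le (μ := (volume : Measure ℂ))
      (f := fun t => (ContinuousLinearMap.lsmul ℝ ℝ) ((φ k).normed volume t) (fderiv ℝ u (z - t)))
      (g := fun t => (φ k).normed volume t * L) ((φ k).integrable_normed.mul_const _)
      (Eventually.of_forall fun t => by
        rw [ContinuousLinearMap.lsmul_apply, norm_smul, Real.norm_eq_abs,
          abs_of_nonneg ((φ k).nonneg_normed t)]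
        exact mul_le_mul_of_nonneg_left (norm_fderiv_le_of_lipschitz ℝ hu)
          ((φ k).nonneg_normed t))
    rwa [integral_mul_const, (φ k).integral_normed, one_mul] at h1
  have hKm : MeasurableSet K := hKc.measurableSet
  have hKf : volume K ≠ ⊤ := hKc.measure_lt_top.ne
  refine ⟨hu.continuous.memLp_of_hasCompactSupport hc, ?_, v,
    fun k => ⟨hvs k, hvc k, (hvK k).trans hδΩ⟩, ?_, ?_⟩
  · refine MemLp.mono' (g := K.indicator fun _ => (L : ℝ))
      (memLp_indicator_const 2 hKm (L : ℝ) (Or.inr hKf))
      (measurable_gr hu.continuous).aestronglyMeasurable (Eventually.of_forall fun z => ?_)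
    by_cases hz : z ∈ K
    · rw [indicator_of_mem hz]
      exact norm_gr_le hu z
    · rw [indicator_of_notMem hz, (hgrK u huK z hz).1, norm_zero]
  · -- convergence of the functions
    have h0 : (0 : ℝ) = ∫ _z : ℂ, (0 : ℝ) := by simp
    rw [h0]
    refine tendsto_integral_of_dominated_convergence (K.indicator fun _ => ((L : ℝ) * δ) ^ 2)
      (fun k => (((hvs k).continuous.sub hu.continuous).pow 2).aestronglyMeasurable)
      ((integrable_indicator_iff hKm).2 (integrableOn_const hKf)) ?_ ?_
    · intro k
      refine Eventually.of_forall fun z => ?_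
      by_cases hz : z ∈ K
      · rw [indicator_of_mem hz]
        have h1 := (φ k).dist_normed_convolution_le (μ := (volume : Measure ℂ)) (g := u)
          (x₀ := z) (ε := L * δ) hu.continuous.aestronglyMeasurable (fun x hx => by
            refine (hu.dist_le_mul x z).trans ?_
            exact mul_le_mul_of_nonneg_left ((Metric.mem_ball.1 hx).le.trans (hφr k)) L.2)
        rw [Real.dist_eq] at h1
        rw [Real.norm_eq_abs, abs_pow]
        exact pow_le_pow_left₀ (abs_nonneg _) h1 2
      · rw [indicator_of_notMem hz, (hgrK u huK z hz).2, (hgrK (v k) (hvK k) z hz).2]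
        simp
    · refine Eventually.of_forall fun z => ?_
      have h1 := ContDiffBump.convolution_tendsto_right_of_continuous (μ := (volume : Measure ℂ))
        hφ0 hu.continuous z
      have h2 := (h1.sub_const (u z)).pow 2
      simpa using h2
  · -- convergence of the gradients
    have h0 : (0 : ℝ) = ∫ _z : ℂ, (0 : ℝ) := by simp
    rw [h0]
    refine tendsto_integral_of_dominated_convergence (K.indicator fun _ => (2 * (L : ℝ)) ^ 2)
      (fun k => ?_)
      ((integrable_indicator_iff hKm).2 (integrableOn_const hKf)) ?_ ?_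
    · exact (((measurable_gr (hvs k).continuous).sub
        (measurable_gr hu.continuous)).norm.pow_const 2).aestronglyMeasurable
    · intro k
      refine Eventually.of_forall fun z => ?_
      by_cases hz : z ∈ K
      · rw [indicator_of_mem hz, Real.norm_eq_abs, abs_pow]
        refine pow_le_pow_left₀ (abs_nonneg _) ?_ 2
        rw [abs_norm]
        refine (norm_sub_le _ _).trans ?_
        have h1 : ‖gr (v k) z‖ ≤ L := (pm_norm _).trans (hnv k z)
        have h2 := norm_gr_le hu z
        linarith
      · rw [indicator_of_notMem hz, (hgrK u huK z hz).1, (hgrK (v k) (hvK k) z hz).1]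
        simp
    · have hlg : LocallyIntegrable (fderiv ℝ u) (volume : Measure ℂ) := by
        intro x
        refine ⟨Metric.ball x 1, Metric.ball_mem_nhds x one_pos, ?_⟩
        refine Measure.integrableOn_of_bounded (M := (L : ℝ)) measure_ball_lt_top.ne
          (measurable_fderiv ℝ u).aestronglyMeasurable
          (Eventually.of_forall fun z => norm_fderiv_le_of_lipschitz ℝ hu)
      have hae := ContDiffBump.ae_convolution_tendsto_right_of_locallyIntegrable
        (μ := (volume : Measure ℂ)) (K := 2) hφ0 (Eventually.of_forall fun k => by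
          show δ / ((k : ℝ) + 1) ≤ 2 * (δ / ((k : ℝ) + 1) / 2)
          linarith) hlg
      filter_upwards [hae] with z hz
      have h1 : Tendsto (fun k => fderiv ℝ (v k) z) atTop (𝓝 (fderiv ℝ u z)) := by
        simp only [hdv]
        exact hz
      have h2 : Tendsto (fun k => ‖fderiv ℝ (v k) z - fderiv ℝ u z‖ ^ 2) atTop (𝓝 0) := by
        have := (h1.sub_const (fderiv ℝ u z)).norm.pow 2
        simpa using this
      refine squeeze_zero (fun k => sq_nonneg _) (fun k => ?_) h2
      refine pow_le_pow_left₀ (norm_nonneg _) ?_ 2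
      have e : gr (v k) z - gr u z = (⟨(fderiv ℝ (v k) z - fderiv ℝ u z) 1,
          (fderiv ℝ (v k) z - fderiv ℝ u z) Complex.I⟩ : ℂ) := by
        apply Complex.ext <;> simp [gr]
      rw [e]
      exact pm_norm _

end Serrin
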