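import Pool.Agent.Lib.MP_2fa8c7_an.PCut
import Pool.Agent.Lib.MP_2fa8c7_an.PMoll

set_option autoImplicit false

/-!
# MP_2fa8c7_an: Lipschitz functions vanishing outside `Ω` are in `H¹₀(Ω)`
-/

namespace Serrin

open MeasureTheory Set Filter Topology
open scoped ContDiff NNReal

/-- `‖a - c‖² ≤ 2 ‖a - b‖² + 2 ‖b - c‖²` integrated -/
theorem ph_tri {E : Type*} [NormedAddCommGroup E] {a b c : ℂ → E} (ha : MemLp a 2 volume)
    (hb : MemLp b 2 volume) (hc : MemLp c 2 volume) :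
    ∫ z, ‖a z - c z‖ ^ 2 ≤ 2 * (∫ z, ‖a z - b z‖ ^ 2) + 2 * ∫ z, ‖b z - c z‖ ^ 2 := by
  have i1 : Integrable (fun z => ‖a z - b z‖ ^ 2) := (ha.sub hb).integrable_norm_pow (by norm_num)
  have i2 : Integrable (fun z => ‖b z - c z‖ ^ 2) := (hb.sub hc).integrable_norm_pow (by norm_num)
  have i3 : Integrable (fun z => ‖a z - c z‖ ^ 2) := (ha.sub hc).integrable_norm_pow (by norm_num)
  rw [← integral_const_mul, ← integral_const_mul, ← integral_add (i1.const_mul _) (i2.const_mul _)]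
  refine integral_mono i3 ((i1.const_mul _).add (i2.const_mul _)) fun z => ?_
  show ‖a z - c z‖ ^ 2 ≤ 2 * ‖a z - b z‖ ^ 2 + 2 * ‖b z - c z‖ ^ 2
  have h1 : ‖a z - c z‖ ≤ ‖a z - b z‖ + ‖b z - c z‖ := by
    have : a z - c z = (a z - b z) + (b z - c z) := by abel
    rw [this]
    exact norm_add_le _ _
  nlinarith [norm_nonneg (a z - c z), norm_nonneg (a z - b z), norm_nonneg (b z - c z),
    sq_nonneg (‖a z - b z‖ - ‖b z - c z‖)]

theorem ph_test_memLp {Ω : Set ℂ} {v : ℂ → ℝ} (hv : IsTest Ω v) :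
    MemLp v 2 volume ∧ MemLp (gr v) 2 volume := by
  refine ⟨hv.1.continuous.memLp_of_hasCompactSupport hv.2.1, ?_⟩
  have hv1 : ContDiff ℝ 1 v := hv.1.of_le (by simp)
  obtain ⟨D, hD⟩ := hv1.lipschitzWith_of_hasCompactSupport hv.2.1 one_ne_zero
  exact (isH10_of_compact isOpen_univ hD hv.2.1 (subset_univ _)).2.1

/-- `H¹₀` is closed -/
theorem isH10_of_approx {Ω : Set ℂ} {u : ℂ → ℝ} {w : ℂ → ℂ} (hu : MemLp u 2 volume)
    (hw : MemLp w 2 volume)
    (h : ∀ ε > (0 : ℝ), ∃ (v : ℂ → ℝ) (k : ℂ → ℂ), IsH10 Ω v k ∧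
      ∫ z, (v z - u z) ^ 2 ≤ ε ∧ ∫ z, ‖k z - w z‖ ^ 2 ≤ ε) : IsH10 Ω u w := by
  have key : ∀ n : ℕ, ∃ φ : ℂ → ℝ, IsTest Ω φ ∧
      ∫ z, (φ z - u z) ^ 2 ≤ 4 * (1 / ((n : ℝ) + 1)) ∧
      ∫ z, ‖gr φ z - w z‖ ^ 2 ≤ 4 * (1 / ((n : ℝ) + 1)) := by
    intro n
    have hpos : 0 < 1 / ((n : ℝ) + 1) := by positivity
    obtain ⟨v, k, hvk, h1, h2⟩ := h _ hpos
    obtain ⟨hv, hk, s, hs, ht1, ht2⟩ := hvk
    obtain ⟨m, hm1, hm2⟩ := ((ht1.eventually_lt_const hpos).and
      (ht2.eventually_lt_const hpos)).exists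
    obtain ⟨hs1, hs2⟩ := ph_test_memLp (hs m)
    refine ⟨s m, hs m, ?_, ?_⟩
    · have h3 := ph_tri hs1 hv hu
      simp only [Real.norm_eq_abs, sq_abs] at h3
      linarith
    · have h3 := ph_tri hs2 hk hw
      linarith
  choose φ hφ h1 h2 using key
  have ht : Tendsto (fun n : ℕ => 4 * (1 / ((n : ℝ) + 1))) atTop (𝓝 0) := by
    have := (tendsto_one_div_add_atTop_nhds_zero_nat (𝕜 := ℝ)).const_mul 4
    rwa [mul_zero] at this
  refine ⟨hu, hw, φ, hφ, ?_, ?_⟩
  · exact squeeze_zero (fun n => integral_nonneg fun z => sq_nonneg _) h1 ht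
  · exact squeeze_zero (fun n => integral_nonneg fun z => sq_nonneg _) h2 ht

theorem ph_support {u : ℂ → ℝ} {z : ℂ} (hz : z ∉ tsupport u) : gr u z = 0 := by
  have h1 : fderiv ℝ u z = 0 := by
    by_contra hne
    exact hz (support_fderiv_subset ℝ (f := u) hne)
  simp only [gr, h1, zero_apply]
  rfl

theorem isH10_of_lipschitz {Ω : Set ℂ} (hΩ : IsOpen Ω) (hb : Bornology.IsBounded Ω)
    (hn : volume (frontier Ω) = 0) {u : ℂ → ℝ}
    {L : ℝ≥0} (hu : LipschitzWith L u) (h0 : ∀ z ∉ Ω, u z = 0) : IsH10 Ω u (gr u) := by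
  have hK : IsCompact (closure Ω) := hb.isCompact_closure
  have hts : tsupport u ⊆ closure Ω := closure_mono fun z hz => by
    by_contra hc
    exact hz (h0 z hc)
  have huc : HasCompactSupport u := hK.of_isClosed_subset (isClosed_tsupport _) hts
  have hmu : MemLp u 2 volume := hu.continuous.memLp_of_hasCompactSupport huc
  have hmg : MemLp (gr u) 2 volume :=
    (isH10_of_compact isOpen_univ hu huc (subset_univ _)).2.1
  -- a bound for `u`
  obtain ⟨M, hM⟩ := huc.exists_bound_of_continuous hu.continuous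
  have hM0 : 0 ≤ M := (norm_nonneg _).trans (hM 0)
  refine isH10_of_approx hmu hmg fun ε hε => ?_
  set B : ℝ := max (4 * M ^ 2) (16 * (L : ℝ) ^ 2) + 1 with hB
  have hB1 : 4 * M ^ 2 ≤ B := (le_max_left _ _).trans (by rw [hB]; linarith)
  have hB2 : 16 * (L : ℝ) ^ 2 ≤ B := (le_max_right _ _).trans (by rw [hB]; linarith)
  have hB0 : 0 < B := by
    have : 0 ≤ max (4 * M ^ 2) (16 * (L : ℝ) ^ 2) := le_max_of_le_left (by positivity)
    rw [hB]; linarith
  obtain ⟨v, S, hvL, hvc, hvΩ, hSc, hSm, hvu, hvle⟩ :=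
    exists_cutoff hΩ hb hn hu h0 (div_pos hε hB0)
  have hSf : volume S ≠ ⊤ := (hSm.trans_lt ENNReal.ofReal_lt_top).ne
  have hSr : volume.real S ≤ ε / B := by
    rw [Measure.real]
    exact ENNReal.toReal_le_of_le_ofReal (div_nonneg hε.le hB0.le) hSm
  -- the comparison principle
  have hcomp : ∀ g : ℂ → ℝ, (∀ z, g z ≤ S.indicator (fun _ => B) z) → (∀ z, 0 ≤ g z) →
      ∫ z, g z ≤ ε := by
    intro g hg hg0
    have h1 : ∫ z, g z ≤ ∫ z, S.indicator (fun _ => B) z :=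
      integral_mono_of_nonneg (Eventually.of_forall hg0)
        ((integrable_indicator_iff hSc.measurableSet).2 (integrableOn_const hSf))
        (Eventually.of_forall hg)
    rw [integral_indicator hSc.measurableSet, setIntegral_const, smul_eq_mul] at h1
    refine h1.trans ?_
    calc volume.real S * B ≤ ε / B * B := mul_le_mul_of_nonneg_right hSr hB0.le
      _ = ε := div_mul_cancel₀ _ hB0.ne'
  refine ⟨v, gr v, isH10_of_compact hΩ hvL hvc hvΩ, hcomp _ (fun z => ?_) fun z => sq_nonneg _,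
    hcomp _ (fun z => ?_) fun z => sq_nonneg _⟩
  · by_cases hz : z ∈ S
    · rw [indicator_of_mem hz]
      refine le_trans ?_ hB1
      have h1 : |u z| ≤ M := hM z
      have h2 : |v z - u z| ≤ 2 * M := (abs_sub _ _).trans (by linarith [hvle z])
      calc (v z - u z) ^ 2 = |v z - u z| ^ 2 := (sq_abs _).symm
        _ ≤ (2 * M) ^ 2 := pow_le_pow_left₀ (abs_nonneg _) h2 2
        _ = 4 * M ^ 2 := by ring
    · rw [indicator_of_notMem hz, hvu z hz]
      simp
  · by_cases hz : z ∈ S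
    · rw [indicator_of_mem hz]
      refine le_trans ?_ hB2
      have h1 : ‖gr v z‖ ≤ 3 * L := by
        have := norm_gr_le hvL z
        push_cast at this
        exact this
      have h2 : ‖gr v z - gr u z‖ ≤ 4 * L :=
        (norm_sub_le _ _).trans (by linarith [norm_gr_le hu z])
      calc ‖gr v z - gr u z‖ ^ 2 ≤ (4 * (L : ℝ)) ^ 2 := pow_le_pow_left₀ (norm_nonneg _) h2 2
        _ = 16 * (L : ℝ) ^ 2 := by ring
    · rw [indicator_of_notMem hz]
      have h1 : v =ᶠ[𝓝 z] u := by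
        filter_upwards [hSc.isOpen_compl.mem_nhds hz] with y hy using hvu y hy
      have h2 : gr v z = gr u z := by simp only [gr, h1.fderiv_eq]
      rw [h2]
      simp

end Serrin
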