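import Pool.Agent.Lib.MP_2fa8c7_an.PGrad

set_option autoImplicit false

/-!
# MP_2fa8c7_an: integration by parts
-/

namespace Serrin

open MeasureTheory Set Filter Topology
open scoped ContDiff NNReal

/-- integration by parts: `∫ (∂_e f) g = - ∫ f (∂_e g)` -/
theorem pibp_aux {f g : ℂ → ℝ} {L : ℝ≥0} (hf : LipschitzWith L f)
    (hg : ContDiff ℝ 1 g) (hc : HasCompactSupport g) (e : ℂ) :
    ∫ z, fderiv ℝ f z e * g z = -∫ z, f z * fderiv ℝ g z e := by
  obtain ⟨D, hD⟩ := hg.lipschitzWith_of_hasCompactSupport hc one_ne_zero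
  have h1 := LipschitzWith.integral_lineDeriv_mul_eq (μ := (volume : Measure ℂ)) hf hD hc e
  have h2 : ∫ z, fderiv ℝ f z e * g z = ∫ z, lineDeriv ℝ f z e * g z := by
    refine integral_congr_ae ?_
    filter_upwards [hf.ae_differentiableAt] with z hz
    rw [hz.lineDeriv_eq_fderiv]
  rw [h2, h1, ← integral_neg]
  refine integral_congr_ae (Eventually.of_forall fun z => ?_)
  have hd : DifferentiableAt ℝ g z := (hg.differentiable one_ne_zero) z
  simp only [hd.lineDeriv_eq_fderiv, map_neg]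
  ring

theorem pibp_int {f g : ℂ → ℝ} {L : ℝ≥0} (hf : LipschitzWith L f)
    (hg : Continuous g) (hc : HasCompactSupport g) (e : ℂ) :
    Integrable (fun z => fderiv ℝ f z e * g z) := by
  refine (hg.integrable_of_hasCompactSupport hc).bdd_mul (c := L * ‖e‖)
    (measurable_fderiv_apply_const ℝ f e).aestronglyMeasurable
    (Eventually.of_forall fun z => ?_)
  exact (ContinuousLinearMap.le_opNorm _ _).trans
    (mul_le_mul_of_nonneg_right (norm_fderiv_le_of_lipschitz ℝ hf) (norm_nonneg _))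

/-- the rotated gradient of a Lipschitz function is divergence free -/
theorem integral_rot_gr {W v : ℂ → ℝ} {L : ℝ≥0} (hW : LipschitzWith L W)
    (hv : ContDiff ℝ ∞ v) (hc : HasCompactSupport v) :
    ∫ z, dot (-Complex.I * gr W z) (gr v z) = 0 := by
  have hv1 : ∀ e : ℂ, ContDiff ℝ 1 (fun z => fderiv ℝ v z e) := fun e =>
    (hv.fderiv_right (m := 1) (by norm_cast)).clm_apply contDiff_const
  have hc1 : ∀ e : ℂ, HasCompactSupport (fun z => fderiv ℝ v z e) := fun e =>
    hc.fderiv_apply (𝕜 := ℝ) e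
  have e1 : ∀ z, dot (-Complex.I * gr W z) (gr v z) =
      fderiv ℝ W z Complex.I * fderiv ℝ v z 1 - fderiv ℝ W z 1 * fderiv ℝ v z Complex.I := by
    intro z
    simp only [dot, gr, Complex.mul_re, Complex.mul_im, Complex.neg_re, Complex.neg_im,
      Complex.I_re, Complex.I_im]
    ring
  simp only [e1]
  rw [integral_sub (pibp_int hW (hv1 1).continuous (hc1 1) _)
    (pibp_int hW (hv1 Complex.I).continuous (hc1 Complex.I) _),
    pibp_aux hW (hv1 1) (hc1 1), pibp_aux hW (hv1 Complex.I) (hc1 Complex.I)]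
  have hd : ∀ (e e' z : ℂ), fderiv ℝ (fun y => fderiv ℝ v y e) z e' =
      fderiv ℝ (fderiv ℝ v) z e' e := by
    intro e e' z
    have h1 : DifferentiableAt ℝ (fderiv ℝ v) z :=
      ((hv.fderiv_right (m := 1) (by norm_cast)).differentiable one_ne_zero) z
    rw [fderiv_clm_apply h1 (differentiableAt_const e)]
    simp
  have hsymm : ∀ z : ℂ, fderiv ℝ (fderiv ℝ v) z Complex.I 1 =
      fderiv ℝ (fderiv ℝ v) z 1 Complex.I := by
    intro z
    have h2 : IsSymmSndFDerivAt ℝ v z :=
      (hv.contDiffAt (x := z)).isSymmSndFDerivAt (by rw [minSmoothness_of_isRCLikeNormedField]; exact ENat.LEInfty.out)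
    exact h2 Complex.I 1
  simp only [hd, hsymm]
  ring

/-- `-div (-z/2) = 1` -/
theorem integral_id_gr {v : ℂ → ℝ} (hv : ContDiff ℝ ∞ v) (hc : HasCompactSupport v) :
    ∫ z, dot (-z / 2) (gr v z) = ∫ z, v z := by
  have hv1 : ContDiff ℝ 1 v := hv.of_le (by simp)
  have hre : LipschitzWith ‖Complex.reCLM‖₊ (fun z : ℂ => z.re) := Complex.reCLM.lipschitz
  have him : LipschitzWith ‖Complex.imCLM‖₊ (fun z : ℂ => z.im) := Complex.imCLM.lipschitz
  have h1 := pibp_aux hre hv1 hc 1
  have h2 := pibp_aux him hv1 hc Complex.I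
  have d1 : ∀ z : ℂ, fderiv ℝ (fun z : ℂ => z.re) z 1 = 1 := by
    intro z
    have : fderiv ℝ (fun z : ℂ => z.re) z = Complex.reCLM := Complex.reCLM.fderiv
    rw [this]; simp
  have d2 : ∀ z : ℂ, fderiv ℝ (fun z : ℂ => z.im) z Complex.I = 1 := by
    intro z
    have : fderiv ℝ (fun z : ℂ => z.im) z = Complex.imCLM := Complex.imCLM.fderiv
    rw [this]; simp
  simp only [d1, d2, one_mul] at h1 h2
  have e1 : ∀ z : ℂ, dot (-z / 2) (gr v z) =
      (-1 / 2) * (z.re * fderiv ℝ v z 1) + (-1 / 2) * (z.im * fderiv ℝ v z Complex.I) := by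
    intro z
    have a1 : (-z / 2).re = -z.re / 2 := by
      have : (-z / 2 : ℂ) = ((-1 / 2 : ℝ) : ℂ) * z := by push_cast; ring
      rw [this, Complex.re_ofReal_mul]; ring
    have a2 : (-z / 2).im = -z.im / 2 := by
      have : (-z / 2 : ℂ) = ((-1 / 2 : ℝ) : ℂ) * z := by push_cast; ring
      rw [this, Complex.im_ofReal_mul]; ring
    simp only [dot, gr, a1, a2]
    ring
  have c1 : ∀ e : ℂ, Continuous (fun z => fderiv ℝ v z e) := fun e =>
    ((hv.fderiv_right (m := 1) (by norm_cast)).clm_apply contDiff_const).continuous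
  have i1 : Integrable (fun z : ℂ => z.re * fderiv ℝ v z 1) :=
    (Complex.continuous_re.mul (c1 1)).integrable_of_hasCompactSupport
      ((hc.fderiv_apply (𝕜 := ℝ) 1).mul_left)
  have i2 : Integrable (fun z : ℂ => z.im * fderiv ℝ v z Complex.I) :=
    (Complex.continuous_im.mul (c1 Complex.I)).integrable_of_hasCompactSupport
      ((hc.fderiv_apply (𝕜 := ℝ) Complex.I).mul_left)
  simp only [e1]
  rw [integral_add (i1.const_mul _) (i2.const_mul _), integral_const_mul, integral_const_mul]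
  linarith

/-- locally Lipschitz version: if `W` is locally Lipschitz near every point of `Ω` and `v` is a
test function of `Ω` -/
theorem integral_rot_gr_of_local {Ω : Set ℂ} {W v : ℂ → ℝ} {L : ℝ≥0} {W' : ℂ → ℝ}
    (hW' : LipschitzWith L W') (hv : IsTest Ω v)
    (heq : ∀ z ∈ tsupport v, W' =ᶠ[𝓝 z] W) :
    ∫ z, dot (-Complex.I * gr W z) (gr v z) = 0 := by
  rw [← integral_rot_gr hW' hv.1 hv.2.1]
  refine integral_congr_ae (Eventually.of_forall fun z => ?_)
  by_cases hz : z ∈ tsupport v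
  · have h1 : gr W z = gr W' z := by
      simp only [gr, (heq z hz).fderiv_eq]
    simp only [h1]
  · have h1 : fderiv ℝ v z = 0 := by
      by_contra hne
      exact hz (support_fderiv_subset ℝ (f := v) hne)
    simp [dot, gr, h1]

end Serrin
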