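import Pool.Agent.Lib.MP_2fa8c7_an.PGlue
import Pool.Agent.Lib.MP_2fa8c7_an.PH10
import Pool.Agent.Lib.MP_2fa8c7_an.PIbp

set_option autoImplicit false

/-!
# MP_2fa8c7_an: the explicit weak solution
-/

namespace Serrin

open MeasureTheory Set Filter Topology Metric
open scoped ContDiff NNReal

/-- The hypotheses of the PDE part: `D` is the unit disc, `f` is holomorphic near `closure Ω`. -/
structure Pde where
  σc : ℝ
  hσ : 1 < σc
  Ω : Set ℂ
  Ω' : Set ℂ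
  dom : IsSmoothDomain Ω
  null : volume (frontier Ω) = 0
  sub : closedBall (0 : ℂ) 1 ⊆ Ω
  open' : IsOpen Ω'
  sub' : closure Ω ⊆ Ω'
  f : ℂ → ℂ
  hf : DifferentiableOn ℂ f Ω'
  f_conj : ∀ z ∈ closedBall (0 : ℂ) 1, f ((starRingEnd ℂ) z) = (starRingEnd ℂ) (f z)
  C : ℝ

namespace Pde

variable (S : Pde)

/-- `μ = (σ - 1)/(σ + 1)` -/
noncomputable def μ : ℝ := (S.σc - 1) / (S.σc + 1)

/-- the solution outside `D` -/
noncomputable def uo (z : ℂ) : ℝ := -(‖z‖ ^ 2 / 4) + (S.f z - S.μ * S.f z⁻¹).re + S.C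

/-- the solution inside `D` -/
noncomputable def ui (z : ℂ) : ℝ :=
  -(‖z‖ ^ 2 / (4 * S.σc)) + (1 - S.μ) * (S.f z).re + (S.C - 1 / 4 + 1 / (4 * S.σc))

open Classical in
/-- the solution -/
noncomputable def u (z : ℂ) : ℝ :=
  if z ∈ closedBall (0 : ℂ) 1 then S.ui z else if z ∈ S.Ω then S.uo z else 0

/-- the gradient of `uo` -/
noncomputable def go (z : ℂ) : ℂ :=
  -z / 2 + (starRingEnd ℂ) (deriv S.f z + S.μ * z⁻¹ ^ 2 * deriv S.f z⁻¹)

/-- the gradient of `ui` -/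
noncomputable def gi (z : ℂ) : ℂ :=
  -z / (2 * S.σc) + (1 - S.μ) * (starRingEnd ℂ) (deriv S.f z)

/-- the open set on which `uo` is smooth -/
def V : Set ℂ := {z | z ∈ S.Ω' ∧ z ≠ 0 ∧ z⁻¹ ∈ S.Ω'}

theorem isOpen_V : IsOpen S.V := by
  have h : IsOpen ({0}ᶜ ∩ (fun z : ℂ => z⁻¹) ⁻¹' S.Ω') :=
    continuousOn_inv₀.isOpen_inter_preimage isOpen_compl_singleton S.open'
  have h2 : S.V = S.Ω' ∩ ({0}ᶜ ∩ (fun z : ℂ => z⁻¹) ⁻¹' S.Ω') := by
    ext z
    simp only [V, mem_ofPred_eq, mem_inter_iff, mem_compl_iff, mem_singleton_iff, mem_preimage,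
      ne_eq]
  rw [h2]
  exact S.open'.inter h

theorem mem_V {z : ℂ} (hz : z ∈ closure S.Ω) (h1 : 1 ≤ ‖z‖) : z ∈ S.V := by
  refine ⟨S.sub' hz, ?_, ?_⟩
  · intro h
    rw [h, norm_zero] at h1
    linarith
  · apply S.sub'
    apply subset_closure
    apply S.sub
    rw [mem_closedBall_zero_iff, norm_inv]
    exact inv_le_one_of_one_le₀ h1

theorem PSol1_dotL_add (a b : ℂ) : dotL (a + b) = dotL a + dotL b := by
  ext v
  simp [dotL]
  all_goals ring

theorem PSol1_dotL_smul (c : ℝ) (b : ℂ) : dotL (c * b) = c • dotL b := by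
  ext v
  simp [dotL]
  all_goals ring

theorem hasFDerivAt_uo {z : ℂ} (hz : z ∈ S.V) : HasFDerivAt S.uo (dotL (S.go z)) z := by
  obtain ⟨h1, h0, h2⟩ := hz
  have hf1 : HasDerivAt S.f (deriv S.f z) z :=
    ((S.hf z h1).differentiableAt (S.open'.mem_nhds h1)).hasDerivAt
  have hf2 : HasDerivAt S.f (deriv S.f z⁻¹) z⁻¹ :=
    ((S.hf _ h2).differentiableAt (S.open'.mem_nhds h2)).hasDerivAt
  have hf3 : HasDerivAt (fun w => S.f w - S.μ * S.f w⁻¹)
      (deriv S.f z - S.μ * (deriv S.f z⁻¹ * (-(z ^ 2)⁻¹))) z :=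
    hf1.sub ((hf2.comp z (hasDerivAt_inv h0)).const_mul _)
  have h3 := (((hasFDerivAt_normSq z).const_mul (-(1 / 4 : ℝ))).add (hasFDerivAt_re hf3)).add_const
    S.C
  refine (h3.congr_of_eventuallyEq (Eventually.of_forall fun w => ?_)).congr_fderiv ?_
  · simp only [uo, Pi.add_apply]
    ring
  · rw [← PSol1_dotL_smul, ← PSol1_dotL_add]
    congr 1
    simp only [go]
    push_cast
    have : deriv S.f z - S.μ * (deriv S.f z⁻¹ * (-(z ^ 2)⁻¹)) =
      deriv S.f z + S.μ * z⁻¹ ^ 2 * deriv S.f z⁻¹ := by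
      rw [inv_pow]
      ring
    rw [this]
    ring

theorem contDiffOn_uo : ContDiffOn ℝ ∞ S.uo S.V := by
  have hf1 : ContDiffOn ℂ ∞ S.f S.Ω' := S.hf.contDiffOn S.open'
  have hf2 : ContDiffOn ℂ ∞ (fun z => S.f z⁻¹) S.V :=
    hf1.comp (contDiffOn_id.inv fun z hz => hz.2.1) (fun z hz => hz.2.2)
  have hf3 : ContDiffOn ℂ ∞ (fun z => S.f z - S.μ * S.f z⁻¹) S.V :=
    (hf1.mono fun z hz => hz.1).sub (contDiffOn_const.mul hf2)
  have hf4 : ContDiffOn ℝ ∞ (fun z => (S.f z - S.μ * S.f z⁻¹).re) S.V :=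
    Complex.reCLM.contDiff.comp_contDiffOn (hf3.restrict_scalars ℝ)
  have h5 : ContDiffOn ℝ ∞ (fun z : ℂ => -(‖z‖ ^ 2 / 4)) S.V :=
    (((contDiff_norm_sq ℝ).div_const 4).neg).contDiffOn
  exact (h5.add hf4).add contDiffOn_const

theorem hasFDerivAt_ui {z : ℂ} (hz : z ∈ S.Ω') : HasFDerivAt S.ui (dotL (S.gi z)) z := by
  have hf1 : HasDerivAt S.f (deriv S.f z) z :=
    ((S.hf z hz).differentiableAt (S.open'.mem_nhds hz)).hasDerivAt
  have h3 := (((hasFDerivAt_normSq z).const_mul (-(1 / (4 * S.σc)))).add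
    ((hasFDerivAt_re hf1).const_mul (1 - S.μ))).add_const (S.C - 1 / 4 + 1 / (4 * S.σc))
  refine (h3.congr_of_eventuallyEq (Eventually.of_forall fun w => ?_)).congr_fderiv ?_
  · simp only [ui, Pi.add_apply]
    ring
  · rw [← PSol1_dotL_smul, ← PSol1_dotL_smul, ← PSol1_dotL_add]
    congr 1
    simp only [gi]
    have hs : (S.σc : ℂ) ≠ 0 := by
      have := S.hσ
      exact_mod_cast (by linarith : S.σc ≠ 0)
    push_cast
    field_simp
    ring

/-- continuity across the circle -/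
theorem ui_eq_uo {z : ℂ} (hz : ‖z‖ = 1) : S.ui z = S.uo z := by
  have h1 : z⁻¹ = (starRingEnd ℂ) z := by
    rw [Complex.inv_def, Complex.normSq_eq_norm_sq, hz]
    simp
  have h2 : S.f z⁻¹ = (starRingEnd ℂ) (S.f z) := by
    rw [h1]
    exact S.f_conj z (by simp [hz])
  simp only [ui, uo, h2, hz]
  simp
  ring

end Pde

end Serrin
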