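import Pool.Agent.Lib.MP_2fa8c7_an.PSol1

set_option autoImplicit false

/-!
# MP_2fa8c7_an: the explicit weak solution
-/

namespace Serrin

open MeasureTheory Set Filter Topology Metric
open scoped ContDiff NNReal

namespace Pde

variable (S : Pde)

theorem pSol2_ball_sub : closedBall (0 : ℂ) 1 ⊆ S.Ω' :=
  fun _ hz => S.sub' (subset_closure (S.sub hz))

theorem pSol2_continuousOn_deriv : ContinuousOn (deriv S.f) S.Ω' :=
  (S.hf.deriv S.open').continuousOn

theorem pSol2_inv_mem {z : ℂ} (h1 : 1 ≤ ‖z‖) : z⁻¹ ∈ closedBall (0 : ℂ) 1 := by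
  rw [mem_closedBall_zero_iff, norm_inv]
  exact inv_le_one_of_one_le₀ h1

theorem pSol2_isClosed_A1 : IsClosed (closure S.Ω ∩ {z : ℂ | 1 ≤ ‖z‖}) :=
  isClosed_closure.inter (isClosed_le continuous_const continuous_norm)

theorem pSol2_isCompact_A1 : IsCompact (closure S.Ω ∩ {z : ℂ | 1 ≤ ‖z‖}) :=
  S.dom.isBounded.isCompact_closure.inter_right (isClosed_le continuous_const continuous_norm)

theorem pSol2_gi_bound : ∃ L : ℝ, ∀ z ∈ closedBall (0 : ℂ) 1, ‖S.gi z‖ ≤ L := by
  apply (isCompact_closedBall (0 : ℂ) 1).exists_bound_of_continuousOn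
  unfold gi
  have h1 : ContinuousOn (deriv S.f) (closedBall (0 : ℂ) 1) :=
    S.pSol2_continuousOn_deriv.mono S.pSol2_ball_sub
  have h2 : ContinuousOn (fun z => (starRingEnd ℂ) (deriv S.f z)) (closedBall (0 : ℂ) 1) :=
    Complex.continuous_conj.comp_continuousOn h1
  exact ((continuous_neg.div_const _).continuousOn).add (continuousOn_const.mul h2)

theorem pSol2_go_bound : ∃ L : ℝ, ∀ z ∈ closure S.Ω ∩ {z : ℂ | 1 ≤ ‖z‖}, ‖S.go z‖ ≤ L := by
  apply S.pSol2_isCompact_A1.exists_bound_of_continuousOn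
  unfold go
  have h0 : ContinuousOn (fun z : ℂ => z⁻¹) (closure S.Ω ∩ {z : ℂ | 1 ≤ ‖z‖}) := by
    apply continuousOn_id.inv₀
    intro z hz h
    have h1 : (1 : ℝ) ≤ ‖z‖ := hz.2
    rw [show z = 0 from h, norm_zero] at h1
    linarith
  have h1 : ContinuousOn (deriv S.f) (closure S.Ω ∩ {z : ℂ | 1 ≤ ‖z‖}) :=
    S.pSol2_continuousOn_deriv.mono (fun z hz => S.sub' hz.1)
  have h2 : ContinuousOn (fun z => deriv S.f z⁻¹) (closure S.Ω ∩ {z : ℂ | 1 ≤ ‖z‖}) :=
    S.pSol2_continuousOn_deriv.comp h0 (fun z hz => S.pSol2_ball_sub (pSol2_inv_mem hz.2))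
  have h3 := Complex.continuous_conj.comp_continuousOn
    (h1.add ((continuousOn_const (c := (S.μ : ℂ)).mul (h0.pow 2)).mul h2))
  exact ((continuous_neg.div_const _).continuousOn).add h3

/-- `u` is Lipschitz -/
theorem exists_lipschitz (hb : ∀ p ∈ frontier S.Ω, S.uo p = 0) :
    ∃ L : ℝ≥0, LipschitzWith L S.u := by
  classical
  obtain ⟨L1, hL1⟩ := S.pSol2_gi_bound
  obtain ⟨L2, hL2⟩ := S.pSol2_go_bound
  refine ⟨Real.toNNReal (max (max L1 L2) 0), ?_⟩
  have hL : ((Real.toNNReal (max (max L1 L2) 0) : ℝ≥0) : ℝ) = max (max L1 L2) 0 :=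
    Real.coe_toNNReal _ (le_max_right _ _)
  refine lipschitz_glue (ι := Fin 3)
    ![closedBall (0 : ℂ) 1, closure S.Ω ∩ {z : ℂ | 1 ≤ ‖z‖}, S.Ωᶜ] ?_ ?_
    ![S.ui, S.uo, fun _ => 0] ![S.gi, S.go, fun _ => 0] ?_ ?_ ?_
  · intro i
    fin_cases i
    · exact isClosed_closedBall
    · exact S.pSol2_isClosed_A1
    · exact S.dom.isOpen.isClosed_compl
  · intro z
    by_cases hz : z ∈ S.Ω
    · rcases le_total ‖z‖ 1 with h | h
      · exact ⟨0, mem_closedBall_zero_iff.2 h⟩
      · exact ⟨1, subset_closure hz, h⟩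
    · exact ⟨2, hz⟩
  · intro i
    fin_cases i
    · intro z hz
      exact S.hasFDerivAt_ui (S.pSol2_ball_sub hz)
    · intro z hz
      exact S.hasFDerivAt_uo (S.mem_V hz.1 hz.2)
    · intro z _
      have h0 : dotL 0 = 0 := by
        refine ContinuousLinearMap.ext fun v => ?_
        simp [dot]
      change HasFDerivAt (fun _ => (0 : ℝ)) (dotL 0) z
      rw [h0]
      exact hasFDerivAt_const _ _
  · intro i
    rw [hL]
    fin_cases i
    · intro z hz
      exact (hL1 z hz).trans ((le_max_left _ _).trans (le_max_left _ _))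
    · intro z hz
      exact (hL2 z hz).trans ((le_max_right _ _).trans (le_max_left _ _))
    · intro z _
      change ‖(0 : ℂ)‖ ≤ _
      rw [norm_zero]
      exact le_max_right _ _
  · intro i
    fin_cases i
    · intro z hz
      change S.u z = S.ui z
      unfold u
      exact if_pos hz
    · intro z hz
      change S.u z = S.uo z
      have hz1 : (1 : ℝ) ≤ ‖z‖ := hz.2
      unfold u
      by_cases h1 : z ∈ closedBall (0 : ℂ) 1
      · rw [if_pos h1]
        exact S.ui_eq_uo (le_antisymm (mem_closedBall_zero_iff.1 h1) hz1)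
      · rw [if_neg h1]
        by_cases h2 : z ∈ S.Ω
        · rw [if_pos h2]
        · rw [if_neg h2]
          refine (hb z ?_).symm
          rw [S.dom.isOpen.frontier_eq]
          exact ⟨hz.1, h2⟩
    · intro z hz
      change S.u z = 0
      have h2 : z ∉ S.Ω := hz
      have h1 : z ∉ closedBall (0 : ℂ) 1 := fun h => h2 (S.sub h)
      unfold u
      rw [if_neg h1, if_neg h2]

end Pde

end Serrin
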