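import Pool.Agent.Lib.MP_2fa8c7_an.PSol2

set_option autoImplicit false

/-!
# MP_2fa8c7_an: the explicit weak solution
-/

namespace Serrin

open MeasureTheory Set Filter Topology Metric
open scoped ContDiff NNReal

namespace Pde

variable (S : Pde)

/-- the stream function -/
noncomputable def Wo (z : ℂ) : ℝ := (S.f z - S.μ * S.f z⁻¹).im

open Classical in
/-- the stream function -/
noncomputable def W (z : ℂ) : ℝ :=
  if z ∈ closedBall (0 : ℂ) 1 then (1 + S.μ) * (S.f z).im else S.Wo z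

/-- a `C¹` function has bounded gradient on compact sets -/
theorem pSol3_bound {F : ℂ → ℝ} {U A : Set ℂ} (hU : IsOpen U) (hF : ContDiffOn ℝ 1 F U)
    (hA : IsCompact A) (hAU : A ⊆ U) : ∃ L : ℝ, ∀ z ∈ A, ‖gr F z‖ ≤ L := by
  apply hA.exists_bound_of_continuousOn
  have h1 : ContinuousOn (fderiv ℝ F) A :=
    (hF.continuousOn_fderiv_of_isOpen hU le_rfl).mono hAU
  have h2 : ∀ v : ℂ, ContinuousOn (fun z => fderiv ℝ F z v) A := fun v =>
    h1.clm_apply continuousOn_const
  have h3 : ContinuousOn (fun z => ((fderiv ℝ F z 1 : ℝ) : ℂ) +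
      ((fderiv ℝ F z Complex.I : ℝ) : ℂ) * Complex.I) A :=
    (Complex.continuous_ofReal.comp_continuousOn (h2 1)).add
      ((Complex.continuous_ofReal.comp_continuousOn (h2 Complex.I)).mul continuousOn_const)
  refine h3.congr fun z _ => ?_
  apply Complex.ext <;> simp [gr]

theorem pSol3_contDiffOn_f : ContDiffOn ℝ ∞ S.f S.Ω' := by
  have h1 : ContDiffOn ℂ ∞ S.f S.Ω' := S.hf.contDiffOn S.open'
  exact h1.restrict_scalars ℝ

theorem pSol3_contDiffOn_Wi : ContDiffOn ℝ ∞ (fun z => (1 + S.μ) * (S.f z).im) S.Ω' :=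
  contDiffOn_const.mul (Complex.imCLM.contDiff.comp_contDiffOn S.pSol3_contDiffOn_f)

theorem pSol3_contDiffOn_Wo : ContDiffOn ℝ ∞ S.Wo S.V := by
  have h0 : ContDiffOn ℝ ∞ (fun z : ℂ => z⁻¹) S.V := by
    have : ContDiffOn ℂ ∞ (fun z : ℂ => z⁻¹) S.V := contDiffOn_id.inv (fun z hz => hz.2.1)
    exact this.restrict_scalars ℝ
  have h1 : ContDiffOn ℝ ∞ (fun z => S.f z⁻¹) S.V :=
    S.pSol3_contDiffOn_f.comp h0 (fun z hz => hz.2.2)
  have h2 : ContDiffOn ℝ ∞ (fun z => S.f z - S.μ * S.f z⁻¹) S.V :=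
    (S.pSol3_contDiffOn_f.mono fun z hz => hz.1).sub (contDiffOn_const.mul h1)
  exact Complex.imCLM.contDiff.comp_contDiffOn h2

theorem pSol3_Wo_eq {z : ℂ} (hz : ‖z‖ = 1) : (1 + S.μ) * (S.f z).im = S.Wo z := by
  have h1 : z⁻¹ = (starRingEnd ℂ) z := by
    rw [Complex.inv_def, Complex.normSq_eq_norm_sq, hz]
    simp
  unfold Wo
  rw [h1, S.f_conj z (mem_closedBall_zero_iff.2 hz.le)]
  simp
  ring

/-- the stream function agrees with a Lipschitz function near compact subsets of `Ω` -/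
theorem exists_lipschitz_W {K : Set ℂ} (hK : IsCompact K) (hKΩ : K ⊆ S.Ω) :
    ∃ (L : ℝ≥0) (W' : ℂ → ℝ), LipschitzWith L W' ∧ ∀ z ∈ K, W' =ᶠ[𝓝 z] S.W := by
  classical
  obtain ⟨T, hT, hKT, hTΩ⟩ := exists_compact_between hK S.dom.isOpen hKΩ
  obtain ⟨χ, hχ1, hχ0, -⟩ := exists_contMDiffMap_one_nhds_of_subset_interior (n := (⊤ : ℕ∞))
    (modelWithCornersSelf ℝ ℂ) hK.isClosed hKT
  have hχ : ContDiff ℝ ∞ χ := χ.contMDiff.contDiff
  have hm : ∀ {F : ℂ → ℝ} {U : Set ℂ}, ContDiffOn ℝ ∞ F U →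
      ContDiffOn ℝ 1 (fun z => χ z * F z) U := fun hF =>
    (hχ.contDiffOn.mul hF).of_le (WithTop.coe_le_coe.2 le_top)
  have hi := hm S.pSol3_contDiffOn_Wi
  have ho := hm S.pSol3_contDiffOn_Wo
  obtain ⟨L1, hL1⟩ := pSol3_bound S.open' hi (isCompact_closedBall (0 : ℂ) 1) S.pSol2_ball_sub
  obtain ⟨L2, hL2⟩ := pSol3_bound S.isOpen_V ho S.pSol2_isCompact_A1
    (fun z hz => S.mem_V hz.1 hz.2)
  have hL : ((Real.toNNReal (max (max L1 L2) 0) : ℝ≥0) : ℝ) = max (max L1 L2) 0 :=
    Real.coe_toNNReal _ (le_max_right _ _)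
  refine ⟨Real.toNNReal (max (max L1 L2) 0), fun z => χ z * S.W z, ?_, ?_⟩
  · refine lipschitz_glue (ι := Fin 3)
      ![closedBall (0 : ℂ) 1, closure S.Ω ∩ {z : ℂ | 1 ≤ ‖z‖}, S.Ωᶜ] ?_ ?_
      ![fun z => χ z * ((1 + S.μ) * (S.f z).im), fun z => χ z * S.Wo z, fun _ => 0]
      ![gr (fun z => χ z * ((1 + S.μ) * (S.f z).im)), gr (fun z => χ z * S.Wo z), fun _ => 0]
      ?_ ?_ ?_
    · intro i
      fin_cases i
      · exact isClosed_closedBall
      · exact S.pSol2_isClosed_A1
      · exact S.dom.isOpen.isClosed_compl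
    · intro z
      by_cases hz : z ∈ S.Ω
      · rcases le_total ‖z‖ 1 with h | h
        · exact ⟨0, mem_closedBall_zero_iff.2 h⟩
        · exact ⟨1, subset_closure hz, h⟩
      · exact ⟨2, hz⟩
    · intro i
      fin_cases i
      · intro z hz
        exact hasFDerivAt_of_differentiableAt ((hi.contDiffAt
          (S.open'.mem_nhds (S.pSol2_ball_sub hz))).differentiableAt (by simp))
      · intro z hz
        exact hasFDerivAt_of_differentiableAt ((ho.contDiffAt
          (S.isOpen_V.mem_nhds (S.mem_V hz.1 hz.2))).differentiableAt (by simp))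
      · intro z _
        have h0 : dotL 0 = 0 := by
          refine ContinuousLinearMap.ext fun v => ?_
          simp [dot]
        change HasFDerivAt (fun _ => (0 : ℝ)) (dotL 0) z
        rw [h0]
        exact hasFDerivAt_const _ _
    · intro i
      rw [hL]
      fin_cases i
      · intro z hz
        exact (hL1 z hz).trans ((le_max_left _ _).trans (le_max_left _ _))
      · intro z hz
        exact (hL2 z hz).trans ((le_max_right _ _).trans (le_max_left _ _))
      · intro z _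
        change ‖(0 : ℂ)‖ ≤ _
        rw [norm_zero]
        exact le_max_right _ _
    · intro i
      fin_cases i
      · intro z hz
        change χ z * S.W z = χ z * ((1 + S.μ) * (S.f z).im)
        congr 1
        exact if_pos hz
      · intro z hz
        change χ z * S.W z = χ z * S.Wo z
        have hz1 : (1 : ℝ) ≤ ‖z‖ := hz.2
        congr 1
        by_cases h1 : z ∈ closedBall (0 : ℂ) 1
        · have h2 : S.W z = (1 + S.μ) * (S.f z).im := if_pos h1
          rw [h2]
          exact S.pSol3_Wo_eq (le_antisymm (mem_closedBall_zero_iff.1 h1) hz1)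
        · exact if_neg h1
      · intro z hz
        change χ z * S.W z = 0
        have h2 : z ∉ S.Ω := hz
        rw [hχ0 z (fun h => h2 (hTΩ h)), zero_mul]
  · intro z hz
    have h1 := hχ1.filter_mono (nhds_le_nhdsSet hz)
    filter_upwards [h1] with w hw
    rw [hw, one_mul]

end Pde

end Serrin
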