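import Pool.Agent.Lib.MP_2fa8c7_an.PSol3

set_option autoImplicit false

/-!
# MP_2fa8c7_an: the explicit weak solution
-/

namespace Serrin

open MeasureTheory Set Filter Topology Metric
open scoped ContDiff NNReal

private lemma ps4_gr_congr {u v : ℂ → ℝ} {z : ℂ} (h : u =ᶠ[𝓝 z] v) : gr u z = gr v z := by
  unfold gr
  rw [h.fderiv_eq]

private lemma ps4_dot_smul_left (c : ℝ) (a b : ℂ) : c * dot a b = dot ((c : ℂ) * a) b := by
  simp [dot]
  ring

private lemma ps4_dot_add_left (a b c : ℂ) : dot (a + b) c = dot a c + dot b c := by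
  simp [dot]
  ring

private lemma ps4_gr_zero {v : ℂ → ℝ} {z : ℂ} (h : z ∉ tsupport v) : gr v z = 0 := by
  have h3 : z ∉ tsupport (fderiv ℝ v) := fun h' => h (tsupport_fderiv_subset ℝ h')
  have h1 : fderiv ℝ v z = 0 := image_eq_zero_of_notMem_tsupport h3
  unfold gr
  rw [h1]
  rfl

namespace Pde

variable (S : Pde)

private lemma ps4_mu : S.σc * (1 - S.μ) = 1 + S.μ := by
  have h : S.σc + 1 ≠ 0 := by have := S.hσ; linarith
  unfold Pde.μ
  field_simp
  ring

/-- `σ ∇u = -z/2 - i ∇W` -/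
theorem flux_eq {z : ℂ} (hz : z ∈ S.Ω) (h1 : ‖z‖ ≠ 1) :
    (sig S.σc (ball 0 1) z : ℂ) * gr S.u z = -z / 2 + -Complex.I * gr S.W z := by
  have hI : ∀ a : ℂ, -Complex.I * (Complex.I * a) = a := by
    intro a
    rw [← mul_assoc, neg_mul, Complex.I_mul_I, neg_neg, one_mul]
  have hσ0 : (S.σc : ℂ) ≠ 0 := by
    have := S.hσ
    exact_mod_cast (by linarith : S.σc ≠ 0)
  rcases lt_or_gt_of_ne h1 with h | h
  · -- inside
    have hb : z ∈ ball (0 : ℂ) 1 := by simpa using h
    have hzΩ' : z ∈ S.Ω' := S.sub' (subset_closure hz)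
    have hs : sig S.σc (ball 0 1) z = S.σc := by simp only [sig, hb, if_true]
    have e1 : S.u =ᶠ[𝓝 z] S.ui := by
      filter_upwards [isOpen_ball.mem_nhds hb] with y hy
      simp only [Pde.u, ball_subset_closedBall hy, if_true]
    have e2 : S.W =ᶠ[𝓝 z] fun y => (((1 + S.μ : ℝ) : ℂ) * S.f y).im := by
      filter_upwards [isOpen_ball.mem_nhds hb] with y hy
      simp only [Pde.W, ball_subset_closedBall hy, if_true]
      rw [Complex.im_ofReal_mul]
    have hd : HasDerivAt S.f (deriv S.f z) z :=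
      (S.hf.differentiableAt (S.open'.mem_nhds hzΩ')).hasDerivAt
    rw [hs, ps4_gr_congr e1, ps4_gr_congr e2, gr_of_hasFDerivAt (S.hasFDerivAt_ui hzΩ'),
      gr_of_hasFDerivAt (hasFDerivAt_im (hd.const_mul _)), hI, map_mul, Complex.conj_ofReal,
      ← S.ps4_mu]
    unfold Pde.gi
    push_cast
    field_simp
  · -- outside
    have hb : z ∉ closedBall (0 : ℂ) 1 := by
      simp only [mem_closedBall_zero_iff, not_le]
      exact h
    have hb2 : z ∉ ball (0 : ℂ) 1 := fun h' => hb (ball_subset_closedBall h')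
    have hzV : z ∈ S.V := S.mem_V (subset_closure hz) h.le
    have hs : sig S.σc (ball 0 1) z = 1 := by simp only [sig, hb2, if_false]
    have hn : (closedBall (0 : ℂ) 1)ᶜ ∩ S.Ω ∈ 𝓝 z :=
      inter_mem (isClosed_closedBall.isOpen_compl.mem_nhds hb) (S.dom.isOpen.mem_nhds hz)
    have e1 : S.u =ᶠ[𝓝 z] S.uo := by
      filter_upwards [hn] with y hy
      have h2 : y ∉ closedBall (0 : ℂ) 1 := hy.1
      simp only [Pde.u, h2, if_false, hy.2, if_true]
    have e2 : S.W =ᶠ[𝓝 z] fun y => (S.f y - (S.μ : ℂ) * S.f y⁻¹).im := by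
      filter_upwards [hn] with y hy
      have h2 : y ∉ closedBall (0 : ℂ) 1 := hy.1
      simp only [Pde.W, h2, if_false, Pde.Wo]
    obtain ⟨hv1, hv2, hv3⟩ := hzV
    have hd : HasDerivAt S.f (deriv S.f z) z :=
      (S.hf.differentiableAt (S.open'.mem_nhds hv1)).hasDerivAt
    have hd2 : HasDerivAt S.f (deriv S.f z⁻¹) z⁻¹ :=
      (S.hf.differentiableAt (S.open'.mem_nhds hv3)).hasDerivAt
    have hd3 : HasDerivAt (fun y => S.f y⁻¹) (deriv S.f z⁻¹ * (-(z ^ 2)⁻¹)) z :=
      HasDerivAt.comp z hd2 (hasDerivAt_inv hv2)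
    have hd4 : HasDerivAt (fun y => S.f y - (S.μ : ℂ) * S.f y⁻¹)
        (deriv S.f z + S.μ * z⁻¹ ^ 2 * deriv S.f z⁻¹) z := by
      have := hd.sub (hd3.const_mul (S.μ : ℂ))
      refine this.congr_deriv ?_
      rw [inv_pow]
      ring
    rw [hs, ps4_gr_congr e1, ps4_gr_congr e2, gr_of_hasFDerivAt (S.hasFDerivAt_uo ⟨hv1, hv2, hv3⟩),
      gr_of_hasFDerivAt (hasFDerivAt_im hd4), hI]
    unfold Pde.go
    push_cast
    ring

theorem weak_eq {v : ℂ → ℝ} (hv : IsTest S.Ω v) :
    ∫ z, sig S.σc (ball 0 1) z * dot (gr S.u z) (gr v z) = ∫ z, v z := by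
  obtain ⟨L, W', hL, hW'⟩ := S.exists_lipschitz_W hv.2.1 hv.2.2
  have hzero := integral_rot_gr_of_local hL hv hW'
  have hcirc : ∀ᵐ z : ℂ, ‖z‖ ≠ 1 := by
    have h1 : volume (sphere (0 : ℂ) 1) = 0 := Measure.addHaar_sphere volume 0 1
    rw [ae_iff]
    refine measure_mono_null ?_ h1
    intro z hz
    simpa using hz
  -- the integrand
  have e1 : ∀ᵐ z : ℂ, sig S.σc (ball 0 1) z * dot (gr S.u z) (gr v z) =
      dot (-z / 2) (gr v z) + dot (-Complex.I * gr S.W z) (gr v z) := by
    filter_upwards [hcirc] with z hz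
    by_cases h : z ∈ tsupport v
    · rw [ps4_dot_smul_left, S.flux_eq (hv.2.2 h) hz, ps4_dot_add_left]
    · rw [ps4_gr_zero h]
      simp [dot]
  rw [integral_congr_ae e1]
  have hfdc : Continuous (fderiv ℝ v) := hv.1.continuous_fderiv (by simp)
  have hfds : HasCompactSupport (fderiv ℝ v) := hv.2.1.fderiv ℝ
  have hc1 : ∀ a : ℂ, Continuous fun z => fderiv ℝ v z a := fun a => hfdc.clm_apply continuous_const
  have hs1 : ∀ a : ℂ, HasCompactSupport fun z => fderiv ℝ v z a := fun a =>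
    hfds.comp_left (g := fun l : ℂ →L[ℝ] ℝ => l a) (by simp)
  have hi1 : ∀ a : ℂ, Integrable fun z => fderiv ℝ v z a := fun a =>
    (hc1 a).integrable_of_hasCompactSupport (hs1 a)
  -- integrability of the first term
  have I1 : Integrable fun z : ℂ => dot (-z / 2) (gr v z) := by
    have e : (fun z : ℂ => dot (-z / 2) (gr v z)) =
        fun z => (-z / 2).re * fderiv ℝ v z 1 + (-z / 2).im * fderiv ℝ v z Complex.I := by
      funext z
      rfl
    rw [e]
    refine Integrable.add ?_ ?_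
    · refine Continuous.integrable_of_hasCompactSupport ?_ (hs1 1).mul_left
      exact (Complex.continuous_re.comp (continuous_neg.div_const 2)).mul (hc1 1)
    · refine Continuous.integrable_of_hasCompactSupport ?_ (hs1 Complex.I).mul_left
      exact (Complex.continuous_im.comp (continuous_neg.div_const 2)).mul (hc1 Complex.I)
  -- integrability of the second term
  have hm : ∀ a : ℂ, Measurable fun z => fderiv ℝ W' z a := fun a =>
    measurable_fderiv_apply_const ℝ W' a
  have hbd : ∀ a : ℂ, ∀ z, ‖fderiv ℝ W' z a‖ ≤ L * ‖a‖ := fun a z =>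
    ((fderiv ℝ W' z).le_opNorm a).trans
      (mul_le_mul_of_nonneg_right (norm_fderiv_le_of_lipschitz ℝ hL) (norm_nonneg _))
  have I2' : Integrable fun z : ℂ => dot (-Complex.I * gr W' z) (gr v z) := by
    have e : (fun z : ℂ => dot (-Complex.I * gr W' z) (gr v z)) =
        fun z => fderiv ℝ W' z Complex.I * fderiv ℝ v z 1
          - fderiv ℝ W' z 1 * fderiv ℝ v z Complex.I := by
      funext z
      simp [dot, gr]
      ring
    rw [e]
    refine Integrable.sub ?_ ?_
    · exact (hi1 1).bdd_mul (hm Complex.I).aestronglyMeasurable (Eventually.of_forall (hbd Complex.I))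
    · exact (hi1 Complex.I).bdd_mul (hm 1).aestronglyMeasurable (Eventually.of_forall (hbd 1))
  have e2 : (fun z : ℂ => dot (-Complex.I * gr S.W z) (gr v z)) =
      fun z : ℂ => dot (-Complex.I * gr W' z) (gr v z) := by
    funext z
    by_cases h : z ∈ tsupport v
    · rw [ps4_gr_congr (hW' z h)]
    · rw [ps4_gr_zero h]
      simp [dot]
  have I2 : Integrable fun z : ℂ => dot (-Complex.I * gr S.W z) (gr v z) := by
    rw [e2]
    exact I2'
  rw [integral_add I1 I2, hzero, add_zero]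
  exact integral_id_gr hv.1 hv.2.1

end Pde

end Serrin
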