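import Pool.Agent.Lib.MP_2fa8c7_an.PSol4

set_option autoImplicit false

/-!
# MP_2fa8c7_an: the explicit weak solution
-/

namespace Serrin

open MeasureTheory Set Filter Topology Metric
open scoped ContDiff NNReal

namespace Pde

variable (S : Pde)

/-- discs are smooth domains -/
theorem _root_.Serrin.isSmoothDomain_ball {R : ℝ} (hR : 0 < R) :
    IsSmoothDomain (ball (0 : ℂ) R) := by
  refine ⟨isOpen_ball, (convex_ball 0 R).isConnected ⟨0, mem_ball_self hR⟩, isBounded_ball,
    fun p hp => ⟨{z | z ≠ 0}, fun z => ‖z‖ ^ 2 - R ^ 2, isOpen_ne, ?_, ?_, ?_, ?_⟩⟩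
  · rintro (rfl : p = 0)
    rw [frontier_ball (0 : ℂ) hR.ne'] at hp
    simp at hp
    exact hR.ne hp
  · exact ((contDiff_norm_sq ℝ).sub contDiff_const).contDiffOn
  · intro z hz
    have h1 : HasFDerivAt (fun w : ℂ => ‖w‖ ^ 2 - R ^ 2) (dotL (2 * z)) z :=
      (hasFDerivAt_normSq z).sub_const _
    rw [gr_of_hasFDerivAt h1]
    exact mul_ne_zero two_ne_zero hz
  · intro z _
    rw [mem_ball_zero_iff, sub_neg]
    constructor
    · intro h
      gcongr
    · intro h
      exact lt_of_pow_lt_pow_left₀ 2 hR.le h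

end Pde

end Serrin
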