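import Pool.Agent.Lib.MP_2fa8c7_an.Op
import Pool.Agent.Lib.MP_2fa8c7_an.BL

set_option autoImplicit false

/-!
# MP_2fa8c7_an: parameters
-/

namespace Serrin

/-- The parameters: `μ = (σ - 1)/(σ + 1)` and a small number `τ`; `δ = τ⁴` and `q = 1 - δ`. -/
structure Par where
  μ : ℝ
  τ : ℝ
  hμ : 0 < μ
  hμ1 : μ < 1
  hτ : 0 < τ
  hs : τ * 10 ^ 12 ≤ μ

namespace Par

variable (P : Par)

/-- `δ = τ⁴` -/
noncomputable def δ : ℝ := P.τ ^ 4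
/-- `q = 1 - δ` -/
noncomputable def q : ℝ := 1 - P.δ
/-- the weight parameter `t = δ/2`, so `R = 1 + δ/2` -/
noncomputable def t : ℝ := P.δ / 2
/-- the Banach algebra -/
abbrev A : Type := WA P.t

lemma τ_le : P.τ ≤ 1 / 10 ^ 12 := by
  rw [le_div_iff₀ (by positivity)]; linarith [P.hs, P.hμ1]

lemma δ_pos : 0 < P.δ := pow_pos P.hτ 4

lemma δ_le_τ : P.δ ≤ P.τ / 10 ^ 36 := by
  have h1 : P.τ ^ 3 ≤ (1 / 10 ^ 12) ^ 3 := pow_le_pow_left₀ P.hτ.le P.τ_le 3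
  have h2 : P.δ = P.τ ^ 3 * P.τ := by unfold δ; ring
  have h3 : P.τ ^ 3 * P.τ ≤ (1 / 10 ^ 12) ^ 3 * P.τ := mul_le_mul_of_nonneg_right h1 P.hτ.le
  rw [h2]
  calc P.τ ^ 3 * P.τ ≤ (1 / 10 ^ 12) ^ 3 * P.τ := h3
    _ = P.τ / 10 ^ 36 := by ring

lemma δ_le : P.δ ≤ 1 / 10 ^ 48 := by
  have h1 := P.δ_le_τ
  have h2 := P.τ_le
  calc P.δ ≤ P.τ / 10 ^ 36 := h1
    _ ≤ (1 / 10 ^ 12) / 10 ^ 36 := by
        apply div_le_div_of_nonneg_right h2 (by positivity)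
    _ = 1 / 10 ^ 48 := by ring

lemma q_pos : 0 < P.q := by
  have := P.δ_le
  have h : (1 : ℝ) / 10 ^ 48 < 1 := by norm_num
  unfold q; linarith

lemma q_lt_one : P.q < 1 := by
  have := P.δ_pos
  unfold q; linarith

/-- `q ≥ 99/100` -/
lemma q_ge : 99 / 100 ≤ P.q := by
  have := P.δ_le
  have h : (1 : ℝ) / 10 ^ 48 ≤ 1 / 100 := by norm_num
  unfold q; linarith

lemma R_eq : Rw P.t = 1 + P.δ / 2 := by
  unfold Rw t
  rw [abs_of_pos (by linarith [P.δ_pos])]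

lemma R_le : Rw P.t ≤ 101 / 100 := by
  have := P.δ_le
  have h : (1 : ℝ) / 10 ^ 48 ≤ 1 / 100 := by norm_num
  rw [P.R_eq]; linarith

lemma δ_le_R_sub_q : P.δ ≤ Rw P.t - P.q := by
  rw [P.R_eq]; unfold q; linarith [P.δ_pos]

/-- `δ/2 ≤ 1 - q R` -/
lemma one_sub_qR : P.δ / 2 ≤ 1 - P.q * Rw P.t := by
  rw [P.R_eq]; unfold q; nlinarith [P.δ_pos]

lemma qR_lt_one : P.q * Rw P.t < 1 := by
  linarith [P.one_sub_qR, P.δ_pos]

lemma δ_le_μ : P.δ * 10 ^ 12 ≤ P.μ := by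
  have := P.δ_le_τ
  have h2 : P.τ / 10 ^ 36 ≤ P.τ := div_le_self P.hτ.le (by norm_num)
  linarith [P.hs]

end Par

end Serrin
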