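import Pool.Agent.Lib.MP_2fa8c7_an.OpsN
import Pool.Agent.Lib.MP_2fa8c7_an.OpsY

set_option autoImplicit false

/-!
# MP_2fa8c7_an: the fixed point map

The unknown is `x = (s, θ, Φ')`; `η = s Y + τ⁷ θ`, `H = 1 + η`, `Φ = -1/2 + τ³ Φ'`.
-/

namespace Serrin

open Finset WA

namespace Par

variable (P : Par)

/-- the space of the unknown -/
abbrev E : Type := ℝ × P.A × P.A

/-- the approximate solution -/
noncomputable def x₀ : P.E := (1, 0, 0)

/-- the ball on which the map is a contraction -/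
noncomputable def Bx : Set P.E := Metric.closedBall P.x₀ (1 / 2)

/-- `η` -/
noncomputable def eta (x : P.E) : P.A := x.1 • P.Y + (P.τ ^ 7) • x.2.1
/-- `H = 1 + η` -/
noncomputable def HH (x : P.E) : P.A := 1 + P.eta x
/-- `M = G / (ζ - q)` -/
noncomputable def MM (x : P.E) : P.A := P.N (P.HH x ^ 2)
/-- `1 / M` -/
noncomputable def Mi (x : P.E) : P.A := Ring.inverse (P.MM x)
/-- `1 / H` -/
noncomputable def Hi (x : P.E) : P.A := Ring.inverse (P.HH x)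
/-- `Φ` -/
noncomputable def Ph (x : P.E) : P.A := algebraMap ℝ P.A (-(1 / 2)) + (P.τ ^ 3) • x.2.2
/-- iterates of `F ↦ (F - F(q)) / G` at `Φ` -/
noncomputable def AA : ℕ → P.E → P.A
  | 0, x => P.Ph x
  | (n + 1), x => P.Mi x * P.Q (AA n x)
/-- Taylor coefficients of `φ` at `0` -/
noncomputable def ph (n : ℕ) (x : P.E) : ℝ := P.evq (P.AA n x)
/-- `β = -s / (2 q Z) = μ e φ_0` -/
noncomputable def be (x : P.E) : ℝ := -(x.1 / (2 * P.q * P.Z))
/-- `e = ε²` -/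
noncomputable def ee (x : P.E) : ℝ := P.be x * (P.μ * P.ph 0 x)⁻¹
/-- `(φ_n / φ_0) e^n` -/
noncomputable def an (n : ℕ) (x : P.E) : ℝ := P.ph n x * (P.ph 0 x)⁻¹ * P.ee x ^ n
/-- `H M^{-n-2}` -/
noncomputable def FF (n : ℕ) (x : P.E) : P.A := P.HH x * P.Mi x ^ (n + 2)
/-- negative part of `μ e H G⁻² φ(e/G)` -/
noncomputable def rr (x : P.E) : P.A := P.be x • ∑' n, P.an n x • P.neg (n + 2) (P.FF n x)
/-- positive part of `μ e H G⁻² φ(e/G)` -/
noncomputable def pp (x : P.E) : P.A := P.be x • ∑' n, P.an n x • (P.Q)^[n + 2] (P.FF n x)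
/-- `I(2η + η²)` -/
noncomputable def II (x : P.E) : P.A := P.I (2 * P.eta x + P.eta x ^ 2)
/-- the quadratic part -/
noncomputable def QQ (x : P.E) : P.A :=
  (1 / 2 : ℝ) • (P.I (P.eta x ^ 2) + P.Tz (P.eta x) (P.II x))
/-- `γ` -/
noncomputable def ga (x : P.E) : ℝ := cf 1 (P.rr x) - cf 1 (P.QQ x)
/-- `G` -/
noncomputable def GG (x : P.E) : P.A := P.Xq * P.MM x
/-- new `s` -/
noncomputable def sN (x : P.E) : ℝ :=
  x.1 + (cf 2 (P.rr x) - 1 / 2 * cf 2 (P.Tz (P.eta x) (P.II x))) * (P.be x)⁻¹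
/-- new `θ` -/
noncomputable def tN (x : P.E) : P.A :=
  (P.τ ^ 7)⁻¹ • P.L (P.rr x - P.be x • P.K ^ 2 - P.QQ x - P.ga x • (X * P.eta x))
/-- new `Φ'` -/
noncomputable def pN (x : P.E) : P.A :=
  (P.τ ^ 3)⁻¹ • (P.Hi x * ((1 / 2 : ℝ) • P.Tz (P.GG x) (P.HH x) - P.pp x)
    + algebraMap ℝ P.A (1 / 2))
/-- the map -/
noncomputable def TT (x : P.E) : P.E := (P.sN x, P.tN x, P.pN x)

end Par

end Serrin
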